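import Pool.Agent.HWC.Defs

/-!
A local Artinian ring with simple socle is self-injective.  Length l (`Module.length`, finite for f.g.
modules).  InfIrred bot: two nonzero ideals of A meet.  (1) l Hom(S, A) <= 1 for simple S: two nonzero maps S -> A have
images which meet.  (2) For N of finite length: l Hom(N, A) <= l N, by induction on the length and left exactness of Hom.
(3) For an ideal I: 0 -> Hom(A/I, A) -> Hom(A, A) -> Hom(I, A), so the image of Hom(A,A) = A in Hom(I, A) has length
at least l A - l Hom(A/I, A) >= l A - l (A/I) = l I >= l Hom(I, A).  So restriction Hom(A,A) -> Hom(I,A) is onto.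
-/

set_option autoImplicit false

namespace Pool.Agent.HWC

open IsLocalRing Module

/-- length of the middle term of an exact sequence -/
theorem Baer_len {A X Y Z : Type} [CommRing A] [AddCommGroup X] [Module A X] [AddCommGroup Y] [Module A Y]
    [AddCommGroup Z] [Module A Z] (f : X →ₗ[A] Y) (g : Y →ₗ[A] Z) (H : Function.Exact f g) :
    Module.length A Y ≤ Module.length A X + Module.length A Z := by
  have h1 : Module.length A Y =
      Module.length A (LinearMap.ker g) + Module.length A (LinearMap.range g) := by
    refine Module.length_eq_add_of_exact (LinearMap.ker g).subtype g.rangeRestrict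
      (Submodule.subtype_injective _) (LinearMap.surjective_rangeRestrict g) ?_
    intro y
    constructor
    · intro hy
      have hy' : g y = 0 := by
        have := congrArg (fun t : LinearMap.range g => (t : Z)) hy
        simpa using this
      exact ⟨⟨y, hy'⟩, rfl⟩
    · rintro ⟨z, rfl⟩
      apply Subtype.ext
      show g (z : Y) = 0
      exact z.2
  have h2 : Module.length A (LinearMap.ker g) ≤ Module.length A X := by
    have hk : LinearMap.ker g = LinearMap.range f := LinearMap.exact_iff.1 H
    rw [hk]
    exact Module.length_le_of_surjective f.rangeRestrict (LinearMap.surjective_rangeRestrict f)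
  have h3 : Module.length A (LinearMap.range g) ≤ Module.length A Z :=
    Module.length_le_of_injective (LinearMap.range g).subtype (Submodule.subtype_injective _)
  rw [h1]
  exact add_le_add h2 h3

/-- two nonzero ideals meet -/
theorem Baer_meet {A : Type} [CommRing A] (h : InfIrred (⊥ : Ideal A)) {I J : Ideal A}
    (hI : I ≠ ⊥) (hJ : J ≠ ⊥) : ∃ a ∈ I, a ∈ J ∧ a ≠ 0 := by
  have h1 : I ⊓ J ≠ ⊥ := by
    intro h2
    rcases h.2 h2 with h3 | h3
    · exact hI h3
    · exact hJ h3
  obtain ⟨a, ha, ha0⟩ := Submodule.exists_mem_ne_zero_of_ne_bot h1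
  exact ⟨a, ha.1, ha.2, ha0⟩

/-- maps from a simple module to `A` -/
theorem Baer_simple {A S : Type} [CommRing A] (h : InfIrred (⊥ : Ideal A)) [AddCommGroup S] [Module A S]
    [IsSimpleModule A S] : Module.length A (S →ₗ[A] A) ≤ 1 := by
  by_cases hn : Nontrivial (S →ₗ[A] A)
  · have hs : IsSimpleModule A (S →ₗ[A] A) := by
      rw [isSimpleModule_iff_toSpanSingleton_surjective]
      refine ⟨hn, ?_⟩
      intro f hf g
      by_cases hg : g = 0
      · exact ⟨0, by rw [map_zero, hg]⟩
      have hfr : LinearMap.range f ≠ ⊥ := by
        intro h1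
        exact hf (LinearMap.range_eq_bot.1 h1)
      have hgr : LinearMap.range g ≠ ⊥ := by
        intro h1
        exact hg (LinearMap.range_eq_bot.1 h1)
      obtain ⟨a, ⟨s, hs⟩, ⟨t, ht⟩, ha⟩ := Baer_meet h hfr hgr
      have ht0 : t ≠ 0 := by
        rintro rfl
        rw [map_zero] at ht
        exact ha ht.symm
      have hsurj := (isSimpleModule_iff_toSpanSingleton_surjective.1 (inferInstance : IsSimpleModule A S)).2 t ht0
      obtain ⟨r, hr⟩ := hsurj s
      have hr' : r • t = s := by simpa using hr
      refine ⟨r, ?_⟩
      rw [LinearMap.toSpanSingleton_apply]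
      ext u
      obtain ⟨c, hc⟩ := hsurj u
      have hc' : c • t = u := by simpa using hc
      rw [← hc', map_smul, map_smul, LinearMap.smul_apply, ← map_smul, hr', hs, ht]
    rw [Module.length_eq_one]
  · have hss : Subsingleton (S →ₗ[A] A) := not_nontrivial_iff_subsingleton.1 hn
    rw [Module.length_eq_zero]
    exact zero_le

/-- maps from a module of finite length to `A` -/
theorem Baer_hom {A : Type} [CommRing A] (h : InfIrred (⊥ : Ideal A)) (M : Type) [AddCommGroup M] [Module A M]
    (hM : IsFiniteLength A M) : Module.length A (M →ₗ[A] A) ≤ Module.length A M := by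
  induction hM with
  | @of_subsingleton M _ _ _ =>
    have hss : Subsingleton (M →ₗ[A] A) := inferInstance
    rw [Module.length_eq_zero]
    exact zero_le
  | @of_simple_quotient M _ _ N hN _ ih =>
    have hex : Function.Exact N.subtype N.mkQ := LinearMap.exact_subtype_mkQ N
    have h1 := Baer_len (LinearMap.lcomp A A N.mkQ) (LinearMap.lcomp A A N.subtype)
      (LinearMap.exact_lcomp_of_exact_of_surjective A hex N.mkQ_surjective)
    have h2 : Module.length A ((M ⧸ N) →ₗ[A] A) ≤ 1 := Baer_simple h
    have h3 : Module.length A M = Module.length A N + Module.length A (M ⧸ N) :=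
      Module.length_eq_add_of_exact N.subtype N.mkQ N.subtype_injective N.mkQ_surjective hex
    have h4 : Module.length A (M ⧸ N) = 1 := Module.length_eq_one A (M ⧸ N)
    rw [h3, h4, add_comm]
    exact h1.trans (add_le_add h2 ih)

theorem baer (A : Type) [CommRing A] [IsLocalRing A] [IsArtinianRing A]
    (h : InfIrred (⊥ : Ideal A)) : Module.Baer A A := by
  intro I g
  let ρ : (A →ₗ[A] A) →ₗ[A] (I →ₗ[A] A) := LinearMap.lcomp A A I.subtype
  have hfin : ∀ (N : Type) [AddCommGroup N] [Module A N] [Module.Finite A N], IsFiniteLength A N := by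
    intro N _ _ _
    exact isFiniteLength_iff_isNoetherian_isArtinian.2 ⟨inferInstance, inferInstance⟩
  have hI : IsFiniteLength A I := hfin I
  have hQ : IsFiniteLength A (A ⧸ I) := hfin (A ⧸ I)
  have hex : Function.Exact I.subtype I.mkQ := LinearMap.exact_subtype_mkQ I
  have hadd : Module.length A A = Module.length A I + Module.length A (A ⧸ I) :=
    Module.length_eq_add_of_exact I.subtype I.mkQ I.subtype_injective I.mkQ_surjective hex
  have hex2 : Function.Exact (LinearMap.lcomp A A I.mkQ) ρ.rangeRestrict := by
    intro f
    have h1 := (LinearMap.exact_lcomp_of_exact_of_surjective A hex I.mkQ_surjective) f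
    rw [← h1]
    constructor
    · intro h2
      exact congrArg (fun t : LinearMap.range ρ => (t : I →ₗ[A] A)) h2
    · intro h2
      exact Subtype.ext h2
  have hle : Module.length A (A →ₗ[A] A) ≤
      Module.length A ((A ⧸ I) →ₗ[A] A) + Module.length A (LinearMap.range ρ) := Baer_len _ _ hex2
  have hself : Module.length A (A →ₗ[A] A) = Module.length A A :=
    (LinearMap.ringLmapEquivSelf A A A).length_eq
  have hQ2 : Module.length A ((A ⧸ I) →ₗ[A] A) ≤ Module.length A (A ⧸ I) := Baer_hom h _ hQ
  have hIr : Module.length A I ≤ Module.length A (LinearMap.range ρ) := by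
    rw [hself, hadd, add_comm] at hle
    have hne : Module.length A (A ⧸ I) ≠ ⊤ := Module.length_ne_top_iff.2 hQ
    have h5 := hle.trans (add_le_add_left hQ2 _)
    exact (ENat.add_le_add_iff_left hne).1 h5
  have hIh : Module.length A (I →ₗ[A] A) ≤ Module.length A I := Baer_hom h _ hI
  have hfl : IsFiniteLength A (I →ₗ[A] A) := by
    rw [← Module.length_ne_top_iff]
    intro h6
    rw [h6, top_le_iff] at hIh
    exact Module.length_ne_top_iff.2 hI hIh
  obtain ⟨hno, har⟩ := isFiniteLength_iff_isNoetherian_isArtinian.1 hfl
  have hrange : LinearMap.range ρ = ⊤ := by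
    by_contra hne
    have h7 := Submodule.length_lt hne
    exact absurd (hIh.trans hIr) (not_le.2 h7)
  have hg : g ∈ LinearMap.range ρ := by rw [hrange]; trivial
  obtain ⟨g', hg'⟩ := hg
  refine ⟨g', ?_⟩
  intro x hx
  rw [← hg']
  rfl

end Pool.Agent.HWC
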