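import Pool.Agent.HWC.Baer

/-!
Paper proof.  Let x0 be the element of hP.gor, A = R / (x0): Noetherian local of dimension 0, so Artinian
(by hP.dim1 every element of m is nilpotent in A; A is nontrivial as x0 is in m), and bot is InfIrred in Ideal A
(correspondence of ideals), so A is injective over itself (`baer`, `Module.Baer.extension_property`).
ext_free: Z saturated, so the map Z / x0 Z -> F / x0 F is injective; both are A-modules.  Given g : Z -> R, its
reduction Z / x0 Z -> A extends to F / x0 F -> A, which lifts to h0 : F -> R since F is free.  Then g - h0|Z has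
values in x0 R, so = x0 g' with g' : Z -> R (R is a domain).  So Hom(Z, R) = (restrictions of Hom(F, R)) + x0 Hom(Z, R);
Hom(Z, R) is finitely generated (Z is f.g. since R is Noetherian); Nakayama: every g is a restriction.
lift_fun: choose a surjection p : F -> X with F f.g. free, Z = ker p, saturated because X is torsionfree.
Lift phi p : F -> R/(x) to psi : F -> R (F free).  psi(Z) is inside x R, so psi|Z = x g, g : Z -> R; extend g to
h : F -> R by ext_free; psi - x h vanishes on Z, so it descends to X -> R, and this lifts phi.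
-/

set_option autoImplicit false

namespace Pool.Agent.HWC

open IsLocalRing Module

section

variable (R : Type) [CommRing R] [IsLocalRing R]

private theorem ExtFree_infIrred (x : R) (hx : x ∈ maximalIdeal R)
    (h : InfIrred (Ideal.span {x})) : InfIrred (⊥ : Ideal (R ⧸ Ideal.span {x})) := by
  have hne : Ideal.span {x} ≠ ⊤ := by
    intro h1
    rw [Ideal.span_singleton_eq_top] at h1
    exact (mem_maximalIdeal x).1 hx h1
  have hnt : Nontrivial (R ⧸ Ideal.span {x}) := Ideal.Quotient.nontrivial_iff.2 hne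
  refine ⟨?_, ?_⟩
  · rw [isMax_iff_eq_top]
    exact bot_ne_top
  · intro b c hbc
    have h1 : b.comap (Ideal.Quotient.mk (Ideal.span {x})) ⊓
        c.comap (Ideal.Quotient.mk (Ideal.span {x})) = Ideal.span {x} := by
      rw [← Ideal.comap_inf, hbc]
      have h2 : (⊥ : Ideal (R ⧸ Ideal.span {x})).comap (Ideal.Quotient.mk (Ideal.span {x})) =
          RingHom.ker (Ideal.Quotient.mk (Ideal.span {x})) := rfl
      rw [h2, Ideal.mk_ker]
    have h3 : ∀ d : Ideal (R ⧸ Ideal.span {x}),
        d.comap (Ideal.Quotient.mk (Ideal.span {x})) = Ideal.span {x} → d = ⊥ := by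
      intro d hd
      rw [← Ideal.map_comap_of_surjective (Ideal.Quotient.mk (Ideal.span {x}))
        Ideal.Quotient.mk_surjective d, hd, Ideal.map_quotient_self]
    rcases h.2 h1 with h4 | h4
    · exact Or.inl (h3 b h4)
    · exact Or.inr (h3 c h4)

private theorem ExtFree_artin [IsNoetherianRing R] (hP : Pkg R) (x : R) (hx : x ∈ maximalIdeal R)
    (hx0 : x ≠ 0) : ∃ _ : IsLocalRing (R ⧸ Ideal.span {x}), IsArtinianRing (R ⧸ Ideal.span {x}) := by
  have hne : Ideal.span {x} ≠ ⊤ := by
    intro h1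
    rw [Ideal.span_singleton_eq_top] at h1
    exact (mem_maximalIdeal x).1 hx h1
  have hnt : Nontrivial (R ⧸ Ideal.span {x}) := Ideal.Quotient.nontrivial_iff.2 hne
  have hloc : IsLocalRing (R ⧸ Ideal.span {x}) :=
    IsLocalRing.of_surjective' (Ideal.Quotient.mk (Ideal.span {x})) Ideal.Quotient.mk_surjective
  refine ⟨hloc, ?_⟩
  rw [isArtinianRing_iff_isNilpotent_maximalIdeal,
    Ideal.FG.isNilpotent_iff_le_nilradical (IsNoetherian.noetherian _)]
  intro y hy
  obtain ⟨r, rfl⟩ := Ideal.Quotient.mk_surjective y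
  have hr : r ∈ maximalIdeal R := by
    by_contra hr
    have h1 : IsUnit r := by
      rw [mem_maximalIdeal, mem_nonunits_iff, not_not] at hr
      exact hr
    exact (mem_maximalIdeal _).1 hy (h1.map _)
  obtain ⟨N, hN⟩ := hP.dim1 r hr x hx0
  rw [mem_nilradical]
  refine ⟨N, ?_⟩
  rw [← map_pow, Ideal.Quotient.eq_zero_iff_mem, Ideal.mem_span_singleton]
  exact hN

end

theorem ext_free (R : Type) [CommRing R] [IsDomain R] [IsLocalRing R] [IsNoetherianRing R]
    (hP : Pkg R) (F : Type) [AddCommGroup F] [Module R F] [Module.Finite R F] [Module.Free R F]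
    (Z : Submodule R F) (hZ : ∀ (s : R) (v : F), s ≠ 0 → s • v ∈ Z → v ∈ Z)
    (g : Z →ₗ[R] R) : ∃ h : F →ₗ[R] R, ∀ z : Z, h z = g z := by
  obtain ⟨x, hx, hx0, hirr⟩ := hP.gor
  obtain ⟨hloc, hart⟩ := ExtFree_artin R hP x hx hx0
  have hbaer := @baer (R ⧸ Ideal.span {x}) _ hloc hart (ExtFree_infIrred R x hx hirr)
  -- extension modulo x
  have hmodF : ∀ v : F, v ∈ (Ideal.span {x} • ⊤ : Submodule R F) ↔ ∃ w : F, x • w = v := by
    intro v
    rw [Submodule.ideal_span_singleton_smul, Submodule.mem_smul_pointwise_iff_exists]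
    exact ⟨fun ⟨b, _, hb⟩ => ⟨b, hb⟩, fun ⟨b, hb⟩ => ⟨b, trivial, hb⟩⟩
  have hmodZ : ∀ v : Z, v ∈ (Ideal.span {x} • ⊤ : Submodule R Z) ↔ ∃ w : Z, x • w = v := by
    intro v
    rw [Submodule.ideal_span_singleton_smul, Submodule.mem_smul_pointwise_iff_exists]
    exact ⟨fun ⟨b, _, hb⟩ => ⟨b, hb⟩, fun ⟨b, hb⟩ => ⟨b, trivial, hb⟩⟩
  have hsurj : Function.Surjective (algebraMap R (R ⧸ Ideal.span {x})) :=
    Ideal.Quotient.mk_surjective
  have hex : ∀ g : Z →ₗ[R] R, ∃ (h0 : F →ₗ[R] R) (g' : Z →ₗ[R] R),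
      ∀ z : Z, g z = h0 z + x * g' z := by
    intro g
    let f1 : (Z ⧸ (Ideal.span {x} • ⊤ : Submodule R Z)) →ₗ[R]
        (F ⧸ (Ideal.span {x} • ⊤ : Submodule R F)) :=
      Submodule.mapQ _ _ Z.subtype (by
        intro v hv
        obtain ⟨w, hw⟩ := (hmodZ v).1 hv
        rw [Submodule.mem_comap, hmodF]
        exact ⟨w, by rw [← hw]; rfl⟩)
    let f : (Z ⧸ (Ideal.span {x} • ⊤ : Submodule R Z)) →ₗ[R ⧸ Ideal.span {x}]
        (F ⧸ (Ideal.span {x} • ⊤ : Submodule R F)) :=
      LinearMap.extendScalarsOfSurjective hsurj f1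
    have hf1 : Function.Injective f1 := by
      rw [injective_iff_map_eq_zero]
      intro a ha
      obtain ⟨z, rfl⟩ := Submodule.Quotient.mk_surjective _ a
      have h1 : (z : F) ∈ (Ideal.span {x} • ⊤ : Submodule R F) := by
        have h2 : f1 (Submodule.Quotient.mk z) = Submodule.Quotient.mk (z : F) := rfl
        rw [h2, Submodule.Quotient.mk_eq_zero] at ha
        exact ha
      obtain ⟨w, hw⟩ := (hmodF _).1 h1
      have hwZ : w ∈ Z := hZ x w hx0 (by rw [hw]; exact z.2)
      rw [Submodule.Quotient.mk_eq_zero, hmodZ]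
      exact ⟨⟨w, hwZ⟩, Subtype.ext hw⟩
    have hf : Function.Injective f := hf1
    let g1 : (Z ⧸ (Ideal.span {x} • ⊤ : Submodule R Z)) →ₗ[R] (R ⧸ Ideal.span {x}) :=
      Submodule.liftQ _ ((Ideal.span {x}).mkQ.comp g) (by
        intro v hv
        obtain ⟨w, hw⟩ := (hmodZ v).1 hv
        rw [LinearMap.mem_ker, LinearMap.comp_apply, ← hw, map_smul, Submodule.mkQ_apply,
          Submodule.Quotient.mk_eq_zero, smul_eq_mul]
        exact Ideal.mul_mem_right _ _ (Ideal.mem_span_singleton_self x))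
    obtain ⟨hq, hhq⟩ := hbaer.extension_property f hf
      (LinearMap.extendScalarsOfSurjective hsurj g1)
    let h1 : F →ₗ[R] (R ⧸ Ideal.span {x}) :=
      (hq.restrictScalars R).comp (Submodule.mkQ (Ideal.span {x} • ⊤ : Submodule R F))
    obtain ⟨h0, hh0⟩ := Module.projective_lifting_property (Ideal.span {x}).mkQ h1
      (Submodule.mkQ_surjective _)
    have hd : ∀ z : Z, (g - h0.comp Z.subtype) z ∈ Submodule.span R {x} := by
      intro z
      have h2 : hq (f (Submodule.Quotient.mk z)) =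
          LinearMap.extendScalarsOfSurjective hsurj g1 (Submodule.Quotient.mk z) := by
        rw [← hhq]
        rfl
      have h3 : (Ideal.span {x}).mkQ (h0 z) = (Ideal.span {x}).mkQ (g z) := by
        have h4 : (Ideal.span {x}).mkQ (h0 z) = h1 z := by
          rw [← hh0]
          rfl
        rw [h4]
        exact h2
      have h5 : g z - h0 z ∈ Ideal.span {x} := by
        rw [← Submodule.Quotient.mk_eq_zero (Ideal.span {x}), Submodule.Quotient.mk_sub,
          sub_eq_zero]
        exact h3.symm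
      exact h5
    let e := LinearEquiv.toSpanNonzeroSingleton R R x hx0
    refine ⟨h0, e.symm.toLinearMap.comp ((g - h0.comp Z.subtype).codRestrict _ hd), ?_⟩
    intro z
    have h6 : (e (e.symm ⟨(g - h0.comp Z.subtype) z, hd z⟩) : R) =
        (g - h0.comp Z.subtype) z := by
      rw [LinearEquiv.apply_symm_apply]
    have h7 : ∀ t : R, (e t : R) = t * x := fun t => rfl
    rw [h7] at h6
    change g z = h0 z + x * e.symm ⟨(g - h0.comp Z.subtype) z, hd z⟩
    rw [mul_comm x, h6]
    simp
  -- Nakayama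
  let res : (F →ₗ[R] R) →ₗ[R] (Z →ₗ[R] R) :=
    { toFun := fun h => h.comp Z.subtype
      map_add' := fun _ _ => rfl
      map_smul' := fun _ _ => rfl }
  have hfin : Module.Finite R (Z →ₗ[R] R) := inferInstance
  have hle : (⊤ : Submodule R (Z →ₗ[R] R)) ≤ LinearMap.range res := by
    refine Submodule.le_of_le_smul_of_le_jacobson_bot (I := Ideal.span {x}) hfin.fg_top ?_ ?_
    · rw [IsLocalRing.jacobson_eq_maximalIdeal _ bot_ne_top, Ideal.span_singleton_le_iff_mem]
      exact hx
    · intro g _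
      obtain ⟨h0, g', hg⟩ := hex g
      have h8 : g = res h0 + x • g' := by
        ext z
        exact hg z
      rw [h8]
      refine Submodule.add_mem_sup ⟨h0, rfl⟩ ?_
      exact Submodule.smul_mem_smul (Ideal.mem_span_singleton_self x) trivial
  obtain ⟨h, hh⟩ := hle (show g ∈ (⊤ : Submodule R (Z →ₗ[R] R)) from trivial)
  exact ⟨h, fun z => by rw [← hh]; rfl⟩

theorem lift_fun (R : Type) [CommRing R] [IsDomain R] [IsLocalRing R] [IsNoetherianRing R]
    (hP : Pkg R) (X : Type) [AddCommGroup X] [Module R X] [Module.Finite R X] (hX : TF R X)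
    (x : R) (hx : x ≠ 0) (φ : X →ₗ[R] R ⧸ Ideal.span {x}) :
    ∃ ψ : X →ₗ[R] R, ∀ v : X, Ideal.Quotient.mk (Ideal.span {x}) (ψ v) = φ v := by
  obtain ⟨n, p, hp⟩ := Module.Finite.exists_fin' R X
  obtain ⟨ψ0, hψ0⟩ := Module.projective_lifting_property (Ideal.span {x}).mkQ (φ.comp p)
    (Submodule.mkQ_surjective _)
  have hψ0' : ∀ v, Ideal.Quotient.mk (Ideal.span {x}) (ψ0 v) = φ (p v) := by
    intro v
    exact LinearMap.congr_fun hψ0 v
  have hd : ∀ z : LinearMap.ker p, (ψ0.comp (LinearMap.ker p).subtype) z ∈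
      Submodule.span R {x} := by
    intro z
    have h1 := hψ0' z
    rw [LinearMap.mem_ker.1 z.2, map_zero, Ideal.Quotient.eq_zero_iff_mem] at h1
    exact h1
  let e := LinearEquiv.toSpanNonzeroSingleton R R x hx
  let g : LinearMap.ker p →ₗ[R] R := e.symm.toLinearMap.comp
    ((ψ0.comp (LinearMap.ker p).subtype).codRestrict _ hd)
  have hg : ∀ z : LinearMap.ker p, ψ0 z = x * g z := by
    intro z
    have h6 : (e (e.symm ⟨(ψ0.comp (LinearMap.ker p).subtype) z, hd z⟩) : R) =
        (ψ0.comp (LinearMap.ker p).subtype) z := by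
      rw [LinearEquiv.apply_symm_apply]
    have h7 : ∀ t : R, (e t : R) = t * x := fun t => rfl
    rw [h7] at h6
    change ψ0 z = x * e.symm ⟨(ψ0.comp (LinearMap.ker p).subtype) z, hd z⟩
    rw [mul_comm x, h6]
    rfl
  obtain ⟨h, hh⟩ := ext_free R hP (Fin n → R) (LinearMap.ker p) (by
    intro s v hs hv
    rw [LinearMap.mem_ker, map_smul] at hv
    rw [LinearMap.mem_ker]
    exact (hX s (p v) hv).resolve_left hs) g
  have hker : LinearMap.ker p ≤ LinearMap.ker (ψ0 - x • h) := by
    intro z hz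
    rw [LinearMap.mem_ker]
    have h1 := hg ⟨z, hz⟩
    have h2 := hh ⟨z, hz⟩
    simp only [LinearMap.sub_apply, LinearMap.smul_apply, smul_eq_mul] at h1 h2 ⊢
    rw [h1, h2, sub_self]
  refine ⟨((LinearMap.ker p).liftQ (ψ0 - x • h) hker).comp
    (p.quotKerEquivOfSurjective hp).symm.toLinearMap, ?_⟩
  intro v
  obtain ⟨w, rfl⟩ := hp v
  have h3 : ((LinearMap.ker p).liftQ (ψ0 - x • h) hker).comp
      (p.quotKerEquivOfSurjective hp).symm.toLinearMap (p w) = ψ0 w - x * h w := by
    rw [LinearMap.comp_apply, LinearEquiv.coe_coe,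
      LinearMap.quotKerEquivOfSurjective_symm_apply, Submodule.liftQ_apply]
    simp
  rw [h3, map_sub, hψ0', sub_eq_self, Ideal.Quotient.eq_zero_iff_mem]
  exact Ideal.mul_mem_right _ _ (Ideal.mem_span_singleton_self x)

end Pool.Agent.HWC
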