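import Pool.Agent.HWC.ExtFree

/-!
Reflexivity of finitely generated torsionfree modules (helper67).

Proof.  `X` is torsionfree and finitely generated: there are `e i` in `X`, functionals `π i` and `s ≠ 0` with
`s x = ∑ π i x • e i`.  So `X → X**` is injective, and `s ξ` is an evaluation for every `ξ` in `X**`.  It is enough that
`y ∈ s X` if `s` divides `f y` for all functionals `f`.  Otherwise some multiple `y'` of `y` is not in `s X` but
`m y' ⊆ s X`; `x0 y' = s w`, `w` is not in `x0 X`, so by self-injectivity of `R / x0` (`baer`) and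
`lift_fun` there is a functional `f` with `f w` not in `x0 R`, a contradiction.
-/

set_option autoImplicit false

namespace Pool.Agent.HWC

open IsLocalRing Module

/-- the socle of a proper quotient -/
private theorem reflexSoc (R : Type) [CommRing R] [IsLocalRing R] [IsNoetherianRing R]
    (hP : Pkg R) (I : Ideal R) (hI : I ≠ ⊤) (s : R) (hs : s ≠ 0) (hsI : s ∈ I) :
    ∃ r : R, r ∉ I ∧ ∀ t ∈ maximalIdeal R, t * r ∈ I := by
  have h1 : maximalIdeal R ≤ I.radical := by
    intro x hx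
    obtain ⟨N, hN⟩ := hP.dim1 x hx s hs
    exact ⟨N, I.mem_of_dvd hN hsI⟩
  obtain ⟨n, hn⟩ := Ideal.exists_pow_le_of_le_radical_of_fg h1 (IsNoetherian.noetherian _)
  classical
  have hex : ∃ n, maximalIdeal R ^ n ≤ I := ⟨n, hn⟩
  have hspec := Nat.find_spec hex
  have hpos : Nat.find hex ≠ 0 := by
    intro h0
    rw [h0, pow_zero, Ideal.one_eq_top, top_le_iff] at hspec
    exact hI hspec
  obtain ⟨m, hm⟩ := Nat.exists_eq_succ_of_ne_zero hpos
  have hmin : ¬ maximalIdeal R ^ m ≤ I := Nat.find_min hex (by omega)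
  obtain ⟨r, hr, hrI⟩ := Set.not_subset.1 hmin
  refine ⟨r, hrI, fun t ht => ?_⟩
  apply hspec
  rw [hm, pow_succ']
  exact Ideal.mul_mem_mul ht hr

/-- the quotient by `x` is injective over itself -/
private theorem reflexInj (R : Type) [CommRing R] [IsLocalRing R] [IsNoetherianRing R]
    (hP : Pkg R) (x : R) (hx : x ∈ maximalIdeal R) (hx0 : x ≠ 0)
    (hirr : InfIrred (Ideal.span {x})) : Module.Baer (R ⧸ Ideal.span {x}) (R ⧸ Ideal.span {x}) := by
  have hne : Ideal.span {x} ≠ ⊤ := by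
    intro h
    rw [Ideal.span_singleton_eq_top] at h
    exact (mem_maximalIdeal x).1 hx h
  have : Nontrivial (R ⧸ Ideal.span {x}) := Ideal.Quotient.nontrivial_iff.2 hne
  have hloc : IsLocalRing (R ⧸ Ideal.span {x}) :=
    IsLocalRing.of_surjective' (Ideal.Quotient.mk _) Ideal.Quotient.mk_surjective
  have hart : IsArtinianRing (R ⧸ Ideal.span {x}) := by
    rw [isArtinianRing_iff_isNilpotent_maximalIdeal]
    have h1 : maximalIdeal (R ⧸ Ideal.span {x}) ≤ (⊥ : Ideal (R ⧸ Ideal.span {x})).radical := by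
      intro z hz
      obtain ⟨r, rfl⟩ := Ideal.Quotient.mk_surjective z
      have hr : r ∈ maximalIdeal R := by
        rw [mem_maximalIdeal, mem_nonunits_iff] at hz ⊢
        exact fun h => hz (h.map _)
      obtain ⟨N, hN⟩ := hP.dim1 r hr x hx0
      refine ⟨N, ?_⟩
      rw [Ideal.mem_bot, ← map_pow, Ideal.Quotient.eq_zero_iff_mem, Ideal.mem_span_singleton]
      exact hN
    obtain ⟨n, hn⟩ := Ideal.exists_pow_le_of_le_radical_of_fg h1 (IsNoetherian.noetherian _)
    exact ⟨n, le_bot_iff.1 hn⟩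
  refine baer _ ⟨?_, ?_⟩
  · intro h
    exact bot_ne_top (isMax_iff_eq_top.1 h)
  · intro J J' h
    have h1 : J.comap (Ideal.Quotient.mk (Ideal.span {x})) ⊓
        J'.comap (Ideal.Quotient.mk (Ideal.span {x})) = Ideal.span {x} := by
      rw [← Ideal.comap_inf, h]
      exact Ideal.mk_ker
    have h2 : ∀ J : Ideal (R ⧸ Ideal.span {x}),
        J.comap (Ideal.Quotient.mk (Ideal.span {x})) = Ideal.span {x} → J = ⊥ := by
      intro J hJ
      have h3 := Ideal.map_comap_of_surjective _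
        (Ideal.Quotient.mk_surjective (I := Ideal.span {x})) J
      rw [← h3, hJ, Ideal.map_quotient_self]
    exact (hirr.2 h1).imp (h2 J) (h2 J')

/-- functionals -/
private theorem reflexFun (R : Type) [CommRing R] [IsDomain R] [IsLocalRing R]
    [IsNoetherianRing R] (hP : Pkg R) (X : Type) [AddCommGroup X] [Module R X]
    [Module.Finite R X] (hX : TF R X) (x : R) (hx : x ∈ maximalIdeal R) (hx0 : x ≠ 0)
    (hirr : InfIrred (Ideal.span {x})) (w : X) (hw : ∀ v : X, w ≠ x • v) :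
    ∃ ψ : X →ₗ[R] R, ¬ x ∣ ψ w := by
  have hne : Ideal.span {x} ≠ ⊤ := by
    intro h
    rw [Ideal.span_singleton_eq_top] at h
    exact (mem_maximalIdeal x).1 hx h
  obtain ⟨σ, hσ, hmσ⟩ := reflexSoc R hP (Ideal.span {x}) hne x hx0 (Ideal.mem_span_singleton_self x)
  have hbaer := reflexInj R hP x hx hx0 hirr
  obtain ⟨p, hp⟩ : ∃ p : X →ₗ[R] X ⧸ (Ideal.span {x} • ⊤ : Submodule R X),
      p = (Ideal.span {x} • ⊤ : Submodule R X).mkQ := ⟨_, rfl⟩
  have hker : ∀ v : X, p v = 0 ↔ ∃ u : X, v = x • u := by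
    intro v
    rw [hp, Submodule.mkQ_apply, Submodule.Quotient.mk_eq_zero, Submodule.ideal_span_singleton_smul,
      Submodule.mem_smul_pointwise_iff_exists]
    exact ⟨fun ⟨u, _, hu⟩ => ⟨u, hu.symm⟩, fun ⟨u, hu⟩ => ⟨u, trivial, hu.symm⟩⟩
  have hsm : ∀ (r : R) (v : X), Ideal.Quotient.mk (Ideal.span {x}) r • p v = p (r • v) := by
    intro r v
    rw [hp]
    rfl
  obtain ⟨L, hL⟩ : ∃ L : (R ⧸ Ideal.span {x}) →ₗ[R ⧸ Ideal.span {x}]
      X ⧸ (Ideal.span {x} • ⊤ : Submodule R X), ∀ a, L a = a • p w :=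
    ⟨LinearMap.toSpanSingleton _ _ (p w), fun a => rfl⟩
  obtain ⟨g, hg⟩ : ∃ g : (R ⧸ Ideal.span {x}) →ₗ[R ⧸ Ideal.span {x}] R ⧸ Ideal.span {x},
      ∀ a, g a = a • Ideal.Quotient.mk (Ideal.span {x}) σ :=
    ⟨LinearMap.toSpanSingleton _ _ _, fun a => rfl⟩
  have hLg : L.ker ≤ g.ker := by
    intro a ha
    obtain ⟨r, rfl⟩ := Ideal.Quotient.mk_surjective a
    rw [LinearMap.mem_ker, hL, hsm, hker] at ha
    have hr : r ∈ maximalIdeal R := by
      rw [mem_maximalIdeal, mem_nonunits_iff]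
      intro hu
      obtain ⟨u, hu1⟩ := ha
      obtain ⟨r', hr'⟩ := hu.exists_left_inv
      apply hw (r' • u)
      rw [smul_comm, ← hu1, smul_smul, hr', one_smul]
    rw [LinearMap.mem_ker, hg, smul_eq_mul, ← map_mul, Ideal.Quotient.eq_zero_iff_mem]
    exact hmσ r hr
  obtain ⟨Λ, hΛ⟩ := hbaer.extension_property (L.ker.liftQ L le_rfl)
    (LinearMap.ker_eq_bot.1 (Submodule.ker_liftQ_eq_bot _ _ _ le_rfl)) (L.ker.liftQ g hLg)
  have h1 : Λ (p w) = Ideal.Quotient.mk (Ideal.span {x}) σ := by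
    have h2 := LinearMap.congr_fun hΛ (L.ker.mkQ 1)
    rw [LinearMap.comp_apply, Submodule.mkQ_apply, Submodule.liftQ_apply, Submodule.liftQ_apply,
      hL, hg, one_smul, one_smul] at h2
    exact h2
  obtain ⟨φ, hφ⟩ : ∃ φ : X →ₗ[R] R ⧸ Ideal.span {x}, ∀ v, φ v = Λ (p v) := by
    refine ⟨⟨⟨fun v => Λ (p v), ?_⟩, ?_⟩, fun v => rfl⟩
    · intro v v'
      rw [map_add, map_add]
    · intro r v
      change Λ (p (r • v)) = r • Λ (p v)
      rw [← hsm, map_smul]
      rfl
  obtain ⟨ψ, hψ⟩ := lift_fun R hP X hX x hx0 φ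
  refine ⟨ψ, fun hd => hσ ?_⟩
  rw [← Ideal.Quotient.eq_zero_iff_mem, ← h1, ← hφ, ← hψ, Ideal.Quotient.eq_zero_iff_mem,
    Ideal.mem_span_singleton]
  exact hd

/-- divisibility -/
private theorem reflexDiv (R : Type) [CommRing R] [IsDomain R] [IsLocalRing R]
    [IsNoetherianRing R] (hP : Pkg R) (X : Type) [AddCommGroup X] [Module R X]
    [Module.Finite R X] (hX : TF R X) (s : R) (hs : s ≠ 0) (y : X)
    (hy : ∀ f : X →ₗ[R] R, s ∣ f y) : ∃ v : X, y = s • v := by
  by_contra hcon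
  push Not at hcon
  obtain ⟨x, hx, hx0, hirr⟩ := hP.gor
  obtain ⟨I, hI⟩ : ∃ I : Ideal R, ∀ r, r ∈ I ↔ ∃ v : X, r • y = s • v := by
    refine ⟨⟨⟨⟨{r | ∃ v : X, r • y = s • v}, ?_⟩, ?_⟩, ?_⟩, fun r => Iff.rfl⟩
    · rintro a b ⟨v, hv⟩ ⟨v', hv'⟩
      exact ⟨v + v', by rw [add_smul, hv, hv', smul_add]⟩
    · exact ⟨0, by rw [zero_smul, smul_zero]⟩
    · rintro c a ⟨v, hv⟩
      exact ⟨c • v, by rw [smul_eq_mul, mul_smul, hv, smul_comm]⟩
  have hIt : I ≠ ⊤ := by
    intro h
    have h1 : (1 : R) ∈ I := h ▸ trivial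
    obtain ⟨v, hv⟩ := (hI 1).1 h1
    rw [one_smul] at hv
    exact hcon v hv
  obtain ⟨r, hrI, hr⟩ := reflexSoc R hP I hIt s hs ((hI s).2 ⟨y, rfl⟩)
  obtain ⟨w, hw⟩ := (hI _).1 (hr x hx)
  have hcan : ∀ (a : R) (u v : X), a ≠ 0 → a • u = a • v → u = v := by
    intro a u v ha h
    rcases hX a (u - v) (by rw [smul_sub, h, sub_self]) with h1 | h1
    · exact absurd h1 ha
    · exact sub_eq_zero.1 h1
  obtain ⟨ψ, hψ⟩ := reflexFun R hP X hX x hx hx0 hirr w
    (by
      intro v hv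
      apply hrI
      rw [hI]
      refine ⟨v, hcan x _ _ hx0 ?_⟩
      rw [smul_smul, hw, hv, smul_comm])
  apply hψ
  obtain ⟨c, hc⟩ := hy ψ
  refine ⟨r * c, mul_left_cancel₀ hs ?_⟩
  have h1 := congrArg ψ hw
  rw [map_smul, map_smul, hc, smul_eq_mul, smul_eq_mul] at h1
  rw [← h1]
  ring

/-- coordinates -/
private theorem reflexCoord (R : Type) [CommRing R] [IsDomain R] (X : Type) [AddCommGroup X]
    [Module R X] [Module.Finite R X] : ∃ (ι : Type) (_ : Fintype ι) (e : ι → X)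
      (π : ι → X →ₗ[R] R) (s : R), s ≠ 0 ∧ ∀ v : X, s • v = ∑ i, π i v • e i := by
  classical
  obtain ⟨n, g, hg⟩ := Module.Finite.exists_fin (R := R) (M := X)
  obtain ⟨T, hT1, hT2⟩ := exists_maximal_linearIndepOn R g
  obtain ⟨a, ha⟩ : ∃ a : Fin n → R, ∀ i, a i ≠ 0 ∧ a i • g i ∈ Submodule.span R (g '' T) := by
    have h1 : ∀ i, ∃ a : R, a ≠ 0 ∧ a • g i ∈ Submodule.span R (g '' T) := by
      intro i
      by_cases hi : i ∈ T
      · exact ⟨1, one_ne_zero, by rw [one_smul]; exact Submodule.subset_span ⟨i, hi, rfl⟩⟩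
      · exact hT2 i hi
    choose a ha using h1
    exact ⟨a, ha⟩
  obtain ⟨s, hs⟩ : ∃ s : R, s = ∏ i, a i := ⟨_, rfl⟩
  have hs0 : s ≠ 0 := by
    rw [hs]
    exact Finset.prod_ne_zero_iff.2 fun i _ => (ha i).1
  have hsX : ∀ v : X, s • v ∈ Submodule.span R (Set.range fun i : T => g i) := by
    have himg : (Set.range fun i : T => g i) = g '' T := by
      ext v
      simp
    rw [himg]
    intro v
    have hv : v ∈ Submodule.span R (Set.range g) := hg ▸ trivial
    induction hv using Submodule.span_induction with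
    | mem v hv =>
      obtain ⟨i, rfl⟩ := hv
      rw [hs, ← Finset.mul_prod_erase Finset.univ a (Finset.mem_univ i), mul_comm, mul_smul]
      exact Submodule.smul_mem _ _ (ha i).2
    | zero => rw [smul_zero]; exact Submodule.zero_mem _
    | add v v' _ _ h h' => rw [smul_add]; exact Submodule.add_mem _ h h'
    | smul r v _ h => rw [smul_comm]; exact Submodule.smul_mem _ _ h
  have hli : LinearIndependent R fun i : T => g i := hT1
  obtain ⟨P, hP⟩ : ∃ P : X →ₗ[R] Submodule.span R (Set.range fun i : T => g i),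
      ∀ v, ((P v : Submodule.span R (Set.range fun i : T => g i)) : X) = s • v :=
    ⟨(LinearMap.lsmul R X s).codRestrict _ hsX, fun v => rfl⟩
  refine ⟨T, inferInstance, fun i => g i, fun i => (Basis.span hli).coord i ∘ₗ P, s, hs0, ?_⟩
  intro v
  have h1 := congrArg Subtype.val ((Basis.span hli).sum_repr (P v))
  rw [hP] at h1
  rw [← h1, AddSubmonoidClass.coe_finsetSum]
  refine Finset.sum_congr rfl fun i _ => ?_
  rw [Submodule.coe_smul, Basis.span_apply]
  rfl

theorem reflexive (R : Type) [CommRing R] [IsDomain R] [IsLocalRing R] [IsNoetherianRing R]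
    (hP : Pkg R) (X : Type) [AddCommGroup X] [Module R X] [Module.Finite R X] (hX : TF R X) :
    Module.IsReflexive R X := by
  obtain ⟨ι, _, e, π, s, hs, hsum⟩ := reflexCoord R X
  have hcan : ∀ v : X, s • v = 0 → v = 0 := fun v h => (hX s v h).resolve_left hs
  refine ⟨⟨?_, ?_⟩⟩
  · rw [injective_iff_map_eq_zero]
    intro v hv
    apply hcan
    rw [hsum v]
    refine Finset.sum_eq_zero fun i _ => ?_
    have h1 : Dual.eval R X v (π i) = 0 := by rw [hv]; rfl
    rw [Dual.eval_apply] at h1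
    rw [h1, zero_smul]
  · intro ξ
    have h1 : ∀ f : Dual R X, s * ξ f = f (∑ i, ξ (π i) • e i) := by
      intro f
      have h2 : s • f = ∑ i, f (e i) • π i := by
        apply LinearMap.ext
        intro v
        rw [LinearMap.smul_apply, LinearMap.sum_apply, ← map_smul, hsum v, map_sum]
        refine Finset.sum_congr rfl fun i _ => ?_
        rw [map_smul, LinearMap.smul_apply, smul_eq_mul, smul_eq_mul, mul_comm]
      rw [← smul_eq_mul, ← map_smul, h2, map_sum, map_sum]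
      refine Finset.sum_congr rfl fun i _ => ?_
      rw [map_smul, map_smul, smul_eq_mul, smul_eq_mul, mul_comm]
    obtain ⟨v, hv⟩ := reflexDiv R hP X hX s hs (∑ i, ξ (π i) • e i) fun f => ⟨ξ f, (h1 f).symm⟩
    refine ⟨v, LinearMap.ext fun f => ?_⟩
    rw [Dual.eval_apply]
    have h3 := h1 f
    rw [hv, map_smul, smul_eq_mul] at h3
    exact (mul_left_cancel₀ hs h3).symm

end Pool.Agent.HWC
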