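import Pool.Agent.HWC.PkgOf

/-!
Paper proof.  Let x0 be the element of hP.gor.  For nonzero x, x' in m, multiplication by x' is an isomorphism
(xR : m)/xR -> (xx'R : m)/xx'R: injective since R is a domain; surjective: if r m is inside xx'R then r x' is in xx'R, so r in xR, and
r x in xx'R, so r = x' s, and x' s m inside xx'R gives s m inside xR.  So the socles of R/x, R/xx' and R/x' are isomorphic (R-modules).
The socle of R/x0 is simple (InfIrred (x0); it is nonzero because m is nilpotent modulo x0 by dim1), hence so is the socle of R/x, and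
every nonzero ideal of R/x contains a nonzero element killed by m (m nilpotent modulo x), so contains the simple socle:
two nonzero ideals of R/x meet.
-/

set_option autoImplicit false

namespace Pool.Agent.HWC

open IsLocalRing Module

private theorem QuotGor_nil {R : Type} [CommRing R] [IsLocalRing R] [IsNoetherianRing R]
    (hP : Pkg R) (x : R) (hx0 : x ≠ 0) : ∃ N : ℕ, (maximalIdeal R) ^ N ≤ Ideal.span {x} := by
  refine Ideal.exists_pow_le_of_le_radical_of_fg ?_ (IsNoetherian.noetherian _)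
  intro y hy
  obtain ⟨N, hN⟩ := hP.dim1 y hy x hx0
  exact ⟨N, Ideal.mem_span_singleton.2 hN⟩

private theorem QuotGor_soc {R : Type} [CommRing R] [IsLocalRing R] [IsNoetherianRing R]
    (hP : Pkg R) (x : R) (hx0 : x ≠ 0) (r : R) (hr : ¬ x ∣ r) :
    ∃ a : R, ¬ x ∣ a * r ∧ ∀ y ∈ maximalIdeal R, x ∣ a * r * y := by
  classical
  obtain ⟨N, hN⟩ := QuotGor_nil hP x hx0
  have hex : ∃ k : ℕ, ∀ a ∈ (maximalIdeal R) ^ k, x ∣ a * r := by
    refine ⟨N, fun a ha => ?_⟩
    exact (Ideal.mem_span_singleton.1 (hN ha)).mul_right r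
  have hk := Nat.find_spec hex
  have hmin : ∀ j < Nat.find hex, ¬ ∀ a ∈ (maximalIdeal R) ^ j, x ∣ a * r := fun j hj =>
    Nat.find_min hex hj
  generalize Nat.find hex = k at hk hmin
  cases k with
  | zero =>
    exfalso
    apply hr
    have h := hk 1 (by rw [pow_zero, Ideal.one_eq_top]; exact Submodule.mem_top)
    rwa [one_mul] at h
  | succ j =>
    have h := hmin j (Nat.lt_succ_self j)
    push Not at h
    obtain ⟨a, ha, har⟩ := h
    refine ⟨a, har, fun y hy => ?_⟩
    have h2 := hk (a * y) (by rw [pow_succ]; exact Ideal.mul_mem_mul ha hy)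
    have e : a * r * y = a * y * r := by ring
    rw [e]
    exact h2

private theorem QuotGor_simple {R : Type} [CommRing R] [IsLocalRing R]
    (x : R) (hirr : InfIrred (Ideal.span {x})) (s t : R) (hs : ¬ x ∣ s) (ht : ¬ x ∣ t)
    (hs' : ∀ y ∈ maximalIdeal R, x ∣ s * y) :
    ∃ c d : R, s = c * t + d * x := by
  set I : Ideal R := Ideal.span {x, s} with hI
  set J : Ideal R := Ideal.span {x, t} with hJ
  have hxI : Ideal.span {x} ≤ I := Ideal.span_mono (by simp)
  have hxJ : Ideal.span {x} ≤ J := Ideal.span_mono (by simp)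
  have hIne : I ≠ Ideal.span {x} := by
    intro h
    apply hs
    rw [← Ideal.mem_span_singleton, ← h]
    exact Ideal.subset_span (by simp)
  have hJne : J ≠ Ideal.span {x} := by
    intro h
    apply ht
    rw [← Ideal.mem_span_singleton, ← h]
    exact Ideal.subset_span (by simp)
  have hne : I ⊓ J ≠ Ideal.span {x} := by
    intro h
    rcases hirr.2 h with h1 | h1
    · exact hIne h1
    · exact hJne h1
  have hex : ∃ u ∈ I ⊓ J, ¬ x ∣ u := by
    by_contra hc
    push Not at hc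
    apply hne
    refine le_antisymm (fun u hu => Ideal.mem_span_singleton.2 (hc u hu)) (le_inf hxI hxJ)
  obtain ⟨u, ⟨huI, huJ⟩, hu⟩ := hex
  obtain ⟨b, a, hab⟩ := Ideal.mem_span_pair.1 huI
  obtain ⟨d, c, hcd⟩ := Ideal.mem_span_pair.1 huJ
  have ha : IsUnit a := by
    by_contra hc
    have h1 : a ∈ maximalIdeal R := hc
    apply hu
    rw [← hab]
    refine dvd_add (Dvd.intro_left b rfl) ?_
    have h2 := hs' a h1
    rwa [mul_comm] at h2
  obtain ⟨a', ha'⟩ := ha.exists_left_inv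
  refine ⟨a' * c, a' * (d - b), ?_⟩
  have e : a * s = c * t + (d - b) * x := by linear_combination hab - hcd
  calc s = a' * a * s := by rw [ha', one_mul]
    _ = a' * (a * s) := by ring
    _ = _ := by rw [e]; ring

theorem quot_infIrred (R : Type) [CommRing R] [IsDomain R] [IsLocalRing R] [IsNoetherianRing R]
    (hP : Pkg R) (x : R) (hx : x ∈ maximalIdeal R) (hx0 : x ≠ 0) :
    InfIrred (⊥ : Ideal (R ⧸ Ideal.span {x})) := by
  obtain ⟨z, hz, hz0, hirr⟩ := hP.gor
  have hlift : ∀ s : R, ¬ x ∣ s → (∀ y ∈ maximalIdeal R, x ∣ s * y) →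
      ∃ s' : R, s * z = x * s' ∧ ¬ z ∣ s' ∧ ∀ y ∈ maximalIdeal R, z ∣ s' * y := by
    intro s hs hs'
    obtain ⟨s', h1⟩ := hs' z hz
    refine ⟨s', h1, ?_, ?_⟩
    · rintro ⟨c, rfl⟩
      apply hs
      refine ⟨c, mul_right_cancel₀ hz0 ?_⟩
      rw [h1]
      ring
    · intro y hy
      obtain ⟨c, hc⟩ := hs' y hy
      refine ⟨c, mul_left_cancel₀ hx0 ?_⟩
      calc x * (s' * y) = (x * s') * y := by ring
        _ = (s * y) * z := by rw [← h1]; ring
        _ = x * (z * c) := by rw [hc]; ring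
  have hkey : ∀ s t : R, ¬ x ∣ s → ¬ x ∣ t → (∀ y ∈ maximalIdeal R, x ∣ s * y) →
      (∀ y ∈ maximalIdeal R, x ∣ t * y) → ∃ c d : R, s = c * t + d * x := by
    intro s t hs ht hs' ht'
    obtain ⟨s₁, hs1, hs2, hs3⟩ := hlift s hs hs'
    obtain ⟨t₁, ht1, ht2, -⟩ := hlift t ht ht'
    obtain ⟨c, d, hcd⟩ := QuotGor_simple z hirr s₁ t₁ hs2 ht2 hs3
    refine ⟨c, d, mul_right_cancel₀ hz0 ?_⟩
    rw [hs1, hcd]
    linear_combination (-c) * ht1
  have hmem : ∀ (J : Ideal (R ⧸ Ideal.span {x})), J ≠ ⊥ → ∃ s : R, Ideal.Quotient.mk _ s ∈ J ∧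
      ¬ x ∣ s ∧ ∀ y ∈ maximalIdeal R, x ∣ s * y := by
    intro J hJ
    obtain ⟨q, hq, hq0⟩ := Submodule.exists_mem_ne_zero_of_ne_bot hJ
    obtain ⟨r, rfl⟩ := Ideal.Quotient.mk_surjective q
    have hr : ¬ x ∣ r := by
      intro h
      exact hq0 (Ideal.Quotient.eq_zero_iff_mem.2 (Ideal.mem_span_singleton.2 h))
    obtain ⟨a, ha1, ha2⟩ := QuotGor_soc hP x hx0 r hr
    refine ⟨a * r, ?_, ha1, ha2⟩
    rw [map_mul]
    exact J.mul_mem_left _ hq
  refine ⟨?_, ?_⟩
  · rw [isMax_iff_eq_top]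
    intro h
    have h1 : (1 : R ⧸ Ideal.span {x}) ∈ (⊥ : Ideal (R ⧸ Ideal.span {x})) := by
      rw [h]
      exact Submodule.mem_top
    rw [Ideal.mem_bot, ← map_one (Ideal.Quotient.mk _), Ideal.Quotient.eq_zero_iff_mem,
      Ideal.mem_span_singleton] at h1
    obtain ⟨c, hc⟩ := h1
    have h2 : (1 : R) ∈ maximalIdeal R := by
      rw [hc]
      exact Ideal.mul_mem_right _ _ hx
    exact (Ideal.ne_top_iff_one _).1 (maximalIdeal.isMaximal R).ne_top h2
  · intro J K hJK
    by_contra hc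
    push Not at hc
    obtain ⟨s, hs, hs1, hs2⟩ := hmem J hc.1
    obtain ⟨t, ht, ht1, ht2⟩ := hmem K hc.2
    obtain ⟨c, d, hcd⟩ := hkey s t hs1 ht1 hs2 ht2
    have h3 : Ideal.Quotient.mk (Ideal.span {x}) s ∈ K := by
      have h4 : Ideal.Quotient.mk (Ideal.span {x}) x = 0 :=
        Ideal.Quotient.eq_zero_iff_mem.2 (Ideal.mem_span_singleton_self x)
      rw [hcd, map_add, map_mul, map_mul, h4, mul_zero, add_zero]
      exact K.mul_mem_left _ ht
    have h5 : Ideal.Quotient.mk (Ideal.span {x}) s ∈ J ⊓ K := ⟨hs, h3⟩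
    rw [hJK, Ideal.mem_bot, Ideal.Quotient.eq_zero_iff_mem, Ideal.mem_span_singleton] at h5
    exact hs1 h5

end Pool.Agent.HWC
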