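import Pool.Agent.HWC.Defs

/-!
Paper proof.  M f.g. torsionfree over the domain R.  Take a maximal R-linearly independent family e_1..e_q in M (finite:
M is f.g.), j : R^q -> M injective; M / range j is f.g. torsion, so killed by some s nonzero; s divides x^N by dim1, so
x^N M is inside range j; p : M -> R^q, p m = j^(-1)(x^N m), is linear; j p = x^N, p j = x^N (j injective).
free_of_quot: let A = R/(x), Mx = M/xM free over A, of rank t say (f.g.), so dim_k Mx = t dim_k A = r dim_k A and
dim_k A > 0 (x in m), so t = r.  Lift a basis to m_1..m_r in M; by Nakayama (x in m) they generate M: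
g : R^r -> M surjective.  Injective: p g : R^r -> R^r has image p(M) containing p(j(R^r)) = x^N R^r, so there is
h : R^r -> R^r with (p g) h = x^N, det(p g) det(h) = x^(N r) nonzero, so p g is injective (R is a domain).
-/

set_option autoImplicit false

namespace Pool.Agent.HWC

open IsLocalRing Module

theorem exists_AF (R : Type) [CommRing R] [IsDomain R] [IsLocalRing R] [IsNoetherianRing R]
    (hP : Pkg R) (M : Type) [AddCommGroup M] [Module R M] [Module.Finite R M] (hM : TF R M)
    (x : R) (hx : x ∈ maximalIdeal R) (hx0 : x ≠ 0) : ∃ q : ℕ, AF R M x q := by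
  classical
  obtain ⟨s, hs, hmax⟩ := exists_maximal_linearIndepOn R (id : M → M)
  have hli : LinearIndependent R ((↑) : s → M) := hs
  have hfin : s.Finite := LinearIndependent.set_finite_of_isNoetherian hli
  have hall : ∀ m : M, ∃ a : R, a ≠ 0 ∧ a • m ∈ Submodule.span R s := by
    intro m
    by_cases hm : m ∈ s
    · exact ⟨1, one_ne_zero, by rw [one_smul]; exact Submodule.subset_span hm⟩
    · obtain ⟨a, ha, h⟩ := hmax m hm
      refine ⟨a, ha, ?_⟩
      rw [Set.image_id] at h
      exact h
  obtain ⟨t, ht⟩ := (inferInstance : Module.Finite R M).fg_top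
  choose a ha0 ha using hall
  have hprod : (∏ i ∈ t, a i) ≠ 0 := Finset.prod_ne_zero_iff.2 fun i _ => ha0 i
  have hs1 : ∀ m : M, (∏ i ∈ t, a i) • m ∈ Submodule.span R s := by
    intro m
    have hm : m ∈ Submodule.span R (t : Set M) := by rw [ht]; trivial
    induction hm using Submodule.span_induction with
    | mem m hm =>
      have hm' : m ∈ t := hm
      rw [← Finset.mul_prod_erase t a hm', mul_comm, mul_smul]
      exact Submodule.smul_mem _ _ (ha m)
    | zero => rw [smul_zero]; exact Submodule.zero_mem _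
    | add m m' _ _ h1 h2 => rw [smul_add]; exact Submodule.add_mem _ h1 h2
    | smul r m _ h1 => rw [smul_comm]; exact Submodule.smul_mem _ _ h1
  obtain ⟨N, c, hc⟩ := hP.dim1 x hx _ hprod
  have hs2 : ∀ m : M, x ^ N • m ∈ Submodule.span R s := by
    intro m
    rw [hc, mul_comm, mul_smul]
    exact Submodule.smul_mem _ _ (hs1 m)
  have : Fintype s := hfin.fintype
  let b : Basis s R (Submodule.span R (Set.range ((↑) : s → M))) := Basis.span hli
  have hrange : Submodule.span R (Set.range ((↑) : s → M)) = Submodule.span R s := by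
    rw [Subtype.range_coe]
  let b' : Basis (Fin (Fintype.card s)) R (Submodule.span R (Set.range ((↑) : s → M))) :=
    b.reindex (Fintype.equivFin s)
  let j : (Fin (Fintype.card s) → R) →ₗ[R] M :=
    (Submodule.span R (Set.range ((↑) : s → M))).subtype ∘ₗ b'.equivFun.symm.toLinearMap
  let p₀ : M →ₗ[R] Submodule.span R (Set.range ((↑) : s → M)) :=
    { toFun := fun m => ⟨x ^ N • m, by rw [hrange]; exact hs2 m⟩
      map_add' := fun m m' => Subtype.ext (smul_add _ _ _)
      map_smul' := fun r m => Subtype.ext (smul_comm _ _ _) }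
  let p : M →ₗ[R] (Fin (Fintype.card s) → R) := b'.equivFun.toLinearMap ∘ₗ p₀
  have hj : Function.Injective j := by
    intro v w h
    exact b'.equivFun.symm.injective (Subtype.ext h)
  have hjp : ∀ m, j (p m) = x ^ N • m := by
    intro m
    show ((b'.equivFun.symm (b'.equivFun (p₀ m)) : Submodule.span R
      (Set.range ((↑) : s → M))) : M) = x ^ N • m
    rw [LinearEquiv.symm_apply_apply]
    rfl
  refine ⟨Fintype.card s, N, j, p, hjp, fun v => hj ?_⟩
  rw [hjp, map_smul]

theorem free_of_quot (k R M : Type) [Field k] [CommRing R] [IsDomain R] [IsLocalRing R]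
    [IsNoetherianRing R] [Algebra k R] [AddCommGroup M] [Module R M] [Module k M]
    [IsScalarTower k R M] [Module.Finite R M]
    (x : R) (hx : x ∈ maximalIdeal R) (hx0 : x ≠ 0) (r : ℕ) (hAF : AF R M x r)
    [Module.Finite k (R ⧸ Ideal.span {x})]
    (hf : finrank k (M ⧸ (Ideal.span {x} • ⊤ : Submodule R M)) =
      r * finrank k (R ⧸ Ideal.span {x}))
    (h : Module.Free (R ⧸ Ideal.span {x}) (M ⧸ (Ideal.span {x} • ⊤ : Submodule R M))) :
    Module.Free R M := by
  obtain ⟨N, j, p, hjp, hpj⟩ := hAF
  have hI : Ideal.span {x} ≤ maximalIdeal R := by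
    rw [Ideal.span_le, Set.singleton_subset_iff]
    exact hx
  have : Nontrivial (R ⧸ Ideal.span {x}) := by
    apply Ideal.Quotient.nontrivial_iff.2
    intro h1
    rw [h1, top_le_iff] at hI
    exact (maximalIdeal.isMaximal R).ne_top hI
  have : Module.Finite (R ⧸ Ideal.span {x}) (M ⧸ (Ideal.span {x} • ⊤ : Submodule R M)) :=
    Module.Finite.of_restrictScalars_finite R _ _
  have hrank : finrank (R ⧸ Ideal.span {x}) (M ⧸ (Ideal.span {x} • ⊤ : Submodule R M)) = r := by
    have h1 := Module.finrank_mul_finrank k (R ⧸ Ideal.span {x})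
      (M ⧸ (Ideal.span {x} • ⊤ : Submodule R M))
    have h2 : 0 < finrank k (R ⧸ Ideal.span {x}) := Module.finrank_pos
    rw [hf, mul_comm r] at h1
    exact Nat.eq_of_mul_eq_mul_left h2 h1
  obtain ⟨b⟩ : Nonempty (Basis (Fin r) (R ⧸ Ideal.span {x})
      (M ⧸ (Ideal.span {x} • ⊤ : Submodule R M))) := ⟨Module.finBasisOfFinrankEq _ _ hrank⟩
  have hlift : ∀ i, ∃ m : M, (Ideal.span {x} • ⊤ : Submodule R M).mkQ m = b i := fun i =>
    Submodule.mkQ_surjective _ _
  choose m hm using hlift
  let g : (Fin r → R) →ₗ[R] M := Fintype.linearCombination R m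
  have hg : ∀ v, g v = ∑ i, v i • m i := fun v => Fintype.linearCombination_apply R m v
  have hgr : (⊤ : Submodule R M) ≤ LinearMap.range g := by
    refine Submodule.le_of_le_smul_of_le_jacobson_bot (I := Ideal.span {x}) Module.Finite.fg_top
      ?_ ?_
    · rw [IsLocalRing.jacobson_eq_maximalIdeal ⊥ bot_ne_top]
      exact hI
    · intro y _
      have h1 := b.sum_repr ((Ideal.span {x} • ⊤ : Submodule R M).mkQ y)
      have h2 : ∀ i, ∃ a : R, Ideal.Quotient.mk (Ideal.span {x}) a =
          b.repr ((Ideal.span {x} • ⊤ : Submodule R M).mkQ y) i := fun i =>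
        Ideal.Quotient.mk_surjective _
      choose a ha using h2
      have h3 : (Ideal.span {x} • ⊤ : Submodule R M).mkQ (y - g a) = 0 := by
        rw [map_sub, sub_eq_zero, ← h1, hg, map_sum]
        refine Finset.sum_congr rfl fun i _ => ?_
        rw [← ha i, ← hm i]
        rfl
      rw [Submodule.mkQ_apply, Submodule.Quotient.mk_eq_zero] at h3
      rw [Submodule.mem_sup]
      exact ⟨g a, ⟨a, rfl⟩, y - g a, h3, by abel⟩
  have hgs : Function.Surjective g := fun y => hgr (Submodule.mem_top (x := y))
  -- injectivity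
  have hu : ∀ i : Fin r, ∃ u : Fin r → R, g u = j (Pi.single i 1) := fun i => hgs _
  choose u hu using hu
  let f : (Fin r → R) →ₗ[R] (Fin r → R) := (Pi.basisFun R (Fin r)).constr R u
  have hgf : ∀ v, g (f v) = j v := by
    intro v
    have h1 : g ∘ₗ f = j := by
      refine (Pi.basisFun R (Fin r)).ext fun i => ?_
      show g (f (Pi.basisFun R (Fin r) i)) = j (Pi.basisFun R (Fin r) i)
      rw [show f (Pi.basisFun R (Fin r) i) = u i from Basis.constr_basis _ _ _ _, hu,
        Pi.basisFun_apply]
    exact LinearMap.congr_fun h1 v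
  have hdet : LinearMap.det (p ∘ₗ g) ≠ 0 := by
    have h1 : (p ∘ₗ g) ∘ₗ f = x ^ N • LinearMap.id := by
      apply LinearMap.ext
      intro v
      show p (g (f v)) = x ^ N • v
      rw [hgf, hpj]
    intro h2
    have h3 := congrArg LinearMap.det h1
    rw [LinearMap.det_comp, h2, zero_mul, LinearMap.det_smul, LinearMap.det_id, mul_one] at h3
    exact pow_ne_zero _ (pow_ne_zero _ hx0) h3.symm
  have hgi : Function.Injective g := by
    rw [← LinearMap.ker_eq_bot, LinearMap.ker_eq_bot']
    intro v hv
    have h1 : (p ∘ₗ g) v = 0 := by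
      show p (g v) = 0
      rw [hv, map_zero]
    have h2 : (LinearMap.toMatrix' (p ∘ₗ g)).det ≠ 0 := by
      rw [LinearMap.det_toMatrix']
      exact hdet
    refine Matrix.eq_zero_of_mulVec_eq_zero h2 ?_
    rw [LinearMap.toMatrix'_mulVec, h1]
  exact Module.Free.of_equiv (LinearEquiv.ofBijective g ⟨hgi, hgs⟩)

end Pool.Agent.HWC
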