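import Pool.Agent.HWC.Defs

/-!
Paper proof.  dim1: R is a local domain of dimension 1, so every nonzero prime is the maximal ideal; for s nonzero the
radical of (s) is an intersection of primes containing s, all equal to m (or (s) = R), so x in m has a power in (s).
gor: the list xs has length 1 (length = ringKrullDim = 1), xs = [x], the set is {x}; x is regular so x is nonzero.
-/

set_option autoImplicit false

namespace Pool.Agent.HWC

open IsLocalRing Module

theorem pkg_of_gorOne (R : Type) [CommRing R] [IsDomain R] [IsLocalRing R] [IsNoetherianRing R]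
    (h : GorOne R) : Pkg R := by
  obtain ⟨hd, xs, hxm, hreg, hlen, hirr⟩ := h
  refine ⟨?_, ?_⟩
  · intro x hx s hs
    have hK : Ring.KrullDimLE 1 R := Ring.krullDimLE_iff.2 (by rw [hd]; exact le_rfl)
    have hK' := Ring.krullDimLE_one_iff_of_noZeroDivisors.1 hK
    have hrad : x ∈ (Ideal.span {s}).radical := by
      rw [Ideal.radical_eq_sInf, Ideal.mem_sInf]
      intro J hJ
      obtain ⟨hJ1, hJ2⟩ := hJ
      have hJ0 : J ≠ ⊥ := by
        intro h0
        have h1 : s ∈ J := hJ1 (Ideal.mem_span_singleton_self s)
        rw [h0, Ideal.mem_bot] at h1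
        exact hs h1
      rw [IsLocalRing.eq_maximalIdeal (hK' J hJ0 hJ2)]
      exact hx
    obtain ⟨N, hN⟩ := hrad
    exact ⟨N, Ideal.mem_span_singleton.1 hN⟩
  · rw [hd] at hlen
    have h1 : xs.length = 1 := by
      have h2 : ((xs.length : ℕ∞) : WithBot ℕ∞) = ((1 : ℕ∞) : WithBot ℕ∞) := hlen
      have h3 := WithBot.coe_injective h2
      exact_mod_cast h3
    obtain ⟨x, rfl⟩ := List.length_eq_one_iff.1 h1
    refine ⟨x, hxm x (by simp), ?_, ?_⟩
    · rintro rfl
      have h2 := ((RingTheory.Sequence.isRegular_cons_iff R (0 : R) []).1 hreg).1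
      have h3 : (1 : R) = 0 := h2 (by simp)
      exact one_ne_zero h3
    · have h2 : {r : R | r ∈ [x]} = {x} := by
        ext r
        simp
      rw [h2] at hirr
      exact hirr

end Pool.Agent.HWC
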