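import Pool.Agent.HWC.Defs

/-!
Paper proof.  (1) Choose v_1, ..., v_s in W with A v_i a basis of range A and functionals f_j on W' with
f_j (A v_i) = delta_ij.  The polynomial det (f_j ((A + c B) v_i)) in c is 1 at c = 0, so has finitely many zeros; off
them the (A + c B) v_i are independent, so rank (A + cB) >= s, i.e. dim ker (A + cB) <= dim ker A.
(2) W = W' = E.  Let M(c) be the matrix (f_j ((A + c B) v_i)), with polynomial entries in c.  Put
w(c) = det M(c) * 1 - sum_i (adj M(c) * (f_j ((A + cB) 1))_j)_i v_i   (polynomial in c, values in E).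
Then f_j ((A + cB) w(c)) = 0 for all j, c.  If det M(c) is nonzero and dim ker (A + cB) = dim ker A, then
the (A + cB) v_i are a basis of range (A + cB) and the f_j are jointly injective on range (A + cB), so (A + cB) w(c) = 0.
w(0) = det M(0) * 1 = 1 since A 1 = 0.  The determinant of left multiplication by w(c) on E is a polynomial in c,
equal to 1 at c = 0, so for all but finitely many c it is nonzero and w(c) is a unit of E (finite-dimensional algebra).
-/

set_option autoImplicit false

namespace Pool.Agent.HWC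

open IsLocalRing Module

/-- polynomial functions -/
def SemiPF {Ω : Type*} [Field Ω] (g : Ω → Ω) : Prop :=
  ∃ p : Polynomial Ω, ∀ c, g c = p.eval c

namespace SemiPF

variable {Ω : Type*} [Field Ω]

theorem const (a : Ω) : SemiPF (fun _ : Ω => a) := ⟨Polynomial.C a, fun c => by simp⟩

theorem id : SemiPF (fun c : Ω => c) := ⟨Polynomial.X, fun c => by simp⟩

theorem add {g h : Ω → Ω} (hg : SemiPF g) (hh : SemiPF h) : SemiPF (fun c => g c + h c) := by
  obtain ⟨p, hp⟩ := hg
  obtain ⟨q, hq⟩ := hh
  exact ⟨p + q, fun c => by simp [hp, hq]⟩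

theorem sub {g h : Ω → Ω} (hg : SemiPF g) (hh : SemiPF h) : SemiPF (fun c => g c - h c) := by
  obtain ⟨p, hp⟩ := hg
  obtain ⟨q, hq⟩ := hh
  exact ⟨p - q, fun c => by simp [hp, hq]⟩

theorem mul {g h : Ω → Ω} (hg : SemiPF g) (hh : SemiPF h) : SemiPF (fun c => g c * h c) := by
  obtain ⟨p, hp⟩ := hg
  obtain ⟨q, hq⟩ := hh
  exact ⟨p * q, fun c => by simp [hp, hq]⟩

theorem sum {ι : Type*} (s : Finset ι) {g : ι → Ω → Ω} (hg : ∀ i, SemiPF (g i)) :
    SemiPF (fun c => ∑ i ∈ s, g i c) := by
  choose p hp using hg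
  exact ⟨∑ i ∈ s, p i, fun c => by simp [Polynomial.eval_finsetSum, hp]⟩

theorem prod {ι : Type*} (s : Finset ι) {g : ι → Ω → Ω} (hg : ∀ i, SemiPF (g i)) :
    SemiPF (fun c => ∏ i ∈ s, g i c) := by
  choose p hp using hg
  exact ⟨∏ i ∈ s, p i, fun c => by simp [Polynomial.eval_prod, hp]⟩

theorem det {n : Type*} [Fintype n] [DecidableEq n] {M : Ω → Matrix n n Ω}
    (hM : ∀ i j, SemiPF (fun c => M c i j)) : SemiPF (fun c => (M c).det) := by
  have h : (fun c => (M c).det) = fun c => ∑ σ : Equiv.Perm n,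
      ((Equiv.Perm.sign σ : ℤ) : Ω) * ∏ i, M c (σ i) i := by
    funext c
    rw [Matrix.det_apply']
  rw [h]
  exact sum _ fun σ => mul (const _) (prod _ fun i => hM _ _)

theorem adj {n : Type*} [Fintype n] [DecidableEq n] {M : Ω → Matrix n n Ω}
    (hM : ∀ i j, SemiPF (fun c => M c i j)) (i j : n) :
    SemiPF (fun c => (M c).adjugate i j) := by
  have h : (fun c => (M c).adjugate i j) = fun c => ((M c).updateRow j (Pi.single i 1)).det := by
    funext c
    rw [Matrix.adjugate_apply]
  rw [h]
  refine det fun a b => ?_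
  by_cases ha : a = j
  · subst ha
    simp only [Matrix.updateRow_self]
    exact const _
  · simp only [Matrix.updateRow_ne ha]
    exact hM a b

theorem finite {g : Ω → Ω} (hg : SemiPF g) {c₀ : Ω} (h0 : g c₀ ≠ 0) : {c | g c = 0}.Finite := by
  classical
  obtain ⟨p, hp⟩ := hg
  have hp0 : p ≠ 0 := by
    rintro rfl
    exact h0 (by simp [hp])
  refine (p.roots.toFinset.finite_toSet).subset fun c hc => ?_
  simp only [Finset.mem_coe, Multiset.mem_toFinset, Polynomial.mem_roots', Polynomial.IsRoot.def]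
  exact ⟨hp0, by rw [← hp]; exact hc⟩

end SemiPF

section

variable {Ω W W' : Type*} [Field Ω] [AddCommGroup W] [Module Ω W]
    [AddCommGroup W'] [Module Ω W']

theorem Semi_exists [Module.Finite Ω W] (A : W →ₗ[Ω] W') :
    ∃ (v : Fin (finrank Ω (LinearMap.range A)) → W)
      (f : Fin (finrank Ω (LinearMap.range A)) → (W' →ₗ[Ω] Ω)),
      ∀ i j, f j (A (v i)) = if i = j then 1 else 0 := by
  classical
  let b := finBasis Ω (LinearMap.range A)
  have hv : ∀ i, ∃ w : W, A w = (b i : W') := fun i => (b i).2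
  choose v hv using hv
  have hf : ∀ j, ∃ g : W' →ₗ[Ω] Ω, g ∘ₗ (LinearMap.range A).subtype = b.coord j := fun j =>
    LinearMap.exists_extend (b.coord j)
  choose f hf using hf
  refine ⟨v, f, fun i j => ?_⟩
  have h1 : f j (A (v i)) = (f j ∘ₗ (LinearMap.range A).subtype) (b i) := by
    rw [LinearMap.comp_apply, Submodule.subtype_apply, hv]
  rw [h1, hf, Basis.coord_apply, Basis.repr_self, Finsupp.single_apply]

/-- the matrix `f_j ((A + c B) v_i)` -/
def SemiM {s : ℕ} (v : Fin s → W) (f : Fin s → (W' →ₗ[Ω] Ω)) (A B : W →ₗ[Ω] W') (c : Ω) :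
    Matrix (Fin s) (Fin s) Ω :=
  Matrix.of fun i j => f j ((A + c • B) (v i))

theorem Semi_pf {s : ℕ} (v : Fin s → W) (f : Fin s → (W' →ₗ[Ω] Ω)) (A B : W →ₗ[Ω] W')
    (i j : Fin s) : SemiPF (fun c => SemiM v f A B c i j) := by
  have h : (fun c => SemiM v f A B c i j) = fun c => f j (A (v i)) + c * f j (B (v i)) := by
    funext c
    simp [SemiM]
  rw [h]
  exact (SemiPF.const _).add (SemiPF.id.mul (SemiPF.const _))

theorem Semi_zero {s : ℕ} (v : Fin s → W) (f : Fin s → (W' →ₗ[Ω] Ω)) (A B : W →ₗ[Ω] W')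
    (h : ∀ i j, f j (A (v i)) = if i = j then 1 else 0) : (SemiM v f A B 0) = 1 := by
  ext i j
  simp [SemiM, h, Matrix.one_apply]

theorem Semi_indep {s : ℕ} (v : Fin s → W) (f : Fin s → (W' →ₗ[Ω] Ω)) (A B : W →ₗ[Ω] W') (c : Ω)
    (hd : (SemiM v f A B c).det ≠ 0) (a : Fin s → Ω)
    (ha : ∀ j, f j (∑ i, a i • (A + c • B) (v i)) = 0) : a = 0 := by
  apply Matrix.eq_zero_of_vecMul_eq_zero hd
  funext j
  have h := ha j
  rw [map_sum] at h
  simp only [map_smul, smul_eq_mul] at h
  simpa [Matrix.vecMul, dotProduct, SemiM] using h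

theorem Semi_li {s : ℕ} (v : Fin s → W) (f : Fin s → (W' →ₗ[Ω] Ω)) (A B : W →ₗ[Ω] W') (c : Ω)
    (hd : (SemiM v f A B c).det ≠ 0) :
    LinearIndependent Ω (fun i => (⟨(A + c • B) (v i), LinearMap.mem_range_self _ _⟩ :
      LinearMap.range (A + c • B))) := by
  rw [Fintype.linearIndependent_iff]
  intro a ha
  have h0 : a = 0 := by
    apply Semi_indep v f A B c hd a
    intro j
    have h1 := congrArg (fun z : LinearMap.range (A + c • B) => (z : W')) ha
    simp only [Submodule.coe_sum, Submodule.coe_smul, Submodule.coe_zero] at h1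
    rw [h1, map_zero]
  intro i
  rw [h0]
  rfl

end

theorem semi {Ω W W' : Type*} [Field Ω] [AddCommGroup W] [Module Ω W] [Module.Finite Ω W]
    [AddCommGroup W'] [Module Ω W'] [Module.Finite Ω W'] (A B : W →ₗ[Ω] W') :
    {c : Ω | finrank Ω (LinearMap.ker A) < finrank Ω (LinearMap.ker (A + c • B))}.Finite := by
  obtain ⟨v, f, hvf⟩ := Semi_exists A
  have hpf : SemiPF (fun c => (SemiM v f A B c).det) := SemiPF.det (Semi_pf v f A B)
  refine (hpf.finite (c₀ := 0) ?_).subset fun c hc => ?_
  · change (SemiM v f A B 0).det ≠ 0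
    rw [Semi_zero v f A B hvf, Matrix.det_one]
    exact one_ne_zero
  · simp only [Set.mem_ofPred_eq] at hc ⊢
    by_contra hd
    have hli := Semi_li v f A B c hd
    have h1 := hli.fintype_card_le_finrank
    rw [Fintype.card_fin] at h1
    have h2 := LinearMap.finrank_range_add_finrank_ker A
    have h3 := LinearMap.finrank_range_add_finrank_ker (A + c • B)
    omega

theorem unit_path {Ω E : Type*} [Field Ω] [Ring E] [Algebra Ω E] [Module.Finite Ω E]
    (A B : E →ₗ[Ω] E) (h1 : A 1 = 0) :
    {c : Ω | finrank Ω (LinearMap.ker (A + c • B)) = finrank Ω (LinearMap.ker A) ∧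
      ∀ u : E, (A + c • B) u = 0 → ¬ IsUnit u}.Finite := by
  classical
  obtain ⟨v, f, hvf⟩ := Semi_exists A
  have hpf : SemiPF (fun c => (SemiM v f A B c).det) := SemiPF.det (Semi_pf v f A B)
  set g : Ω → Fin (finrank Ω (LinearMap.range A)) → Ω := fun c j => f j ((A + c • B) 1) with hg
  set h : Ω → Fin (finrank Ω (LinearMap.range A)) → Ω :=
    fun c => Matrix.vecMul (g c) (SemiM v f A B c).adjugate with hh
  set w : Ω → E := fun c => (SemiM v f A B c).det • (1 : E) - ∑ i, h c i • v i with hw
  have hgp : ∀ j, SemiPF (fun c => g c j) := by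
    intro j
    have h2 : (fun c => g c j) = fun c => f j (A 1) + c * f j (B 1) := by
      funext c
      simp [hg]
    rw [h2]
    exact (SemiPF.const _).add (SemiPF.id.mul (SemiPF.const _))
  have hhp : ∀ i, SemiPF (fun c => h c i) := by
    intro i
    have h2 : (fun c => h c i) = fun c => ∑ j, g c j * (SemiM v f A B c).adjugate j i := by
      funext c
      simp [hh, Matrix.vecMul, dotProduct]
    rw [h2]
    exact SemiPF.sum _ fun j => (hgp j).mul (SemiPF.adj (Semi_pf v f A B) j i)
  have hwl : ∀ φ : E →ₗ[Ω] Ω, SemiPF (fun c => φ (w c)) := by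
    intro φ
    have h2 : (fun c => φ (w c)) = fun c => (SemiM v f A B c).det * φ 1 -
        ∑ i, h c i * φ (v i) := by
      funext c
      simp [hw]
    rw [h2]
    exact (hpf.mul (SemiPF.const _)).sub (SemiPF.sum _ fun i => (hhp i).mul (SemiPF.const _))
  let b := finBasis Ω E
  have hq : SemiPF (fun c => (LinearMap.toMatrix b b (LinearMap.mulLeft Ω (w c))).det) := by
    refine SemiPF.det fun i j => ?_
    have h2 : (fun c => LinearMap.toMatrix b b (LinearMap.mulLeft Ω (w c)) i j) = fun c =>
        ((b.coord i) ∘ₗ (LinearMap.mulRight Ω (b j))) (w c) := by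
      funext c
      rw [LinearMap.toMatrix_apply]
      rfl
    rw [h2]
    exact hwl _
  have hM0 := Semi_zero v f A B hvf
  have hw0 : w 0 = 1 := by
    have hg0 : g 0 = 0 := by
      funext j
      simp [hg, h1]
    simp [hw, hh, hg0, hM0]
  have hfin : ({c | (SemiM v f A B c).det = 0} ∪
      {c | (LinearMap.toMatrix b b (LinearMap.mulLeft Ω (w c))).det = 0}).Finite := by
    refine (hpf.finite (c₀ := 0) ?_).union (hq.finite (c₀ := 0) ?_)
    · change (SemiM v f A B 0).det ≠ 0
      rw [hM0, Matrix.det_one]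
      exact one_ne_zero
    · change (LinearMap.toMatrix b b (LinearMap.mulLeft Ω (w 0))).det ≠ 0
      rw [hw0, LinearMap.mulLeft_one, LinearMap.toMatrix_id, Matrix.det_one]
      exact one_ne_zero
  refine hfin.subset fun c hc => ?_
  simp only [Set.mem_ofPred_eq] at hc
  by_contra hn
  simp only [Set.mem_union, Set.mem_ofPred_eq, not_or] at hn
  obtain ⟨hd, hq0⟩ := hn
  obtain ⟨heq, hnu⟩ := hc
  -- the element `w c` is in the kernel
  have hk : (A + c • B) (w c) = 0 := by
    have hli := Semi_li v f A B c hd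
    have h2 := LinearMap.finrank_range_add_finrank_ker A
    have h3 := LinearMap.finrank_range_add_finrank_ker (A + c • B)
    have hcard : Fintype.card (Fin (finrank Ω (LinearMap.range A))) =
        finrank Ω (LinearMap.range (A + c • B)) := by
      rw [Fintype.card_fin]
      omega
    have hspan : ∀ y ∈ LinearMap.range (A + c • B), ∃ a : Fin (finrank Ω (LinearMap.range A)) → Ω,
        y = ∑ i, a i • (A + c • B) (v i) := by
      intro y hy
      have htop := hli.span_eq_top_of_card_eq_finrank' hcard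
      have hmem : (⟨y, hy⟩ : LinearMap.range (A + c • B)) ∈ Submodule.span Ω
          (Set.range (fun i => (⟨(A + c • B) (v i), LinearMap.mem_range_self _ _⟩ :
            LinearMap.range (A + c • B)))) := by
        rw [htop]; trivial
      obtain ⟨a, ha⟩ := (Submodule.mem_span_range_iff_exists_fun Ω).mp hmem
      refine ⟨a, ?_⟩
      have h4 := congrArg (fun z : LinearMap.range (A + c • B) => (z : E)) ha
      simp only [Submodule.coe_sum, Submodule.coe_smul] at h4
      exact h4.symm
    obtain ⟨a, ha⟩ := hspan _ (LinearMap.mem_range_self (A + c • B) (w c))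
    have hf0 : ∀ j, f j ((A + c • B) (w c)) = 0 := by
      intro j
      have h5 : (A + c • B) (w c) = (SemiM v f A B c).det • (A + c • B) 1 -
          ∑ i, h c i • (A + c • B) (v i) := by
        rw [hw]
        simp only [map_sub, map_smul, map_sum]
      have h6 : f j ((A + c • B) (w c)) = (SemiM v f A B c).det * g c j -
          (Matrix.vecMul (h c) (SemiM v f A B c)) j := by
        rw [h5]
        simp only [map_sub, map_smul, map_sum, smul_eq_mul]
        rfl
      rw [h6, hh]
      simp only [Matrix.vecMul_vecMul, Matrix.adjugate_mul, Matrix.vecMul_smul, Matrix.vecMul_one]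
      simp
    have ha0 : a = 0 := by
      apply Semi_indep v f A B c hd a
      intro j
      rw [← ha]
      exact hf0 j
    rw [ha, ha0]
    simp
  -- the element `w c` is a unit
  refine hnu (w c) hk ?_
  have hdet : LinearMap.det (LinearMap.mulLeft Ω (w c)) ≠ 0 := by
    rw [← LinearMap.det_toMatrix b]
    exact hq0
  let e := LinearMap.equivOfDetNeZero (LinearMap.mulLeft Ω (w c)) hdet
  have he : ∀ x, e x = w c * x := fun x => rfl
  obtain ⟨u, hu⟩ := e.surjective 1
  rw [he] at hu
  have hu2 : u * w c = 1 := by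
    apply e.injective
    rw [he, he, ← mul_assoc, hu, one_mul, mul_one]
  exact ⟨⟨w c, u, hu, hu2⟩, rfl⟩

end Pool.Agent.HWC
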