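import Pool.Agent.HWC.KerRoots
import Pool.Agent.HWC.Semi

/-!
The key lemma: for a finite-dimensional algebra `E` and `y ∈ E` with `y ^ n = 0`,
`dim E ≤ n * dim C_E(y)`, and in the case of equality `1 = ∑ y^(n-1-i) θ y^i` for some `θ`.
-/

set_option autoImplicit false

namespace Pool.Agent.HWC

open Module

/-- over an algebraically closed field -/
theorem alg_closed {Ω E : Type*} [Field Ω] [IsAlgClosed Ω] [Ring E] [Algebra Ω E]
    [Module.Finite Ω E] (y : E) (n : ℕ) (hn : 0 < n) (hy : y ^ n = 0) :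
    finrank Ω E ≤ n * finrank Ω (LinearMap.ker (LinearMap.mulLeft Ω y - LinearMap.mulRight Ω y)) ∧
    (finrank Ω E = n * finrank Ω (LinearMap.ker (LinearMap.mulLeft Ω y - LinearMap.mulRight Ω y)) →
      ∃ θ : E, ∑ i ∈ Finset.range n, y ^ (n - 1 - i) * θ * y ^ i = 1) := by
  have : Infinite Ω := IsAlgClosed.instInfinite
  set L : Module.End Ω E := LinearMap.mulLeft Ω y with hLdef
  set P : Module.End Ω E := LinearMap.mulRight Ω y with hPdef
  set κ := finrank Ω (LinearMap.ker (L - P)) with hκdef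
  have hcomm : Commute L P := LinearMap.commute_mulLeft_right y y
  have hL : L ^ n = 0 := by rw [hLdef, LinearMap.pow_mulLeft, hy]; exact LinearMap.mulLeft_zero_eq_zero Ω E
  have hP : P ^ n = 0 := by rw [hPdef, LinearMap.pow_mulRight, hy]; exact LinearMap.mulRight_zero_eq_zero Ω E
  have hAB : ∀ ρ : Ω, (L - P) + (ρ - 1) • (-P) = L - ρ • P := by
    intro ρ
    refine LinearMap.ext fun e => ?_
    simp only [LinearMap.add_apply, LinearMap.sub_apply, LinearMap.smul_apply,
      LinearMap.neg_apply, sub_smul, one_smul, smul_neg]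
    abel
  have h1 : (L - P) (1 : E) = 0 := by
    simp [hLdef, hPdef]
  have hf1 := semi (L - P) (-P)
  have hf2 := unit_path (L - P) (-P) h1
  -- bad values of `c`
  have hbad1 : {c : Ω | ∃ ρ : Ω, ρ ^ n = c ^ n ∧ κ < finrank Ω (LinearMap.ker (L - ρ • P))}.Finite := by
    have hsub : {c : Ω | ∃ ρ : Ω, ρ ^ n = c ^ n ∧ κ < finrank Ω (LinearMap.ker (L - ρ • P))} ⊆
        ⋃ s ∈ {c : Ω | finrank Ω (LinearMap.ker (L - P)) <
          finrank Ω (LinearMap.ker ((L - P) + c • (-P)))},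
          {c : Ω | c ^ n = (s + 1) ^ n} := by
      rintro c ⟨ρ, hρ, hlt⟩
      simp only [Set.mem_iUnion, Set.mem_setOf_eq]
      refine ⟨ρ - 1, ?_, ?_⟩
      · rw [hAB]; exact hlt
      · rw [sub_add_cancel, hρ]
    refine Set.Finite.subset (Set.Finite.biUnion hf1 ?_) hsub
    intro s _
    have : {c : Ω | c ^ n = (s + 1) ^ n} = ((Polynomial.nthRootsFinset n ((s + 1) ^ n) : Finset Ω) : Set Ω) := by
      ext c
      simp [Polynomial.mem_nthRootsFinset hn]
    rw [this]
    exact Finset.finite_toSet _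
  have hbad2 : {c : Ω | finrank Ω (LinearMap.ker (L - c • P)) = κ ∧
      ∀ u : E, (L - c • P) u = 0 → ¬ IsUnit u}.Finite := by
    refine Set.Finite.subset (hf2.image (fun c => c + 1)) ?_
    rintro c ⟨hc1, hc2⟩
    refine ⟨c - 1, ?_, by simp⟩
    rw [Set.mem_setOf_eq, hAB]
    exact ⟨hc1, hc2⟩
  obtain ⟨c, hc⟩ := (hbad1.union hbad2).exists_notMem
  rw [Set.mem_union, not_or] at hc
  obtain ⟨hc1, hc2⟩ := hc
  simp only [Set.mem_setOf_eq, not_exists, not_and, not_lt] at hc1
  obtain ⟨hk1, hk2⟩ := ker_roots L P hcomm n hn hL hP c κ hc1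
  refine ⟨hk1, fun heq => ?_⟩
  obtain ⟨hk3, hk4⟩ := hk2 heq
  simp only [Set.mem_setOf_eq, not_and, not_forall, not_not] at hc2
  obtain ⟨u, hu, hunit⟩ := hc2 hk3
  have hyu : y * u = c • (u * y) := by
    have : (L - c • P) u = y * u - c • (u * y) := by simp [hLdef, hPdef]
    rw [this] at hu
    exact sub_eq_zero.mp hu
  obtain ⟨θ, hθ⟩ := hk4 u (by simpa [hLdef, hPdef] using hyu)
  obtain ⟨v, rfl⟩ := hunit
  -- `v⁻¹ y^j = c^j y^j v⁻¹`
  have hinv : ∀ j : ℕ, (↑v⁻¹ : E) * y ^ j = c ^ j • (y ^ j * (↑v⁻¹ : E)) := by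
    intro j
    induction j with
    | zero => simp
    | succ j ih =>
      have hbase : (↑v⁻¹ : E) * y = c • (y * (↑v⁻¹ : E)) := by
        have h2 := congrArg (fun e => (↑v⁻¹ : E) * e * (↑v⁻¹ : E)) hyu
        simp only [mul_smul_comm, smul_mul_assoc] at h2
        rw [← mul_assoc, mul_assoc (↑v⁻¹ * y) (v : E), Units.mul_inv, mul_one, ← mul_assoc,
          Units.inv_mul, one_mul] at h2
        exact h2
      rw [pow_succ, ← mul_assoc, ih, smul_mul_assoc, mul_assoc, hbase, mul_smul_comm, smul_smul,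
        ← mul_assoc, ← pow_succ, ← pow_succ]
  refine ⟨c ^ (n - 1) • ((↑v⁻¹ : E) * θ), ?_⟩
  have hmain : (1 : E) = ∑ i ∈ Finset.range n, c ^ i • ((↑v⁻¹ : E) * (y ^ (n - 1 - i) * (θ * y ^ i))) := by
    have h3 := congrArg (fun e => (↑v⁻¹ : E) * e) hθ
    simp only [Units.inv_mul] at h3
    rw [h3, Finset.mul_sum]
    refine Finset.sum_congr rfl fun i _ => ?_
    rw [mul_smul_comm]
    have e1 : ((L ^ (n - 1 - i)) ((P ^ i) θ)) = y ^ (n - 1 - i) * (θ * y ^ i) := by
      rw [hLdef, hPdef, LinearMap.pow_mulLeft, LinearMap.pow_mulRight]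
      simp
    rw [e1]
  rw [hmain]
  refine Finset.sum_congr rfl fun i hi => ?_
  have hi' : i < n := Finset.mem_range.mp hi
  rw [← mul_assoc (↑v⁻¹ : E) (y ^ (n - 1 - i)), hinv, mul_smul_comm, smul_mul_assoc,
    smul_mul_assoc, smul_smul, ← pow_add]
  have : i + (n - 1 - i) = n - 1 := by omega
  rw [this]
  simp only [mul_assoc]

open TensorProduct in
theorem alg_main {k E : Type*} [Field k] [Ring E] [Algebra k E] [Module.Finite k E]
    (y : E) (n : ℕ) (hn : 0 < n) (hy : y ^ n = 0) :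
    finrank k E ≤ n * finrank k (LinearMap.ker (LinearMap.mulLeft k y - LinearMap.mulRight k y)) ∧
    (finrank k E = n * finrank k (LinearMap.ker (LinearMap.mulLeft k y - LinearMap.mulRight k y)) →
      ∃ θ : E, ∑ i ∈ Finset.range n, y ^ (n - 1 - i) * θ * y ^ i = 1) := by
  let Ω := AlgebraicClosure k
  let Y : Ω ⊗[k] E := 1 ⊗ₜ[k] y
  have hY : Y ^ n = 0 := by
    rw [Algebra.TensorProduct.tmul_pow, hy, TensorProduct.tmul_zero]
  obtain ⟨h1, h2⟩ := alg_closed (Ω := Ω) Y n hn hY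
  rw [Module.finrank_baseChange] at h1 h2
  set D : E →ₗ[k] E := LinearMap.mulLeft k y - LinearMap.mulRight k y with hD
  have hDY : LinearMap.mulLeft Ω Y - LinearMap.mulRight Ω Y =
      TensorProduct.AlgebraTensorModule.lTensor Ω Ω D := by
    refine TensorProduct.AlgebraTensorModule.curry_injective ?_
    refine LinearMap.ext fun a => LinearMap.ext fun e => ?_
    simp [Y, hD, TensorProduct.tmul_sub]
  have hker : finrank Ω (LinearMap.ker (LinearMap.mulLeft Ω Y - LinearMap.mulRight Ω Y)) ≤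
      finrank k (LinearMap.ker D) := by
    rw [hDY, Module.Flat.ker_lTensor_eq]
    refine (LinearMap.finrank_range_le _).trans (le_of_eq ?_)
    exact Module.finrank_baseChange
  refine ⟨h1.trans (Nat.mul_le_mul_left _ hker), fun heq => ?_⟩
  obtain ⟨θ, hθ⟩ := h2 (le_antisymm h1 (by rw [heq]; exact Nat.mul_le_mul_left _ hker))
  -- a functional of `Ω` which is `1` on `1`
  obtain ⟨l, hl⟩ : ∃ l : Ω →ₗ[k] k, l 1 = 1 := by
    obtain ⟨l, hl⟩ := (Algebra.linearMap k Ω).exists_leftInverse_of_injective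
      (LinearMap.ker_eq_bot.mpr (FaithfulSMul.algebraMap_injective k Ω))
    refine ⟨l, ?_⟩
    have := LinearMap.congr_fun hl 1
    simpa using this
  let q : Ω ⊗[k] E →ₗ[k] E := (TensorProduct.lid k E).toLinearMap ∘ₗ (LinearMap.rTensor E l)
  have hq : ∀ (a : Ω) (e : E), q (a ⊗ₜ[k] e) = l a • e := by
    intro a e
    simp [q]
  refine ⟨q θ, ?_⟩
  have key : ∀ (u v : E) (t : Ω ⊗[k] E),
      q ((1 ⊗ₜ[k] u) * t * (1 ⊗ₜ[k] v)) = u * q t * v := by
    intro u v t
    induction t using TensorProduct.induction_on with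
    | zero => simp
    | tmul a e => simp [hq, Algebra.TensorProduct.tmul_mul_tmul]
    | add a b ha hb => simp only [mul_add, add_mul, map_add, ha, hb]
  have h3 := congrArg q hθ
  rw [map_sum, Algebra.TensorProduct.one_def, hq, hl, one_smul] at h3
  rw [← h3]
  refine Finset.sum_congr rfl fun i _ => ?_
  rw [Algebra.TensorProduct.tmul_pow, Algebra.TensorProduct.tmul_pow, one_pow, one_pow, key]

end Pool.Agent.HWC
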