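import Pool.Agent.HWC.Defs

/-!
# HWC: linear algebra in characteristic p
-/

set_option autoImplicit false

namespace Pool.Agent.HWC

open IsLocalRing Module

private theorem AlgP_comp {k E : Type*} [Field k] [AddCommGroup E] [Module k E]
    [Module.Finite k E] (f g : E →ₗ[k] E) :
    finrank k (LinearMap.ker (f ∘ₗ g)) ≤ finrank k (LinearMap.ker g) + finrank k (LinearMap.ker f) := by
  let h : LinearMap.ker (f ∘ₗ g) →ₗ[k] LinearMap.ker f :=
    (g.domRestrict (LinearMap.ker (f ∘ₗ g))).codRestrict (LinearMap.ker f) (fun x => x.2)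
  have h1 := LinearMap.finrank_range_add_finrank_ker h
  have h2 : finrank k (LinearMap.range h) ≤ finrank k (LinearMap.ker f) := Submodule.finrank_le _
  have h3 : finrank k (LinearMap.ker h) ≤ finrank k (LinearMap.ker g) := by
    let e : LinearMap.ker h →ₗ[k] LinearMap.ker g :=
      ((LinearMap.ker (f ∘ₗ g)).subtype.domRestrict (LinearMap.ker h)).codRestrict
        (LinearMap.ker g) (fun x => congrArg Subtype.val x.2)
    have he : Function.Injective e := by
      intro x z hxz
      exact Subtype.ext (Subtype.ext (congrArg (fun t : LinearMap.ker g => (t : E)) hxz))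
    exact LinearMap.finrank_le_finrank_of_injective he
  omega

private theorem AlgP_pow {k E : Type*} [Field k] [AddCommGroup E] [Module k E]
    [Module.Finite k E] (f : Module.End k E) (j : ℕ) :
    finrank k (LinearMap.ker (f ^ j)) ≤ j * finrank k (LinearMap.ker f) := by
  induction j with
  | zero =>
    have h1 : LinearMap.ker (f ^ 0) = ⊥ := by
      rw [pow_zero]
      exact LinearMap.ker_eq_bot.2 (fun x z h => h)
    rw [h1, finrank_bot]
    exact Nat.zero_le _
  | succ j ih =>
    have h1 := AlgP_comp f (f ^ j)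
    have h2 : f ^ (j + 1) = f ∘ₗ (f ^ j) := by
      rw [pow_succ']
      rfl
    rw [h2, add_mul, one_mul]
    omega

private theorem AlgP_choose (k : Type*) [Field k] (p a : ℕ) [Fact p.Prime] [CharP k p] (m : ℕ)
    (hm : m ≤ p ^ a - 1) : (-1 : k) ^ (p ^ a - 1 - m) * ((p ^ a - 1).choose m : k) = 1 := by
  have hq : 0 < p ^ a := pow_pos (Fact.out : p.Prime).pos a
  have h1 : (Polynomial.X - 1 : Polynomial k) ^ (p ^ a - 1) =
      ∑ i ∈ Finset.range (p ^ a), Polynomial.X ^ i := by
    have h2 : (Polynomial.X - 1 : Polynomial k) ≠ 0 := by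
      have := Polynomial.X_sub_C_ne_zero (1 : k)
      rwa [Polynomial.C_1] at this
    apply mul_left_cancel₀ h2
    rw [← pow_succ', Nat.sub_add_cancel hq, mul_geom_sum, sub_pow_char_pow, one_pow]
  have h3 := congrArg (fun P : Polynomial k => P.coeff m) h1
  have h4 : (Polynomial.X - 1 : Polynomial k) = Polynomial.X + Polynomial.C (-1) := by
    rw [Polynomial.C_neg, Polynomial.C_1, sub_eq_add_neg]
  rw [h4, Polynomial.coeff_X_add_C_pow, Polynomial.finsetSum_coeff,
    Finset.sum_eq_single m] at h3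
  · rw [h3, Polynomial.coeff_X_pow, if_pos rfl]
  · intro b _ hb
    rw [Polynomial.coeff_X_pow, if_neg (Ne.symm hb)]
  · intro h
    rw [Finset.mem_range] at h
    omega

theorem alg_p {k E : Type*} [Field k] [Ring E] [Algebra k E] [Module.Finite k E]
    (p a : ℕ) [Fact p.Prime] [CharP k p]
    (y : E) (hy : ∀ e : E, y ^ (p ^ a) * e = e * y ^ (p ^ a)) :
    finrank k E ≤ p ^ a *
      finrank k (LinearMap.ker (LinearMap.mulLeft k y - LinearMap.mulRight k y)) ∧
    (finrank k E = p ^ a *
        finrank k (LinearMap.ker (LinearMap.mulLeft k y - LinearMap.mulRight k y)) →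
      ∃ θ : E, ∑ i ∈ Finset.range (p ^ a), y ^ (p ^ a - 1 - i) * θ * y ^ i = 1) := by
  rcases subsingleton_or_nontrivial E with hE | hE
  · refine ⟨?_, fun _ => ⟨0, Subsingleton.elim _ _⟩⟩
    rw [finrank_zero_of_subsingleton]
    exact Nat.zero_le _
  have hq : 0 < p ^ a := pow_pos (Fact.out : p.Prime).pos a
  have hLR : Commute (LinearMap.mulLeft k y) (LinearMap.mulRight k y) :=
    LinearMap.commute_mulLeft_right y y
  have hchar : CharP (Module.End k E) p :=
    charP_of_injective_algebraMap (algebraMap k (Module.End k E)).injective p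
  have hDq : (LinearMap.mulLeft k y - LinearMap.mulRight k y : Module.End k E) ^ (p ^ a) = 0 := by
    rw [sub_pow_char_pow_of_commute _ _ hLR, LinearMap.pow_mulLeft, LinearMap.pow_mulRight]
    ext e
    rw [LinearMap.sub_apply, LinearMap.mulLeft_apply, LinearMap.mulRight_apply, hy e, sub_self]
    rfl
  obtain ⟨D, hD⟩ : ∃ D : Module.End k E, D = LinearMap.mulLeft k y - LinearMap.mulRight k y :=
    ⟨_, rfl⟩
  rw [← hD] at hDq ⊢
  have hker : finrank k (LinearMap.ker (D ^ (p ^ a))) = finrank k E := by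
    rw [hDq]
    have h1 : LinearMap.ker (0 : Module.End k E) = ⊤ := LinearMap.ker_zero
    rw [h1, finrank_top]
  refine ⟨hker ▸ AlgP_pow D (p ^ a), fun heq => ?_⟩
  have h1 : finrank k (LinearMap.ker (D ^ (p ^ a - 1))) ≤ (p ^ a - 1) * finrank k (LinearMap.ker D) :=
    AlgP_pow D (p ^ a - 1)
  have h2 := LinearMap.finrank_range_add_finrank_ker (D ^ (p ^ a - 1))
  have h3 : finrank k E = (p ^ a - 1) * finrank k (LinearMap.ker D) + finrank k (LinearMap.ker D) := by
    rw [heq]
    obtain ⟨n, hn⟩ := Nat.exists_eq_succ_of_ne_zero hq.ne'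
    rw [hn, Nat.succ_sub_one, Nat.succ_mul]
  have h4 : LinearMap.range (D ^ (p ^ a - 1)) ≤ LinearMap.ker D := by
    rintro _ ⟨x, rfl⟩
    rw [LinearMap.mem_ker]
    have h5 : D ^ (p ^ a) = D * D ^ (p ^ a - 1) := by
      rw [← pow_succ', Nat.sub_add_cancel hq]
    have h6 : (D * D ^ (p ^ a - 1)) x = 0 := by
      rw [← h5, hDq]
      rfl
    exact h6
  have h5 : LinearMap.range (D ^ (p ^ a - 1)) = LinearMap.ker D := by
    apply Submodule.eq_of_le_of_finrank_le h4
    omega
  have h6 : (1 : E) ∈ LinearMap.range (D ^ (p ^ a - 1)) := by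
    rw [h5, LinearMap.mem_ker, hD, LinearMap.sub_apply, LinearMap.mulLeft_apply,
      LinearMap.mulRight_apply, mul_one, one_mul, sub_self]
  obtain ⟨θ, hθ⟩ := h6
  refine ⟨θ, ?_⟩
  rw [← hθ, hD, sub_eq_add_neg, (hLR.neg_right).add_pow, Nat.sub_add_cancel hq,
    LinearMap.sum_apply, ← Finset.sum_range_reflect]
  refine Finset.sum_congr rfl fun i hi => ?_
  rw [Finset.mem_range] at hi
  have h7 : p ^ a - 1 - (p ^ a - 1 - i) = i := by omega
  rw [h7]
  have h8 := AlgP_choose k p a i (by omega)
  have h9 : ((LinearMap.mulLeft k y) ^ i * (-(LinearMap.mulRight k y)) ^ (p ^ a - 1 - i) *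
      (((p ^ a - 1).choose i : ℕ) : Module.End k E)) =
      (LinearMap.mulLeft k y) ^ i * (LinearMap.mulRight k y) ^ (p ^ a - 1 - i) := by
    have h12 : (-(LinearMap.mulRight k y)) ^ (p ^ a - 1 - i) =
        (-1 : Module.End k E) ^ (p ^ a - 1 - i) * (LinearMap.mulRight k y) ^ (p ^ a - 1 - i) :=
      neg_pow (LinearMap.mulRight k y : Module.End k E) _
    rw [h12, mul_assoc]
    congr 1
    have h10 : (((p ^ a - 1).choose i : ℕ) : Module.End k E) =
        algebraMap k (Module.End k E) ((p ^ a - 1).choose i : k) := (map_natCast _ _).symm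
    have h11 : ((-1 : Module.End k E) ^ (p ^ a - 1 - i)) =
        algebraMap k (Module.End k E) ((-1) ^ (p ^ a - 1 - i)) := by
      rw [map_pow, map_neg, map_one]
    rw [h10, h11, ← Algebra.commutes, ← mul_assoc, ← map_mul, mul_comm, h8, map_one, one_mul]
  rw [h9, LinearMap.pow_mulLeft, LinearMap.pow_mulRight, Module.End.mul_apply,
    LinearMap.mulLeft_apply, LinearMap.mulRight_apply, mul_assoc]

end Pool.Agent.HWC
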