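import Pool.Agent.HWC.Defs

/-! Numerical semigroup rings `k⟦H⟧` and free (telescopic) semigroups. -/

set_option autoImplicit false

namespace Pool.Agent.HWC

/-- the semigroup ring `k⟦H⟧ ⊆ k⟦t⟧`: power series with exponents in `H`. -/
def sgRing (k : Type) [Field k] (H : AddSubmonoid ℕ) : Subalgebra k (PowerSeries k) where
  carrier := {f | ∀ n, PowerSeries.coeff n f ≠ 0 → n ∈ H}
  mul_mem' := by
    intro f g hf hg n hn
    rw [PowerSeries.coeff_mul] at hn
    obtain ⟨p, hp, hne⟩ := Finset.exists_ne_zero_of_sum_ne_zero hn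
    rw [← Finset.HasAntidiagonal.mem_antidiagonal.mp hp]
    exact H.add_mem (hf _ (left_ne_zero_of_mul hne)) (hg _ (right_ne_zero_of_mul hne))
  add_mem' := by
    intro f g hf hg n hn
    rw [map_add] at hn
    by_cases h : PowerSeries.coeff n f = 0
    · rw [h, zero_add] at hn; exact hg n hn
    · exact hf n h
  algebraMap_mem' := by
    intro r n hn
    rw [PowerSeries.algebraMap_apply, Algebra.algebraMap_self, RingHom.id_apply,
      PowerSeries.coeff_C] at hn
    by_cases h : n = 0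
    · rw [h]; exact H.zero_mem
    · rw [if_neg h] at hn; exact absurd rfl hn

/-- `d H + a ℕ`. -/
def glue (H : AddSubmonoid ℕ) (d a : ℕ) : AddSubmonoid ℕ where
  carrier := {n | ∃ h ∈ H, ∃ i : ℕ, n = d * h + a * i}
  zero_mem' := ⟨0, H.zero_mem, 0, by simp⟩
  add_mem' := by
    rintro _ _ ⟨h, hh, i, rfl⟩ ⟨h', hh', i', rfl⟩
    exact ⟨h + h', H.add_mem hh hh', i + i', by ring⟩

/-- free (telescopic) numerical semigroups: from `ℕ` by steps `H ↦ d H + a ℕ`, `0 < a ∈ H`,
`d > 0` prime to `a`. -/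
inductive FreeSG : AddSubmonoid ℕ → Prop
  | top : FreeSG ⊤
  | step (H : AddSubmonoid ℕ) (d a : ℕ) : FreeSG H → a ∈ H → 0 < a → 0 < d →
      Nat.Coprime a d → FreeSG (glue H d a)

end Pool.Agent.HWC
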