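import Pool.Agent.HWC.Defs
import Pool.Agent.HWC.SGDefs

/-! The statement of MP_7dc157_al.RadicalExtensions. -/

set_option autoImplicit false

namespace Pool.Agent.HWC

open IsLocalRing Module

/-- `Y i ^ n i` is a multiple of `x`, or `p` is a prime divisible by `x` in `S`, `n i` is a power of
`p` and `Y i ^ n i` is the sum of an element of `S` and a multiple of `x`. -/
def RadGen (S R : Type) [CommRing S] [CommRing R] [Algebra S R] (x : S) {c : ℕ} (Y : Fin c → R)
    (n : Fin c → ℕ) : Prop :=
  ∀ i, Y i ^ n i ∈ Ideal.span {algebraMap S R x} ∨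
    ∃ p a : ℕ, p.Prime ∧ (p : S) ∈ Ideal.span {x} ∧ n i = p ^ a ∧
      ∃ b : S, Y i ^ n i - algebraMap S R b ∈ Ideal.span {algebraMap S R x}

/-- Let `S` and `R` be one-dimensional Gorenstein local domains, `R` free over `S` of rank
`n_1 ⋯ n_c` and generated by `y_1, …, y_c` as an algebra, and let `x ≠ 0` be in the maximal ideal of
`S`, such that `RadGen` holds. If `S` satisfies (HWC), or if `S` is isomorphic to the semigroup ring
`k⟦H⟧` of a free numerical semigroup `H` over a field `k`, then `R` satisfies (HWC). -/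
def RadicalClosure : Prop :=
  ∀ (S R : Type) [CommRing S] [IsDomain S] [IsLocalRing S] [IsNoetherianRing S]
    [CommRing R] [IsDomain R] [IsLocalRing R] [IsNoetherianRing R] [Algebra S R]
    [Module.Finite S R] [Module.Free S R], GorOne S → GorOne R →
    ∀ x ∈ maximalIdeal S, x ≠ 0 →
    ∀ (c : ℕ) (Y : Fin c → R) (n : Fin c → ℕ), (∀ i, 0 < n i) →
    finrank S R = ∏ i, n i → Algebra.adjoin S (Set.range Y) = ⊤ → RadGen S R x Y n →
    (HWC S ∨ ∃ (k : Type) (_ : Field k) (H : AddSubmonoid ℕ), FreeSG H ∧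
      Nonempty (S ≃+* sgRing k H)) → HWC R

end Pool.Agent.HWC
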