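import Pool.Agent.HWC.Defs

/-! The statement of MP_7dc157_al.RadicalFibres. -/

set_option autoImplicit false

namespace Pool.Agent.HWC

open IsLocalRing Module

/-- The maximal ideal `m` of `B` is generated by elements `y_1, …, y_m` with `m y_i y_j = 0` for
`i ≠ j`, `m y_i ^ (s_i + 2) = 0` and `dim B ≥ 2 + ∑ (s_i + 1)`. -/
def StarAlg (k B : Type) [Field k] [CommRing B] [IsLocalRing B] [Algebra k B] : Prop :=
  ∃ (m : ℕ) (y : Fin m → B) (s : Fin m → ℕ), Ideal.span (Set.range y) = maximalIdeal B ∧
    (∀ i j, i ≠ j → ∀ b ∈ maximalIdeal B, b * (y i * y j) = 0) ∧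
    (∀ i, ∀ b ∈ maximalIdeal B, b * y i ^ (s i + 2) = 0) ∧
    2 + ∑ i, (s i + 1) ≤ finrank k B

/-- The least class of Artinian local rings which contains
* the fields,
* the local algebras `B` of finite dimension over a field `k`, with residue field `k` and irreducible
  zero ideal, such that `B` is a star algebra (`StarAlg`), or the square of its maximal ideal is
  principal, or its dimension is at most 5, or `k` is algebraically closed, `6 ≠ 0` in `k` and the
  dimension is at most 6,
* with `B` each local ring `B'` that is free over `B` of rank `n_1 ⋯ n_c` and generated by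
  `y_1, …, y_c` as an algebra, where for each `i` either `y_i ^ n_i = 0`, or `n_i` is a power of a
  prime `p` with `p = 0` in `B` and `y_i ^ n_i` is in `B`. -/
inductive RadFibre : (B : Type) → [CommRing B] → Prop
  | field (K : Type) [Field K] : RadFibre K
  | gor (k B : Type) [Field k] [CommRing B] [IsLocalRing B] [Algebra k B] [Module.Finite k B] :
      Function.Surjective (algebraMap k (ResidueField B)) → InfIrred (⊥ : Ideal B) →
      (StarAlg k B ∨ (∃ w : B, (maximalIdeal B) ^ 2 = Ideal.span {w}) ∨ finrank k B ≤ 5 ∨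
        (IsAlgClosed k ∧ (2 : k) ≠ 0 ∧ (3 : k) ≠ 0 ∧ finrank k B ≤ 6)) → RadFibre B
  | radical (B B' : Type) [CommRing B] [IsLocalRing B] [IsArtinianRing B] [CommRing B']
      [IsLocalRing B'] [Algebra B B'] [Module.Finite B B'] [Module.Free B B'] (c : ℕ)
      (Y : Fin c → B') (n : Fin c → ℕ) :
      (∀ i, 0 < n i) → finrank B B' = ∏ i, n i → Algebra.adjoin B (Set.range Y) = ⊤ →
      (∀ i, Y i ^ n i = 0 ∨ ∃ p a : ℕ, p.Prime ∧ (p : B) = 0 ∧ n i = p ^ a ∧
        ∃ b : B, Y i ^ n i = algebraMap B B' b) → RadFibre B → RadFibre B'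

/-- Let `R` be a one-dimensional Gorenstein local domain and `x ≠ 0` in its maximal ideal, such that
`R / x R` is in the class `RadFibre`. Then `R` satisfies (HWC). -/
def FibreClosure : Prop :=
  ∀ (R : Type) [CommRing R] [IsDomain R] [IsLocalRing R] [IsNoetherianRing R], GorOne R →
    ∀ x ∈ maximalIdeal R, x ≠ 0 → RadFibre (R ⧸ Ideal.span {x}) → HWC R

end Pool.Agent.HWC
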