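import Pool.Agent.HWC.Defs

/-!
# HWC: the commutant of a generator, restriction of scalars
-/

set_option autoImplicit false

namespace Pool.Agent.HWC

open IsLocalRing Module

theorem Commut_lin (S R N : Type) [CommRing S] [CommRing R] [Algebra S R] [AddCommGroup N]
    [Module S N] [Module R N] [IsScalarTower S R N] (pb : PowerBasis S R) (f : Module.End S N)
    (hf : ∀ v, f (pb.gen • v) = pb.gen • f v) (r : R) : ∀ v : N, f (r • v) = r • f v := by
  have hr : r ∈ Algebra.adjoin S {pb.gen} := by
    rw [pb.adjoin_gen_eq_top]
    exact Algebra.mem_top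
  induction hr using Algebra.adjoin_induction with
  | mem x hx =>
    intro v
    rw [Set.mem_singleton_iff.1 hx]
    exact hf v
  | algebraMap s =>
    intro v
    rw [algebraMap_smul, algebraMap_smul, map_smul]
  | add x y _ _ hx hy =>
    intro v
    rw [add_smul, map_add, hx, hy, add_smul]
  | mul x y _ _ hx hy =>
    intro v
    rw [mul_smul, hx, hy, mul_smul]

theorem finrank_commutant (k S R N : Type) [Field k] [CommRing S] [CommRing R] [Algebra k S]
    [Algebra S R] [Algebra k R] [IsScalarTower k S R] [AddCommGroup N] [Module k N] [Module S N]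
    [Module R N] [IsScalarTower S R N] [IsScalarTower k S N] [IsScalarTower k R N]
    [Module.Finite k N] (pb : PowerBasis S R) :
    finrank k (LinearMap.ker (LinearMap.mulLeft k (Algebra.lsmul S S N pb.gen) -
      LinearMap.mulRight k (Algebra.lsmul S S N pb.gen))) = finrank k (Module.End R N) := by
  let L : Module.End R N →ₗ[k] Module.End S N :=
    { toFun := fun f => f.restrictScalars S
      map_add' := fun _ _ => rfl
      map_smul' := fun _ _ => rfl }
  have hL : Function.Injective L := by
    intro f g hfg
    ext v
    exact congrArg (fun F : Module.End S N => F v) hfg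
  have hker : LinearMap.ker (LinearMap.mulLeft k (Algebra.lsmul S S N pb.gen) -
      LinearMap.mulRight k (Algebra.lsmul S S N pb.gen)) = LinearMap.range L := by
    ext f
    rw [LinearMap.mem_ker, LinearMap.sub_apply, sub_eq_zero, LinearMap.mulLeft_apply,
      LinearMap.mulRight_apply, LinearMap.mem_range]
    constructor
    · intro h
      have h1 : ∀ v, f (pb.gen • v) = pb.gen • f v := fun v =>
        (congrArg (fun F : Module.End S N => F v) h).symm
      exact ⟨{ toFun := f
               map_add' := fun a b => map_add f a b
               map_smul' := fun r v => Commut_lin S R N pb f h1 r v }, rfl⟩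
    · rintro ⟨g, rfl⟩
      ext v
      exact (map_smul g pb.gen v).symm
  rw [hker]
  exact LinearMap.finrank_range_of_inj hL

theorem AF_restrict (S R M : Type) [CommRing S] [CommRing R] [Algebra S R] [AddCommGroup M]
    [Module S M] [Module R M] [IsScalarTower S R M] (pb : PowerBasis S R) (x : S) (r : ℕ)
    (h : AF R M (algebraMap S R x) r) : AF S M x (pb.dim * r) := by
  obtain ⟨N, j, p, h1, h2⟩ := h
  let E : (Fin r → R) ≃ₗ[S] (Fin (pb.dim * r) → S) :=
    (LinearEquiv.piCongrRight (fun _ : Fin r => pb.basis.equivFun)).trans
      ((LinearEquiv.curry S S (Fin r) (Fin pb.dim)).symm.trans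
        (LinearEquiv.funCongrLeft S S
          ((finProdFinEquiv (m := pb.dim) (n := r)).symm.trans (Equiv.prodComm _ _))))
  refine ⟨N, (j.restrictScalars S).comp E.symm.toLinearMap,
    E.toLinearMap.comp (p.restrictScalars S), fun m => ?_, fun v => ?_⟩
  · change j (E.symm (E (p m))) = x ^ N • m
    rw [LinearEquiv.symm_apply_apply, h1, ← map_pow, algebraMap_smul]
  · change E (p (j (E.symm v))) = x ^ N • v
    rw [h2, ← map_pow, algebraMap_smul, map_smul, LinearEquiv.apply_symm_apply]

end Pool.Agent.HWC
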