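import Pool.Agent.HWC.DefsL
import Pool.Agent.HWC.Commut

/-!
Paper proof.  length_commutant: as finrank_commutant in Commut.lean (on main): both are the set of S-linear f with f (y v) = y f(v).
len_scale: induction on a composition series of X (IsFiniteLength): additivity, and a simple B-module is the residue field.
-/

set_option autoImplicit false

namespace Pool.Agent.HWC

open IsLocalRing Module

theorem length_commutant (Λ S R N : Type) [CommRing Λ] [CommRing S] [CommRing R] [Algebra Λ S]
    [Algebra S R] [Algebra Λ R] [IsScalarTower Λ S R] [AddCommGroup N] [Module Λ N] [Module S N]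
    [Module R N] [IsScalarTower S R N] [IsScalarTower Λ S N] [IsScalarTower Λ R N]
    (pb : PowerBasis S R) :
    Module.length Λ (cenL Λ (Algebra.lsmul S S N pb.gen)) = Module.length Λ (Module.End R N) := by
  let L : Module.End R N →ₗ[Λ] Module.End S N :=
    { toFun := fun f => f.restrictScalars S
      map_add' := fun _ _ => rfl
      map_smul' := fun _ _ => rfl }
  have hL : Function.Injective L := by
    intro f g hfg
    ext v
    exact congrArg (fun F : Module.End S N => F v) hfg
  have hker : cenL Λ (Algebra.lsmul S S N pb.gen) = LinearMap.range L := by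
    ext f
    rw [LinearMap.mem_ker, LinearMap.sub_apply, sub_eq_zero, LinearMap.mulLeft_apply,
      LinearMap.mulRight_apply, LinearMap.mem_range]
    constructor
    · intro h
      have h1 : ∀ v, f (pb.gen • v) = pb.gen • f v := fun v =>
        (congrArg (fun F : Module.End S N => F v) h).symm
      exact ⟨{ toFun := f
               map_add' := fun a b => map_add f a b
               map_smul' := fun r v => Commut_lin S R N pb f h1 r v }, rfl⟩
    · rintro ⟨g, rfl⟩
      ext v
      exact (map_smul g pb.gen v).symm
  rw [hker]
  exact (LinearEquiv.ofInjective L hL).symm.length_eq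

/-- one step of a composition series -/
theorem CommutL_step (Λ : Type) {B X : Type} [CommRing Λ] [CommRing B] [IsLocalRing B]
    [Algebra Λ B] [AddCommGroup X] [Module B X] [Module Λ X] [IsScalarTower Λ B X]
    {p q : Submodule B X} (h : p ⋖ q) :
    Module.length Λ q = Module.length Λ p + Module.length Λ (ResidueField B) := by
  let f : p →ₗ[B] q := Submodule.inclusion h.le
  have key : IsSimpleModule B (q ⧸ f.range) := by
    rwa [Submodule.range_inclusion, ← covBy_iff_quot_is_simple h.le]
  obtain ⟨m, hm, ⟨e⟩⟩ := isSimpleModule_iff_quot_maximal.mp key
  rw [eq_maximalIdeal hm] at e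
  let g : q →ₗ[B] ResidueField B := e.comp f.range.mkQ
  have h1 : Function.Injective f := Submodule.inclusion_injective _
  have h2 : Function.Surjective g := e.surjective.comp f.range.mkQ_surjective
  have h3 : Function.Exact f g := LinearMap.exact_iff.mpr
    ((e.ker_comp f.range.mkQ).trans f.range.ker_mkQ)
  exact Module.length_eq_add_of_exact (f.restrictScalars Λ) (g.restrictScalars Λ) h1 h2 h3

theorem len_scale (Λ B X : Type) [CommRing Λ] [CommRing B] [IsLocalRing B] [Algebra Λ B]
    [AddCommGroup X] [Module B X] [Module Λ X] [IsScalarTower Λ B X]
    (hX : Module.length B X ≠ ⊤) :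
    Module.length Λ X = Module.length Λ (ResidueField B) * Module.length B X := by
  obtain ⟨s, hs_bot, hs_top⟩ := isFiniteLength_iff_exists_compositionSeries.mp
    (length_ne_top_iff.mp hX)
  rw [← length_compositionSeries s hs_bot hs_top, mul_comm]
  suffices ∀ k, Module.length Λ (s k) = k * Module.length Λ (ResidueField B) by
    rw [← Fin.val_last s.length, ← this, ← RelSeries.last, hs_top]
    exact length_top.symm
  intro k
  induction k using Fin.induction with
  | zero => rw [← RelSeries.head, hs_bot]; simp
  | succ i hi =>
    have h := CommutL_step Λ (s.step i)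
    rw [h, hi]
    simp [add_one_mul]

end Pool.Agent.HWC
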