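import Mathlib

/-! Definitions for (HWC) over one-dimensional Gorenstein local domains (MP_7dc157_al). -/

set_option autoImplicit false

namespace Pool.Agent.HWC

open IsLocalRing

/-- (HWC), as in the problem: every finitely generated torsionfree `M` with `M ⊗ M*` reflexive
is free. -/
def HWC (R : Type) [CommRing R] : Prop :=
  ∀ (M : Type) [AddCommGroup M] [Module R M] [Module.Finite R M] [NoZeroSMulDivisors R M],
    Module.IsReflexive R (TensorProduct R M (Module.Dual R M)) → Module.Free R M

/-- one-dimensional and Gorenstein (for a Noetherian local domain), as in the frozen statement. -/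
def GorOne (R : Type) [CommRing R] [IsLocalRing R] : Prop :=
  ringKrullDim R = 1 ∧
  ∃ xs : List R, (∀ x ∈ xs, x ∈ IsLocalRing.maximalIdeal R) ∧
    RingTheory.Sequence.IsRegular R xs ∧
    ((xs.length : ℕ∞) : WithBot ℕ∞) = ringKrullDim R ∧
    InfIrred (Ideal.span {r : R | r ∈ xs})

/-- what we use of `GorOne`. -/
structure Pkg (R : Type) [CommRing R] [IsLocalRing R] : Prop where
  dim1 : ∀ x ∈ maximalIdeal R, ∀ s : R, s ≠ 0 → ∃ N : ℕ, s ∣ x ^ N
  gor : ∃ x ∈ maximalIdeal R, x ≠ 0 ∧ InfIrred (Ideal.span {x})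

/-- torsionfree. -/
def TF (R M : Type) [CommRing R] [AddCommGroup M] [Module R M] : Prop :=
  ∀ (s : R) (m : M), s • m = 0 → s = 0 ∨ m = 0

/-- endomorphisms of `M/xM` lift to `M` (for one, equivalently any, model `π : M → N` of the
quotient map `M → M/xM`). -/
def Lift (R M : Type) [CommRing R] [AddCommGroup M] [Module R M] (x : R) : Prop :=
  ∀ (N : Type) [AddCommGroup N] [Module R N] (π : M →ₗ[R] N), Function.Surjective π →
    (∀ m : M, π m = 0 ↔ ∃ w : M, m = x • w) →
    ∀ φ : M →ₗ[R] N, ∃ ψ : M →ₗ[R] M, ∀ m : M, π (ψ m) = φ m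

/-- `M` is free of rank `q` up to a power of `x`. -/
def AF (R M : Type) [CommRing R] [AddCommGroup M] [Module R M] (x : R) (q : ℕ) : Prop :=
  ∃ (N : ℕ) (j : (Fin q → R) →ₗ[R] M) (p : M →ₗ[R] (Fin q → R)),
    (∀ m, j (p m) = x ^ N • m) ∧ (∀ v, p (j v) = x ^ N • v)

/-- tight: `(dim N)^2 ≤ dim B * dim End_B N` for all finite-dimensional `N`, equality only for
free `N`. -/
def Tight (k B : Type) [Field k] [CommRing B] [Algebra k B] : Prop :=
  ∀ (N : Type) [AddCommGroup N] [Module k N] [Module B N] [IsScalarTower k B N]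
    [Module.Finite k N],
    (Module.finrank k N) ^ 2 ≤ Module.finrank k B * Module.finrank k (Module.End B N) ∧
    ((Module.finrank k N) ^ 2 = Module.finrank k B * Module.finrank k (Module.End B N) →
      Module.Free B N)

end Pool.Agent.HWC
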