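import Pool.Agent.HWC.Defs

/-!
Definitions for the version with lengths (no ground field).
-/

set_option autoImplicit false

namespace Pool.Agent.HWC

open IsLocalRing Module

/-- elements commuting with `y` -/
abbrev cenL (Λ : Type*) {E : Type*} [CommRing Λ] [Ring E] [Algebra Λ E] (y : E) :
    Submodule Λ E :=
  LinearMap.ker (LinearMap.mulLeft Λ y - LinearMap.mulRight Λ y)

/-- tight: `(length N)^2 ≤ length B * length End_B N` for all finitely generated `N`, equality only
for free `N`. -/
def TightL (B : Type) [CommRing B] : Prop :=
  ∀ (N : Type) [AddCommGroup N] [Module B N] [Module.Finite B N],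
    (Module.length B N) ^ 2 ≤ Module.length B B * Module.length B (Module.End B N) ∧
    ((Module.length B N) ^ 2 = Module.length B B * Module.length B (Module.End B N) →
      Module.Free B N)

end Pool.Agent.HWC
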