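import Pool.Agent.HWC.Defs

/-!
# HWC, module Dims (helper60 for helper11)

The paper proof.  (I) index lemma for an injective map with finite cokernel; (II) finitely generated
modules killed by an ideal of finite colength are finite-dimensional; (III) `dim M/xM = q e`;
(IV) `dim End(M)/x = q^2 e`; (V) the map `End(M) -> Hom(M, N) = End(N)`.
-/

set_option autoImplicit false

namespace Pool.Agent.HWC

open IsLocalRing Module

section lin

/-- a linear map factors through a surjective one -/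
private theorem dims_desc {R P A Y : Type} [CommRing R] [AddCommGroup P] [AddCommGroup A]
    [AddCommGroup Y] [Module R P] [Module R A] [Module R Y] (a : P →ₗ[R] A)
    (ha : Function.Surjective a) (g : P →ₗ[R] Y) (h : ∀ v, a v = 0 → g v = 0) :
    ∃ f : A →ₗ[R] Y, ∀ v, f (a v) = g v := by
  have hle : LinearMap.ker a ≤ LinearMap.ker g := fun v hv => h v hv
  refine ⟨(LinearMap.ker a).liftQ g hle ∘ₗ (a.quotKerEquivOfSurjective ha).symm.toLinearMap,
    fun v => ?_⟩
  have h1 : (a.quotKerEquivOfSurjective ha).symm (a v) = Submodule.Quotient.mk v := by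
    rw [LinearEquiv.symm_apply_eq]
    rfl
  rw [LinearMap.comp_apply, LinearEquiv.coe_coe, h1]
  rfl

variable {k : Type} [Field k]

/-- dimensions in a short exact sequence -/
private theorem dims_exseq {X Y Z : Type} [AddCommGroup X] [AddCommGroup Y] [AddCommGroup Z]
    [Module k X] [Module k Y] [Module k Z] (f : X →ₗ[k] Y) (g : Y →ₗ[k] Z)
    (hf : ∀ x, f x = 0 → x = 0) (hg : Function.Surjective g)
    (h : ∀ y, g y = 0 ↔ ∃ x, f x = y) [Module.Finite k X] [Module.Finite k Z] :
    Module.Finite k Y ∧ finrank k Y = finrank k X + finrank k Z := by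
  have hfi : Function.Injective f := (injective_iff_map_eq_zero f).2 hf
  have hk : LinearMap.ker g = LinearMap.range f := by
    ext y
    exact h y
  have f1 : Module.Finite k (LinearMap.range f) := inferInstance
  have f2 : Module.Finite k (Y ⧸ LinearMap.range f) := by
    rw [← hk]
    exact Module.Finite.equiv (g.quotKerEquivOfSurjective hg).symm
  have f3 : Module.Finite k Y := Module.Finite.of_submodule_quotient (LinearMap.range f)
  refine ⟨f3, ?_⟩
  have h1 := LinearMap.finrank_range_add_finrank_ker g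
  rw [LinearMap.range_eq_top.2 hg, finrank_top, hk, LinearMap.finrank_range_of_inj hfi] at h1
  omega

/-- the index lemma -/
private theorem dims_index {P P' A A' C : Type} [AddCommGroup P] [AddCommGroup P']
    [AddCommGroup A] [AddCommGroup A'] [AddCommGroup C] [Module k P] [Module k P'] [Module k A]
    [Module k A'] [Module k C] (i : P' →ₗ[k] P) (T : P →ₗ[k] P) (T' : P' →ₗ[k] P')
    (hi : ∀ v, i v = 0 → v = 0) (hT : ∀ v, T v = 0 → v = 0) (hiT : ∀ v, i (T' v) = T (i v))
    (a : P →ₗ[k] A) (a' : P' →ₗ[k] A') (c : P →ₗ[k] C) (ha : Function.Surjective a)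
    (ha' : Function.Surjective a') (hc : Function.Surjective c)
    (ka : ∀ v, a v = 0 ↔ ∃ w, v = T w) (ka' : ∀ v, a' v = 0 ↔ ∃ w, v = T' w)
    (kc : ∀ v, c v = 0 ↔ ∃ w, v = i w) [Module.Finite k A'] [Module.Finite k C] :
    Module.Finite k A ∧ finrank k A = finrank k A' := by
  have hi' : Function.Injective i := (injective_iff_map_eq_zero i).2 hi
  have hT' : Function.Injective T := (injective_iff_map_eq_zero T).2 hT
  let y : P →ₗ[k] (P ⧸ LinearMap.range (T ∘ₗ i)) := (LinearMap.range (T ∘ₗ i)).mkQ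
  have hy : Function.Surjective y := Submodule.mkQ_surjective _
  have ky : ∀ v, y v = 0 ↔ ∃ w, v = T (i w) := by
    intro v
    rw [Submodule.mkQ_apply, Submodule.Quotient.mk_eq_zero]
    constructor
    · rintro ⟨w, rfl⟩
      exact ⟨w, rfl⟩
    · rintro ⟨w, rfl⟩
      exact ⟨w, rfl⟩
  obtain ⟨f1, h1⟩ := dims_desc a' ha' (y ∘ₗ i) (by
    intro v hv
    obtain ⟨w, rfl⟩ := (ka' v).1 hv
    exact (ky _).2 ⟨w, hiT w⟩)
  obtain ⟨g1, h2⟩ := dims_desc y hy c (by
    intro v hv
    obtain ⟨w, rfl⟩ := (ky v).1 hv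
    exact (kc _).2 ⟨T' w, (hiT w).symm⟩)
  obtain ⟨f2, h3⟩ := dims_desc c hc (y ∘ₗ T) (by
    intro v hv
    obtain ⟨w, rfl⟩ := (kc v).1 hv
    exact (ky _).2 ⟨w, rfl⟩)
  obtain ⟨g2, h4⟩ := dims_desc y hy a (by
    intro v hv
    obtain ⟨w, rfl⟩ := (ky v).1 hv
    exact (ka _).2 ⟨i w, rfl⟩)
  have e1 := dims_exseq f1 g1 (by
    intro z hz
    obtain ⟨v, rfl⟩ := ha' z
    rw [h1] at hz
    obtain ⟨w, hw⟩ := (ky _).1 hz
    rw [← hiT] at hw
    exact (ka' v).2 ⟨w, hi' hw⟩) (by
    intro z
    obtain ⟨v, rfl⟩ := hc z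
    exact ⟨y v, h2 v⟩) (by
    intro z
    obtain ⟨v, rfl⟩ := hy z
    rw [h2, kc]
    constructor
    · rintro ⟨w, rfl⟩
      exact ⟨a' w, h1 w⟩
    · rintro ⟨t, ht⟩
      obtain ⟨w, rfl⟩ := ha' t
      rw [h1] at ht
      have h5 : y (v - i w) = 0 := by
        rw [map_sub, sub_eq_zero]
        exact ht.symm
      obtain ⟨w', hw'⟩ := (ky _).1 h5
      refine ⟨w + T' w', ?_⟩
      rw [map_add, hiT, ← hw']
      abel)
  obtain ⟨fY, e1⟩ := e1
  have fA : Module.Finite k A := Module.Finite.of_surjective g2 (by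
    intro z
    obtain ⟨v, rfl⟩ := ha z
    exact ⟨y v, h4 v⟩)
  refine ⟨fA, ?_⟩
  have e2 := dims_exseq f2 g2 (by
    intro z hz
    obtain ⟨v, rfl⟩ := hc z
    rw [h3] at hz
    obtain ⟨w, hw⟩ := (ky _).1 hz
    exact (kc v).2 ⟨w, hT' hw⟩) (by
    intro z
    obtain ⟨v, rfl⟩ := ha z
    exact ⟨y v, h4 v⟩) (by
    intro z
    obtain ⟨v, rfl⟩ := hy z
    rw [h4, ka]
    constructor
    · rintro ⟨w, rfl⟩
      exact ⟨c w, h3 w⟩
    · rintro ⟨t, ht⟩
      obtain ⟨w, rfl⟩ := hc t
      rw [h3] at ht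
      have h5 : y (v - T w) = 0 := by
        rw [map_sub, sub_eq_zero]
        exact ht.symm
      obtain ⟨w', hw'⟩ := (ky _).1 h5
      refine ⟨w + i w', ?_⟩
      rw [map_add, ← hw']
      abel)
  omega

end lin

section alg

variable {k S : Type} [Field k] [CommRing S] [Algebra k S]

/-- finitely generated modules killed by an ideal of finite colength -/
private theorem dims_killed {P : Type} [AddCommGroup P] [Module S P] [Module k P]
    [IsScalarTower k S P] [Module.Finite S P] (I : Ideal S) [Module.Finite k (S ⧸ I)]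
    (h : ∀ a ∈ I, ∀ v : P, a • v = 0) : Module.Finite k P := by
  obtain ⟨n, s, hs⟩ := Module.Finite.exists_fin (R := S) (M := P)
  let f : ∀ i : Fin n, (S ⧸ I) →ₗ[S] P := fun i =>
    Submodule.liftQ I (LinearMap.toSpanSingleton S P (s i)) (by
      intro a ha
      rw [LinearMap.mem_ker, LinearMap.toSpanSingleton_apply]
      exact h a ha _)
  let F : (Fin n → S ⧸ I) →ₗ[S] P := ∑ i, f i ∘ₗ LinearMap.proj i
  have hF : ∀ v, F v = ∑ i, f i (v i) := by
    intro v
    simp [F]
  have hsurj : Function.Surjective F := by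
    rw [← LinearMap.range_eq_top, eq_top_iff, ← hs, Submodule.span_le]
    rintro _ ⟨i, rfl⟩
    refine ⟨Pi.single i (Submodule.Quotient.mk 1), ?_⟩
    rw [hF, Finset.sum_eq_single i]
    · rw [Pi.single_eq_same]
      change LinearMap.toSpanSingleton S P (s i) 1 = s i
      simp
    · intro j _ hj
      rw [Pi.single_eq_of_ne hj, map_zero]
    · intro hi
      exact absurd (Finset.mem_univ i) hi
  exact Module.Finite.of_surjective (F.restrictScalars k) hsurj

private theorem dims_mk (I : Ideal S) (v : S) :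
    (Ideal.Quotient.mkₐ k I).toLinearMap v = 0 ↔ v ∈ I := Ideal.Quotient.eq_zero_iff_mem

private theorem dims_mk' (y v : S) :
    (Ideal.Quotient.mkₐ k (Ideal.span {y})).toLinearMap v = 0 ↔ ∃ w, v = y * w := by
  rw [dims_mk, Ideal.mem_span_singleton]
  rfl

private theorem dims_mks (I : Ideal S) :
    Function.Surjective (Ideal.Quotient.mkₐ k I).toLinearMap := Ideal.Quotient.mk_surjective

/-- powers of `x` have finite colength -/
private theorem dims_pow (x : S) [Module.Finite k (S ⧸ Ideal.span {x})]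
    (hxS : ∀ s : S, x * s = 0 → s = 0) (m : ℕ) :
    Module.Finite k (S ⧸ Ideal.span {x ^ m}) := by
  induction m with
  | zero =>
    have h1 : Subsingleton (S ⧸ Ideal.span {x ^ 0}) := by
      rw [Ideal.Quotient.subsingleton_iff, pow_zero, Ideal.span_singleton_one]
    exact inferInstance
  | succ m ih =>
    let y := (Ideal.Quotient.mkₐ k (Ideal.span {x ^ (m + 1)})).toLinearMap
    let c := (Ideal.Quotient.mkₐ k (Ideal.span {x ^ m})).toLinearMap
    let a := (Ideal.Quotient.mkₐ k (Ideal.span {x})).toLinearMap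
    obtain ⟨f, h3⟩ := dims_desc c (dims_mks _) (y ∘ₗ LinearMap.mulLeft k x) (by
      intro v hv
      obtain ⟨w, rfl⟩ := (dims_mk' _ _).1 hv
      refine (dims_mk' (k := k) _ _).2 ⟨w, ?_⟩
      change x * (x ^ m * w) = x ^ (m + 1) * w
      ring)
    obtain ⟨g, h4⟩ := dims_desc y (dims_mks _) a (by
      intro v hv
      obtain ⟨w, rfl⟩ := (dims_mk' _ _).1 hv
      exact (dims_mk' _ _).2 ⟨x ^ m * w, by ring⟩)
    refine (dims_exseq f g ?_ ?_ ?_).1
    · intro z hz
      obtain ⟨v, rfl⟩ := dims_mks (k := k) _ z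
      have h5 : y (x * v) = 0 := (h3 v).symm.trans hz
      obtain ⟨w, hw⟩ := (dims_mk' _ _).1 h5
      have h6 : v - x ^ m * w = 0 := hxS _ (by linear_combination hw)
      exact (dims_mk' _ _).2 ⟨w, sub_eq_zero.1 h6⟩
    · intro z
      obtain ⟨v, rfl⟩ := dims_mks (k := k) _ z
      exact ⟨y v, h4 v⟩
    · intro z
      obtain ⟨v, rfl⟩ := dims_mks (k := k) _ z
      constructor
      · intro h5
        have h6 : a v = 0 := (h4 v).symm.trans h5
        obtain ⟨w, rfl⟩ := (dims_mk' _ _).1 h6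
        exact ⟨c w, h3 w⟩
      · rintro ⟨t, ht⟩
        obtain ⟨w, rfl⟩ := dims_mks (k := k) _ t
        have h5 : y (x * w) = y v := (h3 w).symm.trans ht
        have h6 : y (v - x * w) = 0 := by rw [map_sub, h5, sub_self]
        obtain ⟨w', hw'⟩ := (dims_mk' _ _).1 h6
        refine (h4 v).trans ((dims_mk' _ _).2 ⟨w + x ^ m * w', ?_⟩)
        linear_combination hw'

/-- the index lemma for modules -/
private theorem dims_idx {P P' A A' : Type} [AddCommGroup P] [AddCommGroup P'] [AddCommGroup A]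
    [AddCommGroup A'] [Module S P] [Module S P'] [Module k P] [Module k P'] [Module k A]
    [Module k A'] [IsScalarTower k S P] [IsScalarTower k S P'] [Module.Finite S P]
    (x : S) [Module.Finite k (S ⧸ Ideal.span {x})] (hxS : ∀ s : S, x * s = 0 → s = 0)
    (hxP : ∀ v : P, x • v = 0 → v = 0) (i : P' →ₗ[S] P) (hi : ∀ v, i v = 0 → v = 0) (m : ℕ)
    (hm : ∀ u : P, ∃ v : P', x ^ m • u = i v) (a : P →ₗ[k] A) (a' : P' →ₗ[k] A')
    (ha : Function.Surjective a) (ha' : Function.Surjective a')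
    (ka : ∀ v, a v = 0 ↔ ∃ w, v = x • w) (ka' : ∀ v, a' v = 0 ↔ ∃ w, v = x • w)
    [Module.Finite k A'] : Module.Finite k A ∧ finrank k A = finrank k A' := by
  have f0 := dims_pow (k := k) x hxS m
  have fC : Module.Finite k (P ⧸ LinearMap.range i) := by
    refine dims_killed (S := S) (Ideal.span {x ^ m}) ?_
    intro s hs v
    obtain ⟨t, rfl⟩ := Ideal.mem_span_singleton'.1 hs
    obtain ⟨u, rfl⟩ := Submodule.mkQ_surjective _ v
    rw [← map_smul, Submodule.mkQ_apply, Submodule.Quotient.mk_eq_zero, mul_smul]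
    obtain ⟨w, hw⟩ := hm u
    rw [hw]
    exact ⟨t • w, map_smul i t w⟩
  refine dims_index (i.restrictScalars k) ((LinearMap.lsmul S P x).restrictScalars k)
    ((LinearMap.lsmul S P' x).restrictScalars k) hi hxP (fun v => map_smul i x v) a a'
    ((LinearMap.range i).mkQ.restrictScalars k) ha ha' (Submodule.mkQ_surjective _) ka ka' ?_
  intro v
  change (LinearMap.range i).mkQ v = 0 ↔ _
  rw [Submodule.mkQ_apply, Submodule.Quotient.mk_eq_zero]
  constructor
  · rintro ⟨w, rfl⟩
    exact ⟨w, rfl⟩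
  · rintro ⟨w, rfl⟩
    exact ⟨w, rfl⟩

end alg

section maps

variable {k S : Type} [Field k] [CommRing S] [Algebra k S]

private theorem dims_fin (e q : ℕ) : q * (q * e) = q ^ 2 * e := by ring

/-- the reduction of a vector modulo `x` -/
private noncomputable def dims_vec (k : Type) {S : Type} [Field k] [CommRing S] [Algebra k S]
    (x : S) (q : ℕ) : (Fin q → S) →ₗ[k] (Fin q → S ⧸ Ideal.span {x}) where
  toFun v := fun i => (Ideal.Quotient.mkₐ k (Ideal.span {x})) (v i)
  map_add' v w := by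
    funext i
    exact map_add (Ideal.Quotient.mkₐ k (Ideal.span {x})) (v i) (w i)
  map_smul' c v := by
    funext i
    exact map_smul (Ideal.Quotient.mkₐ k (Ideal.span {x})) c (v i)

private theorem dims_vec_surj (x : S) (q : ℕ) : Function.Surjective (dims_vec k x q) := by
  intro w
  choose v hv using fun i => dims_mks (k := k) (Ideal.span {x}) (w i)
  exact ⟨v, funext hv⟩

private theorem dims_vec_ker (x : S) (q : ℕ) (v : Fin q → S) :
    dims_vec k x q v = 0 ↔ ∃ w, v = x • w := by
  constructor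
  · intro h
    choose w hw using fun i => (dims_mk' (k := k) x (v i)).1 (congrFun h i)
    exact ⟨w, funext hw⟩
  · rintro ⟨w, rfl⟩
    funext i
    exact (dims_mk' (k := k) x _).2 ⟨w i, rfl⟩

/-- the reduction of an endomorphism of a free module modulo `x` -/
private noncomputable def dims_mat (k : Type) {S : Type} [Field k] [CommRing S] [Algebra k S]
    (x : S) (q : ℕ) :
    ((Fin q → S) →ₗ[S] (Fin q → S)) →ₗ[k] (Fin q → Fin q → S ⧸ Ideal.span {x}) where
  toFun φ := fun i => dims_vec k x q (φ (Pi.single i 1))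
  map_add' φ χ := by
    funext i
    exact map_add (dims_vec k x q) _ _
  map_smul' c φ := by
    funext i
    exact map_smul (dims_vec k x q) c _

private theorem dims_mat_surj (x : S) (q : ℕ) : Function.Surjective (dims_mat k x q) := by
  intro w
  choose v hv using fun i => dims_vec_surj (k := k) x q (w i)
  refine ⟨(Pi.basisFun S (Fin q)).constr S v, funext fun i => ?_⟩
  change dims_vec k x q ((Pi.basisFun S (Fin q)).constr S v (Pi.single i 1)) = w i
  rw [← Pi.basisFun_apply, Module.Basis.constr_basis, hv]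

private theorem dims_mat_ker (x : S) (q : ℕ) (φ : (Fin q → S) →ₗ[S] (Fin q → S)) :
    dims_mat k x q φ = 0 ↔ ∃ w, φ = x • w := by
  constructor
  · intro h
    choose w hw using fun i => (dims_vec_ker (k := k) x q (φ (Pi.single i 1))).1 (congrFun h i)
    refine ⟨(Pi.basisFun S (Fin q)).constr S w, (Pi.basisFun S (Fin q)).ext fun i => ?_⟩
    rw [LinearMap.smul_apply, Module.Basis.constr_basis, Pi.basisFun_apply, hw]
  · rintro ⟨w, rfl⟩
    funext i
    exact (dims_vec_ker (k := k) x q _).2 ⟨w (Pi.single i 1), rfl⟩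

end maps

theorem dims (k S M N : Type) [Field k] [CommRing S] [IsNoetherianRing S] [Algebra k S]
    [AddCommGroup M] [Module S M] [Module k M] [IsScalarTower k S M] [Module.Finite S M]
    [AddCommGroup N] [Module S N] [Module k N] [IsScalarTower k S N]
    (x : S) [Module.Finite k (S ⧸ Ideal.span {x})] (hxS : ∀ s : S, x * s = 0 → s = 0)
    (hxM : ∀ m : M, x • m = 0 → m = 0) (q : ℕ) (hAF : AF S M x q)
    (π : M →ₗ[S] N) (hπ : Function.Surjective π) (hk : ∀ m : M, π m = 0 ↔ ∃ w : M, m = x • w) :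
    Module.Finite k N ∧ finrank k N = q * finrank k (S ⧸ Ideal.span {x}) ∧
    q ^ 2 * finrank k (S ⧸ Ideal.span {x}) ≤ finrank k (Module.End S N) ∧
    (Lift S M x ↔ finrank k (Module.End S N) = q ^ 2 * finrank k (S ⧸ Ideal.span {x})) := by
  obtain ⟨n, j, p, hjp, hpj⟩ := hAF
  have hxnF : ∀ (n : ℕ) (v : Fin q → S), x ^ n • v = 0 → v = 0 := by
    intro n
    induction n with
    | zero =>
      intro v h
      simpa using h
    | succ n ih =>
      intro v h
      rw [pow_succ', mul_smul] at h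
      exact ih v (funext fun i => hxS _ (congrFun h i))
  have hj0 : ∀ v, j v = 0 → v = 0 := fun v hv => hxnF n v (by rw [← hpj, hv, map_zero])
  -- the dimension of `N`
  obtain ⟨fN, eN⟩ := dims_idx (k := k) x hxS hxM j hj0 n (fun u => ⟨p u, (hjp u).symm⟩)
    (π.restrictScalars k) (dims_vec k x q) hπ (dims_vec_surj x q) hk (dims_vec_ker x q)
  have e1 : finrank k (Fin q → S ⧸ Ideal.span {x}) = q * finrank k (S ⧸ Ideal.span {x}) := by
    rw [Module.finrank_pi_fintype]
    simp
  rw [e1] at eN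
  refine ⟨fN, eN, ?_⟩
  -- the endomorphisms of `M`
  let J : ((Fin q → S) →ₗ[S] (Fin q → S)) →ₗ[S] (M →ₗ[S] M) :=
    { toFun := fun φ => j ∘ₗ φ ∘ₗ p
      map_add' := fun φ χ => LinearMap.ext fun m => map_add j _ _
      map_smul' := fun c φ => LinearMap.ext fun m => map_smul j c _ }
  have hJ : ∀ φ m, J φ m = j (φ (p m)) := fun φ m => rfl
  have hJ0 : ∀ φ, J φ = 0 → φ = 0 := by
    intro φ h
    refine LinearMap.ext fun v => ?_
    have h1 : J φ (j v) = 0 := by rw [h, LinearMap.zero_apply]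
    rw [hJ, hpj, map_smul, map_smul] at h1
    have h2 : p (x ^ n • j (φ v)) = 0 := by rw [h1, map_zero]
    rw [map_smul, hpj] at h2
    exact hxnF n _ (hxnF n _ h2)
  let Λ : (M →ₗ[S] M) →ₗ[k] (M →ₗ[S] N) :=
    { toFun := fun ψ => π ∘ₗ ψ
      map_add' := fun φ χ => LinearMap.ext fun m => map_add π _ _
      map_smul' := fun c φ => LinearMap.ext fun m => map_smul (π.restrictScalars k) c _ }
  have hΛ : ∀ ψ m, Λ ψ m = π (ψ m) := fun ψ m => rfl
  have kΛ : ∀ ψ, Λ ψ = 0 ↔ ∃ w, ψ = x • w := by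
    intro ψ
    constructor
    · intro h
      have h1 : ∀ m, ∃ w, ψ m = x • w := fun m => (hk _).1 (by rw [← hΛ, h]; rfl)
      choose f hf using h1
      have inj : ∀ u v : M, x • u = x • v → u = v := fun u v h2 =>
        sub_eq_zero.1 (hxM _ (by rw [smul_sub, h2, sub_self]))
      refine ⟨{ toFun := f, map_add' := fun u v => inj _ _ ?_, map_smul' := fun c u => inj _ _ ?_ },
        LinearMap.ext fun m => hf m⟩
      · rw [smul_add, ← hf, ← hf, ← hf, map_add]
      · rw [RingHom.id_apply, smul_comm x c, ← hf, ← hf, map_smul]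
    · rintro ⟨w, rfl⟩
      refine LinearMap.ext fun m => ?_
      rw [hΛ]
      exact (hk _).2 ⟨w m, rfl⟩
  obtain ⟨fA, eA⟩ := dims_idx (k := k) x hxS
    (fun (ψ : M →ₗ[S] M) h => LinearMap.ext fun m => hxM _ (LinearMap.congr_fun h m)) J hJ0
    (2 * n) (fun ψ => ⟨p ∘ₗ ψ ∘ₗ j, by
      refine LinearMap.ext fun m => ?_
      rw [hJ]
      change x ^ (2 * n) • ψ m = j (p (ψ (j (p m))))
      rw [hjp, hjp, map_smul, smul_smul]
      congr 1
      ring⟩)
    Λ.rangeRestrict (dims_mat k x q) (LinearMap.surjective_rangeRestrict _) (dims_mat_surj x q)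
    (fun ψ => by
      rw [← kΛ]
      constructor
      · intro h
        exact congrArg Subtype.val h
      · intro h
        exact Subtype.ext h) (dims_mat_ker x q)
  have e2 : finrank k (Fin q → Fin q → S ⧸ Ideal.span {x}) =
      q ^ 2 * finrank k (S ⧸ Ideal.span {x}) := by
    rw [Module.finrank_pi_fintype]
    simp only [e1, Finset.sum_const, Finset.card_univ, Fintype.card_fin, smul_eq_mul]
    exact dims_fin _ q
  rw [e2] at eA
  -- `End N = Hom(M, N)`
  have xN : ∀ y : N, x • y = 0 := by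
    intro y
    obtain ⟨m, rfl⟩ := hπ y
    rw [← map_smul]
    exact (hk _).2 ⟨m, rfl⟩
  let Θ : (N →ₗ[S] N) →ₗ[k] (M →ₗ[S] N) :=
    { toFun := fun φ => φ ∘ₗ π
      map_add' := fun φ χ => rfl
      map_smul' := fun c φ => rfl }
  have hΘ : ∀ φ m, Θ φ m = φ (π m) := fun φ m => rfl
  have Θi : Function.Injective Θ := by
    intro φ χ h
    refine LinearMap.ext fun y => ?_
    obtain ⟨m, rfl⟩ := hπ y
    exact LinearMap.congr_fun h m
  have Θs : Function.Surjective Θ := by
    intro φ
    obtain ⟨f, hf⟩ := dims_desc π hπ φ (by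
      intro m hm
      obtain ⟨w, rfl⟩ := (hk m).1 hm
      rw [map_smul, xN])
    exact ⟨f, LinearMap.ext hf⟩
  let R : (N →ₗ[S] N) →ₗ[k] (N →ₗ[k] N) :=
    { toFun := fun φ => φ.restrictScalars k
      map_add' := fun φ χ => rfl
      map_smul' := fun c φ => rfl }
  have Ri : Function.Injective R := by
    intro φ χ h
    refine LinearMap.ext fun y => ?_
    exact LinearMap.congr_fun h y
  have fEnd : Module.Finite k (N →ₗ[S] N) := Module.Finite.of_injective R Ri
  let Θe := LinearEquiv.ofBijective Θ ⟨Θi, Θs⟩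
  have fHom : Module.Finite k (M →ₗ[S] N) := Module.Finite.equiv Θe
  have e3 : finrank k (Module.End S N) = finrank k (M →ₗ[S] N) := Θe.finrank_eq
  rw [e3]
  refine ⟨?_, ?_⟩
  · rw [← eA]
    exact Submodule.finrank_le _
  · rw [← eA]
    constructor
    · intro hL
      have h1 : LinearMap.range Λ = ⊤ := by
        rw [eq_top_iff]
        intro φ _
        obtain ⟨ψ, hψ⟩ := hL N π hπ hk φ
        exact ⟨ψ, LinearMap.ext hψ⟩
      rw [h1, finrank_top]
    · intro h
      have h1 : LinearMap.range Λ = ⊤ := Submodule.eq_top_of_finrank_eq h.symm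
      intro N1 _ _ π1 hπ1 hk1 φ1
      obtain ⟨θ, hθ⟩ := dims_desc π1 hπ1 π (by
        intro m hm
        exact (hk m).2 ((hk1 m).1 hm))
      have h2 : θ ∘ₗ φ1 ∈ LinearMap.range Λ := h1 ▸ Submodule.mem_top
      obtain ⟨ψ, hψ⟩ := h2
      refine ⟨ψ, fun m => ?_⟩
      obtain ⟨m', hm'⟩ := hπ1 (φ1 m)
      have h3 : π (ψ m) = θ (φ1 m) := LinearMap.congr_fun hψ m
      rw [← hm', hθ, ← sub_eq_zero, ← map_sub] at h3
      have h4 := (hk1 _).2 ((hk _).1 h3)
      rw [map_sub, sub_eq_zero] at h4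
      rw [h4, hm']

end Pool.Agent.HWC
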