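import Pool.Agent.HWC.DefsL

/-!
# HWC, module DimsL (helper98 for helper11)

The proof of Dims.lean with lengths over a commutative ring instead of dimensions.
-/

set_option autoImplicit false

namespace Pool.Agent.HWC

open IsLocalRing Module

section lin

/-- a linear map factors through a surjective one -/
private theorem dimsL_desc {R P A Y : Type} [CommRing R] [AddCommGroup P] [AddCommGroup A]
    [AddCommGroup Y] [Module R P] [Module R A] [Module R Y] (a : P →ₗ[R] A)
    (ha : Function.Surjective a) (g : P →ₗ[R] Y) (h : ∀ v, a v = 0 → g v = 0) :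
    ∃ f : A →ₗ[R] Y, ∀ v, f (a v) = g v := by
  have hle : LinearMap.ker a ≤ LinearMap.ker g := fun v hv => h v hv
  refine ⟨(LinearMap.ker a).liftQ g hle ∘ₗ (a.quotKerEquivOfSurjective ha).symm.toLinearMap,
    fun v => ?_⟩
  have h1 : (a.quotKerEquivOfSurjective ha).symm (a v) = Submodule.Quotient.mk v := by
    rw [LinearEquiv.symm_apply_eq]
    rfl
  rw [LinearMap.comp_apply, LinearEquiv.coe_coe, h1]
  rfl

variable {Λ : Type} [CommRing Λ]

/-- lengths in a short exact sequence -/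
private theorem dimsL_exseq {X Y Z : Type} [AddCommGroup X] [AddCommGroup Y] [AddCommGroup Z]
    [Module Λ X] [Module Λ Y] [Module Λ Z] (f : X →ₗ[Λ] Y) (g : Y →ₗ[Λ] Z)
    (hf : ∀ x, f x = 0 → x = 0) (hg : Function.Surjective g)
    (h : ∀ y, g y = 0 ↔ ∃ x, f x = y) :
    Module.length Λ Y = Module.length Λ X + Module.length Λ Z :=
  Module.length_eq_add_of_exact f g ((injective_iff_map_eq_zero f).2 hf) hg h

/-- a submodule of full finite length is everything -/
private theorem dimsL_top {Y : Type} [AddCommGroup Y] [Module Λ Y] (X : Submodule Λ Y)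
    (hY : Module.length Λ Y ≠ ⊤) (h : Module.length Λ X = Module.length Λ Y) : X = ⊤ := by
  have h1 := Module.length_eq_add_of_exact X.subtype X.mkQ (Submodule.subtype_injective _)
    (Submodule.mkQ_surjective _) (LinearMap.exact_subtype_mkQ X)
  rw [h] at h1
  have h2 : Module.length Λ (Y ⧸ X) = 0 := by
    have h3 : Module.length Λ Y + 0 = Module.length Λ Y + Module.length Λ (Y ⧸ X) := by
      rw [add_zero]
      exact h1
    exact (ENat.add_right_injective_of_ne_top hY h3).symm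
  rw [Module.length_eq_zero_iff] at h2
  exact Submodule.Quotient.subsingleton_iff.1 h2

/-- the index lemma -/
private theorem dimsL_index {P P' A A' C : Type} [AddCommGroup P] [AddCommGroup P']
    [AddCommGroup A] [AddCommGroup A'] [AddCommGroup C] [Module Λ P] [Module Λ P'] [Module Λ A]
    [Module Λ A'] [Module Λ C] (i : P' →ₗ[Λ] P) (T : P →ₗ[Λ] P) (T' : P' →ₗ[Λ] P')
    (hi : ∀ v, i v = 0 → v = 0) (hT : ∀ v, T v = 0 → v = 0) (hiT : ∀ v, i (T' v) = T (i v))
    (a : P →ₗ[Λ] A) (a' : P' →ₗ[Λ] A') (c : P →ₗ[Λ] C) (ha : Function.Surjective a)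
    (ha' : Function.Surjective a') (hc : Function.Surjective c)
    (ka : ∀ v, a v = 0 ↔ ∃ w, v = T w) (ka' : ∀ v, a' v = 0 ↔ ∃ w, v = T' w)
    (kc : ∀ v, c v = 0 ↔ ∃ w, v = i w) (hC : Module.length Λ C ≠ ⊤) :
    Module.length Λ A = Module.length Λ A' := by
  have hi' : Function.Injective i := (injective_iff_map_eq_zero i).2 hi
  have hT' : Function.Injective T := (injective_iff_map_eq_zero T).2 hT
  let y : P →ₗ[Λ] (P ⧸ LinearMap.range (T ∘ₗ i)) := (LinearMap.range (T ∘ₗ i)).mkQ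
  have hy : Function.Surjective y := Submodule.mkQ_surjective _
  have ky : ∀ v, y v = 0 ↔ ∃ w, v = T (i w) := by
    intro v
    rw [Submodule.mkQ_apply, Submodule.Quotient.mk_eq_zero]
    constructor
    · rintro ⟨w, rfl⟩
      exact ⟨w, rfl⟩
    · rintro ⟨w, rfl⟩
      exact ⟨w, rfl⟩
  obtain ⟨f1, h1⟩ := dimsL_desc a' ha' (y ∘ₗ i) (by
    intro v hv
    obtain ⟨w, rfl⟩ := (ka' v).1 hv
    exact (ky _).2 ⟨w, hiT w⟩)
  obtain ⟨g1, h2⟩ := dimsL_desc y hy c (by
    intro v hv
    obtain ⟨w, rfl⟩ := (ky v).1 hv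
    exact (kc _).2 ⟨T' w, (hiT w).symm⟩)
  obtain ⟨f2, h3⟩ := dimsL_desc c hc (y ∘ₗ T) (by
    intro v hv
    obtain ⟨w, rfl⟩ := (kc v).1 hv
    exact (ky _).2 ⟨w, rfl⟩)
  obtain ⟨g2, h4⟩ := dimsL_desc y hy a (by
    intro v hv
    obtain ⟨w, rfl⟩ := (ky v).1 hv
    exact (ka _).2 ⟨i w, rfl⟩)
  have e1 := dimsL_exseq f1 g1 (by
    intro z hz
    obtain ⟨v, rfl⟩ := ha' z
    rw [h1] at hz
    obtain ⟨w, hw⟩ := (ky _).1 hz
    rw [← hiT] at hw
    exact (ka' v).2 ⟨w, hi' hw⟩) (by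
    intro z
    obtain ⟨v, rfl⟩ := hc z
    exact ⟨y v, h2 v⟩) (by
    intro z
    obtain ⟨v, rfl⟩ := hy z
    rw [h2, kc]
    constructor
    · rintro ⟨w, rfl⟩
      exact ⟨a' w, h1 w⟩
    · rintro ⟨t, ht⟩
      obtain ⟨w, rfl⟩ := ha' t
      rw [h1] at ht
      have h5 : y (v - i w) = 0 := by
        rw [map_sub, sub_eq_zero]
        exact ht.symm
      obtain ⟨w', hw'⟩ := (ky _).1 h5
      refine ⟨w + T' w', ?_⟩
      rw [map_add, hiT, ← hw']
      abel)
  have e2 := dimsL_exseq f2 g2 (by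
    intro z hz
    obtain ⟨v, rfl⟩ := hc z
    rw [h3] at hz
    obtain ⟨w, hw⟩ := (ky _).1 hz
    exact (kc v).2 ⟨w, hT' hw⟩) (by
    intro z
    obtain ⟨v, rfl⟩ := ha z
    exact ⟨y v, h4 v⟩) (by
    intro z
    obtain ⟨v, rfl⟩ := hy z
    rw [h4, ka]
    constructor
    · rintro ⟨w, rfl⟩
      exact ⟨c w, h3 w⟩
    · rintro ⟨t, ht⟩
      obtain ⟨w, rfl⟩ := hc t
      rw [h3] at ht
      have h5 : y (v - T w) = 0 := by
        rw [map_sub, sub_eq_zero]
        exact ht.symm
      obtain ⟨w', hw'⟩ := (ky _).1 h5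
      refine ⟨w + i w', ?_⟩
      rw [map_add, ← hw']
      abel)
  rw [e1, add_comm] at e2
  exact (ENat.add_right_injective_of_ne_top hC e2).symm

end lin

section alg

variable {Λ S : Type} [CommRing Λ] [CommRing S] [Algebra Λ S]

/-- finitely generated modules killed by an ideal of finite colength -/
private theorem dimsL_killed {P : Type} [AddCommGroup P] [Module S P] [Module Λ P]
    [IsScalarTower Λ S P] [Module.Finite S P] (I : Ideal S) (hI : Module.length Λ (S ⧸ I) ≠ ⊤)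
    (h : ∀ a ∈ I, ∀ v : P, a • v = 0) : Module.length Λ P ≠ ⊤ := by
  obtain ⟨n, s, hs⟩ := Module.Finite.exists_fin (R := S) (M := P)
  let f : ∀ i : Fin n, (S ⧸ I) →ₗ[S] P := fun i =>
    Submodule.liftQ I (LinearMap.toSpanSingleton S P (s i)) (by
      intro a ha
      rw [LinearMap.mem_ker, LinearMap.toSpanSingleton_apply]
      exact h a ha _)
  let F : (Fin n → S ⧸ I) →ₗ[S] P := ∑ i, f i ∘ₗ LinearMap.proj i
  have hF : ∀ v, F v = ∑ i, f i (v i) := by
    intro v
    simp [F]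
  have hsurj : Function.Surjective F := by
    rw [← LinearMap.range_eq_top, eq_top_iff, ← hs, Submodule.span_le]
    rintro _ ⟨i, rfl⟩
    refine ⟨Pi.single i (Submodule.Quotient.mk 1), ?_⟩
    rw [hF, Finset.sum_eq_single i]
    · rw [Pi.single_eq_same]
      change LinearMap.toSpanSingleton S P (s i) 1 = s i
      simp
    · intro j _ hj
      rw [Pi.single_eq_of_ne hj, map_zero]
    · intro hi
      exact absurd (Finset.mem_univ i) hi
  have h1 := Module.length_le_of_surjective (F.restrictScalars Λ) hsurj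
  refine ne_top_of_le_ne_top ?_ h1
  rw [Module.length_pi, ENat.card_eq_coe_fintype_card]
  exact WithTop.mul_ne_top (ENat.natCast_ne_top _) hI

private theorem dimsL_mk (I : Ideal S) (v : S) :
    (Ideal.Quotient.mkₐ Λ I).toLinearMap v = 0 ↔ v ∈ I := Ideal.Quotient.eq_zero_iff_mem

private theorem dimsL_mk' (y v : S) :
    (Ideal.Quotient.mkₐ Λ (Ideal.span {y})).toLinearMap v = 0 ↔ ∃ w, v = y * w := by
  rw [dimsL_mk, Ideal.mem_span_singleton]
  rfl

private theorem dimsL_mks (I : Ideal S) :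
    Function.Surjective (Ideal.Quotient.mkₐ Λ I).toLinearMap := Ideal.Quotient.mk_surjective

/-- powers of `x` have finite colength -/
private theorem dimsL_pow (x : S) (hfin : Module.length Λ (S ⧸ Ideal.span {x}) ≠ ⊤)
    (hxS : ∀ s : S, x * s = 0 → s = 0) (m : ℕ) :
    Module.length Λ (S ⧸ Ideal.span {x ^ m}) ≠ ⊤ := by
  induction m with
  | zero =>
    have h1 : Subsingleton (S ⧸ Ideal.span {x ^ 0}) := by
      rw [Ideal.Quotient.subsingleton_iff, pow_zero, Ideal.span_singleton_one]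
    rw [Module.length_eq_zero]
    exact ENat.zero_ne_top
  | succ m ih =>
    let y := (Ideal.Quotient.mkₐ Λ (Ideal.span {x ^ (m + 1)})).toLinearMap
    let c := (Ideal.Quotient.mkₐ Λ (Ideal.span {x ^ m})).toLinearMap
    let a := (Ideal.Quotient.mkₐ Λ (Ideal.span {x})).toLinearMap
    obtain ⟨f, h3⟩ := dimsL_desc c (dimsL_mks _) (y ∘ₗ LinearMap.mulLeft Λ x) (by
      intro v hv
      obtain ⟨w, rfl⟩ := (dimsL_mk' _ _).1 hv
      refine (dimsL_mk' (Λ := Λ) _ _).2 ⟨w, ?_⟩
      change x * (x ^ m * w) = x ^ (m + 1) * w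
      ring)
    obtain ⟨g, h4⟩ := dimsL_desc y (dimsL_mks _) a (by
      intro v hv
      obtain ⟨w, rfl⟩ := (dimsL_mk' _ _).1 hv
      exact (dimsL_mk' _ _).2 ⟨x ^ m * w, by ring⟩)
    have key : Module.length Λ (S ⧸ Ideal.span {x ^ (m + 1)})
        = Module.length Λ (S ⧸ Ideal.span {x ^ m}) + Module.length Λ (S ⧸ Ideal.span {x}) := ?_
    · rw [key]
      exact WithTop.add_ne_top.2 ⟨ih, hfin⟩
    refine dimsL_exseq f g ?_ ?_ ?_
    · intro z hz
      obtain ⟨v, rfl⟩ := dimsL_mks (Λ := Λ) _ z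
      have h5 : y (x * v) = 0 := (h3 v).symm.trans hz
      obtain ⟨w, hw⟩ := (dimsL_mk' _ _).1 h5
      have h6 : v - x ^ m * w = 0 := hxS _ (by linear_combination hw)
      exact (dimsL_mk' _ _).2 ⟨w, sub_eq_zero.1 h6⟩
    · intro z
      obtain ⟨v, rfl⟩ := dimsL_mks (Λ := Λ) _ z
      exact ⟨y v, h4 v⟩
    · intro z
      obtain ⟨v, rfl⟩ := dimsL_mks (Λ := Λ) _ z
      constructor
      · intro h5
        have h6 : a v = 0 := (h4 v).symm.trans h5
        obtain ⟨w, rfl⟩ := (dimsL_mk' _ _).1 h6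
        exact ⟨c w, h3 w⟩
      · rintro ⟨t, ht⟩
        obtain ⟨w, rfl⟩ := dimsL_mks (Λ := Λ) _ t
        have h5 : y (x * w) = y v := (h3 w).symm.trans ht
        have h6 : y (v - x * w) = 0 := by rw [map_sub, h5, sub_self]
        obtain ⟨w', hw'⟩ := (dimsL_mk' _ _).1 h6
        refine (h4 v).trans ((dimsL_mk' _ _).2 ⟨w + x ^ m * w', ?_⟩)
        linear_combination hw'

/-- the cokernel of a map whose image contains `x ^ m P` -/
private theorem dimsL_cok {P P' : Type} [AddCommGroup P]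
    [AddCommGroup P'] [Module S P] [Module S P'] [Module Λ P]
    [IsScalarTower Λ S P] [Module.Finite S P]
    (x : S) (m : ℕ) (f0 : Module.length Λ (S ⧸ Ideal.span {x ^ m}) ≠ ⊤) (i : P' →ₗ[S] P)
    (hm : ∀ u : P, ∃ v : P', x ^ m • u = i v) :
    Module.length Λ (P ⧸ LinearMap.range i) ≠ ⊤ := by
  refine dimsL_killed (S := S) (Ideal.span {x ^ m}) f0 ?_
  intro s hs v
  obtain ⟨t, rfl⟩ := Ideal.mem_span_singleton'.1 hs
  obtain ⟨u, rfl⟩ := Submodule.mkQ_surjective _ v
  rw [← map_smul, Submodule.mkQ_apply, Submodule.Quotient.mk_eq_zero, mul_smul]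
  obtain ⟨w, hw⟩ := hm u
  rw [hw]
  exact ⟨t • w, map_smul i t w⟩

/-- the index lemma for modules -/
private theorem dimsL_idx {P P' A A' : Type} [AddCommGroup P] [AddCommGroup P'] [AddCommGroup A]
    [AddCommGroup A'] [Module S P] [Module S P'] [Module Λ P] [Module Λ P'] [Module Λ A]
    [Module Λ A'] [IsScalarTower Λ S P] [IsScalarTower Λ S P'] [Module.Finite S P]
    (x : S) (hfin : Module.length Λ (S ⧸ Ideal.span {x}) ≠ ⊤) (hxS : ∀ s : S, x * s = 0 → s = 0)
    (hxP : ∀ v : P, x • v = 0 → v = 0) (i : P' →ₗ[S] P) (hi : ∀ v, i v = 0 → v = 0) (m : ℕ)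
    (hm : ∀ u : P, ∃ v : P', x ^ m • u = i v) (a : P →ₗ[Λ] A) (a' : P' →ₗ[Λ] A')
    (ha : Function.Surjective a) (ha' : Function.Surjective a')
    (ka : ∀ v, a v = 0 ↔ ∃ w, v = x • w) (ka' : ∀ v, a' v = 0 ↔ ∃ w, v = x • w) :
    Module.length Λ A = Module.length Λ A' := by
  have f0 := dimsL_pow (Λ := Λ) x hfin hxS m
  have fC : Module.length Λ (P ⧸ LinearMap.range i) ≠ ⊤ := dimsL_cok x m f0 i hm
  have kc : ∀ v : P, (LinearMap.range i).mkQ.restrictScalars Λ v = 0 ↔
      ∃ w, v = i.restrictScalars Λ w := by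
    intro v
    change (LinearMap.range i).mkQ v = 0 ↔ _
    rw [Submodule.mkQ_apply, Submodule.Quotient.mk_eq_zero]
    constructor
    · rintro ⟨w, rfl⟩
      exact ⟨w, rfl⟩
    · rintro ⟨w, rfl⟩
      exact ⟨w, rfl⟩
  have hc : Function.Surjective ((LinearMap.range i).mkQ.restrictScalars Λ) := by
    intro z
    obtain ⟨v, hv⟩ := Submodule.mkQ_surjective (LinearMap.range i) z
    exact ⟨v, hv⟩
  exact dimsL_index (C := P ⧸ LinearMap.range i) (i.restrictScalars Λ)
    ((LinearMap.lsmul S P x).restrictScalars Λ)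
    ((LinearMap.lsmul S P' x).restrictScalars Λ) hi hxP (fun v => map_smul i x v) a a'
    ((LinearMap.range i).mkQ.restrictScalars Λ) ha ha' hc ka ka' kc fC

end alg

section maps

variable {Λ S : Type} [CommRing Λ] [CommRing S] [Algebra Λ S]

private theorem dimsL_fin (e q : ℕ∞) : q * (q * e) = q ^ 2 * e := by ring

/-- the reduction of a vector modulo `x` -/
private noncomputable def dimsL_vec (Λ : Type) {S : Type} [CommRing Λ] [CommRing S] [Algebra Λ S]
    (x : S) (q : ℕ) : (Fin q → S) →ₗ[Λ] (Fin q → S ⧸ Ideal.span {x}) where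
  toFun v := fun i => (Ideal.Quotient.mkₐ Λ (Ideal.span {x})) (v i)
  map_add' v w := by
    funext i
    exact map_add (Ideal.Quotient.mkₐ Λ (Ideal.span {x})) (v i) (w i)
  map_smul' c v := by
    funext i
    exact map_smul (Ideal.Quotient.mkₐ Λ (Ideal.span {x})) c (v i)

private theorem dimsL_vec_surj (x : S) (q : ℕ) : Function.Surjective (dimsL_vec Λ x q) := by
  intro w
  choose v hv using fun i => dimsL_mks (Λ := Λ) (Ideal.span {x}) (w i)
  exact ⟨v, funext hv⟩

private theorem dimsL_vec_ker (x : S) (q : ℕ) (v : Fin q → S) :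
    dimsL_vec Λ x q v = 0 ↔ ∃ w, v = x • w := by
  constructor
  · intro h
    choose w hw using fun i => (dimsL_mk' (Λ := Λ) x (v i)).1 (congrFun h i)
    exact ⟨w, funext hw⟩
  · rintro ⟨w, rfl⟩
    funext i
    exact (dimsL_mk' (Λ := Λ) x _).2 ⟨w i, rfl⟩

/-- the reduction of an endomorphism of a free module modulo `x` -/
private noncomputable def dimsL_mat (Λ : Type) {S : Type} [CommRing Λ] [CommRing S] [Algebra Λ S]
    (x : S) (q : ℕ) :
    ((Fin q → S) →ₗ[S] (Fin q → S)) →ₗ[Λ] (Fin q → Fin q → S ⧸ Ideal.span {x}) where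
  toFun φ := fun i => dimsL_vec Λ x q (φ (Pi.single i 1))
  map_add' φ χ := by
    funext i
    exact map_add (dimsL_vec Λ x q) _ _
  map_smul' c φ := by
    funext i
    exact map_smul (dimsL_vec Λ x q) c _

private theorem dimsL_mat_surj (x : S) (q : ℕ) : Function.Surjective (dimsL_mat Λ x q) := by
  intro w
  choose v hv using fun i => dimsL_vec_surj (Λ := Λ) x q (w i)
  refine ⟨(Pi.basisFun S (Fin q)).constr S v, funext fun i => ?_⟩
  change dimsL_vec Λ x q ((Pi.basisFun S (Fin q)).constr S v (Pi.single i 1)) = w i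
  rw [← Pi.basisFun_apply, Module.Basis.constr_basis, hv]

private theorem dimsL_mat_ker (x : S) (q : ℕ) (φ : (Fin q → S) →ₗ[S] (Fin q → S)) :
    dimsL_mat Λ x q φ = 0 ↔ ∃ w, φ = x • w := by
  constructor
  · intro h
    choose w hw using fun i => (dimsL_vec_ker (Λ := Λ) x q (φ (Pi.single i 1))).1 (congrFun h i)
    refine ⟨(Pi.basisFun S (Fin q)).constr S w, (Pi.basisFun S (Fin q)).ext fun i => ?_⟩
    rw [LinearMap.smul_apply, Module.Basis.constr_basis, Pi.basisFun_apply, hw]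
  · rintro ⟨w, rfl⟩
    funext i
    exact (dimsL_vec_ker (Λ := Λ) x q _).2 ⟨w (Pi.single i 1), rfl⟩

end maps

theorem dimsL (Λ S M N : Type) [CommRing Λ] [CommRing S] [IsNoetherianRing S] [Algebra Λ S]
    [AddCommGroup M] [Module S M] [Module Λ M] [IsScalarTower Λ S M] [Module.Finite S M]
    [AddCommGroup N] [Module S N] [Module Λ N] [IsScalarTower Λ S N]
    (x : S) (hfin : Module.length Λ (S ⧸ Ideal.span {x}) ≠ ⊤) (hxS : ∀ s : S, x * s = 0 → s = 0)
    (hxM : ∀ m : M, x • m = 0 → m = 0) (q : ℕ) (hAF : AF S M x q)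
    (π : M →ₗ[S] N) (hπ : Function.Surjective π) (hk : ∀ m : M, π m = 0 ↔ ∃ w : M, m = x • w) :
    Module.length Λ N = q * Module.length Λ (S ⧸ Ideal.span {x}) ∧
    Module.length Λ (Module.End S N) ≠ ⊤ ∧
    (q : ℕ∞) ^ 2 * Module.length Λ (S ⧸ Ideal.span {x}) ≤ Module.length Λ (Module.End S N) ∧
    (Lift S M x ↔
      Module.length Λ (Module.End S N) = (q : ℕ∞) ^ 2 * Module.length Λ (S ⧸ Ideal.span {x})) := by
  obtain ⟨n, j, p, hjp, hpj⟩ := hAF
  have hxnF : ∀ (n : ℕ) (v : Fin q → S), x ^ n • v = 0 → v = 0 := by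
    intro n
    induction n with
    | zero =>
      intro v h
      simpa using h
    | succ n ih =>
      intro v h
      rw [pow_succ', mul_smul] at h
      exact ih v (funext fun i => hxS _ (congrFun h i))
  have hj0 : ∀ v, j v = 0 → v = 0 := fun v hv => hxnF n v (by rw [← hpj, hv, map_zero])
  -- the dimension of `N`
  have eN := dimsL_idx (Λ := Λ) x hfin hxS hxM j hj0 n (fun u => ⟨p u, (hjp u).symm⟩)
    (π.restrictScalars Λ) (dimsL_vec Λ x q) hπ (dimsL_vec_surj x q) hk (dimsL_vec_ker x q)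
  have e1 : Module.length Λ (Fin q → S ⧸ Ideal.span {x})
      = (q : ℕ∞) * Module.length Λ (S ⧸ Ideal.span {x}) := by
    rw [Module.length_pi]
    simp
  rw [e1] at eN
  refine ⟨eN, ?_⟩
  -- the endomorphisms of `M`
  let J : ((Fin q → S) →ₗ[S] (Fin q → S)) →ₗ[S] (M →ₗ[S] M) :=
    { toFun := fun φ => j ∘ₗ φ ∘ₗ p
      map_add' := fun φ χ => LinearMap.ext fun m => map_add j _ _
      map_smul' := fun c φ => LinearMap.ext fun m => map_smul j c _ }
  have hJ : ∀ φ m, J φ m = j (φ (p m)) := fun φ m => rfl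
  have hJ0 : ∀ φ, J φ = 0 → φ = 0 := by
    intro φ h
    refine LinearMap.ext fun v => ?_
    have h1 : J φ (j v) = 0 := by rw [h, LinearMap.zero_apply]
    rw [hJ, hpj, map_smul, map_smul] at h1
    have h2 : p (x ^ n • j (φ v)) = 0 := by rw [h1, map_zero]
    rw [map_smul, hpj] at h2
    exact hxnF n _ (hxnF n _ h2)
  let Lm : (M →ₗ[S] M) →ₗ[Λ] (M →ₗ[S] N) :=
    { toFun := fun ψ => π ∘ₗ ψ
      map_add' := fun φ χ => LinearMap.ext fun m => map_add π _ _
      map_smul' := fun c φ => LinearMap.ext fun m => map_smul (π.restrictScalars Λ) c _ }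
  have hLm : ∀ ψ m, Lm ψ m = π (ψ m) := fun ψ m => rfl
  have kLm : ∀ ψ, Lm ψ = 0 ↔ ∃ w, ψ = x • w := by
    intro ψ
    constructor
    · intro h
      have h1 : ∀ m, ∃ w, ψ m = x • w := fun m => (hk _).1 (by rw [← hLm, h]; rfl)
      choose f hf using h1
      have inj : ∀ u v : M, x • u = x • v → u = v := fun u v h2 =>
        sub_eq_zero.1 (hxM _ (by rw [smul_sub, h2, sub_self]))
      refine ⟨{ toFun := f, map_add' := fun u v => inj _ _ ?_, map_smul' := fun c u => inj _ _ ?_ },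
        LinearMap.ext fun m => hf m⟩
      · rw [smul_add, ← hf, ← hf, ← hf, map_add]
      · rw [RingHom.id_apply, smul_comm x c, ← hf, ← hf, map_smul]
    · rintro ⟨w, rfl⟩
      refine LinearMap.ext fun m => ?_
      rw [hLm]
      exact (hk _).2 ⟨w m, rfl⟩
  have eA := dimsL_idx (Λ := Λ) x hfin hxS
    (fun (ψ : M →ₗ[S] M) h => LinearMap.ext fun m => hxM _ (LinearMap.congr_fun h m)) J hJ0
    (2 * n) (fun ψ => ⟨p ∘ₗ ψ ∘ₗ j, by
      refine LinearMap.ext fun m => ?_
      rw [hJ]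
      change x ^ (2 * n) • ψ m = j (p (ψ (j (p m))))
      rw [hjp, hjp, map_smul, smul_smul]
      congr 1
      ring⟩)
    Lm.rangeRestrict (dimsL_mat Λ x q) (LinearMap.surjective_rangeRestrict _) (dimsL_mat_surj x q)
    (fun ψ => by
      rw [← kLm]
      constructor
      · intro h
        exact congrArg Subtype.val h
      · intro h
        exact Subtype.ext h) (dimsL_mat_ker x q)
  have e2 : Module.length Λ (Fin q → Fin q → S ⧸ Ideal.span {x}) =
      (q : ℕ∞) ^ 2 * Module.length Λ (S ⧸ Ideal.span {x}) := by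
    rw [Module.length_pi, e1]
    simp only [ENat.card_eq_coe_fintype_card, Fintype.card_fin]
    exact dimsL_fin _ _
  rw [e2] at eA
  -- `End N = Hom(M, N)`
  have xN : ∀ y : N, x • y = 0 := by
    intro y
    obtain ⟨m, rfl⟩ := hπ y
    rw [← map_smul]
    exact (hk _).2 ⟨m, rfl⟩
  let Θ : (N →ₗ[S] N) →ₗ[Λ] (M →ₗ[S] N) :=
    { toFun := fun φ => φ ∘ₗ π
      map_add' := fun φ χ => rfl
      map_smul' := fun c φ => rfl }
  have hΘ : ∀ φ m, Θ φ m = φ (π m) := fun φ m => rfl
  have Θi : Function.Injective Θ := by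
    intro φ χ h
    refine LinearMap.ext fun y => ?_
    obtain ⟨m, rfl⟩ := hπ y
    exact LinearMap.congr_fun h m
  have Θs : Function.Surjective Θ := by
    intro φ
    obtain ⟨f, hf⟩ := dimsL_desc π hπ φ (by
      intro m hm
      obtain ⟨w, rfl⟩ := (hk m).1 hm
      rw [map_smul, xN])
    exact ⟨f, LinearMap.ext hf⟩
  let Θe := LinearEquiv.ofBijective Θ ⟨Θi, Θs⟩
  have e3 : Module.length Λ (Module.End S N) = Module.length Λ (M →ₗ[S] N) := Θe.length_eq
  have fEnd : Module.length Λ (Module.End S N) ≠ ⊤ := by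
    have fS : Module.Finite S N := Module.Finite.of_surjective π hπ
    obtain ⟨n', s, hs⟩ := Module.Finite.exists_fin (R := S) (M := N)
    let E : (N →ₗ[S] N) →ₗ[Λ] (Fin n' → N) :=
      { toFun := fun φ => fun i => φ (s i)
        map_add' := fun φ χ => rfl
        map_smul' := fun c φ => rfl }
    have hE : ∀ φ i, E φ i = φ (s i) := fun φ i => rfl
    have Ei : Function.Injective E := by
      intro φ χ h
      refine LinearMap.ext_on_range hs fun i => ?_
      rw [← hE, ← hE, h]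
    refine ne_top_of_le_ne_top ?_ (Module.length_le_of_injective E Ei)
    rw [Module.length_pi, eN, ENat.card_eq_coe_fintype_card]
    exact WithTop.mul_ne_top (ENat.natCast_ne_top _) (WithTop.mul_ne_top (ENat.natCast_ne_top _) hfin)
  refine ⟨fEnd, ?_⟩
  have fHom : Module.length Λ (M →ₗ[S] N) ≠ ⊤ := by rw [← e3]; exact fEnd
  rw [e3]
  refine ⟨?_, ?_⟩
  · rw [← eA]
    exact Module.length_le_of_injective (LinearMap.range Lm).subtype
      (Submodule.subtype_injective _)
  · rw [← eA]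
    constructor
    · intro hL
      have h1 : LinearMap.range Lm = ⊤ := by
        rw [eq_top_iff]
        intro φ _
        obtain ⟨ψ, hψ⟩ := hL N π hπ hk φ
        exact ⟨ψ, LinearMap.ext hψ⟩
      rw [h1, Module.length_top]
    · intro h
      have h1 : LinearMap.range Lm = ⊤ := dimsL_top _ fHom h.symm
      intro N1 _ _ π1 hπ1 hk1 φ1
      obtain ⟨θ, hθ⟩ := dimsL_desc π1 hπ1 π (by
        intro m hm
        exact (hk m).2 ((hk1 m).1 hm))
      have h2 : θ ∘ₗ φ1 ∈ LinearMap.range Lm := h1 ▸ Submodule.mem_top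
      obtain ⟨ψ, hψ⟩ := h2
      refine ⟨ψ, fun m => ?_⟩
      obtain ⟨m', hm'⟩ := hπ1 (φ1 m)
      have h3 : π (ψ m) = θ (φ1 m) := LinearMap.congr_fun hψ m
      rw [← hm', hθ, ← sub_eq_zero, ← map_sub] at h3
      have h4 := (hk1 _).2 ((hk _).1 h3)
      rw [map_sub, sub_eq_zero] at h4
      rw [h4, hm']

end Pool.Agent.HWC
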