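import Pool.Agent.HWC.Defs

/-!
HWC/Dvr: a discrete valuation ring is one-dimensional Gorenstein (frozen wording) and satisfies (HWC).
GorOne: ringKrullDim = 1 (a PID that is not a field); xs = [p], p a uniformizer: regular (R is a domain, R/(p)
nontrivial), (p) is the maximal ideal, so InfIrred (an ideal strictly containing it is R).  HWC: f.g. torsionfree modules
over a PID are free, so the reflexivity hypothesis is not used.
-/

set_option autoImplicit false

namespace Pool.Agent.HWC

open IsLocalRing Module

theorem dvr_base (R : Type) [CommRing R] [IsDomain R] [IsDiscreteValuationRing R] :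
    GorOne R ∧ HWC R := by
  constructor
  · have hdim : ringKrullDim R = 1 :=
      IsPrincipalIdealRing.ringKrullDim_eq_one R (IsDiscreteValuationRing.not_isField R)
    obtain ⟨p, hp⟩ := IsDiscreteValuationRing.exists_irreducible R
    have hmax : maximalIdeal R = Ideal.span {p} := hp.maximalIdeal_eq
    have hpm : p ∈ maximalIdeal R := by
      rw [hmax]; exact Ideal.mem_span_singleton_self p
    have hmem : ∀ x ∈ [p], x ∈ maximalIdeal R := by
      intro x hx
      rw [List.mem_singleton] at hx
      rw [hx]; exact hpm
    refine ⟨hdim, [p], hmem, ?_, ?_, ?_⟩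
    · rw [IsLocalRing.isRegular_iff_isWeaklyRegular_of_subset_maximalIdeal hmem,
        RingTheory.Sequence.isWeaklyRegular_singleton_iff]
      intro a b hab
      exact mul_left_cancel₀ hp.ne_zero hab
    · rw [hdim]; rfl
    · have hset : {r : R | r ∈ [p]} = {p} := by
        ext r; simp
      rw [hset, ← hmax]
      refine ⟨?_, ?_⟩
      · intro h
        have h1 : maximalIdeal R = ⊤ := isMax_iff_eq_top.1 h
        exact (maximalIdeal.isMaximal R).ne_top h1
      · intro I J hIJ
        by_contra hcon
        rw [not_or] at hcon
        have hI : maximalIdeal R ≤ I := by rw [← hIJ]; exact inf_le_left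
        have hJ : maximalIdeal R ≤ J := by rw [← hIJ]; exact inf_le_right
        have hI' : I = ⊤ :=
          (maximalIdeal.isMaximal R).1.2 I (lt_of_le_of_ne hI (Ne.symm hcon.1))
        have hJ' : J = ⊤ :=
          (maximalIdeal.isMaximal R).1.2 J (lt_of_le_of_ne hJ (Ne.symm hcon.2))
        rw [hI', hJ', inf_top_eq] at hIJ
        exact (maximalIdeal.isMaximal R).ne_top hIJ.symm
  · intro M _ _ _ _ _
    have : Module.IsTorsionFree R M :=
      Module.IsTorsionFree.of_smul_eq_zero fun r m h => eq_zero_or_eq_zero_of_smul_eq_zero h
    infer_instance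

end Pool.Agent.HWC
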