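import Pool.Agent.HWC.DefsL

/-!
Paper proof: free_of_quotL as free_of_quot in ExistsAF.lean (on main) with lengths: Mx = M/xM free over A = R/(x) of rank t, so
length Mx = t length A = r length A, length A finite and positive (x in m), so t = r; lift a basis, Nakayama, determinant.
finLen: hP.dim1: every element of m is nilpotent in S/(x), so S/(x) is Artinian (Noetherian of dimension 0) or zero.
-/

set_option autoImplicit false

namespace Pool.Agent.HWC

open IsLocalRing Module

theorem free_of_quotL (R M : Type) [CommRing R] [IsDomain R] [IsLocalRing R]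
    [IsNoetherianRing R] [AddCommGroup M] [Module R M] [Module.Finite R M]
    (x : R) (hx : x ∈ maximalIdeal R) (hx0 : x ≠ 0) (r : ℕ) (hAF : AF R M x r)
    (hfin : Module.length R (R ⧸ Ideal.span {x}) ≠ ⊤)
    (hf : Module.length R (M ⧸ (Ideal.span {x} • ⊤ : Submodule R M)) =
      r * Module.length R (R ⧸ Ideal.span {x}))
    (h : Module.Free (R ⧸ Ideal.span {x}) (M ⧸ (Ideal.span {x} • ⊤ : Submodule R M))) :
    Module.Free R M := by
  obtain ⟨N, j, p, hjp, hpj⟩ := hAF
  have hI : Ideal.span {x} ≤ maximalIdeal R := by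
    rw [Ideal.span_le, Set.singleton_subset_iff]
    exact hx
  have : Nontrivial (R ⧸ Ideal.span {x}) := by
    apply Ideal.Quotient.nontrivial_iff.2
    intro h1
    rw [h1, top_le_iff] at hI
    exact (maximalIdeal.isMaximal R).ne_top hI
  have : Module.Finite (R ⧸ Ideal.span {x}) (M ⧸ (Ideal.span {x} • ⊤ : Submodule R M)) :=
    Module.Finite.of_restrictScalars_finite R _ _
  have hsurj : Function.Surjective (algebraMap R (R ⧸ Ideal.span {x})) :=
    Ideal.Quotient.mk_surjective
  have hrank : finrank (R ⧸ Ideal.span {x}) (M ⧸ (Ideal.span {x} • ⊤ : Submodule R M)) = r := by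
    have h1 := Module.length_of_free_of_finite (R ⧸ Ideal.span {x})
      (M ⧸ (Ideal.span {x} • ⊤ : Submodule R M))
    rw [← Module.length_eq_of_surjective (M := M ⧸ (Ideal.span {x} • ⊤ : Submodule R M)) hsurj,
      ← Module.length_eq_of_surjective (M := R ⧸ Ideal.span {x}) hsurj, hf] at h1
    have h2 : 0 < Module.length R (R ⧸ Ideal.span {x}) := Module.length_pos
    generalize Module.length R (R ⧸ Ideal.span {x}) = L at h1 h2 hfin
    obtain ⟨l, rfl⟩ := ENat.ne_top_iff_exists.1 hfin
    have h3 : 0 < l := by exact_mod_cast h2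
    have h4 : r * l = finrank (R ⧸ Ideal.span {x})
        (M ⧸ (Ideal.span {x} • ⊤ : Submodule R M)) * l := by exact_mod_cast h1
    exact (Nat.eq_of_mul_eq_mul_right h3 h4).symm
  obtain ⟨b⟩ : Nonempty (Basis (Fin r) (R ⧸ Ideal.span {x})
      (M ⧸ (Ideal.span {x} • ⊤ : Submodule R M))) := ⟨Module.finBasisOfFinrankEq _ _ hrank⟩
  have hlift : ∀ i, ∃ m : M, (Ideal.span {x} • ⊤ : Submodule R M).mkQ m = b i := fun i =>
    Submodule.mkQ_surjective _ _
  choose m hm using hlift
  let g : (Fin r → R) →ₗ[R] M := Fintype.linearCombination R m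
  have hg : ∀ v, g v = ∑ i, v i • m i := fun v => Fintype.linearCombination_apply R m v
  have hgr : (⊤ : Submodule R M) ≤ LinearMap.range g := by
    refine Submodule.le_of_le_smul_of_le_jacobson_bot (I := Ideal.span {x}) Module.Finite.fg_top
      ?_ ?_
    · rw [IsLocalRing.jacobson_eq_maximalIdeal ⊥ bot_ne_top]
      exact hI
    · intro y _
      have h1 := b.sum_repr ((Ideal.span {x} • ⊤ : Submodule R M).mkQ y)
      have h2 : ∀ i, ∃ a : R, Ideal.Quotient.mk (Ideal.span {x}) a =
          b.repr ((Ideal.span {x} • ⊤ : Submodule R M).mkQ y) i := fun i =>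
        Ideal.Quotient.mk_surjective _
      choose a ha using h2
      have h3 : (Ideal.span {x} • ⊤ : Submodule R M).mkQ (y - g a) = 0 := by
        rw [map_sub, sub_eq_zero, ← h1, hg, map_sum]
        refine Finset.sum_congr rfl fun i _ => ?_
        rw [← ha i, ← hm i]
        rfl
      rw [Submodule.mkQ_apply, Submodule.Quotient.mk_eq_zero] at h3
      rw [Submodule.mem_sup]
      exact ⟨g a, ⟨a, rfl⟩, y - g a, h3, by abel⟩
  have hgs : Function.Surjective g := fun y => hgr (Submodule.mem_top (x := y))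
  -- injectivity
  have hu : ∀ i : Fin r, ∃ u : Fin r → R, g u = j (Pi.single i 1) := fun i => hgs _
  choose u hu using hu
  let f : (Fin r → R) →ₗ[R] (Fin r → R) := (Pi.basisFun R (Fin r)).constr R u
  have hgf : ∀ v, g (f v) = j v := by
    intro v
    have h1 : g ∘ₗ f = j := by
      refine (Pi.basisFun R (Fin r)).ext fun i => ?_
      show g (f (Pi.basisFun R (Fin r) i)) = j (Pi.basisFun R (Fin r) i)
      rw [show f (Pi.basisFun R (Fin r) i) = u i from Basis.constr_basis _ _ _ _, hu,
        Pi.basisFun_apply]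
    exact LinearMap.congr_fun h1 v
  have hdet : LinearMap.det (p ∘ₗ g) ≠ 0 := by
    have h1 : (p ∘ₗ g) ∘ₗ f = x ^ N • LinearMap.id := by
      apply LinearMap.ext
      intro v
      show p (g (f v)) = x ^ N • v
      rw [hgf, hpj]
    intro h2
    have h3 := congrArg LinearMap.det h1
    rw [LinearMap.det_comp, h2, zero_mul, LinearMap.det_smul, LinearMap.det_id, mul_one] at h3
    exact pow_ne_zero _ (pow_ne_zero _ hx0) h3.symm
  have hgi : Function.Injective g := by
    rw [← LinearMap.ker_eq_bot, LinearMap.ker_eq_bot']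
    intro v hv
    have h1 : (p ∘ₗ g) v = 0 := by
      show p (g v) = 0
      rw [hv, map_zero]
    have h2 : (LinearMap.toMatrix' (p ∘ₗ g)).det ≠ 0 := by
      rw [LinearMap.det_toMatrix']
      exact hdet
    refine Matrix.eq_zero_of_mulVec_eq_zero h2 ?_
    rw [LinearMap.toMatrix'_mulVec, h1]
  exact Module.Free.of_equiv (LinearEquiv.ofBijective g ⟨hgi, hgs⟩)

theorem finLen (S : Type) [CommRing S] [IsLocalRing S] [IsNoetherianRing S] (hP : Pkg S) (x : S)
    (hx0 : x ≠ 0) : Module.length S (S ⧸ Ideal.span {x}) ≠ ⊤ := by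
  rcases subsingleton_or_nontrivial (S ⧸ Ideal.span {x}) with h0 | h0
  · rw [Module.length_eq_zero_iff.2 h0]
    exact ENat.zero_ne_top
  have hl : IsLocalRing (S ⧸ Ideal.span {x}) :=
    IsLocalRing.of_surjective' (Ideal.Quotient.mk (Ideal.span {x})) Ideal.Quotient.mk_surjective
  have hN : IsNoetherianRing (S ⧸ Ideal.span {x}) := inferInstance
  have hA : IsArtinianRing (S ⧸ Ideal.span {x}) := by
    rw [isArtinianRing_iff_isNilpotent_maximalIdeal,
      Ideal.FG.isNilpotent_iff_le_nilradical (IsNoetherian.noetherian _)]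
    intro y hy
    obtain ⟨a, rfl⟩ := Ideal.Quotient.mk_surjective y
    have ha : a ∈ maximalIdeal S := by
      rw [IsLocalRing.mem_maximalIdeal, mem_nonunits_iff] at hy ⊢
      exact fun hu => hy (hu.map (Ideal.Quotient.mk (Ideal.span {x})))
    obtain ⟨N, hN⟩ := hP.dim1 a ha x hx0
    rw [mem_nilradical]
    refine ⟨N, ?_⟩
    rw [← map_pow, Ideal.Quotient.eq_zero_iff_mem, Ideal.mem_span_singleton]
    exact hN
  have hA2 : IsArtinian S (S ⧸ Ideal.span {x}) :=
    isArtinian_of_surjective_algebraMap (Ideal.Quotient.mk_surjective (I := Ideal.span {x}))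
  have hN2 : IsNoetherian S (S ⧸ Ideal.span {x}) := isNoetherian_quotient (Ideal.span {x})
  exact Module.length_ne_top

end Pool.Agent.HWC
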