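import Pool.Agent.HWC.Defs

/-!
# Gorenstein step: `S` one-dimensional Gorenstein local domain, `R = S[y]` free over `S`, local,
domain implies `R` one-dimensional Gorenstein (helper57)
-/

set_option autoImplicit false

namespace Pool.Agent.HWC

open IsLocalRing Module Polynomial

/-- in a local principal ideal ring divisibility is total -/
theorem GorStep_total (A : Type) [CommRing A] [IsLocalRing A] [IsPrincipalIdealRing A] (a b : A) :
    a ∣ b ∨ b ∣ a := by
  obtain ⟨c, hc⟩ := IsPrincipalIdealRing.principal (Ideal.span ({a, b} : Set A))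
  have hc' : Ideal.span ({a, b} : Set A) = Ideal.span {c} := hc
  have ha : a ∈ Ideal.span {c} := by
    rw [← hc']; exact Ideal.subset_span (by simp)
  have hb : b ∈ Ideal.span {c} := by
    rw [← hc']; exact Ideal.subset_span (by simp)
  have hcm : c ∈ Ideal.span ({a, b} : Set A) := by
    rw [hc']; exact Ideal.mem_span_singleton_self c
  obtain ⟨a', ha'⟩ := Ideal.mem_span_singleton.1 ha
  obtain ⟨b', hb'⟩ := Ideal.mem_span_singleton.1 hb
  obtain ⟨u, v, huv⟩ := Ideal.mem_span_pair.1 hcm
  by_cases hu : IsUnit a'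
  · left
    obtain ⟨w, hw⟩ := hu
    refine ⟨(↑w⁻¹ : A) * b', ?_⟩
    rw [ha', ← hw, hb']
    calc c * b' = c * ((w : A) * (↑w⁻¹ : A)) * b' := by rw [Units.mul_inv]; ring
      _ = _ := by ring
  by_cases hv : IsUnit b'
  · right
    obtain ⟨w, hw⟩ := hv
    refine ⟨(↑w⁻¹ : A) * a', ?_⟩
    rw [hb', ← hw, ha']
    calc c * a' = c * ((w : A) * (↑w⁻¹ : A)) * a' := by rw [Units.mul_inv]; ring
      _ = _ := by ring
  · right
    have h1 : u * a' + v * b' ∈ maximalIdeal A :=
      Ideal.add_mem _ (Ideal.mul_mem_left _ _ ((mem_maximalIdeal _).2 hu))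
        (Ideal.mul_mem_left _ _ ((mem_maximalIdeal _).2 hv))
    have h2 : IsUnit (1 - (u * a' + v * b')) := by
      by_contra hn
      have h3 : (1 : A) ∈ maximalIdeal A := by
        have h7 := Ideal.add_mem _ ((mem_maximalIdeal _).2 hn) h1
        rwa [sub_add_cancel] at h7
      exact (Ideal.ne_top_iff_one _).1 (maximalIdeal.isMaximal A).ne_top h3
    have h4 : c * (1 - (u * a' + v * b')) = 0 := by
      have h5 : c = c * (u * a' + v * b') := by
        calc c = u * a + v * b := huv.symm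
          _ = u * (c * a') + v * (c * b') := by rw [← ha', ← hb']
          _ = _ := by ring
      linear_combination h5
    have h6 : c = 0 := (h2.mul_left_eq_zero).1 h4
    rw [ha', h6, zero_mul]
    exact dvd_zero b

/-- an element of `I`, not in `xR`, killed by the maximal ideal of `S` modulo `x` -/
theorem GorStep_soc (S R : Type) [CommRing S] [IsLocalRing S] [CommRing R] [Algebra S R] (x : S)
    (N : ℕ) (hN : maximalIdeal S ^ N ≤ Ideal.span {x}) (I : Ideal R)
    (hI : ¬ I ≤ Ideal.span {algebraMap S R x}) :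
    ∃ u ∈ I, u ∉ Ideal.span {algebraMap S R x} ∧
      ∀ c ∈ maximalIdeal S, algebraMap S R c * u ∈ Ideal.span {algebraMap S R x} := by
  classical
  obtain ⟨u0, hu0, hu0'⟩ := Set.not_subset.1 hI
  have hex : ∃ k : ℕ, ∀ c ∈ maximalIdeal S ^ k,
      algebraMap S R c * u0 ∈ Ideal.span {algebraMap S R x} := by
    refine ⟨N, fun c hc => ?_⟩
    obtain ⟨d, hd⟩ := Ideal.mem_span_singleton.1 (hN hc)
    rw [hd, map_mul, mul_assoc]
    exact Ideal.mul_mem_right _ _ (Ideal.mem_span_singleton_self _)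
  have hk := Nat.find_spec hex
  rcases Nat.eq_zero_or_pos (Nat.find hex) with h0 | hpos
  · exfalso
    rw [h0] at hk
    have := hk 1 (by rw [pow_zero, Ideal.one_eq_top]; trivial)
    rw [map_one, one_mul] at this
    exact hu0' this
  · obtain ⟨j, hj⟩ := Nat.exists_eq_succ_of_ne_zero hpos.ne'
    have hmin := Nat.find_min hex (m := j) (by omega)
    push Not at hmin
    obtain ⟨c, hc, hcu⟩ := hmin
    refine ⟨algebraMap S R c * u0, Ideal.mul_mem_left _ _ hu0, hcu, fun d hd => ?_⟩
    rw [← mul_assoc, ← map_mul]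
    refine hk _ ?_
    rw [hj, Nat.succ_eq_add_one, pow_succ, mul_comm d c]
    exact Ideal.mul_mem_mul hc hd

/-- the socle modulo `x` is simple -/
theorem GorStep_simple (S : Type) [CommRing S] [IsLocalRing S] (x s0 : S)
    (hirr : InfIrred (Ideal.span {x})) (h0 : s0 ∉ Ideal.span {x}) (s : S)
    (hs : ∀ c ∈ maximalIdeal S, c * s ∈ Ideal.span {x}) : ∃ a d : S, s = x * a + s0 * d := by
  by_cases hsx : s ∈ Ideal.span {x}
  · obtain ⟨a, ha⟩ := Ideal.mem_span_singleton.1 hsx
    exact ⟨a, 0, by rw [ha]; ring⟩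
  have hI : Ideal.span {x} ⊔ Ideal.span {s} ≠ Ideal.span {x} := by
    intro h
    apply hsx
    rw [← h]
    exact Ideal.mem_sup_right (Ideal.mem_span_singleton_self s)
  have hJ : Ideal.span {x} ⊔ Ideal.span {s0} ≠ Ideal.span {x} := by
    intro h
    apply h0
    rw [← h]
    exact Ideal.mem_sup_right (Ideal.mem_span_singleton_self s0)
  have hIJ : ¬ ((Ideal.span {x} ⊔ Ideal.span {s}) ⊓ (Ideal.span {x} ⊔ Ideal.span {s0}) ≤
      Ideal.span {x}) := by
    intro h
    have h1 : (Ideal.span {x} ⊔ Ideal.span {s}) ⊓ (Ideal.span {x} ⊔ Ideal.span {s0}) =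
        Ideal.span {x} := le_antisymm h (le_inf le_sup_left le_sup_left)
    rcases hirr.2 h1 with h2 | h2
    · exact hI h2
    · exact hJ h2
  obtain ⟨z, ⟨hz1, hz2⟩, hzx⟩ := Set.not_subset.1 hIJ
  obtain ⟨p1, hp1, q1, hq1, hz1'⟩ := Submodule.mem_sup.1 hz1
  obtain ⟨p2, hp2, q2, hq2, hz2'⟩ := Submodule.mem_sup.1 hz2
  obtain ⟨a1, rfl⟩ := Ideal.mem_span_singleton.1 hp1
  obtain ⟨b1, rfl⟩ := Ideal.mem_span_singleton.1 hq1
  obtain ⟨a2, rfl⟩ := Ideal.mem_span_singleton.1 hp2
  obtain ⟨b2, rfl⟩ := Ideal.mem_span_singleton.1 hq2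
  have hb1 : IsUnit b1 := by
    by_contra hn
    apply hzx
    have h1 := hs b1 ((mem_maximalIdeal _).2 hn)
    have h2 : x * a1 + s * b1 ∈ Ideal.span {x} :=
      Ideal.add_mem _ (Ideal.mul_mem_right _ _ (Ideal.mem_span_singleton_self x))
        (by rw [mul_comm]; exact h1)
    rw [← hz1']
    exact h2
  obtain ⟨w, rfl⟩ := hb1
  refine ⟨(a2 - a1) * (↑w⁻¹ : S), b2 * (↑w⁻¹ : S), ?_⟩
  have h3 : s * (w : S) = x * (a2 - a1) + s0 * b2 := by
    have h4 : x * a1 + s * (w : S) = x * a2 + s0 * b2 := hz1'.trans hz2'.symm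
    linear_combination h4
  calc s = s * (w : S) * (↑w⁻¹ : S) := by rw [mul_assoc, Units.mul_inv, mul_one]
    _ = (x * (a2 - a1) + s0 * b2) * (↑w⁻¹ : S) := by rw [h3]
    _ = _ := by ring

/-- quotients of `R` by ideals containing the maximal ideal of `S` are principal ideal rings -/
theorem GorStep_pir (S R : Type) [CommRing S] [IsLocalRing S] [CommRing R] [Algebra S R]
    (pb : PowerBasis S R) (Q : Ideal R) (hQ : ∀ c ∈ maximalIdeal S, algebraMap S R c ∈ Q) :
    IsPrincipalIdealRing (R ⧸ Q) := by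
  let f : ResidueField S →+* R ⧸ Q := Ideal.Quotient.lift (maximalIdeal S)
    ((Ideal.Quotient.mk Q).comp (algebraMap S R))
    (fun c hc => Ideal.Quotient.eq_zero_iff_mem.2 (hQ c hc))
  let F : (ResidueField S)[X] →+* R ⧸ Q := Polynomial.eval₂RingHom f (Ideal.Quotient.mk Q pb.gen)
  have hF : Function.Surjective F := by
    intro z
    obtain ⟨r, rfl⟩ := Ideal.Quotient.mk_surjective z
    obtain ⟨p, rfl⟩ := pb.exists_eq_aeval' r
    refine ⟨p.map (residue S), ?_⟩
    show Polynomial.eval₂ f (Ideal.Quotient.mk Q pb.gen) (p.map (residue S)) = _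
    rw [Polynomial.eval₂_map]
    have h1 : f.comp (residue S) = (Ideal.Quotient.mk Q).comp (algebraMap S R) := by
      ext s
      rfl
    rw [h1, Polynomial.aeval_def, Polynomial.hom_eval₂]
  exact IsPrincipalIdealRing.of_surjective F hF

theorem gorOne_step (S R : Type) [CommRing S] [IsDomain S] [IsLocalRing S] [IsNoetherianRing S]
    [CommRing R] [IsDomain R] [IsLocalRing R] [Algebra S R] (pb : PowerBasis S R)
    (hm : ∀ s ∈ maximalIdeal S, algebraMap S R s ∈ maximalIdeal R)
    (hS : GorOne S) : GorOne R := by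
  obtain ⟨hdim, xs, hxs, hreg, hlen, hirr⟩ := hS
  rw [hdim] at hlen
  have hlen1 : xs.length = 1 := by
    have h1 : ((xs.length : ℕ∞) : WithBot ℕ∞) = ((1 : ℕ) : ℕ∞) := hlen
    exact_mod_cast h1
  obtain ⟨x, rfl⟩ := List.length_eq_one_iff.1 hlen1
  have hset : {r : S | r ∈ [x]} = {x} := by ext r; simp
  rw [hset] at hirr
  have hxm : x ∈ maximalIdeal S := hxs x (by simp)
  have hx0 : x ≠ 0 := by
    rintro rfl
    have h1 := hreg.toIsWeaklyRegular
    rw [RingTheory.Sequence.isWeaklyRegular_singleton_iff] at h1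
    have h2 : (1 : S) = 0 := h1 (by simp)
    exact one_ne_zero h2
  -- basic facts on the extension
  have hfree : Module.Free S R := Module.Free.of_basis pb.basis
  have : Module.Finite S R := pb.finite
  have hinj : Function.Injective (algebraMap S R) := FaithfulSMul.algebraMap_injective S R
  have hx0' : algebraMap S R x ≠ 0 := fun h => hx0 (hinj (by rw [h, map_zero]))
  have hk1 : Ring.KrullDimLE 1 S := Ring.krullDimLE_iff.2 (by rw [hdim]; rfl)
  -- dimension
  have hkR : Ring.KrullDimLE 1 R := by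
    refine Ring.KrullDimLE.mk₁' fun P hP hPp => ?_
    have h1 : P.comap (algebraMap S R) ≠ ⊥ := by
      obtain ⟨r, hr, hr0⟩ := Submodule.exists_mem_ne_zero_of_ne_bot hP
      exact Ideal.comap_ne_bot_of_integral_mem hr0 hr (Algebra.IsIntegral.isIntegral r)
    have h2 : (P.comap (algebraMap S R)).IsMaximal :=
      (Ideal.comap_isPrime (algebraMap S R) P).isMaximal_of_ne_bot h1
    exact Ideal.isMaximal_of_isIntegral_of_isMaximal_comap P h2
  have hdimR : ringKrullDim R = 1 := by
    refine eq_of_le_of_not_lt (Ring.krullDimLE_iff (n := 1).mp hkR) fun h => ?_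
    have h0 : Ring.KrullDimLE 0 R := Ring.krullDimLE_iff.mpr (ENat.WithBot.lt_add_one_iff.mp h)
    have h1 : (⊥ : Ideal R).IsMaximal := Ring.krullDimLE_zero_iff.1 h0 ⊥ inferInstance
    have h2 : (⊥ : Ideal R) = maximalIdeal R := eq_maximalIdeal h1
    have h3 := hm x hxm
    rw [← h2] at h3
    exact hx0' ((Submodule.mem_bot R).1 h3)
  -- powers of the maximal ideal
  obtain ⟨N, hN⟩ : ∃ N : ℕ, maximalIdeal S ^ N ≤ Ideal.span {x} := by
    refine Ideal.exists_pow_le_of_le_radical_of_fg ?_ (IsNoetherian.noetherian _)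
    rw [Ideal.radical_eq_sInf]
    refine le_sInf fun P hP => ?_
    obtain ⟨hxP, hPp⟩ := hP
    have h1 : P ≠ ⊥ := by
      rintro rfl
      exact hx0 ((Submodule.mem_bot S).1 (hxP (Ideal.mem_span_singleton_self x)))
    have h2 : P.IsMaximal := hPp.isMaximal_of_ne_bot h1
    exact (eq_maximalIdeal h2).ge
  -- the socle element
  obtain ⟨s0, -, hs0, hs0m⟩ := GorStep_soc S S x N hN ⊤ (by
    intro h
    exact hirr.1 (isMax_iff_eq_top.2 (top_le_iff.1 h)))
  simp only [Algebra.algebraMap_self, RingHom.id_apply] at hs0 hs0m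
  set x' : R := algebraMap S R x with hx'
  set t : R := algebraMap S R s0 with ht
  have hxspan : Ideal.span {x'} ≠ ⊤ := by
    intro h
    have h1 : Ideal.span {x'} ≤ maximalIdeal R := by
      rw [Ideal.span_singleton_le_iff_mem]; exact hm x hxm
    rw [h] at h1
    exact (maximalIdeal.isMaximal R).ne_top (top_le_iff.1 h1)
  -- elements killed by the maximal ideal of `S`
  have hcoord : ∀ u : R, (∀ c ∈ maximalIdeal S, algebraMap S R c * u ∈ Ideal.span {x'}) →
      ∃ a r : R, u = x' * a + t * r := by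
    intro u hu
    have h1 : ∀ i, ∃ a d : S, pb.basis.repr u i = x * a + s0 * d := by
      intro i
      refine GorStep_simple S x s0 hirr hs0 _ fun c hc => ?_
      obtain ⟨w, hw⟩ := Ideal.mem_span_singleton.1 (hu c hc)
      have h2 : c • u = x • w := by
        rw [Algebra.smul_def, Algebra.smul_def]; exact hw
      have h3 := congrArg (fun z => pb.basis.repr z i) h2
      simp only [map_smul, Finsupp.smul_apply, smul_eq_mul] at h3
      rw [h3]
      exact Ideal.mul_mem_right _ _ (Ideal.mem_span_singleton_self x)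
    choose a d had using h1
    refine ⟨∑ i, a i • pb.basis i, ∑ i, d i • pb.basis i, ?_⟩
    conv_lhs => rw [← pb.basis.sum_repr u]
    rw [Finset.mul_sum, Finset.mul_sum, ← Finset.sum_add_distrib]
    refine Finset.sum_congr rfl fun i _ => ?_
    rw [had i, add_smul, mul_smul, mul_smul, Algebra.smul_def x, Algebra.smul_def s0]
  have hkey : ∀ b c : Ideal R, b ⊓ c = Ideal.span {x'} → b = Ideal.span {x'} ∨
      c = Ideal.span {x'} := by
    intro b c hbc
    by_contra hcon
    push Not at hcon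
    obtain ⟨hb, hc⟩ := hcon
    have hxb : Ideal.span {x'} ≤ b := by rw [← hbc]; exact inf_le_left
    have hxc : Ideal.span {x'} ≤ c := by rw [← hbc]; exact inf_le_right
    have hb' : ¬ b ≤ Ideal.span {x'} := fun h => hb (le_antisymm h hxb)
    have hc' : ¬ c ≤ Ideal.span {x'} := fun h => hc (le_antisymm h hxc)
    obtain ⟨u, hub, hux, hum⟩ := GorStep_soc S R x N hN b hb'
    obtain ⟨v, hvc, hvx, hvm⟩ := GorStep_soc S R x N hN c hc'
    obtain ⟨a, r, hur⟩ := hcoord u hum
    obtain ⟨a', r', hvr⟩ := hcoord v hvm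
    -- the ideal `(xR : s0)`
    let Q : Ideal R := Submodule.comap (LinearMap.mulLeft R t) (Ideal.span {x'})
    have hQ : ∀ z, z ∈ Q ↔ t * z ∈ Ideal.span {x'} := fun z => Iff.rfl
    have hrQ : r ∉ Q := by
      intro h
      apply hux
      rw [hur]
      exact Ideal.add_mem _ (Ideal.mul_mem_right _ _ (Ideal.mem_span_singleton_self x'))
        ((hQ r).1 h)
    have hQm : ∀ c ∈ maximalIdeal S, algebraMap S R c ∈ Q := by
      intro c hc
      rw [hQ, ht, ← map_mul, mul_comm]
      obtain ⟨d, hd⟩ := Ideal.mem_span_singleton.1 (hs0m c hc)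
      rw [hd, map_mul]
      exact Ideal.mul_mem_right _ _ (Ideal.mem_span_singleton_self x')
    have hnt : Nontrivial (R ⧸ Q) := by
      refine Ideal.Quotient.nontrivial_iff.2 fun h => ?_
      exact hrQ (by rw [h]; trivial)
    have : IsLocalRing (R ⧸ Q) :=
      IsLocalRing.of_surjective' (Ideal.Quotient.mk Q) Ideal.Quotient.mk_surjective
    have : IsPrincipalIdealRing (R ⧸ Q) := GorStep_pir S R pb Q hQm
    rcases GorStep_total (R ⧸ Q) (Ideal.Quotient.mk Q r) (Ideal.Quotient.mk Q r') with h | h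
    · obtain ⟨w', hw'⟩ := h
      obtain ⟨w, rfl⟩ := Ideal.Quotient.mk_surjective w'
      rw [← map_mul, Ideal.Quotient.eq, hQ] at hw'
      have h1 : v ∈ b := by
        have h2 : v = u * w + (x' * (a' - a * w) + t * (r' - r * w)) := by
          rw [hur, hvr]; ring
        rw [h2]
        exact b.add_mem (b.mul_mem_right _ hub)
          (b.add_mem (hxb (Ideal.mul_mem_right _ _ (Ideal.mem_span_singleton_self x'))) (hxb hw'))
      apply hvx
      rw [← hbc]
      exact ⟨h1, hvc⟩
    · obtain ⟨w', hw'⟩ := h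
      obtain ⟨w, rfl⟩ := Ideal.Quotient.mk_surjective w'
      rw [← map_mul, Ideal.Quotient.eq, hQ] at hw'
      have h1 : u ∈ c := by
        have h2 : u = v * w + (x' * (a - a' * w) + t * (r - r' * w)) := by
          rw [hur, hvr]; ring
        rw [h2]
        exact c.add_mem (c.mul_mem_right _ hvc)
          (c.add_mem (hxc (Ideal.mul_mem_right _ _ (Ideal.mem_span_singleton_self x'))) (hxc hw'))
      apply hux
      rw [← hbc]
      exact ⟨hub, h1⟩
  refine ⟨hdimR, [x'], ?_, ?_, ?_, ?_⟩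
  · intro z hz
    rw [List.mem_singleton] at hz
    rw [hz]
    exact hm x hxm
  · refine ⟨(RingTheory.Sequence.isWeaklyRegular_singleton_iff R x').2 ?_, ?_⟩
    · intro y z hyz
      exact mul_left_cancel₀ hx0' hyz
    · intro h
      apply hxspan
      rw [Ideal.ofList_singleton] at h
      have h2 : (Ideal.span {x'} • ⊤ : Submodule R R) = Ideal.span {x'} := by
        rw [smul_eq_mul, Ideal.mul_top]
      rw [h2] at h
      exact h.symm
  · rw [hdimR]; rfl
  · have hset' : {r : R | r ∈ [x']} = {x'} := by ext r; simp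
    rw [hset']
    exact ⟨fun h => hxspan (isMax_iff_eq_top.1 h), fun b c h => hkey b c h⟩

end Pool.Agent.HWC
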