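import Pool.Agent.HWC.Defs

/-!
# Kernels of `L - r P` over the roots of `X ^ n - c ^ n` (helper57)
-/

set_option autoImplicit false

namespace Pool.Agent.HWC

open IsLocalRing Module Polynomial

section

variable {Ω W : Type*} [Field Ω] [AddCommGroup W] [Module Ω W]

theorem KerRoots_mul [Module.Finite Ω W] (T T' : Module.End Ω W) :
    finrank Ω (LinearMap.ker (T * T')) ≤
      finrank Ω (LinearMap.ker T) + finrank Ω (LinearMap.ker T') := by
  let f : LinearMap.ker (T * T') →ₗ[Ω] W := T'.domRestrict (LinearMap.ker (T * T'))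
  have h1 := LinearMap.finrank_range_add_finrank_ker f
  have h2 : finrank Ω (LinearMap.range f) ≤ finrank Ω (LinearMap.ker T) := by
    refine Submodule.finrank_mono ?_
    rintro _ ⟨x, rfl⟩
    exact x.2
  have h3 : finrank Ω (LinearMap.ker f) ≤ finrank Ω (LinearMap.ker T') := by
    rw [← Submodule.finrank_map_subtype_eq (LinearMap.ker (T * T')) (LinearMap.ker f)]
    refine Submodule.finrank_mono ?_
    rintro _ ⟨x, hx, rfl⟩
    exact hx
  omega

theorem KerRoots_list [Module.Finite Ω W] (L P : Module.End Ω W) (κ : ℕ) (l : List Ω)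
    (h : ∀ r ∈ l, finrank Ω (LinearMap.ker (L - r • P)) ≤ κ) :
    finrank Ω (LinearMap.ker ((l.map fun r => L - r • P).prod)) ≤ l.length * κ := by
  induction l with
  | nil =>
    have h1 : LinearMap.ker (1 : Module.End Ω W) = ⊥ := LinearMap.ker_id
    have h2 : ((([] : List Ω).map fun r => L - r • P).prod) = 1 := rfl
    rw [h2, h1, finrank_bot]
    exact Nat.zero_le _
  | cons r l ih =>
    rw [List.map_cons, List.prod_cons, List.length_cons]
    have h1 := KerRoots_mul (L - r • P) ((l.map fun r => L - r • P).prod)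
    have h2 := ih fun r' hr' => h r' (List.mem_cons_of_mem _ hr')
    have h3 := h r List.mem_cons_self
    calc _ ≤ _ := h1
      _ ≤ κ + l.length * κ := Nat.add_le_add h3 h2
      _ = (l.length + 1) * κ := by ring

/-- the homogeneous form of a polynomial evaluated at `(L, P)` -/
noncomputable def KerRoots_H (L P : Module.End Ω W) (m : ℕ) (g : Polynomial Ω) : Module.End Ω W :=
  ∑ j ∈ Finset.range (m + 1), g.coeff j • (L ^ j * P ^ (m - j))

theorem KerRoots_H_succ (L P : Module.End Ω W) (hc : Commute L P) (m : ℕ) (g : Polynomial Ω)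
    (hg : g.coeff (m + 1) = 0) (r : Ω) :
    KerRoots_H L P (m + 1) ((X - C r) * g) = (L - r • P) * KerRoots_H L P m g := by
  have e1 : L * KerRoots_H L P m g =
      ∑ j ∈ Finset.range (m + 1), g.coeff j • (L ^ (j + 1) * P ^ (m - j)) := by
    rw [KerRoots_H, Finset.mul_sum]
    refine Finset.sum_congr rfl fun j _ => ?_
    rw [mul_smul_comm, ← mul_assoc, ← pow_succ']
  have e2 : P * KerRoots_H L P m g =
      ∑ j ∈ Finset.range (m + 2), g.coeff j • (L ^ j * P ^ (m + 1 - j)) := by
    rw [Finset.sum_range_succ, hg, zero_smul, add_zero, KerRoots_H, Finset.mul_sum]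
    refine Finset.sum_congr rfl fun j hj => ?_
    have hj' : j ≤ m := Nat.lt_succ_iff.1 (Finset.mem_range.1 hj)
    rw [mul_smul_comm, ← mul_assoc, (hc.pow_left j).eq.symm, mul_assoc, ← pow_succ',
      show m + 1 - j = m - j + 1 by omega]
  have e0 : (L - r • P) * KerRoots_H L P m g =
      L * KerRoots_H L P m g - r • (P * KerRoots_H L P m g) := by
    rw [sub_mul, smul_mul_assoc]
  rw [e0, e1, e2, KerRoots_H, Finset.smul_sum]
  have s1 := Finset.sum_range_succ' (fun j : ℕ => ((X - C r) * g : Polynomial Ω).coeff j •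
    (L ^ j * P ^ (m + 1 - j) : Module.End Ω W)) (m + 1)
  have s2 := Finset.sum_range_succ' (fun j : ℕ => r • g.coeff j •
    (L ^ j * P ^ (m + 1 - j) : Module.End Ω W)) (m + 1)
  rw [s1, s2]
  have e3 : ∀ j, ((X - C r) * g).coeff (j + 1) = g.coeff j - r * g.coeff (j + 1) := by
    intro j
    rw [sub_mul, coeff_sub, coeff_X_mul, coeff_C_mul]
  have e4 : ((X - C r) * g).coeff 0 = - (r * g.coeff 0) := by
    rw [sub_mul, coeff_sub, coeff_C_mul, mul_comm X g, mul_coeff_zero]
    simp
  rw [e4, sub_add_eq_sub_sub, ← Finset.sum_sub_distrib, neg_smul, ← sub_eq_add_neg, mul_smul]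
  congr 1
  refine Finset.sum_congr rfl fun j _ => ?_
  rw [e3, sub_smul, mul_smul, Nat.add_sub_add_right]

theorem KerRoots_H_list (L P : Module.End Ω W) (hc : Commute L P) (l : List Ω) :
    KerRoots_H L P l.length ((l.map fun r => X - C r).prod) = (l.map fun r => L - r • P).prod := by
  induction l with
  | nil => simp [KerRoots_H]
  | cons r l ih =>
    rw [List.map_cons, List.prod_cons, List.map_cons, List.prod_cons, List.length_cons,
      KerRoots_H_succ L P hc, ih]
    have h1 : ((l.map fun r => X - C r).prod : Polynomial Ω).natDegree = l.length := by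
      have := natDegree_multiset_prod_X_sub_C_eq_card (l : Multiset Ω)
      simpa using this
    exact coeff_eq_zero_of_natDegree_lt (by rw [h1]; omega)

end

theorem ker_roots {Ω W : Type*} [Field Ω] [IsAlgClosed Ω] [AddCommGroup W] [Module Ω W]
    [Module.Finite Ω W] (L P : Module.End Ω W) (hc : Commute L P) (n : ℕ) (hn : 0 < n)
    (hL : L ^ n = 0) (hP : P ^ n = 0) (c : Ω) (κ : ℕ)
    (hκ : ∀ ρ : Ω, ρ ^ n = c ^ n → finrank Ω (LinearMap.ker (L - ρ • P)) ≤ κ) :
    finrank Ω W ≤ n * κ ∧
    (finrank Ω W = n * κ →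
      finrank Ω (LinearMap.ker (L - c • P)) = κ ∧
      ∀ w : W, L w = c • P w → ∃ θ : W,
        w = ∑ i ∈ Finset.range n, c ^ i • (L ^ (n - 1 - i)) ((P ^ i) θ)) := by
  -- the roots
  have hmonic : (X ^ n - C (c ^ n) : Polynomial Ω).Monic := monic_X_pow_sub_C _ hn.ne'
  have hdeg : (X ^ n - C (c ^ n) : Polynomial Ω).natDegree = n := natDegree_X_pow_sub_C
  have hsplit := IsAlgClosed.splits (X ^ n - C (c ^ n) : Polynomial Ω)
  have hprod : ((X ^ n - C (c ^ n) : Polynomial Ω).roots.map fun r => X - C r).prod = X ^ n - C (c ^ n) := by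
    rw [← hsplit.eq_prod_roots_of_monic hmonic]
  have hcard : Multiset.card (X ^ n - C (c ^ n) : Polynomial Ω).roots = n := by
    rw [← hsplit.natDegree_eq_card_roots, hdeg]
  have hroot : ∀ ρ ∈ (X ^ n - C (c ^ n) : Polynomial Ω).roots, ρ ^ n = c ^ n := by
    intro ρ hρ
    have h1 := (mem_roots hmonic.ne_zero).1 hρ
    rw [IsRoot.def, eval_sub, eval_pow, eval_X, eval_C, sub_eq_zero] at h1
    exact h1
  have hcr : c ∈ (X ^ n - C (c ^ n) : Polynomial Ω).roots := by
    rw [mem_roots hmonic.ne_zero, IsRoot.def, eval_sub, eval_pow, eval_X, eval_C, sub_self]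
  obtain ⟨s', hs'⟩ := Multiset.exists_cons_of_mem hcr
  obtain ⟨l, rfl⟩ : ∃ l : List Ω, (l : Multiset Ω) = s' := Quot.exists_rep s'
  rw [hs', Multiset.card_cons, Multiset.coe_card] at hcard
  rw [hs', Multiset.map_cons, Multiset.prod_cons, Multiset.map_coe, Multiset.prod_coe] at hprod
  -- cancel
  have hG0 : ((l.map fun r => X - C r).prod : Polynomial Ω) =
      ∑ i ∈ Finset.range n, X ^ i * (C c) ^ (n - 1 - i) := by
    have h1 : (X - C c : Polynomial Ω) * ∑ i ∈ Finset.range n, X ^ i * (C c) ^ (n - 1 - i) =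
        X ^ n - C (c ^ n) := by
      rw [(Commute.all (X : Polynomial Ω) (C c)).mul_geom_sum₂ n, C_pow]
    exact mul_left_cancel₀ (X_sub_C_ne_zero c) (hprod.trans h1.symm)
  have hGL : (l.map fun r => L - r • P).prod =
      ∑ i ∈ Finset.range n, c ^ (n - 1 - i) • (L ^ i * P ^ (n - 1 - i)) := by
    rw [← KerRoots_H_list L P hc l, hG0, KerRoots_H, hcard]
    have h3 : l.length = n - 1 := by omega
    rw [h3]
    refine Finset.sum_congr rfl fun j hj => ?_
    congr 1
    rw [finsetSum_coeff, Finset.sum_eq_single j]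
    · rw [← C_pow, coeff_mul_C, coeff_X_pow, if_pos rfl, one_mul]
    · intro i _ hij
      rw [← C_pow, coeff_mul_C, coeff_X_pow, if_neg (Ne.symm hij), zero_mul]
    · intro h
      exact absurd hj h
  have hzero : (L - c • P) * (l.map fun r => L - r • P).prod = 0 := by
    have h1 : Commute L (c • P) := hc.smul_right c
    have h2 := h1.mul_geom_sum₂ n
    rw [_root_.smul_pow, hP, smul_zero, hL, sub_zero] at h2
    rw [hGL, ← h2]
    congr 1
    refine Finset.sum_congr rfl fun i _ => ?_
    rw [_root_.smul_pow, mul_smul_comm]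
  have hker : finrank Ω (LinearMap.ker ((l.map fun r => L - r • P).prod)) ≤ l.length * κ := by
    refine KerRoots_list L P κ l fun r hr => hκ r (hroot r ?_)
    rw [hs']
    exact Multiset.mem_cons_of_mem hr
  have hkc : finrank Ω (LinearMap.ker (L - c • P)) ≤ κ := hκ c rfl
  have hle : finrank Ω W ≤ n * κ := by
    have h1 := KerRoots_mul (L - c • P) ((l.map fun r => L - r • P).prod)
    rw [hzero, LinearMap.ker_zero, finrank_top] at h1
    calc finrank Ω W ≤ _ := h1
      _ ≤ κ + l.length * κ := Nat.add_le_add hkc hker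
      _ = n * κ := by rw [← hcard]; ring
  refine ⟨hle, fun heq => ?_⟩
  have hrange : LinearMap.range ((l.map fun r => L - r • P).prod) ≤
      LinearMap.ker (L - c • P) := by
    rintro _ ⟨x, rfl⟩
    exact LinearMap.congr_fun hzero x
  have h1 := LinearMap.finrank_range_add_finrank_ker ((l.map fun r => L - r • P).prod)
  have h2 : finrank Ω (LinearMap.range ((l.map fun r => L - r • P).prod)) ≤
      finrank Ω (LinearMap.ker (L - c • P)) := Submodule.finrank_mono hrange
  have h3 : n * κ = l.length * κ + κ := by rw [← hcard]; ring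
  have h4 : finrank Ω (LinearMap.ker (L - c • P)) = κ := by omega
  refine ⟨h4, fun w hw => ?_⟩
  have h5 : LinearMap.range ((l.map fun r => L - r • P).prod) = LinearMap.ker (L - c • P) :=
    Submodule.eq_of_le_of_finrank_le hrange (by omega)
  have h6 : w ∈ LinearMap.range ((l.map fun r => L - r • P).prod) := by
    rw [h5, LinearMap.mem_ker, LinearMap.sub_apply, LinearMap.smul_apply, hw, sub_self]
  obtain ⟨θ, hθ⟩ := h6
  refine ⟨θ, ?_⟩
  rw [← hθ, hGL, LinearMap.sum_apply, ← Finset.sum_range_reflect]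
  refine Finset.sum_congr rfl fun i hi => ?_
  have hi' := Finset.mem_range.1 hi
  rw [show n - 1 - (n - 1 - i) = i by omega]
  rfl

end Pool.Agent.HWC
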