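import Mathlib

/-!
Paper proof.  Substitute X = 1 + u (Taylor expansion) and work in E[[u]] (PowerSeries E, u central).  v has constant term 1, so it
is a unit; y v = (1+u) v y gives v^(-1) y = (1+u) y v^(-1), so v^(-1) y^j = (1+u)^j y^j v^(-1).  So
u^r = v^(-1) (u^r v) = sum_i (1+u)^i v^(-1) y^(n-1-i) θ y^i = sum_i y^(n-1-i) [(1+u)^(n-1) v^(-1) θ] y^i.
Compare the coefficients of u^r: with θ0 the coefficient of u^r in (1+u)^(n-1) v^(-1) θ: 1 = sum_i y^(n-1-i) θ0 y^i.
-/

set_option autoImplicit false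

namespace Pool.Agent.HWC

private theorem KeyLb_pow {R : Type*} [Ring R] (Y s q : R) (hq : ∀ a : R, a * q = q * a)
    (h : s * Y = q * Y * s) (j : ℕ) : s * Y ^ j = q ^ j * Y ^ j * s := by
  induction j with
  | zero => simp
  | succ j ih =>
    calc s * Y ^ (j + 1) = (s * Y ^ j) * Y := by rw [pow_succ, mul_assoc]
      _ = q ^ j * Y ^ j * (s * Y) := by rw [ih, mul_assoc]
      _ = q ^ j * (Y ^ j * q) * Y * s := by rw [h]; noncomm_ring
      _ = q ^ (j + 1) * Y ^ (j + 1) * s := by
        rw [hq (Y ^ j), pow_succ, pow_succ]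
        noncomm_ring

private theorem KeyLb_ring {R : Type*} [Ring R] (n : ℕ) (Y w t s q u : R)
    (hq : ∀ a : R, a * q = q * a) (hu : ∀ a : R, a * u = u * a) (hs : s * w = 1) (hs' : w * s = 1)
    (h1 : Y * w = q * w * Y) (r : ℕ)
    (h3 : u ^ r * w = ∑ i ∈ Finset.range n, q ^ i * Y ^ (n - 1 - i) * t * Y ^ i) :
    u ^ r = ∑ i ∈ Finset.range n, Y ^ (n - 1 - i) * (q ^ (n - 1) * s * t) * Y ^ i := by
  have hqp : ∀ (a : R) (k : ℕ), a * q ^ k = q ^ k * a := fun a k => by
    have h : Commute a q := hq a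
    exact h.pow_right k
  have h4 : s * Y = q * Y * s := by
    calc s * Y = s * Y * (w * s) := by rw [hs', mul_one]
      _ = s * (Y * w) * s := by noncomm_ring
      _ = (s * q) * w * Y * s := by rw [h1]; noncomm_ring
      _ = q * (s * w) * Y * s := by rw [hq s]; noncomm_ring
      _ = q * Y * s := by rw [hs, mul_one]
  have h5 : s * u ^ r = u ^ r * s := by
    have h : Commute s u := hu s
    exact h.pow_right r
  calc u ^ r = u ^ r * (s * w) := by rw [hs, mul_one]
    _ = s * (u ^ r * w) := by rw [← mul_assoc, ← h5, mul_assoc]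
    _ = ∑ i ∈ Finset.range n, s * (q ^ i * Y ^ (n - 1 - i) * t * Y ^ i) := by
      rw [h3, Finset.mul_sum]
    _ = _ := by
      refine Finset.sum_congr rfl fun i hi => ?_
      have hi' : i + (n - 1 - i) = n - 1 := by
        have := Finset.mem_range.1 hi
        omega
      calc s * (q ^ i * Y ^ (n - 1 - i) * t * Y ^ i)
          = (s * q ^ i) * Y ^ (n - 1 - i) * t * Y ^ i := by noncomm_ring
        _ = q ^ i * (s * Y ^ (n - 1 - i)) * t * Y ^ i := by rw [hqp s i]; noncomm_ring
        _ = (q ^ i * q ^ (n - 1 - i)) * Y ^ (n - 1 - i) * s * t * Y ^ i := by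
          rw [KeyLb_pow Y s q hq h4]
          noncomm_ring
        _ = q ^ (n - 1) * Y ^ (n - 1 - i) * s * t * Y ^ i := by rw [← pow_add, hi']
        _ = Y ^ (n - 1 - i) * (q ^ (n - 1) * s * t) * Y ^ i := by
          rw [← hqp (Y ^ (n - 1 - i)) (n - 1)]
          noncomm_ring

open Polynomial in
theorem keyL_alg {E : Type*} [Ring E] (n : ℕ) (y : E) (v θ : E[X]) (r : ℕ)
    (h1 : C y * v = X * v * C y) (h2 : v.eval 1 = 1)
    (h3 : (X - 1) ^ r * v = ∑ i ∈ Finset.range n, X ^ i * C (y ^ (n - 1 - i)) * θ * C (y ^ i)) :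
    ∃ θ0 : E, ∑ i ∈ Finset.range n, y ^ (n - 1 - i) * θ0 * y ^ i = 1 := by
  have hX : ∀ a : PowerSeries E, a * PowerSeries.X = PowerSeries.X * a := fun a =>
    PowerSeries.commute_X a
  have hq : ∀ a : PowerSeries E, a * (1 + PowerSeries.X) = (1 + PowerSeries.X) * a := fun a => by
    rw [mul_add, add_mul, hX, mul_one, one_mul]
  set φ : E[X] →+* PowerSeries E := eval₂RingHom' PowerSeries.C (1 + PowerSeries.X)
    (fun a => hq _) with hφ
  have hφC : ∀ a : E, φ (C a) = PowerSeries.C a := fun a => eval₂_C _ _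
  have hφX : φ X = 1 + PowerSeries.X := eval₂_X _ _
  have hcc : ∀ p : E[X], PowerSeries.constantCoeff (φ p) = p.eval 1 := by
    intro p
    have e : φ p = p.sum fun n a => PowerSeries.C a * (1 + PowerSeries.X) ^ n := by
      rw [hφ]
      exact eval₂_eq_sum
    rw [e, eval_eq_sum, Polynomial.sum, Polynomial.sum, map_sum]
    refine Finset.sum_congr rfl fun i _ => ?_
    rw [map_mul, map_pow, map_add, map_one, PowerSeries.constantCoeff_X, add_zero,
      PowerSeries.constantCoeff_C]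
  set s : PowerSeries E := PowerSeries.invOfUnit (φ v) 1 with hs
  have hv : PowerSeries.constantCoeff (φ v) = ((1 : Eˣ) : E) := by
    rw [hcc, h2, Units.val_one]
  have hs1 : s * φ v = 1 := PowerSeries.invOfUnit_mul _ _ hv
  have hs2 : φ v * s = 1 := PowerSeries.mul_invOfUnit _ _ hv
  have h4 : PowerSeries.C y * φ v = (1 + PowerSeries.X) * φ v * PowerSeries.C y := by
    have h := congrArg φ h1
    simpa only [map_mul, hφC, hφX] using h
  have h5 : (PowerSeries.X : PowerSeries E) ^ r * φ v = ∑ i ∈ Finset.range n,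
      (1 + PowerSeries.X) ^ i * (PowerSeries.C y) ^ (n - 1 - i) * φ θ * (PowerSeries.C y) ^ i := by
    have h := congrArg φ h3
    rw [map_mul, map_pow, map_sub, hφX, map_one, add_sub_cancel_left, map_sum] at h
    rw [h]
    refine Finset.sum_congr rfl fun i _ => ?_
    rw [map_mul, map_mul, map_mul, map_pow, hφX, hφC, hφC, map_pow, map_pow]
  have h6 := KeyLb_ring n _ _ _ _ _ _ hq hX hs1 hs2 h4 r h5
  refine ⟨PowerSeries.coeff r ((1 + PowerSeries.X) ^ (n - 1) * s * φ θ), ?_⟩
  have h7 := congrArg (PowerSeries.coeff r) h6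
  rw [PowerSeries.coeff_X_pow_self, map_sum] at h7
  rw [h7]
  refine Finset.sum_congr rfl fun i _ => ?_
  rw [← map_pow, ← map_pow, PowerSeries.coeff_mul_C, PowerSeries.coeff_C_mul]

end Pool.Agent.HWC
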