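import Pool.Agent.HWC.KeyLa
import Pool.Agent.HWC.KeyLb

/-!
Paper proof.  O = Z[X]/(Phi_n) (AdjoinRoot (cyclotomic n Z), or the ring of integers of the n-th cyclotomic field, or
CyclotomicRing n Z Q): a domain, free over Z with basis 1, z, ..., z^(f-1), f = phi(n), z a primitive n-th root of unity, so
prod_(i<n) (X - z^i) = X^n - 1.  E' = O (x)_Z E is a ring, a Λ-algebra and an O-algebra, isomorphic to E^f as a Λ-module;
cenL of y' = 1 (x) y is O (x) cenL y = (cenL y)^f (an element sum z^j (x) e_j commutes with 1 (x) y iff all e_j commute with y).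
keyL_count for E': f length E <= n f length cenL y; cancel f.  Equality: keyL_count and keyL_alg give θ' in E' with
sum y'^(n-1-i) θ' y'^i = 1; apply the Z-linear map O -> Z, coefficient of 1 (it maps 1 to 1), tensored with E.
-/

set_option autoImplicit false

namespace Pool.Agent.HWC

open IsLocalRing Module

open Polynomial in
theorem KeyL_ring (n : ℕ) (hn : 0 < n) :
    ∃ (O : Type) (_ : CommRing O) (f : ℕ) (b : Basis (Fin (f + 1)) ℤ O) (ζ : O),
      b 0 = 1 ∧ ∏ i ∈ Finset.range n, (X - C (ζ ^ i)) = (X ^ n - 1 : O[X]) := by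
  have hirr : Irreducible (cyclotomic n ℤ) := cyclotomic.irreducible hn
  have hdom : IsDomain (AdjoinRoot (cyclotomic n ℤ)) := AdjoinRoot.isDomain_of_prime hirr.prime
  let pb := AdjoinRoot.powerBasis' (cyclotomic.monic n ℤ)
  have hpos : 0 < pb.dim := pb.dim_pos
  obtain ⟨f, hf⟩ : ∃ f, pb.dim = f + 1 := ⟨pb.dim - 1, by omega⟩
  let b : Basis (Fin (f + 1)) ℤ (AdjoinRoot (cyclotomic n ℤ)) := pb.basis.reindex (finCongr hf)
  have hb0 : b 0 = 1 := by
    rw [Basis.reindex_apply, PowerBasis.basis_eq_pow]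
    exact pow_zero _
  have hn0 : NeZero ((n : ℕ) : AdjoinRoot (cyclotomic n ℤ)) := by
    refine ⟨fun h => ?_⟩
    have h1 : (n : ℤ) • b 0 = 0 := by
      rw [hb0]
      simpa using h
    have h2 : b.repr ((n : ℤ) • b 0) 0 = 0 := by
      rw [h1, LinearEquiv.map_zero]
      rfl
    rw [LinearEquiv.map_smul, Basis.repr_self, Finsupp.smul_apply, Finsupp.single_eq_same,
      smul_eq_mul, mul_one] at h2
    omega
  have hroot : IsPrimitiveRoot (AdjoinRoot.root (cyclotomic n ℤ)) n := by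
    rw [← isRoot_cyclotomic_iff]
    have h1 := AdjoinRoot.isRoot_root (cyclotomic n ℤ)
    rwa [map_cyclotomic] at h1
  refine ⟨AdjoinRoot (cyclotomic n ℤ), inferInstance, f, b, AdjoinRoot.root (cyclotomic n ℤ),
    hb0, ?_⟩
  rw [X_pow_sub_one_eq_prod hn hroot]
  have h1 : (Finset.range n).image (fun i => AdjoinRoot.root (cyclotomic n ℤ) ^ i) =
      nthRootsFinset n 1 := by
    apply Finset.eq_of_subset_of_card_le
    · intro z hz
      obtain ⟨i, -, rfl⟩ := Finset.mem_image.1 hz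
      rw [mem_nthRootsFinset hn, ← pow_mul, mul_comm, pow_mul, hroot.pow_eq_one, one_pow]
    · rw [hroot.card_nthRootsFinset, Finset.card_image_of_injOn, Finset.card_range]
      intro i hi j hj hij
      exact hroot.pow_inj (by simpa using hi) (by simpa using hj) hij
  rw [← h1, Finset.prod_image]
  intro i hi j hj hij
  exact hroot.pow_inj (by simpa using hi) (by simpa using hj) hij

open TensorProduct in
attribute [local instance] Algebra.TensorProduct.rightAlgebra in
theorem keyL {Λ E : Type*} [CommRing Λ] [Ring E] [Algebra Λ E]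
    (hE : Module.length Λ E ≠ ⊤) (y : E) (n : ℕ) (hn : 0 < n) (hy : y ^ n = 0) :
    Module.length Λ E ≤ n * Module.length Λ (cenL Λ y) ∧
    (Module.length Λ E = n * Module.length Λ (cenL Λ y) →
      ∃ θ : E, ∑ i ∈ Finset.range n, y ^ (n - 1 - i) * θ * y ^ i = 1) := by
  obtain ⟨O, _, f, b, ζ, hb0, hζ⟩ := KeyL_ring n hn
  -- coordinates
  let co : Fin (f + 1) → E ⊗[ℤ] O →+ E := fun i =>
    { toFun := fun t => TensorProduct.equivFinsuppOfBasisRight b t i
      map_zero' := by rw [map_zero]; rfl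
      map_add' := fun t u => by rw [map_add]; rfl }
  have hco : ∀ (i : Fin (f + 1)) (e : E) (o : O), co i (e ⊗ₜ[ℤ] o) = b.repr o i • e :=
    fun i e o => TensorProduct.equivFinsuppOfBasisRight_apply_tmul_apply b e o i
  have hext : ∀ t u : E ⊗[ℤ] O, (∀ i, co i t = co i u) → t = u := by
    intro t u h
    apply (TensorProduct.equivFinsuppOfBasisRight b).injective
    exact Finsupp.ext h
  have hmul : ∀ (i : Fin (f + 1)) (a a' : E) (t : E ⊗[ℤ] O),
      co i ((a ⊗ₜ[ℤ] (1 : O)) * t * (a' ⊗ₜ[ℤ] (1 : O))) = a * co i t * a' := by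
    intro i a a' t
    induction t using TensorProduct.induction_on with
    | zero => rw [mul_zero, zero_mul, map_zero, mul_zero, zero_mul]
    | tmul e o =>
      rw [Algebra.TensorProduct.tmul_mul_tmul, Algebra.TensorProduct.tmul_mul_tmul, one_mul,
        mul_one, hco, hco, mul_smul_comm, smul_mul_assoc]
    | add t u h1 h2 => rw [mul_add, add_mul, map_add, h1, h2, map_add, mul_add, add_mul]
  let g : (Fin (f + 1) → E) →ₗ[Λ] E ⊗[ℤ] O :=
    { toFun := fun e => ∑ i, e i ⊗ₜ[ℤ] b i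
      map_add' := fun e e' => by
        rw [← Finset.sum_add_distrib]
        exact Finset.sum_congr rfl fun i _ => TensorProduct.add_tmul _ _ _
      map_smul' := fun r e => by
        rw [RingHom.id_apply, Finset.smul_sum]
        exact Finset.sum_congr rfl fun i _ => rfl }
  have hg : ∀ (e : Fin (f + 1) → E) (i : Fin (f + 1)), co i (g e) = e i := by
    intro e i
    show co i (∑ j, e j ⊗ₜ[ℤ] b j) = e i
    rw [map_sum, Finset.sum_eq_single i]
    · rw [hco, Basis.repr_self, Finsupp.single_eq_same, one_smul]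
    · intro j _ hji
      rw [hco, Basis.repr_self, Finsupp.single_eq_of_ne hji.symm, zero_smul]
    · intro h
      exact absurd (Finset.mem_univ i) h
  have ginj : Function.Injective g := fun e e' h => funext fun i => by
    rw [← hg e i, ← hg e' i, h]
  have gsur : Function.Surjective g := fun t => ⟨fun i => co i t, hext _ _ fun i => hg _ i⟩
  have hcard : ENat.card (Fin (f + 1)) = ((f + 1 : ℕ) : ℕ∞) := by
    rw [ENat.card_eq_coe_fintype_card, Fintype.card_fin]
  have hlen1 : Module.length Λ (E ⊗[ℤ] O) = ((f + 1 : ℕ) : ℕ∞) * Module.length Λ E := by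
    rw [← (LinearEquiv.ofBijective g ⟨ginj, gsur⟩).length_eq, Module.length_pi, hcard]
  have hL : ∀ (i : Fin (f + 1)) (t : E ⊗[ℤ] O), co i ((y ⊗ₜ[ℤ] (1 : O)) * t) = y * co i t := by
    intro i t
    have h1 := hmul i y 1 t
    rwa [← Algebra.TensorProduct.one_def, mul_one, mul_one] at h1
  have hR : ∀ (i : Fin (f + 1)) (t : E ⊗[ℤ] O), co i (t * (y ⊗ₜ[ℤ] (1 : O))) = co i t * y := by
    intro i t
    have h1 := hmul i 1 y t
    rwa [← Algebra.TensorProduct.one_def, one_mul, one_mul] at h1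
  have hmem : ∀ e : E, e ∈ cenL Λ y ↔ y * e = e * y := by
    intro e
    rw [LinearMap.mem_ker, LinearMap.sub_apply, sub_eq_zero]
    rfl
  have hmem' : ∀ t : E ⊗[ℤ] O, t ∈ cenL Λ (y ⊗ₜ[ℤ] (1 : O)) ↔
      (y ⊗ₜ[ℤ] (1 : O)) * t = t * (y ⊗ₜ[ℤ] (1 : O)) := by
    intro t
    rw [LinearMap.mem_ker, LinearMap.sub_apply, sub_eq_zero]
    rfl
  have hcomm : ∀ t : E ⊗[ℤ] O, t ∈ cenL Λ (y ⊗ₜ[ℤ] (1 : O)) ↔ ∀ i, co i t ∈ cenL Λ y := by
    intro t
    rw [hmem']
    constructor
    · intro h i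
      rw [hmem, ← hL, ← hR, h]
    · intro h
      apply hext
      intro i
      rw [hL, hR]
      exact (hmem _).1 (h i)
  let g' : (Fin (f + 1) → cenL Λ y) →ₗ[Λ] cenL Λ (y ⊗ₜ[ℤ] (1 : O)) :=
    { toFun := fun c => ⟨g fun i => (c i : E), (hcomm _).2 fun i => by rw [hg]; exact (c i).2⟩
      map_add' := fun c c' => Subtype.ext (g.map_add _ _)
      map_smul' := fun r c => Subtype.ext (g.map_smul _ _) }
  have ginj' : Function.Injective g' := by
    intro c c' h
    have h1 := ginj (congrArg Subtype.val h)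
    exact funext fun i => Subtype.ext (congrFun h1 i)
  have gsur' : Function.Surjective g' := by
    rintro ⟨t, ht⟩
    refine ⟨fun i => ⟨co i t, (hcomm t).1 ht i⟩, Subtype.ext ?_⟩
    exact hext _ _ fun i => hg _ i
  have hlen2 : Module.length Λ (cenL Λ (y ⊗ₜ[ℤ] (1 : O))) =
      ((f + 1 : ℕ) : ℕ∞) * Module.length Λ (cenL Λ y) := by
    rw [← (LinearEquiv.ofBijective g' ⟨ginj', gsur'⟩).length_eq, Module.length_pi, hcard]
  obtain ⟨a, ha⟩ := ENat.ne_top_iff_exists.1 hE
  have hC : Module.length Λ (cenL Λ y) ≠ ⊤ := by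
    intro h
    have h1 := Module.length_le_of_injective (cenL Λ y).subtype (cenL Λ y).subtype_injective
    rw [h, top_le_iff] at h1
    exact hE h1
  obtain ⟨c, hc⟩ := ENat.ne_top_iff_exists.1 hC
  have hE' : Module.length Λ (E ⊗[ℤ] O) ≠ ⊤ := by
    rw [hlen1, ← ha]
    exact_mod_cast ENat.natCast_ne_top ((f + 1) * a)
  obtain ⟨k1, k2⟩ := keyL_count hE' n hn ζ hζ (y ⊗ₜ[ℤ] (1 : O)) (by
    rw [Algebra.TensorProduct.tmul_pow, hy, TensorProduct.zero_tmul])
  rw [hlen1, hlen2, ← ha, ← hc] at k1 k2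
  rw [← ha, ← hc]
  refine ⟨?_, fun h => ?_⟩
  · have h1 : (f + 1) * a ≤ n * ((f + 1) * c) := by exact_mod_cast k1
    have h2 : (f + 1) * a ≤ (f + 1) * (n * c) := by
      rw [Nat.mul_left_comm]
      exact h1
    exact_mod_cast Nat.le_of_mul_le_mul_left h2 (Nat.succ_pos f)
  · have h1 : a = n * c := by exact_mod_cast h
    obtain ⟨v, θ, r, d1, d2, d3⟩ := k2 (by
      rw [h1]
      push_cast
      ring)
    obtain ⟨θ0, hθ⟩ := keyL_alg n (y ⊗ₜ[ℤ] (1 : O)) v θ r d1 d2 d3
    refine ⟨co 0 θ0, ?_⟩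
    have hone : co 0 (1 : E ⊗[ℤ] O) = 1 := by
      have h3 : b.repr (1 : O) 0 = 1 := by
        rw [← hb0, Basis.repr_self, Finsupp.single_eq_same]
      rw [Algebra.TensorProduct.one_def, hco, h3, one_smul]
    have h2 := congrArg (co 0) hθ
    rw [map_sum, hone] at h2
    rw [← h2]
    refine Finset.sum_congr rfl fun i _ => ?_
    rw [Algebra.TensorProduct.tmul_pow, Algebra.TensorProduct.tmul_pow, one_pow, one_pow, hmul]

end Pool.Agent.HWC
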