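import Pool.Agent.HWC.DefsL

/-!
Paper proof.  Lengths over L (= the ring Λ), l = length E finite, kappa = length C_E(y) (C_E(y) = cenL), O acts on E by
central scalars.  E[X] = Polynomial E, X central, E[X]_(<M) = polynomials of degree < M, length M l.
T_i (w) = y w - z^i X w y (z = zeta in O), from E[X]_(<M) to E[X]_(<M+1).  K_(<M) = ker of T_0 on E[X]_(<M), k(M) its length.
(1) D_i : w(X) |-> w(z^i X) is a bijection of E[X]_(<M) (z^n = 1: put X = z in hz) and T_i D_i = D_i T_0, so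
the kernel of T_i on E[X]_(<M) has length k(M).
(2) T_(n-1) ... T_0 = 0: homogenize hz: prod (A - z^i B) = A^n - B^n for commuting A, B; A = left multiplication by y,
B = X times right multiplication by y; y^n = 0.  So N l <= sum_(i<n) k(N + i) for all N.
(3) evaluation at X = 1 maps K_(<M) into C_E(y) with kernel (X - 1) K_(<M-1); so k(M) <= k(M-1) + kappa, k(M) <= M kappa.
(4) N l <= sum_(i<n) (N+i) kappa <= (n N + n^2) kappa for all N, so l <= n kappa.
(5) Let l = n kappa.  g(M) = image of K_(<M) in C_E(y) under X = 1, increasing in M.  If g(M) is never all of C_E(y) then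
k(M) <= M (kappa - 1), N n kappa <= sum_(i<n) (N + i)(kappa - 1) for all N: contradiction.  So there is w with T_0 w = 0, w(1) = 1.
(6) G = T_1 ... T_(n-1), G(θ) = sum_(i<n) X^i y^(n-1-i) θ y^i (cancel X - 1 in hz: prod_(i=1..n-1) (X - z^i) = 1 + ... + X^(n-1)).
length ker(G on E[X]_(<M)) <= sum_(i=1..n-1) k(M + i) <= (n-1)(M+n) kappa, so length G(E[X]_(<M)) >= M kappa - n(n-1) kappa.
T_0 G = 0.  So K_(<M) / (K_(<M) inter G(E[X])) has length <= k(M) - length G(E[X]_(<M-n+1)) <= n^2 kappa for M >= n.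
So every finitely generated Λ-submodule of K/G(E[X]) (K = union of the K_(<M)) has length <= n^2 kappa.
With u = X - 1 the submodules (sum_(j>=r) Λ u^j w) + G(E[X]) decrease with r, so they stabilize:
u^r w = sum_(j>r) a_j u^j w + G(θ); v = (1 - sum_(j>r) a_j u^(j-r)) w satisfies the claim.
-/

set_option autoImplicit false

namespace Pool.Agent.HWC

open IsLocalRing Module

section KeyLaLen

variable {Λ V V' : Type*} [CommRing Λ] [AddCommGroup V] [Module Λ V] [AddCommGroup V'] [Module Λ V']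

private theorem KeyLa_mono {S S' : Submodule Λ V} (h : S ≤ S') :
    Module.length Λ S ≤ Module.length Λ S' :=
  Module.length_le_of_injective (Submodule.inclusion h) (Submodule.inclusion_injective h)

private theorem KeyLa_map (f : V →ₗ[Λ] V') (S : Submodule Λ V) :
    Module.length Λ (S.map f) ≤ Module.length Λ S :=
  Module.length_le_of_surjective (f.submoduleMap S) (f.submoduleMap_surjective S)

private theorem KeyLa_add (f : V →ₗ[Λ] V') (S : Submodule Λ V) :
    Module.length Λ S = Module.length Λ (LinearMap.ker f ⊓ S : Submodule Λ V) +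
      Module.length Λ (S.map f) := by
  set g : S →ₗ[Λ] V' := f.domRestrict S with hg
  have h1 : Module.length Λ S = Module.length Λ (LinearMap.ker g) +
      Module.length Λ (LinearMap.range g) :=
    Module.length_eq_add_of_exact (LinearMap.ker g).subtype g.rangeRestrict
      Subtype.val_injective g.surjective_rangeRestrict (by
        intro x
        rw [Submodule.coe_subtype, Subtype.range_coe_subtype]
        change g.rangeRestrict x = 0 ↔ g x = 0
        rw [Subtype.ext_iff]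
        rfl)
  have h2 : (LinearMap.ker g).map S.subtype = LinearMap.ker f ⊓ S := by
    ext x
    rw [Submodule.mem_map, Submodule.mem_inf, LinearMap.mem_ker]
    constructor
    · rintro ⟨z, hz, rfl⟩
      exact ⟨hz, z.2⟩
    · rintro ⟨h3, h4⟩
      exact ⟨⟨x, h4⟩, h3, rfl⟩
  have h3 : LinearMap.range g = S.map f := by
    ext x
    rw [Submodule.mem_map, LinearMap.mem_range]
    constructor
    · rintro ⟨z, rfl⟩
      exact ⟨z, z.2, rfl⟩
    · rintro ⟨z, hz, rfl⟩
      exact ⟨⟨z, hz⟩, rfl⟩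
  rw [h1, h3, ← h2]
  congr 1
  exact (Submodule.equivMapOfInjective S.subtype S.injective_subtype (LinearMap.ker g)).length_eq

private theorem KeyLa_lt {S S' : Submodule Λ V} (h : S < S') (hf : Module.length Λ S' ≠ ⊤) :
    Module.length Λ S + 1 ≤ Module.length Λ S' := by
  have h1 : IsFiniteLength Λ S' := Module.length_ne_top_iff.1 hf
  obtain ⟨i1, i2⟩ := isFiniteLength_iff_isNoetherian_isArtinian.1 h1
  have h2 : S.submoduleOf S' ≠ ⊤ := by
    intro h3
    apply h.not_ge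
    intro x hx
    have : (⟨x, hx⟩ : S') ∈ S.submoduleOf S' := by rw [h3]; trivial
    exact this
  have h3 := Submodule.length_lt h2
  have h4 : Module.length Λ (S.submoduleOf S') = Module.length Λ S :=
    (Submodule.submoduleOfEquivOfLe h.le).length_eq
  rw [h4] at h3
  exact Order.add_one_le_of_lt h3

/-- composition of the first `m` maps -/
private def KeyLa_F (T : ℕ → V →ₗ[Λ] V) : ℕ → V →ₗ[Λ] V
  | 0 => LinearMap.id
  | (m + 1) => (T m).comp (KeyLa_F T m)

private theorem KeyLa_Fmap (T : ℕ → V →ₗ[Λ] V) (S : ℕ → Submodule Λ V)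
    (hS : ∀ i, (S i).map (T i) ≤ S (i + 1)) (m : ℕ) : (S 0).map (KeyLa_F T m) ≤ S m := by
  induction m with
  | zero => simp [KeyLa_F]
  | succ m ih =>
    rw [KeyLa_F, Submodule.map_comp]
    exact (Submodule.map_mono ih).trans (hS m)

private theorem KeyLa_chain (T : ℕ → V →ₗ[Λ] V) (S : ℕ → Submodule Λ V)
    (hS : ∀ i, (S i).map (T i) ≤ S (i + 1)) (c : ℕ → ℕ∞)
    (hc : ∀ i, Module.length Λ (LinearMap.ker (T i) ⊓ S i : Submodule Λ V) ≤ c i) (m : ℕ) :
    Module.length Λ (LinearMap.ker (KeyLa_F T m) ⊓ S 0 : Submodule Λ V) ≤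
      ∑ i ∈ Finset.range m, c i := by
  induction m with
  | zero =>
    have h1 : (LinearMap.ker (KeyLa_F T 0) ⊓ S 0 : Submodule Λ V) = ⊥ := by
      have : LinearMap.ker (KeyLa_F T 0) = ⊥ := LinearMap.ker_id
      rw [this, bot_inf_eq]
    rw [h1, Module.length_bot]
    exact zero_le
  | succ m ih =>
    rw [Finset.sum_range_succ, KeyLa_add (KeyLa_F T m)]
    refine add_le_add (le_trans (KeyLa_mono ?_) ih) (le_trans (KeyLa_mono ?_) (hc m))
    · intro x hx
      exact ⟨hx.1, hx.2.2⟩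
    · rintro _ ⟨x, hx, rfl⟩
      exact ⟨hx.1, KeyLa_Fmap T S hS m ⟨x, hx.2, rfl⟩⟩

end KeyLaLen

section KeyLaHom

open Polynomial

variable {O W : Type*} [CommRing O] [AddCommGroup W] [Module O W]

/-- the homogeneous form of a polynomial evaluated at `(L, P)` -/
private noncomputable def KeyLa_H (L P : Module.End O W) (m : ℕ) (g : Polynomial O) :
    Module.End O W :=
  ∑ j ∈ Finset.range (m + 1), g.coeff j • (L ^ j * P ^ (m - j))

private theorem KeyLa_H_succ (L P : Module.End O W) (hc : Commute L P) (m : ℕ) (g : Polynomial O)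
    (hg : g.coeff (m + 1) = 0) (r : O) :
    KeyLa_H L P (m + 1) ((X - C r) * g) = (L - r • P) * KeyLa_H L P m g := by
  have e1 : L * KeyLa_H L P m g =
      ∑ j ∈ Finset.range (m + 1), g.coeff j • (L ^ (j + 1) * P ^ (m - j)) := by
    rw [KeyLa_H, Finset.mul_sum]
    refine Finset.sum_congr rfl fun j _ => ?_
    rw [mul_smul_comm, ← mul_assoc, ← pow_succ']
  have e2 : P * KeyLa_H L P m g =
      ∑ j ∈ Finset.range (m + 2), g.coeff j • (L ^ j * P ^ (m + 1 - j)) := by
    rw [Finset.sum_range_succ, hg, zero_smul, add_zero, KeyLa_H, Finset.mul_sum]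
    refine Finset.sum_congr rfl fun j hj => ?_
    have hj' : j ≤ m := Nat.lt_succ_iff.1 (Finset.mem_range.1 hj)
    rw [mul_smul_comm, ← mul_assoc, (hc.pow_left j).eq.symm, mul_assoc, ← pow_succ',
      show m + 1 - j = m - j + 1 by omega]
  have e0 : (L - r • P) * KeyLa_H L P m g =
      L * KeyLa_H L P m g - r • (P * KeyLa_H L P m g) := by
    rw [sub_mul, smul_mul_assoc]
  rw [e0, e1, e2, KeyLa_H, Finset.smul_sum]
  have s1 := Finset.sum_range_succ' (fun j : ℕ => ((X - C r) * g : Polynomial O).coeff j •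
    (L ^ j * P ^ (m + 1 - j) : Module.End O W)) (m + 1)
  have s2 := Finset.sum_range_succ' (fun j : ℕ => r • g.coeff j •
    (L ^ j * P ^ (m + 1 - j) : Module.End O W)) (m + 1)
  rw [s1, s2]
  have e3 : ∀ j, ((X - C r) * g).coeff (j + 1) = g.coeff j - r * g.coeff (j + 1) := by
    intro j
    rw [sub_mul, coeff_sub, coeff_X_mul, coeff_C_mul]
  have e4 : ((X - C r) * g).coeff 0 = - (r * g.coeff 0) := by
    rw [sub_mul, coeff_sub, coeff_C_mul, mul_comm X g, mul_coeff_zero]
    simp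
  rw [e4, sub_add_eq_sub_sub, ← Finset.sum_sub_distrib, neg_smul, ← sub_eq_add_neg, mul_smul]
  congr 1
  refine Finset.sum_congr rfl fun j _ => ?_
  rw [e3, sub_smul, mul_smul, Nat.add_sub_add_right]

private theorem KeyLa_H_X (L P : Module.End O W) (m i : ℕ) (hi : i ≤ m) :
    KeyLa_H L P m (X ^ i) = L ^ i * P ^ (m - i) := by
  rw [KeyLa_H, Finset.sum_eq_single i]
  · rw [coeff_X_pow_self, one_smul]
  · intro j _ hj
    rw [coeff_X_pow, if_neg hj, zero_smul]
  · intro h
    exact absurd (Finset.mem_range.2 (Nat.lt_succ_of_le hi)) h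

private theorem KeyLa_H_sub (L P : Module.End O W) (m : ℕ) (g h : Polynomial O) :
    KeyLa_H L P m (g - h) = KeyLa_H L P m g - KeyLa_H L P m h := by
  rw [KeyLa_H, KeyLa_H, KeyLa_H, ← Finset.sum_sub_distrib]
  refine Finset.sum_congr rfl fun j _ => ?_
  rw [coeff_sub, sub_smul]

private theorem KeyLa_H_sum (L P : Module.End O W) (m n : ℕ) (g : ℕ → Polynomial O) :
    KeyLa_H L P m (∑ i ∈ Finset.range n, g i) = ∑ i ∈ Finset.range n, KeyLa_H L P m (g i) := by
  unfold KeyLa_H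
  rw [Finset.sum_comm]
  refine Finset.sum_congr rfl fun j _ => ?_
  rw [finsetSum_coeff, Finset.sum_smul]

private theorem KeyLa_deg (m : ℕ) (ρ : ℕ → O) :
    (∏ i ∈ Finset.range m, (X - C (ρ i)) : Polynomial O).coeff (m + 1) = 0 := by
  refine coeff_eq_zero_of_natDegree_lt (lt_of_le_of_lt (natDegree_prod_le _ _) ?_)
  refine lt_of_le_of_lt (Finset.sum_le_sum (g := fun _ => 1) fun i _ => natDegree_X_sub_C_le _) ?_
  simp

end KeyLaHom

section KeyLaPol

open Polynomial

variable {Λ O E : Type*} [CommRing Λ] [CommRing O] [Ring E] [Algebra Λ E] [Algebra O E]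

private theorem KeyLa_sc (a : Λ) (o : O) (p : E[X]) : o • (a • p) = a • (o • p) := by
  rw [Algebra.smul_def o, Algebra.smul_def o, mul_smul_comm]

variable (Λ) in
/-- the maps `T` -/
private noncomputable def KeyLa_T (y : E) (o : O) : E[X] →ₗ[Λ] E[X] where
  toFun w := C y * w - o • (X * w * C y)
  map_add' w w' := by
    rw [mul_add, mul_add, add_mul, smul_add]
    abel
  map_smul' a w := by
    rw [mul_smul_comm, mul_smul_comm, smul_mul_assoc, KeyLa_sc, RingHom.id_apply, smul_sub]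

private theorem KeyLa_T_apply (y : E) (o : O) (w : E[X]) :
    KeyLa_T Λ y o w = C y * w - o • (X * w * C y) := rfl

variable (O) in
/-- left multiplication by `y` -/
private noncomputable def KeyLa_A (y : E) : Module.End O E[X] := LinearMap.mulLeft O (C y)

variable (O) in
/-- `X` times right multiplication by `y` -/
private noncomputable def KeyLa_B (y : E) : Module.End O E[X] :=
  LinearMap.mulLeft O X * LinearMap.mulRight O (C y)

private theorem KeyLa_A_apply (y : E) (w : E[X]) : KeyLa_A O y w = C y * w := rfl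

private theorem KeyLa_B_apply (y : E) (w : E[X]) : KeyLa_B O y w = X * (w * C y) := rfl

private theorem KeyLa_comm (y : E) : Commute (KeyLa_A O y) (KeyLa_B O y) := by
  refine LinearMap.ext fun w => ?_
  rw [Module.End.mul_apply, Module.End.mul_apply, KeyLa_A_apply, KeyLa_B_apply, KeyLa_A_apply,
    KeyLa_B_apply]
  rw [← mul_assoc, ← X_mul, mul_assoc, mul_assoc]

private theorem KeyLa_A_pow (y : E) (i : ℕ) (w : E[X]) : (KeyLa_A O y ^ i) w = C (y ^ i) * w := by
  induction i with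
  | zero => simp
  | succ i ih =>
    rw [pow_succ', Module.End.mul_apply, ih, KeyLa_A_apply, pow_succ', C_mul, mul_assoc]

private theorem KeyLa_B_pow (y : E) (i : ℕ) (w : E[X]) :
    (KeyLa_B O y ^ i) w = X ^ i * (w * C (y ^ i)) := by
  induction i with
  | zero => simp
  | succ i ih =>
    rw [pow_succ', Module.End.mul_apply, ih, KeyLa_B_apply, pow_succ', pow_succ, C_mul,
      mul_assoc, mul_assoc, mul_assoc]

private theorem KeyLa_T_eq (y : E) (o : O) (w : E[X]) :
    KeyLa_T Λ y o w = (KeyLa_A O y - o • KeyLa_B O y) w := by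
  rw [KeyLa_T_apply, LinearMap.sub_apply, LinearMap.smul_apply, KeyLa_A_apply, KeyLa_B_apply,
    mul_assoc]

private theorem KeyLa_F_eq (y : E) (ρ : ℕ → O) (m : ℕ) (w : E[X]) :
    KeyLa_F (fun i => KeyLa_T Λ y (ρ i)) m w =
      KeyLa_H (KeyLa_A O y) (KeyLa_B O y) m (∏ i ∈ Finset.range m, (X - C (ρ i))) w := by
  induction m with
  | zero =>
    simp [KeyLa_F, KeyLa_H]
  | succ m ih =>
    rw [Finset.prod_range_succ, mul_comm, KeyLa_H_succ _ _ (KeyLa_comm y) m _ (KeyLa_deg m ρ),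
      Module.End.mul_apply, ← ih, ← KeyLa_T_eq (Λ := Λ)]
    rfl

private theorem KeyLa_full (y : E) (n : ℕ) (hy : y ^ n = 0) (w : E[X]) :
    KeyLa_H (KeyLa_A O y) (KeyLa_B O y) n (X ^ n - 1) w = 0 := by
  have h1 : KeyLa_H (KeyLa_A O y) (KeyLa_B O y) n (1 : Polynomial O) = KeyLa_B O y ^ n := by
    rw [← pow_zero (X : Polynomial O), KeyLa_H_X _ _ n 0 (Nat.zero_le n), pow_zero, one_mul,
      Nat.sub_zero]
  rw [KeyLa_H_sub, KeyLa_H_X _ _ n n le_rfl, h1, Nat.sub_self, pow_zero, mul_one,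
    LinearMap.sub_apply, KeyLa_A_pow, KeyLa_B_pow, hy]
  simp

/-- `G` -/
private theorem KeyLa_G (y : E) (n : ℕ) (w : E[X]) :
    KeyLa_H (KeyLa_A O y) (KeyLa_B O y) (n - 1) (∑ i ∈ Finset.range n, X ^ i) w =
      ∑ i ∈ Finset.range n, X ^ i * C (y ^ (n - 1 - i)) * w * C (y ^ i) := by
  rw [KeyLa_H_sum, LinearMap.sum_apply, ← Finset.sum_range_reflect]
  refine Finset.sum_congr rfl fun i hi => ?_
  have hi' := Finset.mem_range.1 hi
  rw [KeyLa_H_X _ _ _ _ (Nat.sub_le _ _), Module.End.mul_apply, KeyLa_A_pow, KeyLa_B_pow]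
  have h1 : n - 1 - (n - 1 - i) = i := by omega
  rw [h1, ← mul_assoc (C (y ^ (n - 1 - i))), ← (commute_X_pow _ i).eq]
  simp only [mul_assoc]

variable (Λ E) in
/-- polynomials of degree less than `M` -/
private def KeyLa_P (M : ℕ) : Submodule Λ E[X] where
  carrier := {p | ∀ i, M ≤ i → p.coeff i = 0}
  add_mem' := by
    intro p q hp hq i hi
    rw [coeff_add, hp i hi, hq i hi, add_zero]
  zero_mem' := by
    intro i _
    exact coeff_zero i
  smul_mem' := by
    intro a p hp i hi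
    rw [coeff_smul, hp i hi, smul_zero]

private theorem KeyLa_P_mem {M : ℕ} {p : E[X]} :
    p ∈ KeyLa_P Λ E M ↔ ∀ i, M ≤ i → p.coeff i = 0 := Iff.rfl

private theorem KeyLa_P_mono {M M' : ℕ} (h : M ≤ M') : KeyLa_P Λ E M ≤ KeyLa_P Λ E M' :=
  fun _ hp i hi => hp i (h.trans hi)

private theorem KeyLa_P_zero : KeyLa_P Λ E 0 = ⊥ := by
  rw [eq_bot_iff]
  intro p hp
  rw [Submodule.mem_bot]
  ext i
  rw [hp i (Nat.zero_le i), coeff_zero]

private theorem KeyLa_P_len (M : ℕ) :
    Module.length Λ (KeyLa_P Λ E M) = M * Module.length Λ E := by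
  induction M with
  | zero => rw [KeyLa_P_zero, Module.length_bot, Nat.cast_zero, zero_mul]
  | succ M ih =>
    let f : E[X] →ₗ[Λ] E :=
      { toFun := fun p => p.coeff M
        map_add' := fun p q => coeff_add p q M
        map_smul' := fun a p => coeff_smul a p M }
    have h1 : (LinearMap.ker f ⊓ KeyLa_P Λ E (M + 1) : Submodule Λ E[X]) = KeyLa_P Λ E M := by
      ext p
      constructor
      · rintro ⟨h2, h3⟩ i hi
        rcases Nat.eq_or_lt_of_le hi with h | h
        · rw [← h]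
          exact h2
        · exact h3 i h
      · intro h2
        exact ⟨h2 M le_rfl, KeyLa_P_mono (Nat.le_succ M) h2⟩
    have h2 : (KeyLa_P Λ E (M + 1)).map f = ⊤ := by
      rw [eq_top_iff]
      intro e _
      refine ⟨monomial M e, ?_, coeff_monomial_same M e⟩
      intro i hi
      rw [coeff_monomial, if_neg (by omega)]
    rw [KeyLa_add f, h1, h2, Module.length_top, ih, Nat.cast_succ, add_mul, one_mul]

private theorem KeyLa_T_P (y : E) (o : O) (M : ℕ) :
    (KeyLa_P Λ E M).map (KeyLa_T Λ y o) ≤ KeyLa_P Λ E (M + 1) := by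
  rintro _ ⟨w, hw, rfl⟩ i hi
  rw [KeyLa_T_apply, coeff_sub, coeff_C_mul, hw i (by omega), mul_zero, coeff_smul, coeff_mul_C]
  obtain ⟨j, rfl⟩ : ∃ j, i = j + 1 := ⟨i - 1, by omega⟩
  rw [coeff_X_mul, hw j (by omega)]
  simp

/-- evaluation at a central element -/
private noncomputable def KeyLa_ev (c : E) (hc : ∀ e : E, Commute e c) : E[X] →+* E :=
  eval₂RingHom' (RingHom.id E) c hc

private theorem KeyLa_ev_X (c : E) (hc : ∀ e : E, Commute e c) : KeyLa_ev c hc X = c :=
  eval₂_X _ _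

private theorem KeyLa_ev_C (c : E) (hc : ∀ e : E, Commute e c) (e : E) :
    KeyLa_ev c hc (C e) = e := eval₂_C _ _

private theorem KeyLa_ev_smul {R : Type*} [CommRing R] [Algebra R E] (c : E)
    (hc : ∀ e : E, Commute e c) (a : R) (p : E[X]) :
    KeyLa_ev c hc (a • p) = a • KeyLa_ev c hc p := by
  rw [Algebra.smul_def, Polynomial.algebraMap_apply, map_mul, KeyLa_ev_C, ← Algebra.smul_def]

variable (Λ) in
/-- evaluation at a central element, linear -/
private noncomputable def KeyLa_evL (c : E) (hc : ∀ e : E, Commute e c) : E[X] →ₗ[Λ] E where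
  toFun := KeyLa_ev c hc
  map_add' := map_add _
  map_smul' a p := by rw [KeyLa_ev_smul, RingHom.id_apply]

private theorem KeyLa_evL_apply (c : E) (hc : ∀ e : E, Commute e c) (p : E[X]) :
    KeyLa_evL Λ c hc p = KeyLa_ev c hc p := rfl

/-- division by `X - c` -/
private theorem KeyLa_div (c : E) (hc : ∀ e : E, Commute e c) {M : ℕ} {w : E[X]}
    (hw : w ∈ KeyLa_P Λ E (M + 1)) (h0 : KeyLa_ev c hc w = 0) :
    ∃ w' ∈ KeyLa_P Λ E M, w = (X - C c) * w' := by
  nontriviality E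
  set w' := w /ₘ (X - C c) with hw'
  have h1 := modByMonic_add_div w (X - C c)
  have h2 : w %ₘ (X - C c) = C ((w %ₘ (X - C c)).coeff 0) := by
    apply eq_C_of_degree_le_zero
    have h3 := degree_modByMonic_lt w (monic_X_sub_C c)
    rw [degree_X_sub_C] at h3
    exact Nat.WithBot.lt_one_iff_le_zero.1 h3
  have h3 : (w %ₘ (X - C c)).coeff 0 = 0 := by
    have h4 := congrArg (KeyLa_ev c hc) h1
    rw [map_add, map_mul, map_sub, KeyLa_ev_X, KeyLa_ev_C, sub_self, zero_mul, add_zero, h0, h2,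
      KeyLa_ev_C] at h4
    exact h4
  rw [h2, h3, C_0, zero_add] at h1
  refine ⟨w', ?_, h1.symm⟩
  -- downward induction
  have key : ∀ d : ℕ, ∀ j, M ≤ j → w'.natDegree < j + d → w'.coeff j = 0 := by
    intro d
    induction d with
    | zero =>
      intro j _ hj
      exact coeff_eq_zero_of_natDegree_lt (by simpa using hj)
    | succ d ih =>
      intro j hj hd
      have h5 := ih (j + 1) (by omega) (by omega)
      have h6 : w.coeff (j + 1) = 0 := hw (j + 1) (by omega)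
      rw [← h1, sub_mul, coeff_sub, coeff_X_mul, coeff_C_mul, ← hw', h5, mul_zero, sub_zero] at h6
      exact h6
  intro j hj
  exact key (w'.natDegree + 1) j hj (by omega)

variable (Λ) in
/-- the kernels -/
private noncomputable def KeyLa_K (y : E) (o : O) (M : ℕ) : Submodule Λ E[X] :=
  LinearMap.ker (KeyLa_T Λ y o) ⊓ KeyLa_P Λ E M

private theorem KeyLa_cen (y : E) (e : E) : e ∈ cenL Λ y ↔ y * e = e * y := by
  rw [LinearMap.mem_ker, LinearMap.sub_apply, sub_eq_zero]
  rfl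

private theorem KeyLa_ev_K (y : E) (o : O) (c : E) (hc : ∀ e : E, Commute e c)
    (hoc : algebraMap O E o * c = 1) {w : E[X]} (hw : KeyLa_T Λ y o w = 0) :
    KeyLa_ev c hc w ∈ cenL Λ y := by
  rw [KeyLa_cen]
  rw [KeyLa_T_apply, sub_eq_zero] at hw
  have h1 := congrArg (KeyLa_ev c hc) hw
  rw [map_mul, KeyLa_ev_C, KeyLa_ev_smul, map_mul, map_mul, KeyLa_ev_X, KeyLa_ev_C,
    Algebra.smul_def, ← mul_assoc, ← mul_assoc, hoc, one_mul] at h1
  exact h1

private theorem KeyLa_T_central (y : E) (o : O) (z : E[X]) (hz : ∀ p : E[X], p * z = z * p)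
    (w : E[X]) : KeyLa_T Λ y o (z * w) = z * KeyLa_T Λ y o w := by
  rw [KeyLa_T_apply, KeyLa_T_apply, mul_sub, mul_smul_comm, ← mul_assoc, hz, mul_assoc,
    ← mul_assoc X z w, hz X]
  simp only [mul_assoc]

private theorem KeyLa_XC (c : E) (hc : ∀ e : E, Commute e c) (p : E[X]) :
    p * (X - C c) = (X - C c) * p := by
  rw [mul_sub, sub_mul, X_mul]
  congr 1
  ext i
  rw [coeff_mul_C, coeff_C_mul]
  exact hc _

private theorem KeyLa_step (y : E) (o : O) (c : E) (hc : ∀ e : E, Commute e c) (M : ℕ) :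
    Module.length Λ (KeyLa_K Λ y o (M + 1)) ≤ Module.length Λ (KeyLa_K Λ y o M) +
      Module.length Λ ((KeyLa_K Λ y o (M + 1)).map (KeyLa_evL Λ c hc)) := by
  rw [KeyLa_add (KeyLa_evL Λ c hc) (KeyLa_K Λ y o (M + 1))]
  refine add_le_add ?_ le_rfl
  refine le_trans (KeyLa_mono ?_) (KeyLa_map (LinearMap.mulLeft Λ (X - C c)) (KeyLa_K Λ y o M))
  rintro w ⟨h1, h2, h3⟩
  obtain ⟨w', h4, h5⟩ := KeyLa_div c hc h3 h1
  refine ⟨w', ⟨?_, h4⟩, h5.symm⟩
  have h6 : KeyLa_T Λ y o w = 0 := h2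
  rw [h5, KeyLa_T_central y o _ (KeyLa_XC c hc)] at h6
  exact (monic_X_sub_C c).isRegular.left (by
    change (X - C c) * KeyLa_T Λ y o w' = (X - C c) * 0
    rw [h6, mul_zero])

private theorem KeyLa_K_zero (y : E) (o : O) : KeyLa_K Λ y o 0 = ⊥ := by
  rw [KeyLa_K, KeyLa_P_zero, inf_bot_eq]

private theorem KeyLa_K_le (y : E) (o : O) (c : E) (hc : ∀ e : E, Commute e c)
    (hoc : algebraMap O E o * c = 1) (M : ℕ) :
    Module.length Λ (KeyLa_K Λ y o M) ≤ M * Module.length Λ (cenL Λ y) := by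
  induction M with
  | zero => rw [KeyLa_K_zero, Module.length_bot]; exact zero_le
  | succ M ih =>
    refine (KeyLa_step y o c hc M).trans ?_
    rw [Nat.cast_succ, add_mul, one_mul]
    refine add_le_add ih (KeyLa_mono ?_)
    rintro _ ⟨w, hw, rfl⟩
    exact KeyLa_ev_K y o c hc hoc hw.1

private theorem KeyLa_chain' (y : E) (ρ : ℕ → O) (N m : ℕ) (c : ℕ → ℕ∞)
    (hc : ∀ i, i < m → Module.length Λ (KeyLa_K Λ y (ρ i) (N + i)) ≤ c i) :
    Module.length Λ (LinearMap.ker (KeyLa_F (fun i => KeyLa_T Λ y (ρ i)) m) ⊓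
      KeyLa_P Λ E N : Submodule Λ E[X]) ≤ ∑ i ∈ Finset.range m, c i := by
  have h1 := KeyLa_chain (fun i => KeyLa_T Λ y (ρ i)) (fun i => KeyLa_P Λ E (N + i))
    (fun i => KeyLa_T_P y (ρ i) (N + i)) (fun i => if i < m then c i else ⊤) (by
      intro i
      split_ifs with h
      · exact hc i h
      · exact le_top) m
  refine h1.trans (le_of_eq ?_)
  refine Finset.sum_congr rfl fun i hi => ?_
  rw [if_pos (Finset.mem_range.1 hi)]

private theorem KeyLa_main1 (y : E) (n : ℕ) (ζ : O)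
    (hζ : ∏ i ∈ Finset.range n, (X - C (ζ ^ i)) = (X ^ n - 1 : O[X])) (hy : y ^ n = 0)
    (N : ℕ) (c : ℕ → ℕ∞)
    (hc : ∀ i, i < n → Module.length Λ (KeyLa_K Λ y (ζ ^ i) (N + i)) ≤ c i) :
    N * Module.length Λ E ≤ ∑ i ∈ Finset.range n, c i := by
  have h1 := KeyLa_chain' (Λ := Λ) y (fun i => ζ ^ i) N n c hc
  have h2 : LinearMap.ker (KeyLa_F (fun i => KeyLa_T Λ y (ζ ^ i)) n) = ⊤ := by
    rw [eq_top_iff]
    intro w _
    rw [LinearMap.mem_ker, KeyLa_F_eq, hζ]
    exact KeyLa_full y n hy w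
  rw [h2, top_inf_eq, KeyLa_P_len] at h1
  exact h1

private theorem KeyLa_zeta (n : ℕ) (hn : 0 < n) (ζ : O)
    (hζ : ∏ i ∈ Finset.range n, (X - C (ζ ^ i)) = (X ^ n - 1 : O[X])) (i : ℕ) (hi : i < n) :
    ζ ^ i * (ζ ^ i) ^ (n - 1) = 1 := by
  have h2 := congrArg (Polynomial.eval (ζ ^ i)) hζ
  rw [eval_prod, Finset.prod_eq_zero (Finset.mem_range.2 hi) (by simp), eval_sub, eval_pow,
    eval_X, eval_one] at h2
  rw [← pow_succ', Nat.sub_add_cancel hn]
  exact (sub_eq_zero.1 h2.symm)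

private theorem KeyLa_K_bound (y : E) (n : ℕ) (hn : 0 < n) (ζ : O)
    (hζ : ∏ i ∈ Finset.range n, (X - C (ζ ^ i)) = (X ^ n - 1 : O[X])) (i : ℕ) (hi : i < n)
    (M : ℕ) :
    Module.length Λ (KeyLa_K Λ y (ζ ^ i) M) ≤ M * Module.length Λ (cenL Λ y) := by
  refine KeyLa_K_le y (ζ ^ i) (algebraMap O E ((ζ ^ i) ^ (n - 1)))
    (fun e => (Algebra.commutes _ _).symm) ?_ M
  rw [← map_mul, KeyLa_zeta n hn ζ hζ i hi, map_one]

private theorem KeyLa_one (e : E) : Commute e (1 : E) := Commute.one_right e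

/-- the product of the maps for `1 ≤ i < n` -/
private theorem KeyLa_Gval (y : E) (n : ℕ) (hn : 0 < n) (ζ : O)
    (hζ : ∏ i ∈ Finset.range n, (X - C (ζ ^ i)) = (X ^ n - 1 : O[X])) (w : E[X]) :
    KeyLa_F (fun i => KeyLa_T Λ y (ζ ^ (i + 1))) (n - 1) w =
      ∑ i ∈ Finset.range n, X ^ i * C (y ^ (n - 1 - i)) * w * C (y ^ i) := by
  have h1 : (∏ i ∈ Finset.range (n - 1), (X - C (ζ ^ (i + 1))) : O[X]) =
      ∑ i ∈ Finset.range n, X ^ i := by
    obtain ⟨m, rfl⟩ : ∃ m, n = m + 1 := ⟨n - 1, by omega⟩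
    rw [Nat.add_sub_cancel]
    rw [Finset.prod_range_succ', pow_zero] at hζ
    have h2 := (Commute.all (X : O[X]) 1).mul_geom_sum₂ (m + 1)
    simp only [one_pow, mul_one] at h2
    apply (monic_X_sub_C (1 : O)).isRegular.left
    change (X - C 1) * _ = (X - C 1) * _
    rw [mul_comm, hζ, ← h2, C_1]
  rw [KeyLa_F_eq, h1, KeyLa_G]

private theorem KeyLa_GK (y : E) (n : ℕ) (hn : 0 < n) (ζ : O)
    (hζ : ∏ i ∈ Finset.range n, (X - C (ζ ^ i)) = (X ^ n - 1 : O[X])) (hy : y ^ n = 0) (M : ℕ) :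
    (KeyLa_P Λ E M).map (KeyLa_F (fun i => KeyLa_T Λ y (ζ ^ (i + 1))) (n - 1)) ≤
      KeyLa_K Λ y (1 : O) (M + n) := by
  rintro _ ⟨w, hw, rfl⟩
  refine ⟨?_, ?_⟩
  · rw [SetLike.mem_coe, LinearMap.mem_ker, KeyLa_F_eq, KeyLa_T_eq, ← Module.End.mul_apply,
      ← KeyLa_H_succ _ _ (KeyLa_comm y) (n - 1) _ (KeyLa_deg (n - 1) _)]
    have h1 : n - 1 + 1 = n := by omega
    have h2 : ((X - C (1 : O)) * ∏ i ∈ Finset.range (n - 1), (X - C (ζ ^ (i + 1))) : O[X]) =
        X ^ n - 1 := by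
      rw [← hζ]
      obtain ⟨m, rfl⟩ : ∃ m, n = m + 1 := ⟨n - 1, by omega⟩
      rw [Nat.add_sub_cancel, Finset.prod_range_succ', pow_zero, mul_comm]
    rw [h1, h2]
    exact KeyLa_full y n hy w
  · have h1 := KeyLa_Fmap (fun i => KeyLa_T Λ y (ζ ^ (i + 1))) (fun i => KeyLa_P Λ E (M + i))
      (fun i => KeyLa_T_P y (ζ ^ (i + 1)) (M + i)) (n - 1)
    exact KeyLa_P_mono (by omega) (h1 ⟨w, hw, rfl⟩)

private theorem KeyLa_u (p : E[X]) : p * (X - 1) = (X - 1) * p := by
  have := KeyLa_XC (1 : E) KeyLa_one p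
  rwa [C_1] at this

private theorem KeyLa_span (w s : E[X]) (R j : ℕ)
    (hs : s ∈ Submodule.span Λ ((fun i : ℕ => (X - 1) ^ i * w) '' {i | j ≤ i ∧ i < R})) :
    ∃ z : E[X], (∀ p : E[X], p * z = z * p) ∧ s = (X - 1) ^ j * (z * w) := by
  induction hs using Submodule.span_induction with
  | mem x hx =>
    obtain ⟨i, ⟨hi, _⟩, rfl⟩ := hx
    refine ⟨(X - 1) ^ (i - j), fun p => ?_, ?_⟩
    · exact (Commute.pow_right (KeyLa_u p) (i - j)).eq
    · change (X - 1) ^ i * w = _
      rw [← mul_assoc, ← pow_add, Nat.add_sub_cancel' hi]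
  | zero => exact ⟨0, fun p => by simp, by simp⟩
  | add a b _ _ ha hb =>
    obtain ⟨z1, h1, rfl⟩ := ha
    obtain ⟨z2, h2, rfl⟩ := hb
    exact ⟨z1 + z2, fun p => by rw [mul_add, add_mul, h1, h2], by rw [add_mul, mul_add]⟩
  | smul a x _ hx =>
    obtain ⟨z1, h1, rfl⟩ := hx
    exact ⟨a • z1, fun p => by rw [mul_smul_comm, smul_mul_assoc, h1],
      by rw [smul_mul_assoc, mul_smul_comm]⟩

end KeyLaPol

open Polynomial in
theorem keyL_count {Λ O E : Type*} [CommRing Λ] [CommRing O] [Ring E] [Algebra Λ E] [Algebra O E]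
    (hE : Module.length Λ E ≠ ⊤) (n : ℕ) (hn : 0 < n) (ζ : O)
    (hζ : ∏ i ∈ Finset.range n, (X - C (ζ ^ i)) = (X ^ n - 1 : O[X]))
    (y : E) (hy : y ^ n = 0) :
    Module.length Λ E ≤ n * Module.length Λ (cenL Λ y) ∧
    (Module.length Λ E = n * Module.length Λ (cenL Λ y) →
      ∃ (v θ : E[X]) (r : ℕ), C y * v = X * v * C y ∧ v.eval 1 = 1 ∧
        (X - 1) ^ r * v = ∑ i ∈ Finset.range n, X ^ i * C (y ^ (n - 1 - i)) * θ * C (y ^ i)) := by
  obtain ⟨l, hl⟩ := ENat.ne_top_iff_exists.1 hE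
  have hκ0 : Module.length Λ (cenL Λ y) ≤ Module.length Λ E :=
    Module.length_le_of_injective (cenL Λ y).subtype (cenL Λ y).subtype_injective
  obtain ⟨κ, hκ⟩ := ENat.ne_top_iff_exists.1 (ne_top_of_le_ne_top hE hκ0)
  have hKb := KeyLa_K_bound (Λ := Λ) y n hn ζ hζ
  rw [← hκ] at hKb
  rw [← hκ, ← hl]
  -- the basic inequality
  have hsum : ∀ N : ℕ, ∑ i ∈ Finset.range n, (N + i) * κ ≤ n * ((N + n) * κ) := by
    intro N
    refine (Finset.sum_le_card_nsmul _ _ ((N + n) * κ) fun i hi => ?_).trans ?_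
    · exact Nat.mul_le_mul_right κ (by have := Finset.mem_range.1 hi; omega)
    · rw [Finset.card_range, smul_eq_mul]
  have part1 : l ≤ n * κ := by
    by_contra hlt
    have hlt' : n * κ + 1 ≤ l := by omega
    set N := n * (n * κ) + 1 with hN
    have h1 := KeyLa_main1 (Λ := Λ) y n ζ hζ hy N (fun i => ((N + i : ℕ) : ℕ∞) * κ)
      (fun i hi => hKb i hi (N + i))
    rw [← hl] at h1
    have h2 : N * l ≤ ∑ i ∈ Finset.range n, (N + i) * κ := by exact_mod_cast h1
    have h3 := h2.trans (hsum N)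
    have h4 : N * (n * κ + 1) ≤ N * l := Nat.mul_le_mul_left N hlt'
    have h5 : N * (n * κ + 1) ≤ n * ((N + n) * κ) := h4.trans h3
    have h6 : n * ((N + n) * κ) = N * (n * κ) + n * (n * κ) := by ring
    rw [h6, mul_add, mul_one] at h5
    omega
  refine ⟨by exact_mod_cast part1, ?_⟩
  intro heq
  have hlκ : l = n * κ := by exact_mod_cast heq
  have h1cen : (1 : E) ∈ cenL Λ y := by
    rw [KeyLa_cen, mul_one, one_mul]
  have h11 : algebraMap O E 1 * (1 : E) = 1 := by rw [map_one, one_mul]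
  have hζ0 : ζ ^ 0 = (1 : O) := pow_zero ζ
  -- an element of value one
  obtain ⟨M0, w, hw, hw1⟩ : ∃ M0 : ℕ, ∃ w ∈ KeyLa_K Λ y (1 : O) M0,
      KeyLa_ev 1 KeyLa_one w = 1 := by
    by_contra hno
    push Not at hno
    have hmap : ∀ M, Module.length Λ ((KeyLa_K Λ y (1 : O) M).map
        (KeyLa_evL Λ 1 KeyLa_one)) + 1 ≤ κ := by
      intro M
      have h2 : (KeyLa_K Λ y (1 : O) M).map (KeyLa_evL Λ 1 KeyLa_one) < cenL Λ y := by
        refine lt_of_le_of_ne ?_ ?_
        · rintro _ ⟨w, hw, rfl⟩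
          exact KeyLa_ev_K y 1 1 KeyLa_one h11 hw.1
        · intro h
          rw [← h] at h1cen
          obtain ⟨w, hw, hw1⟩ := h1cen
          exact hno M w hw hw1
      have h3 := KeyLa_lt h2 (by rw [← hκ]; exact ENat.natCast_ne_top κ)
      rwa [← hκ] at h3
    have hK : ∀ M : ℕ, Module.length Λ (KeyLa_K Λ y (1 : O) M) + M ≤ M * κ := by
      intro M
      induction M with
      | zero => rw [KeyLa_K_zero, Module.length_bot]; simp
      | succ M ih =>
        have h2 := KeyLa_step (Λ := Λ) y (1 : O) 1 KeyLa_one M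
        calc Module.length Λ (KeyLa_K Λ y (1 : O) (M + 1)) + ((M + 1 : ℕ) : ℕ∞)
            ≤ (Module.length Λ (KeyLa_K Λ y (1 : O) M) +
              Module.length Λ ((KeyLa_K Λ y (1 : O) (M + 1)).map (KeyLa_evL Λ 1 KeyLa_one))) +
              ((M + 1 : ℕ) : ℕ∞) := add_le_add h2 le_rfl
          _ = (Module.length Λ (KeyLa_K Λ y (1 : O) M) + M) +
              (Module.length Λ ((KeyLa_K Λ y (1 : O) (M + 1)).map
                (KeyLa_evL Λ 1 KeyLa_one)) + 1) := by
              push_cast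
              ring
          _ ≤ M * κ + κ := add_le_add ih (hmap (M + 1))
          _ = ((M + 1 : ℕ) : ℕ∞) * κ := by push_cast; ring
    set N := n * (n * κ) + 1 with hN
    have hfin : Module.length Λ (KeyLa_K Λ y (1 : O) N) ≠ ⊤ := by
      have h2 := hKb 0 hn N
      rw [hζ0] at h2
      refine ne_top_of_le_ne_top ?_ h2
      exact_mod_cast ENat.natCast_ne_top (N * κ)
    obtain ⟨k0, hk0⟩ := ENat.ne_top_iff_exists.1 hfin
    have h2 := KeyLa_main1 (Λ := Λ) y n ζ hζ hy N
      (fun i => if i = 0 then (k0 : ℕ∞) else ((N + i : ℕ) : ℕ∞) * κ) (by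
        intro i hi
        split_ifs with h
        · rw [h, hζ0, add_zero, hk0]
        · exact hKb i hi (N + i))
    rw [← hl] at h2
    have h3 : N * l ≤ ∑ i ∈ Finset.range n, (if i = 0 then k0 else (N + i) * κ) := by
      exact_mod_cast h2
    have h4 : k0 + N ≤ N * κ := by
      have := hK N
      rw [← hk0] at this
      exact_mod_cast this
    have h5 : ∑ i ∈ Finset.range n, (if i = 0 then k0 else (N + i) * κ) + N ≤
        ∑ i ∈ Finset.range n, (N + i) * κ := by
      obtain ⟨m, rfl⟩ : ∃ m, n = m + 1 := ⟨n - 1, by omega⟩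
      rw [Finset.sum_range_succ', Finset.sum_range_succ' (fun i => (N + i) * κ)]
      simp only [Nat.add_eq_zero_iff, one_ne_zero, and_false, if_false, if_true, add_zero]
      omega
    have h6 := hsum N
    have h7 : n * ((N + n) * κ) = N * (n * κ) + n * (n * κ) := by ring
    rw [hlκ] at h3
    omega
  -- the constants
  set R := n * κ + n * (n * κ) + 1 with hR
  set M := M0 + R with hM
  set G : E[X] →ₗ[Λ] E[X] := KeyLa_F (fun i => KeyLa_T Λ y (ζ ^ (i + 1))) (n - 1) with hG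
  set Gm : Submodule Λ E[X] := (KeyLa_P Λ E M).map G with hGm
  set S : ℕ → Submodule Λ E[X] := fun j =>
    Submodule.span Λ ((fun i : ℕ => (X - 1) ^ i * w) '' {i | j ≤ i ∧ i < R}) with hS
  have hGmK : Gm ≤ KeyLa_K Λ y (1 : O) (M + n) := KeyLa_GK y n hn ζ hζ hy M
  have hKfin : Module.length Λ (KeyLa_K Λ y (1 : O) (M + n)) ≤ ((M + n : ℕ) : ℕ∞) * κ := by
    have h2 := hKb 0 hn (M + n)
    rwa [hζ0] at h2
  have hKfin' : Module.length Λ (KeyLa_K Λ y (1 : O) (M + n)) ≠ ⊤ := by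
    refine ne_top_of_le_ne_top ?_ hKfin
    exact_mod_cast ENat.natCast_ne_top ((M + n) * κ)
  have huw : ∀ i : ℕ, (X - 1) ^ i * w ∈ KeyLa_K Λ y (1 : O) (M0 + i) := by
    intro i
    induction i with
    | zero => simpa using hw
    | succ i ih =>
      rw [pow_succ', mul_assoc]
      refine ⟨?_, ?_⟩
      · rw [SetLike.mem_coe, LinearMap.mem_ker, KeyLa_T_central y 1 _ KeyLa_u]
        have h2 : KeyLa_T Λ y (1 : O) ((X - 1) ^ i * w) = 0 := ih.1
        rw [h2, mul_zero]
      · intro j hj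
        obtain ⟨j', rfl⟩ : ∃ j', j = j' + 1 := ⟨j - 1, by omega⟩
        rw [sub_mul, coeff_sub, coeff_X_mul, one_mul, ih.2 j' (by omega), ih.2 (j' + 1) (by omega),
          sub_zero]
  have hSK : ∀ j, S j ≤ KeyLa_K Λ y (1 : O) (M + n) := by
    intro j
    rw [hS, Submodule.span_le]
    rintro _ ⟨i, ⟨_, hi⟩, rfl⟩
    exact ⟨(huw i).1, KeyLa_P_mono (by omega) (huw i).2⟩
  obtain ⟨j, hj, hjm⟩ : ∃ j, j < R ∧ (X - 1) ^ j * w ∈ Gm ⊔ S (j + 1) := by
    by_contra hno
    push Not at hno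
    have hch : ∀ d, d ≤ R → Module.length Λ Gm + d ≤ Module.length Λ (Gm ⊔ S (R - d) : Submodule Λ E[X]) := by
      intro d
      induction d with
      | zero =>
        intro _
        rw [Nat.cast_zero, add_zero]
        exact KeyLa_mono le_sup_left
      | succ d ih =>
        intro hd
        have h2 := ih (by omega)
        have h3 : (Gm ⊔ S (R - d) : Submodule Λ E[X]) < Gm ⊔ S (R - (d + 1)) := by
          refine lt_of_le_of_ne ?_ ?_
          · refine sup_le_sup_left ?_ _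
            refine Submodule.span_mono (Set.image_mono ?_)
            intro i hi
            exact ⟨by have := hi.1; omega, hi.2⟩
          · intro h
            have h4 := hno (R - (d + 1)) (by omega)
            apply h4
            have h5 : R - (d + 1) + 1 = R - d := by omega
            rw [h5, h]
            refine Submodule.mem_sup_right (Submodule.subset_span ⟨R - (d + 1), ⟨le_rfl, by omega⟩, rfl⟩)
        have h4 := KeyLa_lt h3 (ne_top_of_le_ne_top hKfin'
          (KeyLa_mono (sup_le hGmK (hSK _))))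
        rw [Nat.cast_succ, ← add_assoc]
        exact (add_le_add h2 le_rfl).trans h4
    have h2 := hch R le_rfl
    have h3 : Module.length Λ (Gm ⊔ S (R - R) : Submodule Λ E[X]) ≤ ((M + n : ℕ) : ℕ∞) * κ :=
      (KeyLa_mono (sup_le hGmK (hSK _))).trans hKfin
    have h4 := KeyLa_add G (KeyLa_P Λ E M)
    rw [KeyLa_P_len, ← hl, ← hGm] at h4
    have h5 := KeyLa_chain' (Λ := Λ) y (fun i => ζ ^ (i + 1)) M (n - 1)
      (fun i => ((M + i : ℕ) : ℕ∞) * κ) (fun i hi => hKb (i + 1) (by omega) (M + i))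
    rw [← hG] at h5
    obtain ⟨gm, hgm⟩ := ENat.ne_top_iff_exists.1
      (ne_top_of_le_ne_top hKfin' (KeyLa_mono hGmK))
    rw [← hgm] at h2 h4
    have h6 : ((M * l : ℕ) : ℕ∞) ≤ ((∑ i ∈ Finset.range (n - 1), (M + i) * κ + gm : ℕ) : ℕ∞) := by
      push_cast
      push_cast at h4 h5
      rw [h4]
      exact add_le_add h5 le_rfl
    have h7 : M * l ≤ ∑ i ∈ Finset.range (n - 1), (M + i) * κ + gm := by exact_mod_cast h6
    have h8 : gm + R ≤ (M + n) * κ := by exact_mod_cast h2.trans h3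
    have h9 : ∑ i ∈ Finset.range (n - 1), (M + i) * κ ≤ (n - 1) * ((M + n) * κ) := by
      refine (Finset.sum_le_card_nsmul _ _ ((M + n) * κ) fun i hi => ?_).trans ?_
      · exact Nat.mul_le_mul_right κ (by have := Finset.mem_range.1 hi; omega)
      · rw [Finset.card_range, smul_eq_mul]
    rw [hlκ] at h7
    obtain ⟨m, rfl⟩ : ∃ m, n = m + 1 := ⟨n - 1, by omega⟩
    rw [Nat.add_sub_cancel] at h7 h9
    have e1 : M * ((m + 1) * κ) = M * κ + m * (M * κ) := by ring
    have e2 : m * ((M + (m + 1)) * κ) = m * (M * κ) + m * ((m + 1) * κ) := by ring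
    have e3 : (m + 1) * ((m + 1) * κ) = m * ((m + 1) * κ) + (m + 1) * κ := by ring
    have e4 : (M + (m + 1)) * κ = M * κ + (m + 1) * κ := by ring
    rw [e1] at h7
    rw [e2] at h9
    rw [e4] at h8
    rw [e3] at hR
    omega
  obtain ⟨g, ⟨θ, hθ, rfl⟩, s, hs, hsum2⟩ := Submodule.mem_sup.1 hjm
  obtain ⟨z, hz, rfl⟩ := KeyLa_span w s R (j + 1) hs
  refine ⟨w - (X - 1) * (z * w), θ, j, ?_, ?_, ?_⟩
  · have h2 : KeyLa_T Λ y (1 : O) (w - (X - 1) * (z * w)) = 0 := by
      have h3 : KeyLa_T Λ y (1 : O) w = 0 := hw.1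
      rw [map_sub, KeyLa_T_central y 1 _ KeyLa_u, KeyLa_T_central y 1 _ hz, h3, mul_zero, mul_zero,
        sub_zero]
    rw [KeyLa_T_apply, one_smul, sub_eq_zero] at h2
    exact h2
  · have h2 : KeyLa_ev 1 KeyLa_one (w - (X - 1) * (z * w)) = 1 := by
      rw [map_sub, map_mul, map_sub, map_one, KeyLa_ev_X, hw1, sub_self, zero_mul, sub_zero]
    exact h2
  · have h3 : (X - 1 : E[X]) ^ j * ((X - 1) * (z * w)) = (X - 1) ^ (j + 1) * (z * w) := by
      rw [← mul_assoc, ← pow_succ]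
    rw [mul_sub, ← hsum2, h3, add_sub_cancel_right, hG]
    exact KeyLa_Gval y n hn ζ hζ θ

end Pool.Agent.HWC
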