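import Pool.Agent.HWC.DefsL

/-!
# HWC: characteristic p, version with lengths (after `HWC/AlgP.lean`)

Paper proof (lengths version of AlgP.lean on main).  q = p^a, D = L - R (left minus right multiplication by y; p = 0 in E), D^q =
L^q - R^q = 0 because y^q is central.  length ker D^(j+1) <= length ker D^j + length ker D, so length E <= q length ker D.
Equality: length ker D^j = j length ker D for all j <= q, so length range D^(q-1) = length ker D and range D^(q-1) is inside
ker D, so equal (finite length), and 1 in ker D is D^(q-1) θ = sum_i L^(q-1-i) R^i θ (characteristic p: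
(X - Y)^(q-1) = sum_(i<q) X^(q-1-i) Y^i in Z/p[X,Y]; see AlgP.lean).
-/

set_option autoImplicit false

namespace Pool.Agent.HWC

open IsLocalRing Module

private theorem KeyPL_rk {Λ V W : Type*} [CommRing Λ] [AddCommGroup V] [Module Λ V]
    [AddCommGroup W] [Module Λ W] (f : V →ₗ[Λ] W) :
    Module.length Λ V = Module.length Λ (LinearMap.ker f) + Module.length Λ (LinearMap.range f) :=
  Module.length_eq_add_of_exact (LinearMap.ker f).subtype f.rangeRestrict
    (Submodule.subtype_injective _) (LinearMap.surjective_rangeRestrict f) (by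
      rw [LinearMap.exact_iff, LinearMap.ker_rangeRestrict, Submodule.range_subtype])

private theorem KeyPL_comp {Λ V : Type*} [CommRing Λ] [AddCommGroup V] [Module Λ V]
    (f g : V →ₗ[Λ] V) :
    Module.length Λ (LinearMap.ker (f ∘ₗ g)) ≤
      Module.length Λ (LinearMap.ker g) + Module.length Λ (LinearMap.ker f) := by
  let h : LinearMap.ker (f ∘ₗ g) →ₗ[Λ] LinearMap.ker f :=
    (g.domRestrict (LinearMap.ker (f ∘ₗ g))).codRestrict (LinearMap.ker f) (fun x => x.2)
  have h1 := KeyPL_rk h
  have h2 : Module.length Λ (LinearMap.range h) ≤ Module.length Λ (LinearMap.ker f) :=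
    Module.length_le_of_injective (LinearMap.range h).subtype (Submodule.subtype_injective _)
  have h3 : Module.length Λ (LinearMap.ker h) ≤ Module.length Λ (LinearMap.ker g) := by
    let e : LinearMap.ker h →ₗ[Λ] LinearMap.ker g :=
      ((LinearMap.ker (f ∘ₗ g)).subtype.domRestrict (LinearMap.ker h)).codRestrict
        (LinearMap.ker g) (fun x => congrArg Subtype.val x.2)
    have he : Function.Injective e := by
      intro x z hxz
      exact Subtype.ext (Subtype.ext (congrArg (fun t : LinearMap.ker g => (t : V)) hxz))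
    exact Module.length_le_of_injective e he
  rw [h1]
  exact add_le_add h3 h2

private theorem KeyPL_pow {Λ V : Type*} [CommRing Λ] [AddCommGroup V] [Module Λ V]
    (f : Module.End Λ V) (j : ℕ) :
    Module.length Λ (LinearMap.ker (f ^ j)) ≤ j * Module.length Λ (LinearMap.ker f) := by
  induction j with
  | zero =>
    have h1 : LinearMap.ker (f ^ 0) = ⊥ := by
      rw [pow_zero]
      exact LinearMap.ker_eq_bot.2 (fun x z h => h)
    rw [h1, Module.length_bot]
    exact zero_le
  | succ j ih =>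
    have h1 := KeyPL_comp f (f ^ j)
    have h2 : f ^ (j + 1) = f ∘ₗ (f ^ j) := by
      rw [pow_succ']
      rfl
    rw [h2, Nat.cast_add, Nat.cast_one, add_mul, one_mul]
    exact h1.trans (add_le_add ih le_rfl)

private theorem KeyPL_eq {Λ V : Type*} [CommRing Λ] [AddCommGroup V] [Module Λ V]
    {S S' : Submodule Λ V} (h : S ≤ S') (hf : Module.length Λ S' ≠ ⊤)
    (hl : Module.length Λ S' ≤ Module.length Λ S) : S = S' := by
  have h1 := Module.length_eq_add_of_exact (Submodule.inclusion h)
    (LinearMap.range (Submodule.inclusion h)).mkQ (Submodule.inclusion_injective h)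
    (Submodule.mkQ_surjective _) (LinearMap.exact_map_mkQ_range _)
  have h2 : Module.length Λ (S' ⧸ LinearMap.range (Submodule.inclusion h)) = 0 := by
    have h3 : Module.length Λ S ≠ ⊤ := by
      intro h4
      rw [h4, top_add] at h1
      exact hf h1
    rw [h1] at hl
    obtain ⟨m, hm⟩ := ENat.ne_top_iff_exists.1 h3
    rw [← hm] at hl
    by_contra hne
    have h5 : 1 ≤ Module.length Λ (S' ⧸ LinearMap.range (Submodule.inclusion h)) :=
      Order.one_le_iff_pos.2 (pos_iff_ne_zero.2 hne)
    have h6 : ((m + 1 : ℕ) : ℕ∞) ≤ m := by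
      push_cast
      exact (add_le_add le_rfl h5).trans hl
    have h7 : m + 1 ≤ m := by exact_mod_cast h6
    omega
  rw [Module.length_eq_zero_iff] at h2
  have h3 : LinearMap.range (Submodule.inclusion h) = ⊤ := Submodule.Quotient.subsingleton_iff.1 h2
  refine le_antisymm h fun x hx => ?_
  have h4 : (⟨x, hx⟩ : S') ∈ LinearMap.range (Submodule.inclusion h) := by
    rw [h3]
    exact Submodule.mem_top
  obtain ⟨y, hy⟩ := h4
  have h5 : (y : V) = x := congrArg Subtype.val hy
  rw [← h5]
  exact y.2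

private theorem KeyPL_choose (k : Type*) [Field k] (p a : ℕ) [Fact p.Prime] [CharP k p] (m : ℕ)
    (hm : m ≤ p ^ a - 1) : (-1 : k) ^ (p ^ a - 1 - m) * ((p ^ a - 1).choose m : k) = 1 := by
  have hq : 0 < p ^ a := pow_pos (Fact.out : p.Prime).pos a
  have h1 : (Polynomial.X - 1 : Polynomial k) ^ (p ^ a - 1) =
      ∑ i ∈ Finset.range (p ^ a), Polynomial.X ^ i := by
    have h2 : (Polynomial.X - 1 : Polynomial k) ≠ 0 := by
      have := Polynomial.X_sub_C_ne_zero (1 : k)
      rwa [Polynomial.C_1] at this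
    apply mul_left_cancel₀ h2
    rw [← pow_succ', Nat.sub_add_cancel hq, mul_geom_sum, sub_pow_char_pow, one_pow]
  have h3 := congrArg (fun P : Polynomial k => P.coeff m) h1
  have h4 : (Polynomial.X - 1 : Polynomial k) = Polynomial.X + Polynomial.C (-1) := by
    rw [Polynomial.C_neg, Polynomial.C_1, sub_eq_add_neg]
  rw [h4, Polynomial.coeff_X_add_C_pow, Polynomial.finsetSum_coeff,
    Finset.sum_eq_single m] at h3
  · rw [h3, Polynomial.coeff_X_pow, if_pos rfl]
  · intro b _ hb
    rw [Polynomial.coeff_X_pow, if_neg (Ne.symm hb)]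
  · intro h
    rw [Finset.mem_range] at h
    omega

theorem keyPL {Λ E : Type*} [CommRing Λ] [Ring E] [Algebra Λ E]
    (hE : Module.length Λ E ≠ ⊤) (p a : ℕ) [Fact p.Prime] (hp : (p : E) = 0)
    (y : E) (hy : ∀ e : E, y ^ (p ^ a) * e = e * y ^ (p ^ a)) :
    Module.length Λ E ≤ (p ^ a : ℕ) * Module.length Λ (cenL Λ y) ∧
    (Module.length Λ E = (p ^ a : ℕ) * Module.length Λ (cenL Λ y) →
      ∃ θ : E, ∑ i ∈ Finset.range (p ^ a), y ^ (p ^ a - 1 - i) * θ * y ^ i = 1) := by
  rcases subsingleton_or_nontrivial E with hsE | hnE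
  · refine ⟨?_, fun _ => ⟨0, Subsingleton.elim _ _⟩⟩
    rw [Module.length_eq_zero]
    exact zero_le
  have hq : 0 < p ^ a := pow_pos (Fact.out : p.Prime).pos a
  have hLR : Commute (LinearMap.mulLeft Λ y) (LinearMap.mulRight Λ y) :=
    LinearMap.commute_mulLeft_right y y
  have hnt : Nontrivial (Module.End Λ E) := by
    refine ⟨⟨1, 0, fun h => ?_⟩⟩
    have h1 : (1 : Module.End Λ E) 1 = (0 : Module.End Λ E) 1 := by rw [h]
    exact one_ne_zero (h1 : (1 : E) = 0)
  have hp0 : (p : Module.End Λ E) = 0 := by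
    ext e
    have h1 : ((p : Module.End Λ E)) e = p • e := by
      rw [← nsmul_one p]
      rfl
    rw [h1, nsmul_eq_mul, hp, zero_mul]
    rfl
  have hchar : CharP (Module.End Λ E) p :=
    ringChar.of_eq (CharP.ringChar_of_prime_eq_zero Fact.out hp0)
  have hDq : (LinearMap.mulLeft Λ y - LinearMap.mulRight Λ y : Module.End Λ E) ^ (p ^ a) = 0 := by
    rw [sub_pow_char_pow_of_commute _ _ hLR, LinearMap.pow_mulLeft, LinearMap.pow_mulRight]
    ext e
    rw [LinearMap.sub_apply, LinearMap.mulLeft_apply, LinearMap.mulRight_apply, hy e, sub_self]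
    rfl
  unfold cenL
  obtain ⟨D, hD⟩ : ∃ D : Module.End Λ E, D = LinearMap.mulLeft Λ y - LinearMap.mulRight Λ y :=
    ⟨_, rfl⟩
  rw [← hD] at hDq ⊢
  have hker : Module.length Λ (LinearMap.ker (D ^ (p ^ a))) = Module.length Λ E := by
    rw [hDq]
    have h1 : LinearMap.ker (0 : Module.End Λ E) = ⊤ := LinearMap.ker_zero
    rw [h1, Module.length_top]
  refine ⟨hker ▸ KeyPL_pow D (p ^ a), fun heq => ?_⟩
  have h1 : Module.length Λ (LinearMap.ker (D ^ (p ^ a - 1))) ≤
      (p ^ a - 1 : ℕ) * Module.length Λ (LinearMap.ker D) := KeyPL_pow D (p ^ a - 1)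
  have h2 := KeyPL_rk (D ^ (p ^ a - 1))
  have h4 : LinearMap.range (D ^ (p ^ a - 1)) ≤ LinearMap.ker D := by
    rintro _ ⟨x, rfl⟩
    rw [LinearMap.mem_ker]
    have h5 : D ^ (p ^ a) = D * D ^ (p ^ a - 1) := by
      rw [← pow_succ', Nat.sub_add_cancel hq]
    have h6 : (D * D ^ (p ^ a - 1)) x = 0 := by
      rw [← h5, hDq]
      rfl
    exact h6
  have hkf : Module.length Λ (LinearMap.ker D) ≠ ⊤ := by
    have := Module.length_le_of_injective (LinearMap.ker D).subtype (Submodule.subtype_injective _)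
    exact ne_top_of_le_ne_top hE this
  have h5 : LinearMap.range (D ^ (p ^ a - 1)) = LinearMap.ker D := by
    refine KeyPL_eq h4 hkf ?_
    rw [heq] at h2 hE
    have hK : Module.length Λ (LinearMap.ker (D ^ (p ^ a - 1))) ≠ ⊤ := by
      intro h
      rw [h, top_add] at h2
      exact hE h2
    have hr : Module.length Λ (LinearMap.range (D ^ (p ^ a - 1))) ≠ ⊤ := by
      intro h
      rw [h, add_top] at h2
      exact hE h2
    obtain ⟨l, hl⟩ := ENat.ne_top_iff_exists.1 hkf
    obtain ⟨K, hK'⟩ := ENat.ne_top_iff_exists.1 hK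
    obtain ⟨r, hr'⟩ := ENat.ne_top_iff_exists.1 hr
    rw [← hl, ← hK', ← hr'] at h2
    rw [← hl, ← hK'] at h1
    rw [← hl, ← hr']
    have h6 : p ^ a * l = K + r := by exact_mod_cast h2
    have h7 : K ≤ (p ^ a - 1) * l := by exact_mod_cast h1
    have h8 : p ^ a * l = (p ^ a - 1) * l + l := by
      obtain ⟨n, hn⟩ := Nat.exists_eq_succ_of_ne_zero hq.ne'
      rw [hn, Nat.succ_sub_one, Nat.succ_mul]
    have h9 : l ≤ r := by omega
    exact_mod_cast h9
  have h6 : (1 : E) ∈ LinearMap.range (D ^ (p ^ a - 1)) := by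
    rw [h5, LinearMap.mem_ker, hD, LinearMap.sub_apply, LinearMap.mulLeft_apply,
      LinearMap.mulRight_apply, mul_one, one_mul, sub_self]
  obtain ⟨θ, hθ⟩ := h6
  refine ⟨θ, ?_⟩
  rw [← hθ, hD, sub_eq_add_neg, (hLR.neg_right).add_pow, Nat.sub_add_cancel hq,
    LinearMap.sum_apply, ← Finset.sum_range_reflect]
  refine Finset.sum_congr rfl fun i hi => ?_
  rw [Finset.mem_range] at hi
  have h7 : p ^ a - 1 - (p ^ a - 1 - i) = i := by omega
  rw [h7]
  have h8 : (-1 : Module.End Λ E) ^ (p ^ a - 1 - i) *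
      (((p ^ a - 1).choose i : ℕ) : Module.End Λ E) = 1 := by
    have h := congrArg (ZMod.castHom (dvd_refl p) (Module.End Λ E))
      (KeyPL_choose (ZMod p) p a i (by omega))
    rwa [map_mul, map_pow, map_neg, map_one, map_natCast] at h
  have h9 : ((LinearMap.mulLeft Λ y) ^ i * (-(LinearMap.mulRight Λ y)) ^ (p ^ a - 1 - i) *
      (((p ^ a - 1).choose i : ℕ) : Module.End Λ E)) =
      (LinearMap.mulLeft Λ y) ^ i * (LinearMap.mulRight Λ y) ^ (p ^ a - 1 - i) := by
    have h12 : (-(LinearMap.mulRight Λ y)) ^ (p ^ a - 1 - i) =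
        (-1 : Module.End Λ E) ^ (p ^ a - 1 - i) * (LinearMap.mulRight Λ y) ^ (p ^ a - 1 - i) :=
      neg_pow (LinearMap.mulRight Λ y : Module.End Λ E) _
    have h13 : (LinearMap.mulRight Λ y : Module.End Λ E) ^ (p ^ a - 1 - i) *
        (((p ^ a - 1).choose i : ℕ) : Module.End Λ E) =
        (((p ^ a - 1).choose i : ℕ) : Module.End Λ E) *
          (LinearMap.mulRight Λ y) ^ (p ^ a - 1 - i) :=
      ((Nat.cast_commute _ _).eq).symm
    rw [h12, mul_assoc, mul_assoc, h13, ← mul_assoc ((-1 : Module.End Λ E) ^ _), h8, one_mul]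
  rw [h9, LinearMap.pow_mulLeft, LinearMap.pow_mulRight, Module.End.mul_apply,
    LinearMap.mulLeft_apply, LinearMap.mulRight_apply, mul_assoc]

end Pool.Agent.HWC
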