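import Pool.Agent.HWC.Reflex

/-!
Paper proof.  Let pi : M -> N be a model of M -> M/xM, phi : M -> N, X = M (x) M*.  X is reflexive, so torsionfree
(X** is torsionfree).  For f in M* let f' : N -> R/(x) be the induced map (f kills nothing more: f(x w) = x f(w)).
beta : X -> R/(x), m (x) f |-> f'(phi m), is linear; by lift_fun (X is f.g. and torsionfree) it lifts to
beta' : X -> R.  m |-> (f |-> beta'(m (x) f)) is a linear map M -> M**; M is reflexive (theorem reflexive), so it is
evaluation at a linear map psi : M -> M: f (psi m) = beta'(m (x) f) for all f.  To show pi (psi m) = phi m: choose v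
with pi v = phi m; then f (psi m - v) is in x R for every f in M*; put xi(f) = f(psi m - v) / x (R is a domain), xi in M**,
so xi = ev_w, and f (psi m - v - x w) = 0 for all f, so psi m - v = x w (M is torsionless), and pi (psi m) = pi v.
-/

set_option autoImplicit false

namespace Pool.Agent.HWC

open IsLocalRing Module

/-- a linear form with all values divisible by `x` is `x` times a linear form. -/
private lemma LiftRefl_div {R : Type} [CommRing R] [IsDomain R] {F : Type} [AddCommGroup F]
    [Module R F] (x : R) (hx : x ≠ 0) (q : F →ₗ[R] R) (hq : ∀ u, x ∣ q u) :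
    ∃ h : F →ₗ[R] R, ∀ u, q u = x * h u := by
  choose c hc using hq
  refine ⟨⟨⟨c, ?_⟩, ?_⟩, hc⟩
  · intro u v
    apply mul_left_cancel₀ hx
    rw [mul_add, ← hc, ← hc, ← hc, map_add]
  · intro r u
    apply mul_left_cancel₀ hx
    have h1 : q (r • u) = r * q u := by rw [map_smul, smul_eq_mul]
    rw [← hc, h1, hc u]
    simp only [RingHom.id_apply, smul_eq_mul]
    ring

/-- factor a linear map through a surjection. -/
private lemma LiftRefl_fac {R : Type} [CommRing R] {F X Y : Type} [AddCommGroup F]
    [Module R F] [AddCommGroup X] [Module R X] [AddCommGroup Y] [Module R Y]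
    (p : F →ₗ[R] X) (hp : Function.Surjective p) (q : F →ₗ[R] Y)
    (hq : ∀ u, p u = 0 → q u = 0) : ∃ β : X →ₗ[R] Y, ∀ u, β (p u) = q u := by
  choose c hc using hp
  have key : ∀ u v, p u = p v → q u = q v := by
    intro u v huv
    have h1 : p (u - v) = 0 := by rw [map_sub, huv, sub_self]
    have h2 := hq _ h1
    rw [map_sub] at h2
    exact sub_eq_zero.mp h2
  refine ⟨⟨⟨fun t => q (c t), ?_⟩, ?_⟩, ?_⟩
  · intro s t
    rw [← map_add]
    apply key
    rw [hc, map_add, hc, hc]
  · intro r t
    simp only [RingHom.id_apply]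
    rw [← map_smul]
    apply key
    rw [hc, map_smul, hc]
  · intro u
    exact key _ _ (hc _)

private lemma LiftRefl_dualFinite {R : Type} [CommRing R] [IsNoetherianRing R] {M : Type}
    [AddCommGroup M] [Module R M] [Module.Finite R M] : Module.Finite R (Module.Dual R M) := by
  obtain ⟨n, p, hp⟩ := Module.Finite.exists_fin' R M
  have hinj : Function.Injective (p.dualMap) := by
    intro f g hfg
    ext m
    obtain ⟨u, rfl⟩ := hp m
    exact LinearMap.congr_fun hfg u
  have h1 : IsNoetherian R (Module.Dual R (Fin n → R)) := inferInstance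
  have h2 : IsNoetherian R (Module.Dual R M) := isNoetherian_of_injective _ hinj
  infer_instance

/-- the kernel of `M → Hom(M*, R/(x))`. -/
private lemma LiftRefl_ker {R : Type} [CommRing R] [IsDomain R] {M : Type} [AddCommGroup M]
    [Module R M] (hM : Module.IsReflexive R M) (x : R) (hx : x ≠ 0) (v : M)
    (hv : ∀ f : Module.Dual R M, x ∣ f v) : ∃ w : M, v = x • w := by
  obtain ⟨ξ, hξ⟩ := LiftRefl_div x hx (Module.Dual.eval R M v) hv
  obtain ⟨w, hw⟩ := hM.bijective_dual_eval'.2 ξ
  refine ⟨w, hM.bijective_dual_eval'.1 ?_⟩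
  ext f
  have h1 := hξ f
  rw [← hw] at h1
  rw [h1, map_smul]
  rfl

theorem lift_of_reflexive (R : Type) [CommRing R] [IsDomain R] [IsLocalRing R]
    [IsNoetherianRing R] (hP : Pkg R) (M : Type) [AddCommGroup M] [Module R M]
    [Module.Finite R M] (hM : TF R M)
    (h : Module.IsReflexive R (TensorProduct R M (Module.Dual R M))) (x : R) (hx : x ≠ 0) :
    Lift R M x := by
  intro N _ _ π hπ hker φ
  have hfin : Module.Finite R (Module.Dual R M) := LiftRefl_dualFinite
  have hMr : Module.IsReflexive R M := reflexive R hP M hM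
  have hX : TF R (TensorProduct R M (Module.Dual R M)) := by
    intro s t hst
    by_cases hs : s = 0
    · exact Or.inl hs
    · right
      apply h.bijective_dual_eval'.1
      rw [map_zero]
      ext1 ξ
      have h1 : ξ (s • t) = 0 := by rw [hst, map_zero]
      rw [map_smul, smul_eq_mul] at h1
      exact (mul_eq_zero.mp h1).resolve_left hs
  let mk : R →ₗ[R] R ⧸ Ideal.span {x} := (Ideal.span {x}).mkQ
  have hmk : ∀ a b : R, mk a = mk b ↔ x ∣ a - b := by
    intro a b
    rw [← Ideal.mem_span_singleton]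
    exact Submodule.Quotient.eq _
  have hmk' : ∀ a : R, Ideal.Quotient.mk (Ideal.span {x}) a = mk a := fun a => rfl
  let θ : M →ₗ[R] (Module.Dual R M →ₗ[R] R ⧸ Ideal.span {x}) :=
    (LinearMap.llcomp R (Module.Dual R M) R (R ⧸ Ideal.span {x}) mk).comp (Module.Dual.eval R M)
  have hθ : ∀ (m : M) (f : Module.Dual R M), θ m f = mk (f m) := fun m f => rfl
  obtain ⟨τ, hτ⟩ := LiftRefl_fac π hπ θ (by
    intro m hm
    obtain ⟨w, rfl⟩ := (hker m).mp hm
    ext f
    rw [hθ, LinearMap.zero_apply, ← map_zero mk, hmk, sub_zero, map_smul, smul_eq_mul]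
    exact dvd_mul_right _ _)
  let β : TensorProduct R M (Module.Dual R M) →ₗ[R] R ⧸ Ideal.span {x} :=
    TensorProduct.lift (τ.comp φ)
  have hβ : ∀ m f, β (m ⊗ₜ[R] f) = τ (φ m) f := fun m f => rfl
  obtain ⟨β', hβ'⟩ := lift_fun R hP _ hX x hx β
  let e := LinearEquiv.ofBijective (Module.Dual.eval R M) hMr.bijective_dual_eval'
  let ψ : M →ₗ[R] M := e.symm.toLinearMap.comp (TensorProduct.curry β')
  have hψ : ∀ (m : M) (f : Module.Dual R M), f (ψ m) = β' (m ⊗ₜ[R] f) := by
    intro m f
    have h1 : Module.Dual.eval R M (ψ m) = TensorProduct.curry β' m :=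
      e.apply_symm_apply (TensorProduct.curry β' m)
    have h2 := LinearMap.congr_fun h1 f
    exact h2
  refine ⟨ψ, fun m => ?_⟩
  obtain ⟨v, hv⟩ := hπ (φ m)
  obtain ⟨w, hw⟩ := LiftRefl_ker hMr x hx (ψ m - v) (by
    intro f
    rw [map_sub]
    apply (hmk _ _).mp
    rw [hψ, ← hmk', hβ', hβ, ← hv, hτ, hθ])
  have h3 : π (ψ m - v) = 0 := (hker _).mpr ⟨w, hw⟩
  rw [map_sub, hv] at h3
  exact sub_eq_zero.mp h3

end Pool.Agent.HWC
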