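import Pool.Agent.HWC.Defs

/-!
Local rings of the form `S[y]`.
-/

set_option autoImplicit false

namespace Pool.Agent.HWC

open IsLocalRing Module

/-- a maximal ideal of a finite algebra lies over the maximal ideal -/
theorem LocalOf_comap (S R : Type) [CommRing S] [IsLocalRing S] [CommRing R] [Algebra S R]
    (pb : PowerBasis S R) (M : Ideal R) (hM : M.IsMaximal) (s : S) :
    algebraMap S R s ∈ M ↔ s ∈ maximalIdeal S := by
  have hf : Module.Finite S R := pb.finite
  have hi : Algebra.IsIntegral S R := inferInstance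
  have h1 : (M.comap (algebraMap S R)).IsMaximal :=
    Ideal.isMaximal_comap_of_isIntegral_of_isMaximal M
  rw [← IsLocalRing.eq_maximalIdeal h1, Ideal.mem_comap]

theorem local_of (S R : Type) [CommRing S] [IsLocalRing S] [CommRing R] [Nontrivial R]
    [Algebra S R] (pb : PowerBasis S R)
    (hy : pb.gen ^ pb.dim ∈ (maximalIdeal S).map (algebraMap S R)) :
    ∃ _ : IsLocalRing R, pb.gen ∈ maximalIdeal R ∧ ∀ s ∈ maximalIdeal S,
      algebraMap S R s ∈ maximalIdeal R := by
  have hmap : ∀ M : Ideal R, M.IsMaximal → (maximalIdeal S).map (algebraMap S R) ≤ M := by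
    intro M hM
    rw [Ideal.map_le_iff_le_comap]
    intro s hs
    exact (LocalOf_comap S R pb M hM s).mpr hs
  have hgen : ∀ M : Ideal R, M.IsMaximal → pb.gen ∈ M := fun M hM =>
    hM.isPrime.mem_of_pow_mem _ (hmap M hM hy)
  have hdec : ∀ r : R, ∃ (s : S) (r' : R), r = algebraMap S R s + pb.gen * r' := by
    intro r
    obtain ⟨f, hf⟩ := pb.exists_eq_aeval' r
    refine ⟨f.coeff 0, Polynomial.aeval pb.gen f.divX, ?_⟩
    rw [hf]
    nth_rewrite 1 [← Polynomial.divX_mul_X_add f]
    rw [map_add, map_mul, Polynomial.aeval_X, Polynomial.aeval_C]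
    ring
  have hle : ∀ M M' : Ideal R, M.IsMaximal → M'.IsMaximal → M ≤ M' := by
    intro M M' hM hM' r hr
    obtain ⟨s, r', h⟩ := hdec r
    have h1 : algebraMap S R s ∈ M := by
      have h2 : algebraMap S R s = r - pb.gen * r' := by
        rw [h]
        ring
      rw [h2]
      exact M.sub_mem hr (M.mul_mem_right _ (hgen M hM))
    rw [LocalOf_comap S R pb M hM] at h1
    rw [h]
    exact M'.add_mem ((LocalOf_comap S R pb M' hM' s).mpr h1) (M'.mul_mem_right _ (hgen M' hM'))
  obtain ⟨M, hM⟩ := Ideal.exists_maximal R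
  have hl : IsLocalRing R := IsLocalRing.of_unique_max_ideal
    ⟨M, hM, fun M' hM' => le_antisymm (hle M' M hM' hM) (hle M M' hM hM')⟩
  exact ⟨hl, hgen _ (maximalIdeal.isMaximal R), fun s hs =>
    (LocalOf_comap S R pb _ (maximalIdeal.isMaximal R) s).mpr hs⟩

theorem local_p (p a : ℕ) (S R : Type) [Fact p.Prime] [CommRing S] [IsLocalRing S] [CharP S p]
    [CommRing R] [Nontrivial R] [Algebra S R] (pb : PowerBasis S R) (hd : pb.dim = p ^ a)
    (hy : ∃ b : S, pb.gen ^ pb.dim = algebraMap S R b) :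
    ∃ _ : IsLocalRing R, ∀ s ∈ maximalIdeal S, algebraMap S R s ∈ maximalIdeal R := by
  obtain ⟨b, hb⟩ := hy
  rw [hd] at hb
  have hcR : CharP R p := by
    rw [CharP.charP_iff_prime_eq_zero Fact.out]
    have h1 : algebraMap S R (p : S) = (p : R) := map_natCast _ _
    rw [← h1, CharP.cast_eq_zero, map_zero]
  have hpow : ∀ r : R, ∃ s : S, r ^ p ^ a = algebraMap S R s := by
    intro r
    obtain ⟨f, hf⟩ := pb.exists_eq_aeval' r
    rw [hf]
    clear hf r
    induction f using Polynomial.induction_on' with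
    | add f g hf hg =>
      obtain ⟨s, hs⟩ := hf
      obtain ⟨t, ht⟩ := hg
      refine ⟨s + t, ?_⟩
      rw [map_add, add_pow_char_pow, hs, ht, map_add]
    | monomial n s =>
      refine ⟨s ^ p ^ a * b ^ n, ?_⟩
      rw [Polynomial.aeval_monomial, mul_pow, ← pow_mul, mul_comm n, pow_mul, hb, map_mul,
        map_pow, map_pow]
  have hunit : ∀ (r : R) (s : S), r ^ p ^ a = algebraMap S R s → r ∈ nonunits R →
      s ∈ maximalIdeal S := by
    intro r s hs hr
    rw [mem_maximalIdeal]
    intro hu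
    apply hr
    have h1 : IsUnit (r ^ p ^ a) := by
      rw [hs]
      exact hu.map _
    exact (isUnit_pow_iff (pow_ne_zero a (Fact.out : p.Prime).ne_zero)).mp h1
  have hl : IsLocalRing R := by
    apply IsLocalRing.of_nonunits_add
    intro r r' hr hr' hu
    obtain ⟨s, hs⟩ := hpow r
    obtain ⟨s', hs'⟩ := hpow r'
    have h1 : s + s' ∈ maximalIdeal S := add_mem (hunit r s hs hr) (hunit r' s' hs' hr')
    obtain ⟨M, hM⟩ := Ideal.exists_maximal R
    have h2 : algebraMap S R (s + s') ∈ M := (LocalOf_comap S R pb M hM _).mpr h1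
    have h3 : (r + r') ^ p ^ a ∈ M := by
      rw [add_pow_char_pow, hs, hs', ← map_add]
      exact h2
    exact hM.ne_top (Ideal.eq_top_of_isUnit_mem M h3 (hu.pow _))
  exact ⟨hl, fun s hs => (LocalOf_comap S R pb _ (maximalIdeal.isMaximal R) s).mpr hs⟩

theorem resfin (k S R : Type) [Field k] [CommRing S] [IsLocalRing S] [CommRing R]
    [IsLocalRing R] [Algebra k S] [Algebra S R] [Algebra k R] [IsScalarTower k S R]
    [Module.Finite k (ResidueField S)] (pb : PowerBasis S R)
    (hm : ∀ s ∈ maximalIdeal S, algebraMap S R s ∈ maximalIdeal R) :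
    Module.Finite k (ResidueField R) := by
  let f0 : S →ₐ[k] ResidueField R :=
    (IsScalarTower.toAlgHom k R (ResidueField R)).comp (IsScalarTower.toAlgHom k S R)
  have hf0 : ∀ s, s ∈ maximalIdeal S → f0 s = 0 := by
    intro s hs
    exact (IsLocalRing.residue_eq_zero_iff _).mpr (hm s hs)
  let φ : ResidueField S →ₐ[k] ResidueField R := Ideal.Quotient.liftₐ (maximalIdeal S) f0 hf0
  have hφ : ∀ s : S, φ (residue S s) = residue R (algebraMap S R s) := fun s => rfl
  let L : (Fin pb.dim → ResidueField S) →ₗ[k] ResidueField R :=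
    ∑ i : Fin pb.dim, (LinearMap.mulRight k (residue R (pb.gen ^ (i : ℕ)))) ∘ₗ φ.toLinearMap ∘ₗ
      LinearMap.proj i
  apply Module.Finite.of_surjective L
  intro x
  obtain ⟨r, rfl⟩ := IsLocalRing.residue_surjective x
  refine ⟨fun i => residue S (pb.basis.repr r i), ?_⟩
  have h1 := pb.basis.sum_repr r
  nth_rewrite 2 [← h1]
  rw [map_sum]
  change (∑ i : Fin pb.dim, (LinearMap.mulRight k (residue R (pb.gen ^ (i : ℕ)))) ∘ₗ φ.toLinearMap ∘ₗ
      LinearMap.proj i : (Fin pb.dim → ResidueField S) →ₗ[k] ResidueField R) _ = _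
  rw [LinearMap.sum_apply]
  refine Finset.sum_congr rfl fun i _ => ?_
  change φ (residue S (pb.basis.repr r i)) * residue R (pb.gen ^ (i : ℕ)) = _
  rw [hφ, ← map_mul, pb.basis_eq_pow, Algebra.smul_def]

end Pool.Agent.HWC
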