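import Pool.Agent.HWC.DefsL

/-!
Paper proof.  R is integral over S, so m_S R is inside the Jacobson radical of R (every maximal ideal of R lies over m_S); so it is
enough that R' = R / m_S R is local.  R' has characteristic p, and r'^q (q = p^a) is the image of an element of S for every r' in
R' (r' = sum s_i y^i, r'^q = sum s_i^q b^i), so r'^q is zero or a unit (image of the field S/m_S); so every r' is nilpotent or a
unit, and nilpotents form an ideal.  (R' is nontrivial: R is free over S of positive rank since R is nontrivial.)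
-/

set_option autoImplicit false

namespace Pool.Agent.HWC

open IsLocalRing Module

/-- a maximal ideal of a finite algebra lies over the maximal ideal -/
private theorem LocalPL_comap (S R : Type) [CommRing S] [IsLocalRing S] [CommRing R] [Algebra S R]
    (pb : PowerBasis S R) (M : Ideal R) (hM : M.IsMaximal) (s : S) :
    algebraMap S R s ∈ M ↔ s ∈ maximalIdeal S := by
  have hf : Module.Finite S R := pb.finite
  have hi : Algebra.IsIntegral S R := inferInstance
  have h1 : (M.comap (algebraMap S R)).IsMaximal :=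
    Ideal.isMaximal_comap_of_isIntegral_of_isMaximal M
  rw [← IsLocalRing.eq_maximalIdeal h1, Ideal.mem_comap]

theorem local_pL (p a : ℕ) (S R : Type) [Fact p.Prime] [CommRing S] [IsLocalRing S]
    (hp : (p : S) ∈ maximalIdeal S) [CommRing R] [Nontrivial R] [Algebra S R]
    (pb : PowerBasis S R) (hd : pb.dim = p ^ a)
    (hy : ∃ b : S, pb.gen ^ pb.dim - algebraMap S R b ∈
      (maximalIdeal S).map (algebraMap S R)) :
    ∃ _ : IsLocalRing R, ∀ s ∈ maximalIdeal S, algebraMap S R s ∈ maximalIdeal R := by
  obtain ⟨b, hb⟩ := hy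
  rw [hd] at hb
  set I : Ideal R := (maximalIdeal S).map (algebraMap S R) with hI
  have hmap : ∀ M : Ideal R, M.IsMaximal → I ≤ M := by
    intro M hM
    rw [hI, Ideal.map_le_iff_le_comap]
    intro s hs
    exact (LocalPL_comap S R pb M hM s).mpr hs
  obtain ⟨M, hM⟩ := Ideal.exists_maximal R
  have hItop : I ≠ ⊤ := fun h => hM.ne_top (top_le_iff.1 (h ▸ hmap M hM))
  have hnt : Nontrivial (R ⧸ I) := Ideal.Quotient.nontrivial_iff.2 hItop
  have hcR : CharP (R ⧸ I) p := by
    rw [CharP.charP_iff_prime_eq_zero Fact.out]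
    have h1 : Ideal.Quotient.mk I (algebraMap S R (p : S)) = (p : R ⧸ I) := by
      rw [map_natCast, map_natCast]
    rw [← h1, Ideal.Quotient.eq_zero_iff_mem]
    exact Ideal.mem_map_of_mem _ hp
  have hpow : ∀ r : R, ∃ s : S, (Ideal.Quotient.mk I r) ^ p ^ a =
      Ideal.Quotient.mk I (algebraMap S R s) := by
    intro r
    obtain ⟨f, hf⟩ := pb.exists_eq_aeval' r
    rw [hf]
    clear hf r
    induction f using Polynomial.induction_on' with
    | add f g hf hg =>
      obtain ⟨s, hs⟩ := hf
      obtain ⟨t, ht⟩ := hg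
      refine ⟨s + t, ?_⟩
      rw [map_add, map_add, add_pow_char_pow, hs, ht, map_add, map_add]
    | monomial n s =>
      refine ⟨s ^ p ^ a * b ^ n, ?_⟩
      have hb' : (Ideal.Quotient.mk I pb.gen) ^ p ^ a = Ideal.Quotient.mk I (algebraMap S R b) := by
        rw [← map_pow, Ideal.Quotient.eq]
        exact hb
      rw [Polynomial.aeval_monomial, map_mul, map_pow, mul_pow, ← pow_mul, mul_comm n, pow_mul,
        hb', map_mul, map_mul, map_pow, map_pow, map_pow, map_pow]
  have hle : ∀ M M' : Ideal R, M.IsMaximal → M'.IsMaximal → M ≤ M' := by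
    intro M M' hM hM' r hr
    obtain ⟨s, hs⟩ := hpow r
    rw [← map_pow, Ideal.Quotient.eq] at hs
    have hq : p ^ a ≠ 0 := pow_ne_zero a (Fact.out : p.Prime).ne_zero
    have h1 : algebraMap S R s ∈ M := by
      have h2 : algebraMap S R s = r ^ p ^ a - (r ^ p ^ a - algebraMap S R s) := by ring
      rw [h2]
      exact M.sub_mem (M.pow_mem_of_mem hr _ (Nat.pos_of_ne_zero hq)) (hmap M hM hs)
    rw [LocalPL_comap S R pb M hM] at h1
    apply hM'.isPrime.mem_of_pow_mem (p ^ a)
    have h3 : r ^ p ^ a = (r ^ p ^ a - algebraMap S R s) + algebraMap S R s := by ring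
    rw [h3]
    exact M'.add_mem (hmap M' hM' hs) ((LocalPL_comap S R pb M' hM' s).mpr h1)
  have hl : IsLocalRing R := IsLocalRing.of_unique_max_ideal
    ⟨M, hM, fun M' hM' => le_antisymm (hle M' M hM' hM) (hle M M' hM hM')⟩
  exact ⟨hl, fun s hs => (LocalPL_comap S R pb _ (maximalIdeal.isMaximal R) s).mpr hs⟩

end Pool.Agent.HWC
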