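import Pool.Agent.HWC.Reflex

/-!
Paper proof.  X = M (x) M*, p : F -> X surjective with F f.g. free, Z = ker p,
Z' = {v in F : s v in Z for some s nonzero} (saturated), so F/Z' is torsionfree.
Step 1: every g : Z -> R extends to F.  Let E = {g in Hom(Z,R)} / {restrictions}.
 (a) x g a restriction => g a restriction: let x g = h|Z, h : F -> R.  h mod x kills Z, so gives beta : X -> R/(x),
 i.e. M -> Hom(M*, R/(x)).  By lift_fun for M* (f.g. torsionfree) and reflexivity of M the map
 M -> Hom(M*, R/(x)), v |-> (f |-> f(v) mod x), is surjective with kernel x M (kernel: as at the end of LiftRefl), so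
 beta(m (x) f) = (f(v) mod x) where v + xM =: phi(m) is linear in m.  Lift phi : M -> M/xM to psi : M -> M (hypothesis).
 beta'(m (x) f) = f(psi m) defines beta' : X -> R lifting beta; h - beta' p is then x h', h' : F -> R; on Z:
 x g = h = x h', so g = h'|Z.
 (b) for every g there is s nonzero with s g a restriction: Z'/Z is f.g. torsion, so s Z' is inside Z for some s nonzero;
 g' : Z' -> R, z' |-> g(s z'), extends to F by ext_free (F/Z' torsionfree), and restricts to s g on Z.
 By hP.dim1, s divides x^N, so x^N g is a restriction, and by (a) N times g is.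
Step 2: Z = Z'.  Let z' in Z'.  Every g in Z* extends uniquely to g~ : Z' -> R (exists by step 1, restricted from F; unique
because Z'/Z is torsion), linear in g; xi(g) = g~(z') is in Z**, Z is f.g. torsionfree, so reflexive: xi = ev_z, z in Z.
So g~(z' - z) = 0 for all g in Z*, i.e. every functional on Z' kills z' - z (each functional on Z' is g~ for its
restriction g); Z' is f.g. torsionfree, so torsionless: z' = z.
Step 3: so X = F/Z is torsionfree and f.g., hence reflexive.
-/

set_option autoImplicit false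

namespace Pool.Agent.HWC

open IsLocalRing Module

/-- a linear form with all values divisible by `x` is `x` times a linear form. -/
private lemma ReflLift_div {R : Type} [CommRing R] [IsDomain R] {F : Type} [AddCommGroup F]
    [Module R F] (x : R) (hx : x ≠ 0) (q : F →ₗ[R] R) (hq : ∀ u, x ∣ q u) :
    ∃ h : F →ₗ[R] R, ∀ u, q u = x * h u := by
  choose c hc using hq
  refine ⟨⟨⟨c, ?_⟩, ?_⟩, hc⟩
  · intro u v
    apply mul_left_cancel₀ hx
    rw [mul_add, ← hc, ← hc, ← hc, map_add]
  · intro r u
    apply mul_left_cancel₀ hx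
    have h1 : q (r • u) = r * q u := by rw [map_smul, smul_eq_mul]
    rw [← hc, h1, hc u]
    simp only [RingHom.id_apply, smul_eq_mul]
    ring

/-- factor a linear map through a surjection. -/
private lemma ReflLift_fac {R : Type} [CommRing R] {F X Y : Type} [AddCommGroup F]
    [Module R F] [AddCommGroup X] [Module R X] [AddCommGroup Y] [Module R Y]
    (p : F →ₗ[R] X) (hp : Function.Surjective p) (q : F →ₗ[R] Y)
    (hq : ∀ u, p u = 0 → q u = 0) : ∃ β : X →ₗ[R] Y, ∀ u, β (p u) = q u := by
  choose c hc using hp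
  have key : ∀ u v, p u = p v → q u = q v := by
    intro u v huv
    have h1 : p (u - v) = 0 := by rw [map_sub, huv, sub_self]
    have h2 := hq _ h1
    rw [map_sub] at h2
    exact sub_eq_zero.mp h2
  refine ⟨⟨⟨fun t => q (c t), ?_⟩, ?_⟩, ?_⟩
  · intro s t
    rw [← map_add]
    apply key
    rw [hc, map_add, hc, hc]
  · intro r t
    simp only [RingHom.id_apply]
    rw [← map_smul]
    apply key
    rw [hc, map_smul, hc]
  · intro u
    exact key _ _ (hc _)

private lemma ReflLift_dualFinite {R : Type} [CommRing R] [IsNoetherianRing R] {M : Type}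
    [AddCommGroup M] [Module R M] [Module.Finite R M] : Module.Finite R (Module.Dual R M) := by
  obtain ⟨n, p, hp⟩ := Module.Finite.exists_fin' R M
  have hinj : Function.Injective (p.dualMap) := by
    intro f g hfg
    ext m
    obtain ⟨u, rfl⟩ := hp m
    exact LinearMap.congr_fun hfg u
  have : IsNoetherian R (Module.Dual R (Fin n → R)) := inferInstance
  have : IsNoetherian R (Module.Dual R M) := isNoetherian_of_injective _ hinj
  infer_instance

/-- the kernel of `M → Hom(M*, R/(x))`. -/
private lemma ReflLift_ker {R : Type} [CommRing R] [IsDomain R] {M : Type} [AddCommGroup M]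
    [Module R M] (hM : Module.IsReflexive R M) (x : R) (hx : x ≠ 0) (v : M)
    (hv : ∀ f : Module.Dual R M, x ∣ f v) : ∃ w : M, v = x • w := by
  obtain ⟨ξ, hξ⟩ := ReflLift_div x hx (Module.Dual.eval R M v) hv
  obtain ⟨w, hw⟩ := hM.bijective_dual_eval'.2 ξ
  refine ⟨w, hM.bijective_dual_eval'.1 ?_⟩
  ext f
  have h1 := hξ f
  rw [← hw] at h1
  rw [h1, map_smul]
  rfl

private lemma ReflLift_stepA (R : Type) [CommRing R] [IsDomain R] [IsLocalRing R]
    [IsNoetherianRing R] (hP : Pkg R) (M : Type) [AddCommGroup M] [Module R M]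
    [Module.Finite R M] (hM : TF R M) (x : R) (hx0 : x ≠ 0) (h : Lift R M x)
    {F : Type} [AddCommGroup F] [Module R F]
    (p : F →ₗ[R] TensorProduct R M (Module.Dual R M)) (hp : Function.Surjective p)
    (g : LinearMap.ker p →ₗ[R] R)
    (hg : ∃ k : F →ₗ[R] R, ∀ z : LinearMap.ker p, k z = x * g z) :
    ∃ k : F →ₗ[R] R, ∀ z : LinearMap.ker p, k z = g z := by
  obtain ⟨k, hk⟩ := hg
  have hMr : Module.IsReflexive R M := reflexive R hP M hM
  have : Module.Finite R (Module.Dual R M) := ReflLift_dualFinite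
  have hD : TF R (Module.Dual R M) := by
    intro s f hsf
    by_cases hs : s = 0
    · exact Or.inl hs
    · right
      ext m
      have h1 := LinearMap.congr_fun hsf m
      simp only [LinearMap.smul_apply, smul_eq_mul, LinearMap.zero_apply] at h1
      exact (mul_eq_zero.mp h1).resolve_left hs
  let mk : R →ₗ[R] R ⧸ Ideal.span {x} := (Ideal.span {x}).mkQ
  have hmk : ∀ a b : R, mk a = mk b ↔ x ∣ a - b := by
    intro a b
    rw [← Ideal.mem_span_singleton]
    exact Submodule.Quotient.eq _
  have hmk' : ∀ a : R, Ideal.Quotient.mk (Ideal.span {x}) a = mk a := fun a => rfl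
  obtain ⟨β, hβ⟩ := ReflLift_fac p hp (mk.comp k) (by
    intro u hu
    have h1 := hk ⟨u, hu⟩
    simp only at h1
    rw [LinearMap.comp_apply, h1]
    have h2 : mk (x * g ⟨u, hu⟩) = mk 0 := by
      rw [hmk, sub_zero]
      exact dvd_mul_right _ _
    rw [h2, map_zero])
  -- the map θ : M → Hom(M*, R/(x))
  let θ : M →ₗ[R] (Module.Dual R M →ₗ[R] R ⧸ Ideal.span {x}) :=
    (LinearMap.llcomp R (Module.Dual R M) R (R ⧸ Ideal.span {x}) mk).comp (Module.Dual.eval R M)
  have hθ : ∀ (m : M) (f : Module.Dual R M), θ m f = mk (f m) := fun m f => rfl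
  have hsurj : Function.Surjective θ := by
    intro χ
    obtain ⟨ψ, hψ⟩ := lift_fun R hP (Module.Dual R M) hD x hx0 χ
    obtain ⟨v, hv⟩ := hMr.bijective_dual_eval'.2 ψ
    refine ⟨v, ?_⟩
    ext f
    rw [hθ, ← hψ f, hmk', ← hv]
    rfl
  have hker : ∀ m : M, θ m = 0 ↔ ∃ w : M, m = x • w := by
    intro m
    constructor
    · intro hm
      apply ReflLift_ker hMr x hx0
      intro f
      have h1 := LinearMap.congr_fun hm f
      rw [hθ, LinearMap.zero_apply, ← map_zero mk, hmk, sub_zero] at h1
      exact h1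
    · rintro ⟨w, rfl⟩
      ext f
      rw [hθ, LinearMap.zero_apply, ← map_zero mk, hmk, sub_zero, map_smul, smul_eq_mul]
      exact dvd_mul_right _ _
  obtain ⟨ψ, hψ⟩ := h _ θ hsurj hker (TensorProduct.curry β)
  let β' : TensorProduct R M (Module.Dual R M) →ₗ[R] R :=
    TensorProduct.lift ((Module.Dual.eval R M).comp ψ)
  have hβ' : mk.comp β' = β := by
    apply TensorProduct.ext'
    intro m f
    have h1 := LinearMap.congr_fun (hψ m) f
    rw [hθ, TensorProduct.curry_apply] at h1
    rw [← h1]
    rfl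
  obtain ⟨k', hk'⟩ := ReflLift_div x hx0 (k - β'.comp p) (by
    intro u
    have h1 : mk (k u) = mk (β' (p u)) := by
      have h2 := hβ u
      rw [LinearMap.comp_apply, ← hβ'] at h2
      exact h2.symm
    exact (hmk _ _).mp h1)
  refine ⟨k', fun z => ?_⟩
  apply mul_left_cancel₀ hx0
  rw [← hk z, ← hk' z]
  have hz : p (z : F) = 0 := z.2
  rw [LinearMap.sub_apply, LinearMap.comp_apply, hz, map_zero, sub_zero]

private lemma ReflLift_sat (R : Type) [CommRing R] [IsDomain R] [IsNoetherianRing R]
    {F : Type} [AddCommGroup F] [Module R F] [Module.Finite R F] (Z : Submodule R F) :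
    ∃ (Z' : Submodule R F) (s : R), s ≠ 0 ∧ Z ≤ Z' ∧ (∀ v ∈ Z', s • v ∈ Z) ∧
      ∀ (t : R) (v : F), t ≠ 0 → t • v ∈ Z' → v ∈ Z' := by
  let Z' : Submodule R F :=
    { carrier := {v | ∃ s : R, s ≠ 0 ∧ s • v ∈ Z}
      zero_mem' := ⟨1, one_ne_zero, by rw [smul_zero]; exact Z.zero_mem⟩
      add_mem' := by
        rintro u v ⟨s, hs, hsu⟩ ⟨t, ht, htv⟩
        refine ⟨s * t, mul_ne_zero hs ht, ?_⟩
        rw [smul_add]
        refine Z.add_mem ?_ ?_
        · rw [mul_comm, mul_smul]
          exact Z.smul_mem _ hsu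
        · rw [mul_smul]
          exact Z.smul_mem _ htv
      smul_mem' := by
        rintro c v ⟨s, hs, hsv⟩
        refine ⟨s, hs, ?_⟩
        rw [smul_comm]
        exact Z.smul_mem _ hsv }
  have hfg : Z'.FG := IsNoetherian.noetherian Z'
  obtain ⟨S, hS⟩ := hfg
  have hall : ∀ T : Finset F, (∀ v ∈ T, v ∈ Z') → ∃ s : R, s ≠ 0 ∧ ∀ v ∈ T, s • v ∈ Z := by
    classical
    intro T
    induction T using Finset.induction_on with
    | empty => exact fun _ => ⟨1, one_ne_zero, by simp⟩
    | insert a T ha ih =>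
      intro hT
      obtain ⟨s, hs, h1⟩ := ih (fun v hv => hT v (Finset.mem_insert_of_mem hv))
      obtain ⟨t, ht, h2⟩ := hT a (Finset.mem_insert_self _ _)
      refine ⟨s * t, mul_ne_zero hs ht, fun v hv => ?_⟩
      rcases Finset.mem_insert.mp hv with rfl | hv
      · rw [mul_smul]
        exact Z.smul_mem _ h2
      · rw [mul_comm, mul_smul]
        exact Z.smul_mem _ (h1 v hv)
  obtain ⟨s, hs, h1⟩ := hall S (fun v hv => hS ▸ Submodule.subset_span hv)
  refine ⟨Z', s, hs, ?_, ?_, ?_⟩
  · intro v hv
    exact ⟨1, one_ne_zero, by rwa [one_smul]⟩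
  · intro v hv
    rw [← hS] at hv
    refine Submodule.span_induction (p := fun v _ => s • v ∈ Z) ?_ ?_ ?_ ?_ hv
    · exact fun v hv => h1 v hv
    · rw [smul_zero]; exact Z.zero_mem
    · intro u v _ _ hu hv
      rw [smul_add]; exact Z.add_mem hu hv
    · intro c v _ hv
      rw [smul_comm]; exact Z.smul_mem _ hv
  · rintro t v ht ⟨r, hr, h2⟩
    exact ⟨r * t, mul_ne_zero hr ht, by rwa [mul_smul]⟩

theorem reflexive_of_lift (R : Type) [CommRing R] [IsDomain R] [IsLocalRing R]
    [IsNoetherianRing R] (hP : Pkg R) (M : Type) [AddCommGroup M] [Module R M]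
    [Module.Finite R M] (hM : TF R M) (x : R) (hx : x ∈ maximalIdeal R) (hx0 : x ≠ 0)
    (h : Lift R M x) :
    Module.IsReflexive R (TensorProduct R M (Module.Dual R M)) := by
  have : Module.Finite R (Module.Dual R M) := ReflLift_dualFinite
  obtain ⟨n, p, hp⟩ := Module.Finite.exists_fin' R (TensorProduct R M (Module.Dual R M))
  obtain ⟨Z', s, hs, hZZ', hsZ, hsat⟩ := ReflLift_sat R (LinearMap.ker p)
  -- every functional on the kernel extends
  have hext : ∀ g : LinearMap.ker p →ₗ[R] R,
      ∃ k : (Fin n → R) →ₗ[R] R, ∀ z : LinearMap.ker p, k z = g z := by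
    have hN : ∀ (N : ℕ) (g : LinearMap.ker p →ₗ[R] R),
        (∃ k : (Fin n → R) →ₗ[R] R, ∀ z : LinearMap.ker p, k z = x ^ N * g z) →
        ∃ k : (Fin n → R) →ₗ[R] R, ∀ z : LinearMap.ker p, k z = g z := by
      intro N
      induction N with
      | zero =>
        rintro g ⟨k, hk⟩
        exact ⟨k, fun z => by rw [hk, pow_zero, one_mul]⟩
      | succ N ih =>
        rintro g ⟨k, hk⟩
        apply ih
        have h1 := ReflLift_stepA R hP M hM x hx0 h p hp (x ^ N • g) ⟨k, fun z => by
          rw [hk, LinearMap.smul_apply, smul_eq_mul]; ring⟩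
        obtain ⟨k', hk'⟩ := h1
        exact ⟨k', fun z => by rw [hk', LinearMap.smul_apply, smul_eq_mul]⟩
    intro g
    obtain ⟨N, c, hc⟩ := hP.dim1 x hx s hs
    apply hN N g
    let j : Z' →ₗ[R] LinearMap.ker p :=
      { toFun := fun v => ⟨s • (v : Fin n → R), hsZ v v.2⟩
        map_add' := by
          intro u v
          ext1
          simp only [Submodule.coe_add, smul_add]
        map_smul' := by
          intro r v
          ext1
          simp only [Submodule.coe_smul, RingHom.id_apply]
          rw [smul_comm] }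
    obtain ⟨k, hk⟩ := ext_free R hP (Fin n → R) Z' hsat (g.comp j)
    refine ⟨c • k, fun z => ?_⟩
    have h1 := hk ⟨z, hZZ' z.2⟩
    simp only [LinearMap.comp_apply] at h1
    have h2 : j ⟨z, hZZ' z.2⟩ = s • z := rfl
    rw [h2, map_smul, smul_eq_mul] at h1
    rw [LinearMap.smul_apply, smul_eq_mul, h1, hc]
    ring
  -- the kernel is saturated
  have hZ : TF R (LinearMap.ker p) := by
    intro t v htv
    by_cases ht : t = 0
    · exact Or.inl ht
    · right
      ext1
      have h1 : t • (v : Fin n → R) = 0 := by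
        rw [← Submodule.coe_smul, htv, Submodule.coe_zero]
      exact (smul_eq_zero.mp h1).resolve_left ht
  have : Module.Finite R (LinearMap.ker p) := inferInstance
  have hZr : Module.IsReflexive R (LinearMap.ker p) := reflexive R hP _ hZ
  apply reflexive R hP
  intro t w htw
  by_cases ht : t = 0
  · exact Or.inl ht
  right
  obtain ⟨v, rfl⟩ := hp w
  have htv : t • v ∈ LinearMap.ker p := by
    rw [LinearMap.mem_ker, map_smul, htw]
  obtain ⟨ξ, hξ⟩ := ReflLift_div t ht
    (Module.Dual.eval R (LinearMap.ker p) ⟨t • v, htv⟩) (by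
      intro g
      obtain ⟨k, hk⟩ := hext g
      rw [Module.Dual.eval_apply, ← hk]
      simp only [map_smul, smul_eq_mul]
      exact dvd_mul_right _ _)
  obtain ⟨z, hz⟩ := hZr.bijective_dual_eval'.2 ξ
  have h1 : t • z = ⟨t • v, htv⟩ := by
    apply hZr.bijective_dual_eval'.1
    ext g
    rw [hξ g, ← hz, map_smul]
    rfl
  have h2 : t • (z : Fin n → R) = t • v := by
    have h3 := congrArg (Subtype.val) h1
    exact h3
  have h4 : (z : Fin n → R) = v := by
    have h5 : t • ((z : Fin n → R) - v) = 0 := by rw [smul_sub, h2, sub_self]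
    exact sub_eq_zero.mp ((smul_eq_zero.mp h5).resolve_left ht)
  rw [← h4]
  exact z.2

end Pool.Agent.HWC
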