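import Pool.Agent.HWC.Defs

/-!
# Relative projectivity (helper57)
-/

set_option autoImplicit false

namespace Pool.Agent.HWC

open IsLocalRing Module TensorProduct

section

variable {S R M : Type} [CommRing S] [CommRing R] [Algebra S R] [AddCommGroup M] [Module S M]
  [Module R M] [IsScalarTower S R M]

/-- multiplication by `y` on `M` as an `S`-linear map -/
def RelProj_my (S M : Type) {R : Type} [CommRing S] [CommRing R] [Algebra S R] [AddCommGroup M]
    [Module S M] [Module R M] [IsScalarTower S R M] (y : R) : M →ₗ[S] M where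
  toFun m := y • m
  map_add' a b := smul_add y a b
  map_smul' s m := by
    rw [RingHom.id_apply, ← algebraMap_smul R s m, ← algebraMap_smul R s (y • m), smul_smul,
      smul_smul, mul_comm]

/-- `E (j + 1) v = y E j v + 1 ⊗ θ (y ^ j v)` -/
noncomputable def RelProj_E (y : R) (θ : M →ₗ[S] M) : ℕ → (M →ₗ[S] R ⊗[S] M)
  | 0 => 0
  | j + 1 => RelProj_my S (R ⊗[S] M) y ∘ₗ RelProj_E y θ j +
      (TensorProduct.mk S R M 1) ∘ₗ θ ∘ₗ RelProj_my S M (y ^ j)

theorem RelProj_E_succ (y : R) (θ : M →ₗ[S] M) (j : ℕ) (v : M) :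
    RelProj_E y θ (j + 1) v = y • RelProj_E y θ j v + (1 : R) ⊗ₜ[S] θ (y ^ j • v) := rfl

theorem RelProj_E_comm (y : R) (θ : M →ₗ[S] M) (j : ℕ) (v : M) :
    y • RelProj_E y θ j v - RelProj_E y θ j (y • v) =
      (y ^ j) ⊗ₜ[S] θ v - (1 : R) ⊗ₜ[S] θ (y ^ j • v) := by
  induction j with
  | zero =>
    have h0 : ∀ v : M, RelProj_E y θ 0 v = 0 := fun v => rfl
    rw [h0, h0, smul_zero, sub_zero, pow_zero, one_smul, sub_self]
  | succ j ih =>
    have e1 : y • (y ^ j) ⊗ₜ[S] θ v = (y ^ (j + 1)) ⊗ₜ[S] θ v := by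
      rw [TensorProduct.smul_tmul', smul_eq_mul, ← pow_succ']
    have e2 : y ^ j • y • v = y ^ (j + 1) • v := by rw [smul_smul, ← pow_succ]
    rw [RelProj_E_succ, RelProj_E_succ, e2, ← e1]
    have e3 : y • RelProj_E y θ j v = RelProj_E y θ j (y • v) +
        ((y ^ j) ⊗ₜ[S] θ v - (1 : R) ⊗ₜ[S] θ (y ^ j • v)) := by
      rw [← ih]; abel
    rw [smul_add, e3, smul_add, smul_sub]
    abel

/-- the multiplication map -/
noncomputable def RelProj_mu (S R M : Type) [CommRing S] [CommRing R] [Algebra S R]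
    [AddCommGroup M] [Module S M] [Module R M] [IsScalarTower S R M] : R ⊗[S] M →ₗ[R] M :=
  (LinearMap.id : M →ₗ[S] M).liftBaseChange R

theorem RelProj_mu_tmul (r : R) (m : M) : RelProj_mu S R M (r ⊗ₜ m) = r • m := by
  rw [RelProj_mu, LinearMap.liftBaseChange_tmul, LinearMap.id_apply]

theorem RelProj_mu_E (y : R) (θ : M →ₗ[S] M) (j : ℕ) (v : M) :
    RelProj_mu S R M (RelProj_E y θ j v) =
      ∑ i ∈ Finset.range j, y ^ (j - 1 - i) • θ (y ^ i • v) := by
  induction j with
  | zero =>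
    have h0 : RelProj_E y θ 0 v = 0 := rfl
    rw [h0, map_zero, Finset.range_zero, Finset.sum_empty]
  | succ j ih =>
    rw [RelProj_E_succ, map_add, map_smul, ih, RelProj_mu_tmul, one_smul, Finset.sum_range_succ,
      Finset.smul_sum]
    congr 1
    · refine Finset.sum_congr rfl fun i hi => ?_
      have hi' := Finset.mem_range.1 hi
      rw [smul_smul, ← pow_succ', show j - 1 - i + 1 = j + 1 - 1 - i by omega]
    · rw [show j + 1 - 1 - j = 0 by omega, pow_zero, one_smul]

end

theorem relProj (S R M : Type) [CommRing S] [IsLocalRing S] [CommRing R] [IsLocalRing R]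
    [Algebra S R] (pb : PowerBasis S R) [AddCommGroup M] [Module S M] [Module R M]
    [IsScalarTower S R M] [Module.Finite S M] [Module.Free S M]
    (hy : ∃ s : S, pb.gen ^ pb.dim - algebraMap S R s ∈
      (maximalIdeal S).map (algebraMap S R))
    (θ : M →ₗ[S] M)
    (hθ : ∀ m : M, (∑ i ∈ Finset.range pb.dim, pb.gen ^ (pb.dim - 1 - i) • θ (pb.gen ^ i • m)) - m
      ∈ (maximalIdeal S • ⊤ : Submodule S M)) : Module.Free R M := by
  set y := pb.gen with hydef
  set n := pb.dim with hndef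
  -- coefficients
  let a : Fin n → S := fun j => pb.basis.repr (y ^ n) j
  have hya : y ^ n = ∑ j : Fin n, a j • y ^ (j : ℕ) := by
    conv_lhs => rw [← pb.basis.sum_repr (y ^ n)]
    refine Finset.sum_congr rfl fun j _ => ?_
    rw [pb.basis_eq_pow]
  have ha : ∀ j : Fin n, (j : ℕ) ≠ 0 → a j ∈ maximalIdeal S := by
    intro j hj
    obtain ⟨s, hs⟩ := hy
    have h1 : ∀ z ∈ (maximalIdeal S • ⊤ : Submodule S R), ∀ j, pb.basis.repr z j ∈
        maximalIdeal S := by
      intro z hz
      refine Submodule.smul_induction_on hz ?_ ?_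
      · intro c hc r _ j
        rw [map_smul, Finsupp.smul_apply, smul_eq_mul]
        exact Ideal.mul_mem_right _ _ hc
      · intro z w hz hw j
        rw [map_add, Finsupp.add_apply]
        exact Ideal.add_mem _ (hz j) (hw j)
    have h2 : y ^ n - algebraMap S R s ∈ (maximalIdeal S • ⊤ : Submodule S R) := by
      rw [Ideal.smul_top_eq_map]; exact hs
    have h3 := h1 _ h2 j
    rw [map_sub, Finsupp.sub_apply] at h3
    have h4 : pb.basis.repr (algebraMap S R s) j = 0 := by
      have hn : 0 < pb.dim := pb.dim_pos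
      have h5 : algebraMap S R s = s • pb.basis ⟨0, hn⟩ := by
        rw [pb.basis_eq_pow, pow_zero, Algebra.smul_def, mul_one]
      rw [h5, map_smul, Basis.repr_self, Finsupp.smul_apply, Finsupp.single_apply, if_neg, smul_zero]
      intro h
      exact hj (by rw [← h])
    rw [h4, sub_zero] at h3
    exact h3
  -- the section
  let σ₀ : M →ₗ[S] R ⊗[S] M := RelProj_E y θ n - ∑ j : Fin n, a j • RelProj_E y θ (j : ℕ)
  have hσ₀ : ∀ v, σ₀ v = RelProj_E y θ n v - ∑ j : Fin n, a j • RelProj_E y θ (j : ℕ) v := by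
    intro v
    simp only [σ₀, LinearMap.sub_apply, LinearMap.sum_apply, LinearMap.smul_apply]
  have hcomm : ∀ v, y • σ₀ v = σ₀ (y • v) := by
    intro v
    rw [← sub_eq_zero, hσ₀, hσ₀, smul_sub, Finset.smul_sum]
    have h1 : ∀ j : Fin n, y • a j • RelProj_E y θ (j : ℕ) v = a j • RelProj_E y θ (j : ℕ) (y • v) +
        a j • ((y ^ (j : ℕ)) ⊗ₜ[S] θ v - (1 : R) ⊗ₜ[S] θ (y ^ (j : ℕ) • v)) := by
      intro j
      rw [← RelProj_E_comm, smul_sub, smul_comm]
      abel
    have h2 : y • RelProj_E y θ n v = RelProj_E y θ n (y • v) +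
        ((y ^ n) ⊗ₜ[S] θ v - (1 : R) ⊗ₜ[S] θ (y ^ n • v)) := by
      rw [← RelProj_E_comm]; abel
    rw [Finset.sum_congr rfl fun j _ => h1 j, Finset.sum_add_distrib, h2]
    have h3 : (y ^ n) ⊗ₜ[S] θ v = ∑ j : Fin n, a j • ((y ^ (j : ℕ)) ⊗ₜ[S] θ v) := by
      rw [hya, TensorProduct.sum_tmul]
      rfl
    have h4 : (1 : R) ⊗ₜ[S] θ (y ^ n • v) =
        ∑ j : Fin n, a j • ((1 : R) ⊗ₜ[S] θ (y ^ (j : ℕ) • v)) := by
      rw [hya, Finset.sum_smul, map_sum, TensorProduct.tmul_sum]
      refine Finset.sum_congr rfl fun j _ => ?_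
      rw [smul_assoc, map_smul, TensorProduct.tmul_smul]
    rw [h3, h4]
    simp only [smul_sub, Finset.sum_sub_distrib]
    abel
  have hpow : ∀ (k : ℕ) (v : M), y ^ k • σ₀ v = σ₀ (y ^ k • v) := by
    intro k
    induction k with
    | zero => intro v; rw [pow_zero, one_smul, one_smul]
    | succ k ih => intro v; rw [pow_succ, mul_smul, hcomm, ih, ← mul_smul]
  have hlin : ∀ (r : R) (v : M), σ₀ (r • v) = r • σ₀ v := by
    intro r v
    have h1 : r = ∑ j : Fin n, pb.basis.repr r j • y ^ (j : ℕ) := by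
      conv_lhs => rw [← pb.basis.sum_repr r]
      refine Finset.sum_congr rfl fun j _ => ?_
      rw [pb.basis_eq_pow]
    rw [h1, Finset.sum_smul, Finset.sum_smul, map_sum]
    refine Finset.sum_congr rfl fun j _ => ?_
    rw [smul_assoc, smul_assoc, map_smul, hpow]
  let σ : M →ₗ[R] R ⊗[S] M :=
    { toFun := σ₀
      map_add' := map_add σ₀
      map_smul' := hlin }
  let μ : R ⊗[S] M →ₗ[R] M := RelProj_mu S R M
  have hmod : ∀ v, μ (σ v) - v ∈ (maximalIdeal S • ⊤ : Submodule S M) := by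
    intro v
    have h1 : μ (σ v) = (∑ i ∈ Finset.range n, y ^ (n - 1 - i) • θ (y ^ i • v)) -
        ∑ j : Fin n, a j • μ (RelProj_E y θ (j : ℕ) v) := by
      show RelProj_mu S R M (σ₀ v) = _
      rw [hσ₀, map_sub, RelProj_mu_E, map_sum]
      congr 1
      refine Finset.sum_congr rfl fun j _ => ?_
      rw [← algebraMap_smul R (a j), map_smul, algebraMap_smul]
    have h2 : ∑ j : Fin n, a j • μ (RelProj_E y θ (j : ℕ) v) ∈
        (maximalIdeal S • ⊤ : Submodule S M) := by
      refine Submodule.sum_mem _ fun j _ => ?_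
      by_cases hj : (j : ℕ) = 0
      · have h3 : RelProj_E y θ (j : ℕ) v = 0 := by rw [hj]; rfl
        rw [h3, map_zero, smul_zero]
        exact Submodule.zero_mem _
      · exact Submodule.smul_mem_smul (ha j hj) Submodule.mem_top
    have h3 : μ (σ v) - v = ((∑ i ∈ Finset.range n, y ^ (n - 1 - i) • θ (y ^ i • v)) - v) -
        ∑ j : Fin n, a j • μ (RelProj_E y θ (j : ℕ) v) := by
      rw [h1]; abel
    rw [h3]
    exact Submodule.sub_mem _ (hθ v) h2
  -- Nakayama
  let φ : M →ₗ[R] M := μ ∘ₗ σ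
  let φS : M →ₗ[S] M := φ.restrictScalars S
  have hsurjS : LinearMap.range φS = ⊤ := by
    refine top_le_iff.1 (Submodule.le_of_le_smul_of_le_jacobson_bot
      (Module.Finite.fg_top) (maximalIdeal_le_jacobson _) ?_)
    intro v _
    have h1 : v = φ v - (φ v - v) := by abel
    rw [h1]
    refine Submodule.sub_mem _ (Submodule.mem_sup_left ⟨v, rfl⟩) (Submodule.mem_sup_right ?_)
    exact hmod v
  have hsurj : Function.Surjective φ := by
    intro v
    have h1 : v ∈ LinearMap.range φS := by rw [hsurjS]; trivial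
    exact h1
  have hfinR : Module.Finite R M := Module.Finite.of_restrictScalars_finite S R M
  have hinj : Function.Injective φ := OrzechProperty.injective_of_surjective_endomorphism φ hsurj
  let e : M ≃ₗ[R] M := LinearEquiv.ofBijective φ ⟨hinj, hsurj⟩
  have hproj : Module.Projective R M := by
    refine Module.Projective.of_split (σ ∘ₗ (e.symm : M →ₗ[R] M)) μ ?_
    ext v
    have h1 : e (e.symm v) = v := e.apply_symm_apply v
    exact h1
  exact Module.free_of_flat_of_isLocalRing

end Pool.Agent.HWC
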