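import Pool.Agent.HWC.Defs

/-!
Paper proof.  tight_field: N = K^a: dim_k N = a d, d = [K : k], dim_k End_K N = a^2 d; (a d)^2 = d * a^2 d, N is free.
finite_quot: S/(x) is Noetherian and every prime ideal is maximal (hP.dim1), so it has finite length; induction on the length,
the simple quotients are the residue field.  (helper55)
-/

set_option autoImplicit false

namespace Pool.Agent.HWC

open IsLocalRing Module

theorem tight_field (k K : Type) [Field k] [Field K] [Algebra k K] [Module.Finite k K] :
    Tight k K := by
  intro N _ _ _ _ _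
  have hfin : Module.Finite K N := Module.Finite.of_restrictScalars_finite k K N
  have h1 : finrank k K * finrank K N = finrank k N := Module.finrank_mul_finrank k K N
  have h2 : finrank k K * finrank K (Module.End K N) = finrank k (Module.End K N) :=
    Module.finrank_mul_finrank k K (Module.End K N)
  have h3 : finrank K (Module.End K N) = finrank K N * finrank K N := Module.finrank_linearMap K K N N
  refine ⟨?_, fun _ => inferInstance⟩
  rw [← h1, ← h2, h3]
  apply le_of_eq
  ring

private theorem TightField_len (k S : Type) [Field k] [CommRing S] [IsLocalRing S] [Algebra k S]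
    [Module.Finite k (ResidueField S)] (M : Type) [AddCommGroup M] [Module S M]
    (h : IsFiniteLength S M) : ∀ [Module k M] [IsScalarTower k S M], Module.Finite k M := by
  induction h with
  | of_subsingleton =>
    intro _ _
    infer_instance
  | @of_simple_quotient M _ _ N hs h ih =>
    intro _ _
    obtain ⟨I, hI, ⟨e⟩⟩ := isSimpleModule_iff_quot_maximal.mp hs
    obtain rfl := eq_maximalIdeal hI
    have h1 : Module.Finite k (S ⧸ maximalIdeal S) := inferInstanceAs (Module.Finite k (ResidueField S))
    have h2 : Module.Finite k (M ⧸ N) := Module.Finite.equiv (e.restrictScalars k).symm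
    have h3 : Module.Finite k N := ih
    have h4 : Module.Finite k (N.restrictScalars k) := h3
    have h5 : Module.Finite k (M ⧸ N.restrictScalars k) :=
      Module.Finite.equiv (Submodule.Quotient.restrictScalarsEquiv k N).symm
    exact Module.Finite.of_submodule_quotient (N.restrictScalars k)

private theorem TightField_dim (S : Type) [CommRing S] [IsLocalRing S] (hP : Pkg S) (x : S)
    (hx0 : x ≠ 0) : Ring.KrullDimLE 0 (S ⧸ Ideal.span {x}) := by
  rw [Ring.krullDimLE_zero_iff]
  intro P hPp
  have hsurj : Function.Surjective (Ideal.Quotient.mk (Ideal.span {x})) := Ideal.Quotient.mk_surjective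
  have hQp : (P.comap (Ideal.Quotient.mk (Ideal.span {x}))).IsPrime := Ideal.IsPrime.comap _
  have hQ : P.comap (Ideal.Quotient.mk (Ideal.span {x})) = maximalIdeal S := by
    apply le_antisymm (le_maximalIdeal hQp.ne_top)
    intro y hy
    obtain ⟨N, hN⟩ := hP.dim1 y hy x hx0
    have h1 : y ^ N ∈ P.comap (Ideal.Quotient.mk (Ideal.span {x})) := by
      have h2 : Ideal.Quotient.mk (Ideal.span {x}) (y ^ N) = 0 := by
        rw [Ideal.Quotient.eq_zero_iff_mem, Ideal.mem_span_singleton]
        exact hN
      rw [Ideal.mem_comap, h2]
      exact P.zero_mem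
    exact hQp.mem_of_pow_mem N h1
  rw [← Ideal.map_comap_of_surjective _ hsurj P]
  have hmax : (P.comap (Ideal.Quotient.mk (Ideal.span {x}))).IsMaximal := by
    rw [hQ]
    infer_instance
  refine Ideal.IsMaximal.map_of_surjective_of_ker_le hsurj ?_
  intro z hz
  rw [Ideal.mem_comap, (RingHom.mem_ker).1 hz]
  exact P.zero_mem

theorem finite_quot (k S : Type) [Field k] [CommRing S] [IsLocalRing S] [IsNoetherianRing S]
    [Algebra k S] [Module.Finite k (ResidueField S)] (hP : Pkg S) (x : S)
    (hx0 : x ≠ 0) : Module.Finite k (S ⧸ Ideal.span {x}) := by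
  have hdim := TightField_dim S hP x hx0
  have hart : IsArtinianRing (S ⧸ Ideal.span {x}) := IsNoetherianRing.isArtinianRing_of_krullDimLE_zero
  have hart2 : IsArtinian (S ⧸ Ideal.span {x}) (S ⧸ Ideal.span {x}) := hart
  have hart' : IsArtinian S (S ⧸ Ideal.span {x}) :=
    isArtinian_of_surjective_algebraMap (R := S ⧸ Ideal.span {x}) Ideal.Quotient.mk_surjective
  have hlen : IsFiniteLength S (S ⧸ Ideal.span {x}) :=
    isFiniteLength_iff_isNoetherian_isArtinian.2 ⟨inferInstance, hart'⟩
  exact TightField_len k S _ hlen

end Pool.Agent.HWC
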