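import Pool.Agent.HWC.Defs

/-!
# HWC: short Gorenstein algebras are tight (helper98)

`tight_short`.  Proof: a linear form `λ` on `B` which does not vanish on the socle makes `B` self-dual:
`λ ∘ φ` runs through all linear forms on `X` when `φ` runs through `Hom_B(X, B)`.  If the socle does not kill `N`,
then `N = B + N1`, and one uses induction.  Otherwise, `N` is killed by the square of the maximal ideal `m`;
with `U = m N`, `a = dim N/U`, `u = dim U`, `D = dim End_B N` one has `D ≥ a u + 1` and
`(a + u)^2 ≤ D + (c + 1) a u`, `c + 2 ≤ dim B`.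
-/

set_option autoImplicit false

namespace Pool.Agent.HWC

open IsLocalRing Module

section socle

variable {B : Type} [CommRing B] [IsLocalRing B]

theorem TightShort_socle (hG : InfIrred (⊥ : Ideal B)) (h3 : (maximalIdeal B) ^ 3 = ⊥) :
    ∃ s : B, s ≠ 0 ∧ (∀ x ∈ maximalIdeal B, x * s = 0) ∧ ∀ y : B, y ≠ 0 → ∃ c, c * y = s := by
  have h0 : ∃ s : B, s ≠ 0 ∧ ∀ x ∈ maximalIdeal B, x * s = 0 := by
    by_cases h1 : maximalIdeal B = ⊥
    · refine ⟨1, one_ne_zero, fun x hx => ?_⟩
      rw [h1] at hx
      rw [(Submodule.mem_bot B).1 hx, zero_mul]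
    by_cases h2 : (maximalIdeal B) ^ 2 = ⊥
    · obtain ⟨s, hs, hs0⟩ := Submodule.exists_mem_ne_zero_of_ne_bot h1
      refine ⟨s, hs0, fun x hx => ?_⟩
      have h4 : x * s ∈ maximalIdeal B ^ 2 := by
        rw [sq]; exact Ideal.mul_mem_mul hx hs
      rw [h2] at h4
      exact (Submodule.mem_bot B).1 h4
    · obtain ⟨s, hs, hs0⟩ := Submodule.exists_mem_ne_zero_of_ne_bot h2
      refine ⟨s, hs0, fun x hx => ?_⟩
      have h4 : x * s ∈ maximalIdeal B ^ 3 := by
        rw [pow_succ']; exact Ideal.mul_mem_mul hx hs
      rw [h3] at h4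
      exact (Submodule.mem_bot B).1 h4
  obtain ⟨s, hs0, hs⟩ := h0
  refine ⟨s, hs0, hs, fun y hy => ?_⟩
  have h1 : Ideal.span {y} ⊓ Ideal.span {s} ≠ (⊥ : Ideal B) := by
    intro h
    rcases hG.2 h with h2 | h2
    · exact hy (Ideal.span_singleton_eq_bot.1 h2)
    · exact hs0 (Ideal.span_singleton_eq_bot.1 h2)
  obtain ⟨z, ⟨hz1, hz2⟩, hz0⟩ := Submodule.exists_mem_ne_zero_of_ne_bot h1
  obtain ⟨p, hp⟩ := Ideal.mem_span_singleton'.1 hz1
  obtain ⟨q, hq⟩ := Ideal.mem_span_singleton'.1 hz2
  have hqu : IsUnit q := by
    by_contra hn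
    have hqm : q ∈ maximalIdeal B := (mem_maximalIdeal q).2 hn
    exact hz0 (by rw [← hq, hs q hqm])
  obtain ⟨w, hw⟩ := hqu.exists_left_inv
  exact ⟨w * p, by rw [mul_assoc, hp, ← hq, ← mul_assoc, hw, one_mul]⟩

end socle

section dual

variable {k B : Type} [Field k] [CommRing B] [Algebra k B] [Module.Finite k B] (L : B →ₗ[k] k)
  (hL : ∀ b : B, (∀ c : B, L (c * b) = 0) → b = 0)

include hL in
/-- `Hom_B(X, B)` and `Hom_k(X, k)`. -/
theorem TightShort_dual (X : Type) [AddCommGroup X] [Module k X] [Module B X]
    [IsScalarTower k B X] (μ : X →ₗ[k] k) : ∃ φ : X →ₗ[B] B, ∀ x, L (φ x) = μ x := by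
  let τ : B →ₗ[k] (B →ₗ[k] k) :=
    { toFun := fun c =>
        { toFun := fun b => L (b * c)
          map_add' := fun x y => by rw [add_mul, map_add]
          map_smul' := fun r x => by rw [smul_mul_assoc, map_smul]; rfl }
      map_add' := fun x y => by
        ext b
        exact (by rw [mul_add, map_add] : L (b * (x + y)) = L (b * x) + L (b * y))
      map_smul' := fun r x => by
        ext b
        exact (by rw [mul_smul_comm, map_smul] : L (b * (r • x)) = r • L (b * x)) }
  have hτ : ∀ c b, τ c b = L (b * c) := fun c b => rfl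
  have hinj : Function.Injective τ := by
    rw [injective_iff_map_eq_zero]
    intro c hc
    refine hL c fun b => ?_
    rw [← hτ, hc]
    rfl
  have hsurj : Function.Surjective τ := by
    refine (LinearMap.injective_iff_surjective_of_finrank_eq_finrank ?_).1 hinj
    exact (Subspace.dual_finrank_eq (K := k) (V := B)).symm
  let e := LinearEquiv.ofBijective τ ⟨hinj, hsurj⟩
  let ν : X → (B →ₗ[k] k) := fun x =>
    { toFun := fun b => μ (b • x)
      map_add' := fun b c => by rw [add_smul, map_add]
      map_smul' := fun r b => by rw [smul_assoc, map_smul]; rfl }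
  have hν : ∀ x b, L (b * e.symm (ν x)) = μ (b • x) := by
    intro x b
    have h1 : τ (e.symm (ν x)) = ν x := e.apply_symm_apply (ν x)
    rw [← hτ, h1]
    rfl
  have huniq : ∀ c d : B, (∀ b, L (b * c) = L (b * d)) → c = d := by
    intro c d h
    refine sub_eq_zero.1 (hL _ fun b => ?_)
    rw [mul_sub, map_sub, h b, sub_self]
  refine ⟨{ toFun := fun x => e.symm (ν x), map_add' := fun x y => ?_, map_smul' := fun b x => ?_ },
    fun x => ?_⟩
  · refine huniq _ _ fun b => ?_
    rw [hν, mul_add, map_add, hν, hν, smul_add, map_add]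
  · refine huniq _ _ fun c => ?_
    rw [hν, RingHom.id_apply, smul_eq_mul, ← mul_assoc, hν, mul_smul]
  · have := hν x 1
    rw [one_mul, one_smul] at this
    exact this

end dual

section fin

variable {k B N : Type} [Field k] [CommRing B] [Algebra k B] [AddCommGroup N] [Module k N]
  [Module B N] [IsScalarTower k B N] [Module.Finite k N]

theorem TightShort_finEnd : Module.Finite k (Module.End B N) := by
  let J : Module.End B N →ₗ[k] Module.End k N :=
    { toFun := fun f => f.restrictScalars k
      map_add' := fun f g => rfl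
      map_smul' := fun r f => rfl }
  refine Module.Finite.of_injective J ?_
  intro f g h
  ext x
  exact LinearMap.congr_fun h x

end fin

section split

variable {k B : Type} [Field k] [CommRing B] [Algebra k B] [Module.Finite k B] (L : B →ₗ[k] k)
  (hL : ∀ b : B, (∀ c : B, L (c * b) = 0) → b = 0) (s : B) (hs : ∀ y : B, y ≠ 0 → ∃ c, c * y = s)
  {N : Type} [AddCommGroup N] [Module k N] [Module B N] [IsScalarTower k B N]

include hL hs in
theorem TightShort_retr (v : N) (hv : s • v ≠ 0) : ∃ r : N →ₗ[B] B, r v = 1 := by
  let j : B →ₗ[k] N :=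
    { toFun := fun b => b • v
      map_add' := fun b c => add_smul b c v
      map_smul' := fun r b => smul_assoc r b v }
  have hj : LinearMap.ker j = ⊥ := by
    rw [LinearMap.ker_eq_bot']
    intro b hb
    by_contra hb0
    obtain ⟨c, hc⟩ := hs b hb0
    have hb' : b • v = 0 := hb
    exact hv (by rw [← hc, mul_smul, hb', smul_zero])
  obtain ⟨g, hg⟩ := LinearMap.exists_leftInverse_of_injective j hj
  obtain ⟨φ, hφ⟩ := TightShort_dual L hL N (L ∘ₗ g)
  refine ⟨φ, sub_eq_zero.1 (hL _ fun b => ?_)⟩
  have h1 : L (b * φ v) = L b := by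
    have h2 : b * φ v = φ (b • v) := by rw [map_smul, smul_eq_mul]
    have h3 : g (b • v) = b := LinearMap.congr_fun hg b
    rw [h2, hφ, LinearMap.comp_apply, h3]
  rw [mul_sub, mul_one, map_sub, h1, sub_self]

omit [Module k N] [Algebra k B] [Module.Finite k B] [IsScalarTower k B N] in
theorem TightShort_equiv (r : N →ₗ[B] B) (v : N) (hr : r v = 1) :
    Nonempty (N ≃ₗ[B] B × LinearMap.ker r) := by
  refine ⟨
    { toFun := fun n => (r n, ⟨n - r n • v, by
        rw [LinearMap.mem_ker, map_sub, map_smul, hr, smul_eq_mul, mul_one, sub_self]⟩)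
      map_add' := fun x y => Prod.ext (map_add r x y) (Subtype.ext ?_)
      map_smul' := fun b x => Prod.ext (map_smul r b x) (Subtype.ext ?_)
      invFun := fun p => p.1 • v + (p.2 : N)
      left_inv := fun n => ?_
      right_inv := fun p => ?_ }⟩
  · change x + y - r (x + y) • v = (x - r x • v) + (y - r y • v)
    rw [map_add, add_smul]
    abel
  · change b • x - r (b • x) • v = b • (x - r x • v)
    rw [map_smul, smul_eq_mul, smul_sub, mul_smul]
  · change r n • v + (n - r n • v) = n
    abel
  · obtain ⟨b, w, hw⟩ := p
    have hw' : r w = 0 := hw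
    have h1 : r (b • v + w) = b := by
      rw [map_add, map_smul, hr, hw', smul_eq_mul, mul_one, add_zero]
    refine Prod.ext h1 (Subtype.ext ?_)
    change b • v + w - r (b • v + w) • v = w
    rw [h1]
    abel

include hL in
theorem TightShort_dims [Module.Finite k N] (X : Type) [AddCommGroup X] [Module k X] [Module B X]
    [IsScalarTower k B X] [Module.Finite k X] (e : N ≃ₗ[B] B × X) :
    finrank k N = finrank k B + finrank k X ∧
      finrank k B + 2 * finrank k X + finrank k (Module.End B X) ≤ finrank k (Module.End B N) := by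
  have h1 : finrank k N = finrank k B + finrank k X := by
    rw [← finrank_prod]
    exact (e.restrictScalars k).finrank_eq
  refine ⟨h1, ?_⟩
  have := TightShort_finEnd (k := k) (B := B) (N := X)
  have h2 : finrank k (Module.End B N) = finrank k (Module.End B (B × X)) := by
    let c : Module.End B N ≃ₗ[k] Module.End B (B × X) :=
      { toFun := fun f => e.toLinearMap ∘ₗ f ∘ₗ e.symm.toLinearMap
        map_add' := fun f g => by ext x <;> simp
        map_smul' := fun t f => by
          refine LinearMap.ext fun x => ?_
          change e (t • f (e.symm x)) = t • e (f (e.symm x))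
          exact (e.restrictScalars k).map_smul t _
        invFun := fun f => e.symm.toLinearMap ∘ₗ f ∘ₗ e.toLinearMap
        left_inv := fun f => by ext x; simp
        right_inv := fun f => by ext x <;> simp }
    exact c.finrank_eq
  have : Module.Finite k (X →ₗ[B] B) := by
    let J : (X →ₗ[B] B) →ₗ[k] (X →ₗ[k] B) :=
      { toFun := fun f => f.restrictScalars k
        map_add' := fun f g => rfl
        map_smul' := fun r f => rfl }
    refine Module.Finite.of_injective J ?_
    intro f g h
    ext x
    exact LinearMap.congr_fun h x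
  have h3 : finrank k (X →ₗ[B] B) ≥ finrank k X := by
    let J : (X →ₗ[B] B) →ₗ[k] (X →ₗ[k] k) :=
      { toFun := fun f => L ∘ₗ f.restrictScalars k
        map_add' := fun f g => by ext x; simp
        map_smul' := fun r f => by ext x; simp }
    have hJ : Function.Surjective J := by
      intro μ
      obtain ⟨φ, hφ⟩ := TightShort_dual L hL X μ
      exact ⟨φ, LinearMap.ext hφ⟩
    have h4 := LinearMap.finrank_range_le J
    rw [LinearMap.range_eq_top.2 hJ, finrank_top] at h4
    have h5 : finrank k (X →ₗ[k] k) = finrank k X := Subspace.dual_finrank_eq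
    rw [h5] at h4
    exact h4
  have h4 : finrank k (Module.End B (B × X)) =
      (finrank k B + finrank k X) + (finrank k (X →ₗ[B] B) + finrank k (Module.End B X)) := by
    have e1 := (LinearMap.coprodEquiv k : ((B →ₗ[B] (B × X)) × (X →ₗ[B] (B × X))) ≃ₗ[k]
      ((B × X) →ₗ[B] (B × X))).finrank_eq
    have e2 := (LinearMap.ringLmapEquivSelf B k (B × X)).finrank_eq
    have e3 := (LinearMap.prodEquiv k : ((X →ₗ[B] B) × (X →ₗ[B] X)) ≃ₗ[k]
      (X →ₗ[B] (B × X))).finrank_eq
    have : Module.Finite k (B →ₗ[B] (B × X)) :=
      Module.Finite.equiv (LinearMap.ringLmapEquivSelf B k (B × X)).symm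
    have : Module.Finite k (X →ₗ[B] X) := TightShort_finEnd (k := k) (B := B) (N := X)
    have : Module.Finite k (X →ₗ[B] (B × X)) :=
      Module.Finite.equiv (LinearMap.prodEquiv k : ((X →ₗ[B] B) × (X →ₗ[B] X)) ≃ₗ[k]
        (X →ₗ[B] (B × X)))
    rw [finrank_prod] at e1 e3
    rw [finrank_prod] at e2
    change finrank k ((B × X) →ₗ[B] (B × X)) = _
    rw [← e1, e2, ← e3]
  rw [h2, h4]
  omega

end split

section zero

variable {k B : Type} [Field k] [CommRing B] [IsLocalRing B] [Algebra k B] [Module.Finite k B]

theorem TightShort_arith (n a u T c D e : ℕ) (hD1 : a * u + 1 ≤ D) (hn2 : n * n ≤ T + u * a)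
    (hT2 : T ≤ c * (a * u) + D) (hc : c + 2 ≤ e) : n ^ 2 < e * D := by
  have h4 : n ^ 2 ≤ D + (c + 1) * (a * u) := by
    have h5 : (c + 1) * (a * u) = c * (a * u) + u * a := by ring
    rw [sq, h5]
    omega
  have h5 : (c + 2) * D ≤ e * D := Nat.mul_le_mul_right D hc
  have h6 : (c + 1) * (a * u + 1) ≤ (c + 1) * D := Nat.mul_le_mul_left _ hD1
  have h7 : (c + 2) * D = D + (c + 1) * D := by ring
  have h8 : (c + 1) * (a * u + 1) = (c + 1) * (a * u) + (c + 1) := by ring
  omega

omit [Module.Finite k B] in
theorem TightShort_res (hres : Function.Surjective (algebraMap k (ResidueField B))) (b : B) :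
    ∃ t : k, b - algebraMap k B t ∈ maximalIdeal B := by
  obtain ⟨t, ht⟩ := hres (residue B b)
  refine ⟨t, ?_⟩
  rw [← residue_eq_zero_iff, map_sub, sub_eq_zero, ← ht]
  exact IsScalarTower.algebraMap_apply k B (ResidueField B) t

theorem TightShort_zero (hres : Function.Surjective (algebraMap k (ResidueField B)))
    (h3 : (maximalIdeal B) ^ 3 = ⊥) (s : B) (hs0 : s ≠ 0)
    (hs : ∀ y : B, y ≠ 0 → ∃ c, c * y = s) (L : B →ₗ[k] k) (hLs : L s = 1)
    (N : Type) [AddCommGroup N] [Module k N] [Module B N] [IsScalarTower k B N]
    [Module.Finite k N] [Nontrivial N] (hz : ∀ v : N, s • v = 0) :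
    (finrank k N) ^ 2 < finrank k B * finrank k (Module.End B N) := by
  have hfin := TightShort_finEnd (k := k) (B := B) (N := N)
  obtain ⟨v0, hv0⟩ := exists_ne (0 : N)
  have hunit : ∀ b : B, IsUnit b → ∀ v : N, b • v = 0 → v = 0 := by
    intro b hb v hbv
    obtain ⟨w, hw⟩ := hb.exists_left_inv
    rw [← one_smul B v, ← hw, mul_smul, hbv, smul_zero]
  have hsM : s ∈ maximalIdeal B := by
    rw [mem_maximalIdeal]
    intro hu
    exact hv0 (hunit s hu v0 (hz v0))
  have hmm : ∀ x ∈ maximalIdeal B, ∀ y ∈ maximalIdeal B, ∀ v : N, x • y • v = 0 := by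
    intro x hx y hy v
    rw [← mul_smul]
    by_cases hxy : x * y = 0
    · rw [hxy, zero_smul]
    · obtain ⟨c, hc⟩ := hs _ hxy
      have hcu : IsUnit c := by
        by_contra hn
        have hcm : c ∈ maximalIdeal B := (mem_maximalIdeal c).2 hn
        have h4 : c * (x * y) ∈ maximalIdeal B ^ 3 := by
          rw [pow_succ', sq]
          exact Ideal.mul_mem_mul hcm (Ideal.mul_mem_mul hx hy)
        rw [h3] at h4
        exact hs0 (by rw [← hc]; exact (Submodule.mem_bot B).1 h4)
      exact hunit c hcu _ (by rw [← mul_smul, hc, hz])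
  let UB : Submodule B N := maximalIdeal B • (⊤ : Submodule B N)
  have hU1 : ∀ x ∈ maximalIdeal B, ∀ v : N, x • v ∈ UB := fun x hx v =>
    Submodule.smul_mem_smul hx Submodule.mem_top
  have hU2 : ∀ x ∈ maximalIdeal B, ∀ w ∈ UB, x • w = 0 := by
    intro x hx w hw
    refine Submodule.smul_induction_on (p := fun w => x • w = 0) hw ?_ ?_
    · intro y hy v _
      exact hmm x hx y hy v
    · intro a b ha hb
      rw [smul_add, ha, hb, add_zero]
  obtain ⟨v1, hv1⟩ : ∃ v1 : N, v1 ∉ UB := by
    by_contra hcon
    have hall : ∀ v : N, v ∈ UB := by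
      intro v
      by_contra hv
      exact hcon ⟨v, hv⟩
    have h4 : UB ≤ ⊥ := by
      refine Submodule.smul_le.2 fun x hx v _ => ?_
      rw [Submodule.mem_bot]
      exact hU2 x hx v (hall v)
    exact hv0 ((Submodule.mem_bot B).1 (h4 (hall v0)))
  let U : Submodule k N := UB.restrictScalars k
  have hUm : ∀ v, v ∈ U ↔ v ∈ UB := fun v => Iff.rfl
  let F : ((N ⧸ U) →ₗ[k] U) →ₗ[k] Module.End k N :=
    { toFun := fun h => U.subtype ∘ₗ h ∘ₗ U.mkQ
      map_add' := fun f g => by ext x; simp
      map_smul' := fun r f => by ext x; simp }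
  have hFinj : Function.Injective F := by
    rw [injective_iff_map_eq_zero]
    intro h hh
    refine LinearMap.ext fun q => ?_
    obtain ⟨n, rfl⟩ := U.mkQ_surjective q
    have h4 : ((h (U.mkQ n) : U) : N) = 0 := LinearMap.congr_fun hh n
    exact Subtype.ext h4
  have hFr : ∀ g : Module.End k N, (∀ n, g n ∈ U) → (∀ w ∈ U, g w = 0) →
      g ∈ LinearMap.range F := by
    intro g hg1 hg2
    refine ⟨U.liftQ (g.codRestrict U hg1) ?_, ?_⟩
    · intro w hw
      rw [LinearMap.mem_ker]
      exact Subtype.ext (hg2 w hw)
    · ext n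
      rfl
  -- the first bound
  have hD1 : finrank k (N ⧸ U) * finrank k U + 1 ≤ finrank k (Module.End B N) := by
    let G : (((N ⧸ U) →ₗ[k] U) × k) →ₗ[k] Module.End B N :=
      { toFun := fun p =>
          { toFun := fun n => ((p.1 (U.mkQ n) : U) : N) + p.2 • n
            map_add' := fun x y => by
              rw [map_add, map_add, smul_add, Submodule.coe_add]
              abel
            map_smul' := fun b x => by
              obtain ⟨t, ht⟩ := TightShort_res hres b
              have e1 : b • x = t • x + (b - algebraMap k B t) • x := by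
                rw [sub_smul, algebraMap_smul]
                abel
              have e2 : U.mkQ ((b - algebraMap k B t) • x) = 0 := by
                rw [Submodule.mkQ_apply, Submodule.Quotient.mk_eq_zero]
                exact hU1 _ ht x
              have e3 : b • ((p.1 (U.mkQ x) : U) : N) = t • ((p.1 (U.mkQ x) : U) : N) := by
                have e4 : b • ((p.1 (U.mkQ x) : U) : N) = t • ((p.1 (U.mkQ x) : U) : N) +
                    (b - algebraMap k B t) • ((p.1 (U.mkQ x) : U) : N) := by
                  rw [sub_smul, algebraMap_smul]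
                  abel
                rw [e4, hU2 _ ht _ (p.1 (U.mkQ x)).2, add_zero]
              have e5 : p.2 • (b • x) = b • (p.2 • x) := smul_comm _ _ _
              rw [RingHom.id_apply, smul_add, e3, e5]
              congr 1
              rw [e1, map_add, e2, add_zero, map_smul, map_smul]
              rfl }
        map_add' := fun p q => by
          ext n
          change (((p.1 + q.1) (U.mkQ n) : U) : N) + (p.2 + q.2) • n =
            (((p.1 (U.mkQ n) : U) : N) + p.2 • n) + (((q.1 (U.mkQ n) : U) : N) + q.2 • n)
          rw [LinearMap.add_apply, Submodule.coe_add, add_smul]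
          abel
        map_smul' := fun r p => by
          ext n
          change (((r • p.1) (U.mkQ n) : U) : N) + (r • p.2) • n =
            r • (((p.1 (U.mkQ n) : U) : N) + p.2 • n)
          rw [LinearMap.smul_apply, Submodule.coe_smul, smul_add, smul_assoc] }
    have hGinj : Function.Injective G := by
      rw [injective_iff_map_eq_zero]
      rintro ⟨h, t⟩ hh
      have h4 : ∀ n : N, ((h (U.mkQ n) : U) : N) + t • n = 0 := fun n => LinearMap.congr_fun hh n
      have ht : t = 0 := by
        by_contra ht
        have h5 : t • v1 ∈ U := by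
          have h6 : t • v1 = -((h (U.mkQ v1) : U) : N) := by
            rw [eq_neg_iff_add_eq_zero, add_comm]
            exact h4 v1
          rw [h6]
          exact U.neg_mem (h (U.mkQ v1)).2
        exact hv1 ((U.smul_mem_iff ht).1 h5)
      refine Prod.ext ?_ ht
      refine LinearMap.ext fun q => ?_
      obtain ⟨n, rfl⟩ := U.mkQ_surjective q
      have h5 := h4 n
      rw [ht, zero_smul, add_zero] at h5
      exact Subtype.ext h5
    have h4 := LinearMap.finrank_le_finrank_of_injective hGinj
    rw [finrank_prod, finrank_linearMap, finrank_self] at h4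
    exact h4
  -- the second bound
  let G2 : Module.End k N →ₗ[k] (U →ₗ[k] (N ⧸ U)) :=
    { toFun := fun f => U.mkQ ∘ₗ f ∘ₗ U.subtype
      map_add' := fun f g => by ext x; simp
      map_smul' := fun r f => by ext x; simp }
  have hT : ∀ f ∈ LinearMap.ker G2, ∀ w ∈ U, f w ∈ U := by
    intro f hf w hw
    have h4 : U.mkQ (f w) = 0 := LinearMap.congr_fun (LinearMap.mem_ker.1 hf) (⟨w, hw⟩ : U)
    rwa [Submodule.mkQ_apply, Submodule.Quotient.mk_eq_zero] at h4
  have hn2 : finrank k N * finrank k N ≤
      finrank k (LinearMap.ker G2) + finrank k U * finrank k (N ⧸ U) := by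
    have h4 := LinearMap.finrank_range_add_finrank_ker G2
    have h5 := Submodule.finrank_le (LinearMap.range G2)
    have h6 : finrank k (Module.End k N) = finrank k N * finrank k N := finrank_linearMap _ _ _ _
    have h7 : finrank k (U →ₗ[k] (N ⧸ U)) = finrank k U * finrank k (N ⧸ U) :=
      finrank_linearMap _ _ _ _
    omega
  let M' : Submodule k B := (maximalIdeal B).restrictScalars k ⊓ LinearMap.ker L
  have hM'm : ∀ x : M', (x : B) ∈ maximalIdeal B := fun x => x.2.1
  let β := Module.finBasis k M'
  let θ : Fin (finrank k M') → Module.End k N →ₗ[k] Module.End k N := fun i =>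
    { toFun := fun f =>
        { toFun := fun n => f ((β i : B) • n) - (β i : B) • f n
          map_add' := fun x y => by
            rw [smul_add, map_add, map_add, smul_add]
            abel
          map_smul' := fun r x => by
            have e1 : (β i : B) • r • x = r • (β i : B) • x := smul_comm _ _ _
            have e2 : (β i : B) • r • f x = r • (β i : B) • f x := smul_comm _ _ _
            rw [e1, LinearMap.map_smul f r ((β i : B) • x), LinearMap.map_smul f r x, e2,
              RingHom.id_apply, smul_sub] }
      map_add' := fun f g => by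
        ext n
        change (f ((β i : B) • n) + g ((β i : B) • n)) - (β i : B) • (f n + g n) =
          (f ((β i : B) • n) - (β i : B) • f n) + (g ((β i : B) • n) - (β i : B) • g n)
        rw [smul_add]
        abel
      map_smul' := fun r f => by
        ext n
        change r • f ((β i : B) • n) - (β i : B) • (r • f n) =
          r • (f ((β i : B) • n) - (β i : B) • f n)
        have e2 : (β i : B) • r • f n = r • (β i : B) • f n := smul_comm _ _ _
        rw [e2, smul_sub] }
  have hθ : ∀ i f n, θ i f n = f ((β i : B) • n) - (β i : B) • f n := fun i f n => rfl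
  have hθr : ∀ i, ∀ f : LinearMap.ker G2, θ i (f : Module.End k N) ∈ LinearMap.range F := by
    intro i f
    refine hFr _ (fun n => ?_) (fun w hw => ?_)
    · rw [hθ]
      exact U.sub_mem (hT f f.2 _ (hU1 _ (hM'm _) n)) (hU1 _ (hM'm _) _)
    · rw [hθ, hU2 _ (hM'm _) w hw, map_zero, hU2 _ (hM'm _) _ (hT f f.2 w hw), sub_zero]
  let Θ : LinearMap.ker G2 →ₗ[k] (Fin (finrank k M') → LinearMap.range F) :=
    LinearMap.pi fun i => LinearMap.codRestrict (LinearMap.range F)
      ((θ i) ∘ₗ (LinearMap.ker G2).subtype) (hθr i)
  have hT2 : finrank k (LinearMap.ker G2) ≤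
      finrank k M' * (finrank k (N ⧸ U) * finrank k U) + finrank k (Module.End B N) := by
    have h4 := LinearMap.finrank_range_add_finrank_ker Θ
    have h5 := Submodule.finrank_le (LinearMap.range Θ)
    have h6 : finrank k (Fin (finrank k M') → LinearMap.range F) =
        finrank k M' * (finrank k (N ⧸ U) * finrank k U) := by
      rw [finrank_pi_fintype, Finset.sum_const, Finset.card_univ, Fintype.card_fin, smul_eq_mul,
        LinearMap.finrank_range_of_inj hFinj, finrank_linearMap]
    have h7 : finrank k (LinearMap.ker Θ) ≤ finrank k (Module.End B N) := by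
      have hlin : ∀ f : LinearMap.ker Θ, ∀ (b : B) (n : N),
          (f : LinearMap.ker G2).1 (b • n) = b • (f : LinearMap.ker G2).1 n := by
        intro f b n
        set g : Module.End k N := (f : LinearMap.ker G2).1 with hg
        let C : Submodule k B :=
          { carrier := {x | ∀ n, g (x • n) = x • g n}
            add_mem' := fun {x y} hx hy n => by rw [add_smul, map_add, hx n, hy n, add_smul]
            zero_mem' := fun n => by rw [zero_smul, map_zero, zero_smul]
            smul_mem' := fun r x hx n => by rw [smul_assoc, map_smul, hx n, smul_assoc] }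
        have hβ : ∀ i, (β i : B) ∈ C := by
          intro i n
          have e1 : Θ f.1 i = 0 := congrFun (LinearMap.mem_ker.1 f.2) i
          have e2 : θ i g = 0 := congrArg Subtype.val e1
          have e3 : θ i g n = 0 := by rw [e2]; rfl
          rw [hθ] at e3
          exact sub_eq_zero.1 e3
        have hM'C : ∀ x : M', (x : B) ∈ C := by
          intro x
          rw [← β.sum_repr x, Submodule.coe_sum]
          exact C.sum_mem fun i _ => by
            rw [Submodule.coe_smul]
            exact C.smul_mem _ (hβ i)
        have hsC : s ∈ C := fun n => by rw [hz, map_zero, hz]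
        have h1C : (1 : B) ∈ C := fun n => by rw [one_smul, one_smul]
        obtain ⟨t, ht⟩ := TightShort_res hres b
        have hb : b = t • (1 : B) + (L (b - algebraMap k B t) • s +
            ((b - algebraMap k B t) - L (b - algebraMap k B t) • s)) := by
          rw [← Algebra.algebraMap_eq_smul_one]
          abel
        have hx' : (b - algebraMap k B t) - L (b - algebraMap k B t) • s ∈ M' := by
          refine ⟨?_, ?_⟩
          · change (b - algebraMap k B t) - L (b - algebraMap k B t) • s ∈ maximalIdeal B
            refine Ideal.sub_mem _ ht ?_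
            rw [Algebra.smul_def]
            exact Ideal.mul_mem_left _ _ hsM
          · change L ((b - algebraMap k B t) - L (b - algebraMap k B t) • s) = 0
            rw [map_sub, map_smul, hLs, smul_eq_mul, mul_one, sub_self]
        have hbC : b ∈ C := by
          rw [hb]
          exact C.add_mem (C.smul_mem _ h1C) (C.add_mem (C.smul_mem _ hsC) (hM'C ⟨_, hx'⟩))
        exact hbC n
      let J : LinearMap.ker Θ →ₗ[k] Module.End B N :=
        { toFun := fun f =>
            { toFun := fun n => (f : LinearMap.ker G2).1 n
              map_add' := fun x y => map_add _ x y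
              map_smul' := fun b x => hlin f b x }
          map_add' := fun f g => by ext n; rfl
          map_smul' := fun r f => by ext n; rfl }
      have hJ : Function.Injective J := by
        intro f g h
        refine Subtype.ext (Subtype.ext (LinearMap.ext fun n => ?_))
        exact LinearMap.congr_fun h n
      exact LinearMap.finrank_le_finrank_of_injective hJ
    omega
  have hc : finrank k M' + 2 ≤ finrank k B := by
    have hlt1 : M' < (maximalIdeal B).restrictScalars k := by
      refine lt_of_le_of_ne inf_le_left fun h => ?_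
      have h4 : s ∈ M' := by rw [h]; exact hsM
      have h5 : L s = 0 := h4.2
      rw [hLs] at h5
      exact one_ne_zero h5
    have hlt2 : (maximalIdeal B).restrictScalars k < ⊤ := by
      refine lt_of_le_of_ne le_top fun h => ?_
      have h4 : (1 : B) ∈ (maximalIdeal B).restrictScalars k := by rw [h]; exact Submodule.mem_top
      have h5 : (1 : B) ∈ maximalIdeal B := h4
      exact (mem_maximalIdeal _).1 h5 isUnit_one
    have h6 := Submodule.finrank_lt_finrank_of_lt hlt1
    have h7 := Submodule.finrank_lt_finrank_of_lt hlt2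
    rw [finrank_top] at h7
    omega
  exact TightShort_arith _ _ _ _ _ _ _ hD1 hn2 hT2 hc

end zero

theorem TightShort_ind (k B : Type) [Field k] [CommRing B] [IsLocalRing B] [Algebra k B]
    [Module.Finite k B] (hres : Function.Surjective (algebraMap k (ResidueField B)))
    (h3 : (maximalIdeal B) ^ 3 = ⊥) (s : B) (hs0 : s ≠ 0)
    (hs : ∀ y : B, y ≠ 0 → ∃ c, c * y = s) (L : B →ₗ[k] k) (hLs : L s = 1) :
    ∀ (n : ℕ) (N : Type) [AddCommGroup N] [Module k N] [Module B N] [IsScalarTower k B N]
    [Module.Finite k N], finrank k N = n →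
    (finrank k N) ^ 2 ≤ finrank k B * finrank k (Module.End B N) ∧
    ((finrank k N) ^ 2 = finrank k B * finrank k (Module.End B N) → Module.Free B N) := by
  have hL : ∀ b : B, (∀ c : B, L (c * b) = 0) → b = 0 := by
    intro b hb
    by_contra hb0
    obtain ⟨c, hc⟩ := hs b hb0
    have := hb c
    rw [hc, hLs] at this
    exact one_ne_zero this
  intro n
  induction n using Nat.strong_induction_on with
  | _ n ih =>
    intro N _ _ _ _ _ hn
    by_cases hz : ∀ v : N, s • v = 0
    · rcases subsingleton_or_nontrivial N with hsub | hnt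
      · refine ⟨?_, fun _ => Module.Free.of_subsingleton B N⟩
        rw [finrank_zero_of_subsingleton]
        exact Nat.zero_le _
      · have h4 := TightShort_zero hres h3 s hs0 hs L hLs N hz
        exact ⟨h4.le, fun h => absurd h h4.ne⟩
    · obtain ⟨v, hv⟩ : ∃ v : N, s • v ≠ 0 := by
        by_contra hcon
        exact hz fun v => by
          by_contra hv
          exact hcon ⟨v, hv⟩
      obtain ⟨r, hr⟩ := TightShort_retr L hL s hs v hv
      obtain ⟨e⟩ := TightShort_equiv r v hr
      have hfX : Module.Finite k (LinearMap.ker r) :=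
        Module.Finite.of_injective ((LinearMap.ker r).subtype.restrictScalars k)
          Subtype.val_injective
      obtain ⟨hd1, hd2⟩ := TightShort_dims L hL (LinearMap.ker r) e
      have hB : 0 < finrank k B := finrank_pos
      obtain ⟨i1, i2⟩ := ih (finrank k (LinearMap.ker r)) (by omega) (LinearMap.ker r) rfl
      have key : (finrank k B + finrank k (LinearMap.ker r)) ^ 2 +
          (finrank k B * finrank k (Module.End B (LinearMap.ker r)) -
            finrank k (LinearMap.ker r) ^ 2) ≤ finrank k B * finrank k (Module.End B N) := by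
        obtain ⟨d, hd⟩ := Nat.exists_eq_add_of_le i1
        rw [hd, Nat.add_sub_cancel_left]
        have h5 := Nat.mul_le_mul_left (finrank k B) hd2
        have h6 : finrank k B * (finrank k B + 2 * finrank k (LinearMap.ker r) +
            finrank k (Module.End B (LinearMap.ker r))) =
            finrank k B ^ 2 + 2 * (finrank k B * finrank k (LinearMap.ker r)) +
            finrank k B * finrank k (Module.End B (LinearMap.ker r)) := by ring
        rw [h6, hd] at h5
        have h7 : (finrank k B + finrank k (LinearMap.ker r)) ^ 2 = finrank k B ^ 2 +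
            2 * (finrank k B * finrank k (LinearMap.ker r)) + finrank k (LinearMap.ker r) ^ 2 := by
          ring
        rw [h7]
        omega
      rw [hd1]
      refine ⟨(Nat.le_add_right _ _).trans key, fun heq => ?_⟩
      have h8 : finrank k (LinearMap.ker r) ^ 2 =
          finrank k B * finrank k (Module.End B (LinearMap.ker r)) := by omega
      have hfree := i2 h8
      exact Module.Free.of_equiv e.symm

theorem tight_short (k B : Type) [Field k] [CommRing B] [IsLocalRing B] [Algebra k B]
    [Module.Finite k B] (hres : Function.Surjective (algebraMap k (ResidueField B)))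
    (hG : InfIrred (⊥ : Ideal B)) (h3 : (maximalIdeal B) ^ 3 = ⊥) : Tight k B := by
  obtain ⟨s, hs0, _, hs⟩ := TightShort_socle hG h3
  obtain ⟨f, hf⟩ : ∃ f : Module.Dual k B, f s ≠ 0 := by
    by_contra hcon
    refine hs0 ((Module.forall_dual_apply_eq_zero_iff k s).1 fun f => ?_)
    by_contra hf
    exact hcon ⟨f, hf⟩
  intro N _ _ _ _ _
  exact TightShort_ind k B hres h3 s hs0 hs ((f s)⁻¹ • f)
    (by rw [LinearMap.smul_apply, smul_eq_mul, inv_mul_cancel₀ hf]) _ N rfl

end Pool.Agent.HWC
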