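import Pool.Agent.HWC.Alg
import Pool.Agent.HWC.AlgP
import Pool.Agent.HWC.PkgOf
import Pool.Agent.HWC.LiftRefl
import Pool.Agent.HWC.ReflLift
import Pool.Agent.HWC.ExistsAF
import Pool.Agent.HWC.Dims
import Pool.Agent.HWC.Commut
import Pool.Agent.HWC.RelProj
import Pool.Agent.HWC.LocalOf
import Pool.Agent.HWC.GorStep
import Pool.Agent.HWC.TightField
import Pool.Agent.HWC.TightShort

/-! Assembly: (HWC) for radical towers, the fibre criterion, tight algebras (MP_7dc157_al). -/

set_option autoImplicit false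

namespace Pool.Agent.HWC

open IsLocalRing Module

theorem AF_free (S M : Type) [CommRing S] [AddCommGroup M] [Module S M]
    (x : S) (n : ℕ) (b : Module.Basis (Fin n) S M) : AF S M x n :=
  ⟨0, b.equivFun.symm.toLinearMap, b.equivFun.toLinearMap,
    fun m => by rw [pow_zero, one_smul]; exact b.equivFun.symm_apply_apply m,
    fun v => by rw [pow_zero, one_smul]; exact b.equivFun.apply_symm_apply v⟩

/-! ### assembly -/

theorem closure_core (k S R : Type) [Field k] [CommRing S] [IsDomain S] [IsLocalRing S]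
    [IsNoetherianRing S] [CommRing R] [IsDomain R] [IsLocalRing R] [IsNoetherianRing R]
    [Algebra k S] [Algebra S R] [Algebra k R] [IsScalarTower k S R]
    (hS : Pkg S) (hR : Pkg R) (pb : PowerBasis S R) (x : S)
    (hx : x ∈ maximalIdeal S) (hx0 : x ≠ 0) [Module.Finite k (S ⧸ Ideal.span {x})]
    (hxR : algebraMap S R x ∈ maximalIdeal R) (hxR0 : algebraMap S R x ≠ 0)
    (hinj : Function.Injective (algebraMap S R))
    (hy : ∃ s : S, pb.gen ^ pb.dim - algebraMap S R s ∈
      (maximalIdeal S).map (algebraMap S R))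
    (hE : ∀ (N : Type) [AddCommGroup N] [Module k N] [Module S N] [Module R N]
      [IsScalarTower S R N] [IsScalarTower k S N] [IsScalarTower k R N] [Module.Finite k N],
      (∀ v : N, x • v = 0) →
      finrank k (Module.End S N) ≤ pb.dim *
        finrank k (LinearMap.ker (LinearMap.mulLeft k (Algebra.lsmul S S N pb.gen) -
          LinearMap.mulRight k (Algebra.lsmul S S N pb.gen))) ∧
      (finrank k (Module.End S N) = pb.dim *
        finrank k (LinearMap.ker (LinearMap.mulLeft k (Algebra.lsmul S S N pb.gen) -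
          LinearMap.mulRight k (Algebra.lsmul S S N pb.gen))) →
        ∃ θ : Module.End S N, ∑ i ∈ Finset.range pb.dim,
          (Algebra.lsmul S S N pb.gen) ^ (pb.dim - 1 - i) * θ *
            (Algebra.lsmul S S N pb.gen) ^ i = 1))
    (h : HWC S) : HWC R := by
  intro M _ _ _ _ hrefl
  let _ : Module S M := Module.compHom M (algebraMap S R)
  have : IsScalarTower S R M := ⟨fun s r m => by
    rw [Algebra.smul_def, mul_smul]; rfl⟩
  let _ : Module k M := Module.compHom M (algebraMap k R)
  have : IsScalarTower k R M := ⟨fun s r m => by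
    rw [Algebra.smul_def, mul_smul]; rfl⟩
  have : IsScalarTower k S M := ⟨fun c s m => by
    rw [← algebraMap_smul R (c • s) m, ← algebraMap_smul R s m, ← smul_assoc,
      Algebra.smul_def c (algebraMap S R s), Algebra.smul_def c s, map_mul,
      IsScalarTower.algebraMap_apply k S R]⟩
  have : Module.Finite S R := pb.finite
  have : Module.Finite S M := Module.Finite.trans R M
  have hTF : TF R M := fun s m h0 => smul_eq_zero.mp h0
  have hTFS : TF S M := fun s m h0 => by
    rw [← algebraMap_smul R s m] at h0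
    rcases smul_eq_zero.mp h0 with h1 | h1
    · left; exact (map_eq_zero_iff _ hinj).mp h1
    · right; exact h1
  have hLR : Lift R M (algebraMap S R x) := lift_of_reflexive R hR M hTF hrefl _ hxR0
  obtain ⟨r, hAF⟩ := exists_AF R hR M hTF _ hxR hxR0
  have hAFS : AF S M x (pb.dim * r) := AF_restrict S R M pb x r hAF
  -- the fibre
  let X : Submodule R M := LinearMap.range (LinearMap.lsmul R M (algebraMap S R x))
  let N := M ⧸ X
  let πR : M →ₗ[R] N := X.mkQ
  have hπs : Function.Surjective πR := X.mkQ_surjective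
  have hkR : ∀ m : M, πR m = 0 ↔ ∃ w : M, m = algebraMap S R x • w := by
    intro m
    rw [show πR m = 0 ↔ m ∈ X from Submodule.Quotient.mk_eq_zero X]
    constructor
    · rintro ⟨w, hw⟩; exact ⟨w, hw.symm⟩
    · rintro ⟨w, hw⟩; exact ⟨w, hw.symm⟩
  let πS : M →ₗ[S] N := πR.restrictScalars S
  have hkS : ∀ m : M, πS m = 0 ↔ ∃ w : M, m = x • w := by
    intro m
    rw [show πS m = 0 ↔ πR m = 0 from Iff.rfl, hkR]
    simp only [algebraMap_smul]
  -- quotient R / x as an S-module
  have hRx : Module.Finite k (R ⧸ Ideal.span {algebraMap S R x}) ∧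
      finrank k (R ⧸ Ideal.span {algebraMap S R x}) =
        pb.dim * finrank k (S ⧸ Ideal.span {x}) := by
    have hd := dims k S R (R ⧸ Ideal.span {algebraMap S R x}) x
      (fun s hs => (mul_eq_zero.mp hs).resolve_left hx0)
      (fun m hm => by
        rw [Algebra.smul_def] at hm
        exact (mul_eq_zero.mp hm).resolve_left hxR0) pb.dim
      (AF_free S R x pb.dim pb.basis)
      ((Ideal.Quotient.mkₐ S (Ideal.span {algebraMap S R x})).toLinearMap)
      (Ideal.Quotient.mk_surjective)
      (fun m => by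
        rw [show ((Ideal.Quotient.mkₐ S (Ideal.span {algebraMap S R x})).toLinearMap m = 0) ↔
          m ∈ Ideal.span {algebraMap S R x} from Ideal.Quotient.eq_zero_iff_mem,
          Ideal.mem_span_singleton']
        constructor
        · rintro ⟨w, hw⟩; exact ⟨w, by rw [Algebra.smul_def, mul_comm, hw]⟩
        · rintro ⟨w, hw⟩; exact ⟨w, by rw [hw, Algebra.smul_def, mul_comm]⟩)
    exact ⟨hd.1, hd.2.1⟩
  have := hRx.1
  have hdR := dims k R M N (algebraMap S R x)
    (fun s hs => (mul_eq_zero.mp hs).resolve_left hxR0)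
    (fun m hm => (smul_eq_zero.mp hm).resolve_left hxR0) r hAF πR hπs hkR
  have hdS := dims k S M N x
    (fun s hs => (mul_eq_zero.mp hs).resolve_left hx0)
    (fun m hm => (hTFS x m hm).resolve_left hx0) (pb.dim * r) hAFS πS hπs hkS
  have : Module.Finite k N := hdR.1
  have h1 : finrank k (Module.End R N) = r ^ 2 * (pb.dim * finrank k (S ⧸ Ideal.span {x})) := by
    rw [hdR.2.2.2.mp hLR, hRx.2]
  have hxN : ∀ v : N, x • v = 0 := by
    intro v
    obtain ⟨m, rfl⟩ := hπs v
    rw [← algebraMap_smul R x (πR m), ← map_smul]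
    exact (hkR _).mpr ⟨m, rfl⟩
  obtain ⟨hE1, hE2⟩ := hE N hxN
  rw [finrank_commutant k S R N pb] at hE1 hE2
  have h2 : finrank k (Module.End S N) = (pb.dim * r) ^ 2 * finrank k (S ⧸ Ideal.span {x}) := by
    apply le_antisymm _ hdS.2.2.1
    refine hE1.trans (le_of_eq ?_)
    rw [h1]; ring
  have hLS : Lift S M x := hdS.2.2.2.mpr h2
  obtain ⟨θ, hθ⟩ := hE2 (by rw [h1, h2]; ring)
  have hreflS := reflexive_of_lift S hS M hTFS x hx hx0 hLS
  have : NoZeroSMulDivisors S M := ⟨fun {s m} h0 => hTFS s m h0⟩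
  have : Module.Free S M := h M hreflS
  obtain ⟨θ', hθ'⟩ := hLS N πS hπs hkS (θ ∘ₗ πS)
  refine relProj S R M pb hy θ' ?_
  intro m
  have hz : πS ((∑ i ∈ Finset.range pb.dim, pb.gen ^ (pb.dim - 1 - i) • θ' (pb.gen ^ i • m)) - m)
      = 0 := by
    have e := congrArg (fun f : Module.End S N => f (πS m)) hθ
    have e1 : ∀ (i : ℕ) (v : N), ((Algebra.lsmul S S N pb.gen) ^ i) v = pb.gen ^ i • v := by
      intro i v
      rw [← map_pow]; rfl
    simp only [LinearMap.sum_apply, Module.End.mul_apply, e1, Module.End.one_apply] at e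
    rw [map_sub, map_sum, sub_eq_zero]
    refine Eq.trans (Finset.sum_congr rfl fun i _ => ?_) e
    have e2 : πS (θ' (pb.gen ^ i • m)) = θ (pb.gen ^ i • πS m) := by
      rw [hθ']
      simp only [LinearMap.comp_apply]
      congr 1
    rw [← e2]
    exact map_smul πR _ _
  obtain ⟨w, hw⟩ := (hkS _).mp hz
  rw [hw]
  exact Submodule.smul_mem_smul hx trivial

theorem tight_step (k B B' : Type) [Field k] [CommRing B] [IsLocalRing B] [CommRing B']
    [Algebra k B] [Module.Finite k B] [Algebra B B'] [Algebra k B'] [IsScalarTower k B B']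
    (pb : PowerBasis B B') (h0 : pb.gen ^ pb.dim = 0) (hn : 0 < pb.dim) (ht : Tight k B) :
    Tight k B' := by
  have : Nontrivial B' := by
    by_contra hh
    rw [not_nontrivial_iff_subsingleton] at hh
    have h1 : (pb.basis ⟨0, hn⟩ : B') = 0 := Subsingleton.elim _ _
    exact pb.basis.ne_zero ⟨0, hn⟩ h1
  obtain ⟨hloc, -, -⟩ := local_of B B' pb (by rw [h0]; exact Ideal.zero_mem _)
  intro N _ _ _ _ _
  let _ : Module B N := Module.compHom N (algebraMap B B')
  have : IsScalarTower B B' N := ⟨fun s r m => by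
    rw [Algebra.smul_def, mul_smul]; rfl⟩
  have : IsScalarTower k B N := ⟨fun c s m => by
    rw [← algebraMap_smul B' (c • s) m, ← algebraMap_smul B' s m, ← smul_assoc,
      Algebra.smul_def c (algebraMap B B' s), Algebra.smul_def c s, map_mul,
      IsScalarTower.algebraMap_apply k B B']⟩
  have hd : finrank k B' = pb.dim * finrank k B := by
    have : Module.Free B B' := Module.Free.of_basis pb.basis
    rw [← Module.finrank_mul_finrank k B B', pb.finrank, mul_comm]
  obtain ⟨ht1, ht2⟩ := ht N
  have hfin : Module.Finite k (Module.End B N) := by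
    have : Module.Finite k (Module.End k N) := inferInstance
    exact Module.Finite.of_injective (⟨⟨fun f => f.restrictScalars k, fun _ _ => rfl⟩,
      fun _ _ => rfl⟩ : Module.End B N →ₗ[k] Module.End k N)
      (fun f g hfg => LinearMap.ext fun v => LinearMap.congr_fun hfg v)
  have hyE : (Algebra.lsmul B B N pb.gen) ^ pb.dim = 0 := by
    rw [← map_pow, h0, map_zero]
  obtain ⟨hE1, hE2⟩ := alg_main (k := k) (Algebra.lsmul B B N pb.gen) pb.dim hn hyE
  rw [finrank_commutant k B B' N pb] at hE1 hE2
  have hBpos : 0 < finrank k B := Module.finrank_pos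
  refine ⟨?_, ?_⟩
  · calc (finrank k N) ^ 2 ≤ finrank k B * finrank k (Module.End B N) := ht1
      _ ≤ finrank k B * (pb.dim * finrank k (Module.End B' N)) := Nat.mul_le_mul_left _ hE1
      _ = finrank k B' * finrank k (Module.End B' N) := by rw [hd]; ring
  · intro heq
    rw [hd] at heq
    have e1 : finrank k B * (pb.dim * finrank k (Module.End B' N)) ≤
        finrank k B * finrank k (Module.End B N) := by
      calc _ = (finrank k N) ^ 2 := by rw [heq]; ring
        _ ≤ _ := ht1
    have e2 : finrank k (Module.End B N) = pb.dim * finrank k (Module.End B' N) :=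
      le_antisymm hE1 (Nat.le_of_mul_le_mul_left e1 hBpos)
    obtain ⟨θ, hθ⟩ := hE2 e2
    have : Module.Free B N := ht2 (by rw [heq, e2]; ring)
    have : Module.Finite B N := Module.Finite.of_restrictScalars_finite k B N
    refine relProj B B' N pb ⟨0, by rw [h0, map_zero, sub_zero]; exact Ideal.zero_mem _⟩ θ ?_
    intro m
    have e := congrArg (fun f : Module.End B N => f m) hθ
    have e1 : ∀ (i : ℕ) (v : N), ((Algebra.lsmul B B N pb.gen) ^ i) v = pb.gen ^ i • v := by
      intro i v
      rw [← map_pow]; rfl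
    simp only [LinearMap.sum_apply, Module.End.mul_apply, e1, Module.End.one_apply] at e
    rw [e, sub_self]
    exact Submodule.zero_mem _

/-- the fibre criterion. -/
theorem fibre (k R : Type) [Field k] [CommRing R] [IsDomain R] [IsLocalRing R]
    [IsNoetherianRing R] [Algebra k R] (hR : Pkg R) (x : R) (hx : x ∈ maximalIdeal R)
    (hx0 : x ≠ 0) [Module.Finite k (R ⧸ Ideal.span {x})] (ht : Tight k (R ⧸ Ideal.span {x})) :
    HWC R := by
  intro M _ _ _ _ hrefl
  let _ : Module k M := Module.compHom M (algebraMap k R)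
  have : IsScalarTower k R M := ⟨fun s r m => by
    rw [Algebra.smul_def, mul_smul]; rfl⟩
  have hTF : TF R M := fun s m h0 => smul_eq_zero.mp h0
  have hLR : Lift R M x := lift_of_reflexive R hR M hTF hrefl _ hx0
  obtain ⟨r, hAF⟩ := exists_AF R hR M hTF _ hx hx0
  let X : Submodule R M := Ideal.span {x} • ⊤
  have hkR : ∀ m : M, X.mkQ m = 0 ↔ ∃ w : M, m = x • w := by
    intro m
    rw [show X.mkQ m = 0 ↔ m ∈ (Ideal.span {x} • ⊤ : Submodule R M) from
      Submodule.Quotient.mk_eq_zero X,
      Submodule.ideal_span_singleton_smul, Submodule.mem_smul_pointwise_iff_exists]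
    constructor
    · rintro ⟨w, -, hw⟩; exact ⟨w, hw.symm⟩
    · rintro ⟨w, hw⟩; exact ⟨w, trivial, hw.symm⟩
  have hdR := dims k R M (M ⧸ X) x
    (fun s hs => (mul_eq_zero.mp hs).resolve_left hx0)
    (fun m hm => (smul_eq_zero.mp hm).resolve_left hx0) r hAF X.mkQ X.mkQ_surjective hkR
  have : Module.Finite k (M ⧸ X) := hdR.1
  refine free_of_quot k R M x hx hx0 r hAF hdR.2.1 ?_
  have : IsScalarTower k (R ⧸ Ideal.span {x}) (M ⧸ X) := by
    refine ⟨fun c a v => ?_⟩
    obtain ⟨a, rfl⟩ := Ideal.Quotient.mk_surjective a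
    obtain ⟨m, rfl⟩ := X.mkQ_surjective v
    exact congrArg X.mkQ (smul_assoc c a m)
  have e : finrank k (Module.End (R ⧸ Ideal.span {x}) (M ⧸ X)) =
      finrank k (Module.End R (M ⧸ X)) := by
    refine LinearEquiv.finrank_eq (LinearEquiv.ofBijective (⟨⟨fun f => f.restrictScalars R,
      fun _ _ => rfl⟩, fun _ _ => rfl⟩ :
        Module.End (R ⧸ Ideal.span {x}) (M ⧸ X) →ₗ[k] Module.End R (M ⧸ X)) ⟨?_, ?_⟩)
    · intro f g hfg
      exact LinearMap.ext fun v => LinearMap.congr_fun hfg v
    · intro f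
      refine ⟨⟨⟨f, f.map_add⟩, ?_⟩, rfl⟩
      intro a v
      obtain ⟨a, rfl⟩ := Ideal.Quotient.mk_surjective a
      exact f.map_smul a v
  refine (ht (M ⧸ X)).2 ?_
  rw [e, hdR.2.1, hdR.2.2.2.mp hLR]
  ring

/-- closure of the one-dimensional Gorenstein local domains with (HWC) under `S ⊂ S[y]`. -/
theorem closure (k S R : Type) [Field k] [CommRing S] [IsDomain S] [IsLocalRing S]
    [IsNoetherianRing S] [Algebra k S] [Module.Finite k (ResidueField S)]
    [CommRing R] [IsDomain R] [Algebra S R] [Algebra k R] [IsScalarTower k S R]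
    (pb : PowerBasis S R) (hS : GorOne S)
    (hy : (∃ x ∈ maximalIdeal S, x ≠ 0 ∧ pb.gen ^ pb.dim ∈ Ideal.span {algebraMap S R x}) ∨
      (∃ p a : ℕ, p.Prime ∧ CharP k p ∧ pb.dim = p ^ a ∧
        ∃ b : S, pb.gen ^ pb.dim = algebraMap S R b)) :
    ∃ _ : IsLocalRing R, IsNoetherianRing R ∧ GorOne R ∧ Module.Finite k (ResidueField R) ∧
      (HWC S → HWC R) := by
  have hPS : Pkg S := pkg_of_gorOne S hS
  have hn : 0 < pb.dim := pb.dim_pos
  have : Module.Finite S R := pb.finite
  have : Module.Free S R := Module.Free.of_basis pb.basis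
  have hinj : Function.Injective (algebraMap S R) := FaithfulSMul.algebraMap_injective S R
  have hNR : IsNoetherianRing R := IsNoetherianRing.of_finite S R
  rcases hy with ⟨x, hx, hx0, hy⟩ | ⟨p, a, hp, hchar, hd, b, hb⟩
  · have hxm : Ideal.span {algebraMap S R x} ≤ (maximalIdeal S).map (algebraMap S R) := by
      rw [Ideal.span_le, Set.singleton_subset_iff]
      exact Ideal.mem_map_of_mem _ hx
    obtain ⟨hloc, -, hm⟩ := local_of S R pb (hxm hy)
    have hG : GorOne R := gorOne_step S R pb hm hS
    have hPR : Pkg R := pkg_of_gorOne R hG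
    refine ⟨hloc, hNR, hG, resfin k S R pb hm, fun hH => ?_⟩
    have hfx : Module.Finite k (S ⧸ Ideal.span {x}) := finite_quot k S hPS x hx0
    refine closure_core k S R hPS hPR pb x hx hx0 (hm x hx)
      (fun h0 => hx0 ((map_eq_zero_iff _ hinj).mp h0)) hinj
      ⟨0, by rw [map_zero, sub_zero]; exact hxm hy⟩ ?_ hH
    intro N _ _ _ _ _ _ _ _ hxN
    have hyE : (Algebra.lsmul S S N pb.gen) ^ pb.dim = 0 := by
      rw [← map_pow]
      obtain ⟨r, hr⟩ := Ideal.mem_span_singleton'.mp hy
      refine LinearMap.ext fun v => ?_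
      change pb.gen ^ pb.dim • v = 0
      rw [← hr, mul_smul, algebraMap_smul, hxN, smul_zero]
    have hfin : Module.Finite k (Module.End S N) := by
      have : Module.Finite k (Module.End k N) := inferInstance
      exact Module.Finite.of_injective (⟨⟨fun f => f.restrictScalars k, fun _ _ => rfl⟩,
        fun _ _ => rfl⟩ : Module.End S N →ₗ[k] Module.End k N)
        (fun f g hfg => LinearMap.ext fun v => LinearMap.congr_fun hfg v)
    exact alg_main (k := k) (Algebra.lsmul S S N pb.gen) pb.dim hn hyE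
  · have : Fact p.Prime := ⟨hp⟩
    have hcS : CharP S p := charP_of_injective_algebraMap (algebraMap k S).injective p
    obtain ⟨hloc, hm⟩ := local_p p a S R pb hd ⟨b, hb⟩
    have hG : GorOne R := gorOne_step S R pb hm hS
    have hPR : Pkg R := pkg_of_gorOne R hG
    refine ⟨hloc, hNR, hG, resfin k S R pb hm, fun hH => ?_⟩
    obtain ⟨x, hx, hx0, -⟩ := hPS.gor
    have hfx : Module.Finite k (S ⧸ Ideal.span {x}) := finite_quot k S hPS x hx0
    refine closure_core k S R hPS hPR pb x hx hx0 (hm x hx)
      (fun h0 => hx0 ((map_eq_zero_iff _ hinj).mp h0)) hinj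
      ⟨b, by rw [hb, sub_self]; exact Ideal.zero_mem _⟩ ?_ hH
    intro N _ _ _ _ _ _ _ _ hxN
    have hyE : ∀ e : Module.End S N, (Algebra.lsmul S S N pb.gen) ^ (p ^ a) * e =
        e * (Algebra.lsmul S S N pb.gen) ^ (p ^ a) := by
      intro e
      rw [← hd, ← map_pow, hb]
      refine LinearMap.ext fun v => ?_
      change algebraMap S R b • e v = e (algebraMap S R b • v)
      rw [algebraMap_smul, algebraMap_smul, map_smul]
    have hfin : Module.Finite k (Module.End S N) := by
      have : Module.Finite k (Module.End k N) := inferInstance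
      exact Module.Finite.of_injective (⟨⟨fun f => f.restrictScalars k, fun _ _ => rfl⟩,
        fun _ _ => rfl⟩ : Module.End S N →ₗ[k] Module.End k N)
        (fun f g hfg => LinearMap.ext fun v => LinearMap.congr_fun hfg v)
    have hA := alg_p (k := k) p a (Algebra.lsmul S S N pb.gen) hyE
    rw [← hd] at hA
    exact hA

end Pool.Agent.HWC
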