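import Pool.Agent.HWC.KeyL
import Pool.Agent.HWC.KeyPL
import Pool.Agent.HWC.PkgOf
import Pool.Agent.HWC.LiftRefl
import Pool.Agent.HWC.ReflLift
import Pool.Agent.HWC.ExistsAF
import Pool.Agent.HWC.DimsL
import Pool.Agent.HWC.CommutL
import Pool.Agent.HWC.Commut
import Pool.Agent.HWC.FreeQuotL
import Pool.Agent.HWC.RelProj
import Pool.Agent.HWC.LocalOf
import Pool.Agent.HWC.LocalPL
import Pool.Agent.HWC.GorStep

/-! Assembly, version with lengths (no ground field): (HWC) passes to radical extensions. -/

set_option autoImplicit false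

namespace Pool.Agent.HWC

open IsLocalRing Module

theorem AF_freeL (S M : Type) [CommRing S] [AddCommGroup M] [Module S M]
    (x : S) (n : ℕ) (b : Module.Basis (Fin n) S M) : AF S M x n :=
  ⟨0, b.equivFun.symm.toLinearMap, b.equivFun.toLinearMap,
    fun m => by rw [pow_zero, one_smul]; exact b.equivFun.symm_apply_apply m,
    fun v => by rw [pow_zero, one_smul]; exact b.equivFun.apply_symm_apply v⟩

theorem closure_coreL (S R : Type) [CommRing S] [IsDomain S] [IsLocalRing S]
    [IsNoetherianRing S] [CommRing R] [IsDomain R] [IsLocalRing R] [IsNoetherianRing R]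
    [Algebra S R]
    (hS : Pkg S) (hR : Pkg R) (pb : PowerBasis S R) (x : S)
    (hx : x ∈ maximalIdeal S) (hx0 : x ≠ 0)
    (hxR : algebraMap S R x ∈ maximalIdeal R) (hxR0 : algebraMap S R x ≠ 0)
    (hinj : Function.Injective (algebraMap S R))
    (hy : ∃ s : S, pb.gen ^ pb.dim - algebraMap S R s ∈
      (maximalIdeal S).map (algebraMap S R))
    (hE : ∀ (N : Type) [AddCommGroup N] [Module S N] [Module R N]
      [IsScalarTower S R N], Module.length S (Module.End S N) ≠ ⊤ →
      (∀ v : N, x • v = 0) →
      Module.length S (Module.End S N) ≤ pb.dim *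
        Module.length S (cenL S (Algebra.lsmul S S N pb.gen)) ∧
      (Module.length S (Module.End S N) = pb.dim *
        Module.length S (cenL S (Algebra.lsmul S S N pb.gen)) →
        ∃ θ : Module.End S N, ∑ i ∈ Finset.range pb.dim,
          (Algebra.lsmul S S N pb.gen) ^ (pb.dim - 1 - i) * θ *
            (Algebra.lsmul S S N pb.gen) ^ i = 1))
    (h : HWC S) : HWC R := by
  intro M _ _ _ _ hrefl
  let _ : Module S M := Module.compHom M (algebraMap S R)
  have : IsScalarTower S R M := ⟨fun s r m => by
    rw [Algebra.smul_def, mul_smul]; rfl⟩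
  have : Module.Finite S R := pb.finite
  have : Module.Finite S M := Module.Finite.trans R M
  have hTF : TF R M := fun s m h0 => smul_eq_zero.mp h0
  have hTFS : TF S M := fun s m h0 => by
    rw [← algebraMap_smul R s m] at h0
    rcases smul_eq_zero.mp h0 with h1 | h1
    · left; exact (map_eq_zero_iff _ hinj).mp h1
    · right; exact h1
  have hLR : Lift R M (algebraMap S R x) := lift_of_reflexive R hR M hTF hrefl _ hxR0
  obtain ⟨r, hAF⟩ := exists_AF R hR M hTF _ hxR hxR0
  have hAFS : AF S M x (pb.dim * r) := AF_restrict S R M pb x r hAF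
  -- the fibre
  let X : Submodule R M := LinearMap.range (LinearMap.lsmul R M (algebraMap S R x))
  let N := M ⧸ X
  let πR : M →ₗ[R] N := X.mkQ
  have hπs : Function.Surjective πR := X.mkQ_surjective
  have hkR : ∀ m : M, πR m = 0 ↔ ∃ w : M, m = algebraMap S R x • w := by
    intro m
    rw [show πR m = 0 ↔ m ∈ X from Submodule.Quotient.mk_eq_zero X]
    constructor
    · rintro ⟨w, hw⟩; exact ⟨w, hw.symm⟩
    · rintro ⟨w, hw⟩; exact ⟨w, hw.symm⟩
  let πS : M →ₗ[S] N := πR.restrictScalars S
  have hkS : ∀ m : M, πS m = 0 ↔ ∃ w : M, m = x • w := by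
    intro m
    rw [show πS m = 0 ↔ πR m = 0 from Iff.rfl, hkR]
    simp only [algebraMap_smul]
  have hSx : Module.length S (S ⧸ Ideal.span {x}) ≠ ⊤ := finLen S hS x hx0
  -- quotient R / x as an S-module
  have hRx : Module.length S (R ⧸ Ideal.span {algebraMap S R x}) =
        pb.dim * Module.length S (S ⧸ Ideal.span {x}) := by
    have hd := dimsL S S R (R ⧸ Ideal.span {algebraMap S R x}) x hSx
      (fun s hs => (mul_eq_zero.mp hs).resolve_left hx0)
      (fun m hm => by
        rw [Algebra.smul_def] at hm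
        exact (mul_eq_zero.mp hm).resolve_left hxR0) pb.dim
      (AF_freeL S R x pb.dim pb.basis)
      ((Ideal.Quotient.mkₐ S (Ideal.span {algebraMap S R x})).toLinearMap)
      (Ideal.Quotient.mk_surjective)
      (fun m => by
        rw [show ((Ideal.Quotient.mkₐ S (Ideal.span {algebraMap S R x})).toLinearMap m = 0) ↔
          m ∈ Ideal.span {algebraMap S R x} from Ideal.Quotient.eq_zero_iff_mem,
          Ideal.mem_span_singleton']
        constructor
        · rintro ⟨w, hw⟩; exact ⟨w, by rw [Algebra.smul_def, mul_comm, hw]⟩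
        · rintro ⟨w, hw⟩; exact ⟨w, by rw [hw, Algebra.smul_def, mul_comm]⟩)
    exact hd.1
  have hRx2 : Module.length S (R ⧸ Ideal.span {algebraMap S R x}) ≠ ⊤ := by
    rw [hRx]; exact WithTop.mul_ne_top (ENat.coe_ne_top _) hSx
  have hdR := dimsL S R M N (algebraMap S R x) hRx2
    (fun s hs => (mul_eq_zero.mp hs).resolve_left hxR0)
    (fun m hm => (smul_eq_zero.mp hm).resolve_left hxR0) r hAF πR hπs hkR
  have hdS := dimsL S S M N x hSx
    (fun s hs => (mul_eq_zero.mp hs).resolve_left hx0)
    (fun m hm => (hTFS x m hm).resolve_left hx0) (pb.dim * r) hAFS πS hπs hkS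
  have h1 : Module.length S (Module.End R N) =
      (r : ℕ∞) ^ 2 * (pb.dim * Module.length S (S ⧸ Ideal.span {x})) := by
    rw [hdR.2.2.2.mp hLR, hRx]
  have hxN : ∀ v : N, x • v = 0 := by
    intro v
    obtain ⟨m, rfl⟩ := hπs v
    rw [← algebraMap_smul R x (πR m), ← map_smul]
    exact (hkR _).mpr ⟨m, rfl⟩
  obtain ⟨hE1, hE2⟩ := hE N hdS.2.1 hxN
  rw [length_commutant S S R N pb] at hE1 hE2
  have h2 : Module.length S (Module.End S N) =
      ((pb.dim * r : ℕ) : ℕ∞) ^ 2 * Module.length S (S ⧸ Ideal.span {x}) := by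
    apply le_antisymm _ hdS.2.2.1
    refine hE1.trans (le_of_eq ?_)
    rw [h1]; push_cast; ring
  have hLS : Lift S M x := hdS.2.2.2.mpr h2
  obtain ⟨θ, hθ⟩ := hE2 (by rw [h1, h2]; push_cast; ring)
  have hreflS := reflexive_of_lift S hS M hTFS x hx hx0 hLS
  have : NoZeroSMulDivisors S M := ⟨fun {s m} h0 => hTFS s m h0⟩
  have : Module.Free S M := h M hreflS
  obtain ⟨θ', hθ'⟩ := hLS N πS hπs hkS (θ ∘ₗ πS)
  refine relProj S R M pb hy θ' ?_
  intro m
  have hz : πS ((∑ i ∈ Finset.range pb.dim, pb.gen ^ (pb.dim - 1 - i) • θ' (pb.gen ^ i • m)) - m)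
      = 0 := by
    have e := congrArg (fun f : Module.End S N => f (πS m)) hθ
    have e1 : ∀ (i : ℕ) (v : N), ((Algebra.lsmul S S N pb.gen) ^ i) v = pb.gen ^ i • v := by
      intro i v
      rw [← map_pow]; rfl
    simp only [LinearMap.sum_apply, Module.End.mul_apply, e1, Module.End.one_apply] at e
    rw [map_sub, map_sum, sub_eq_zero]
    refine Eq.trans (Finset.sum_congr rfl fun i _ => ?_) e
    have e2 : πS (θ' (pb.gen ^ i • m)) = θ (pb.gen ^ i • πS m) := by
      rw [hθ']
      simp only [LinearMap.comp_apply]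
      congr 1
    rw [← e2]
    exact map_smul πR _ _
  obtain ⟨w, hw⟩ := (hkS _).mp hz
  rw [hw]
  exact Submodule.smul_mem_smul hx trivial

/-- closure of the one-dimensional Gorenstein local domains with (HWC) under `S ⊂ S[y]`. -/
theorem closureL (S R : Type) [CommRing S] [IsDomain S] [IsLocalRing S]
    [IsNoetherianRing S] [CommRing R] [IsDomain R] [Algebra S R]
    (pb : PowerBasis S R) (hS : GorOne S) (x : S) (hx : x ∈ maximalIdeal S) (hx0 : x ≠ 0)
    (hy : pb.gen ^ pb.dim ∈ Ideal.span {algebraMap S R x} ∨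
      (∃ p a : ℕ, p.Prime ∧ (p : S) ∈ Ideal.span {x} ∧ pb.dim = p ^ a ∧
        ∃ b : S, pb.gen ^ pb.dim - algebraMap S R b ∈ Ideal.span {algebraMap S R x})) :
    ∃ _ : IsLocalRing R, IsNoetherianRing R ∧ GorOne R ∧ (HWC S → HWC R) := by
  have hPS : Pkg S := pkg_of_gorOne S hS
  have hn : 0 < pb.dim := pb.dim_pos
  have : Module.Finite S R := pb.finite
  have : Module.Free S R := Module.Free.of_basis pb.basis
  have hinj : Function.Injective (algebraMap S R) := FaithfulSMul.algebraMap_injective S R
  have hNR : IsNoetherianRing R := IsNoetherianRing.of_finite S R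
  have hxm : Ideal.span {algebraMap S R x} ≤ (maximalIdeal S).map (algebraMap S R) := by
    rw [Ideal.span_le, Set.singleton_subset_iff]
    exact Ideal.mem_map_of_mem _ hx
  rcases hy with hy | ⟨p, a, hp, hpx, hd, b, hb⟩
  · obtain ⟨hloc, -, hm⟩ := local_of S R pb (hxm hy)
    have hG : GorOne R := gorOne_step S R pb hm hS
    have hPR : Pkg R := pkg_of_gorOne R hG
    refine ⟨hloc, hNR, hG, fun hH => ?_⟩
    refine closure_coreL S R hPS hPR pb x hx hx0 (hm x hx)
      (fun h0 => hx0 ((map_eq_zero_iff _ hinj).mp h0)) hinj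
      ⟨0, by rw [map_zero, sub_zero]; exact hxm hy⟩ ?_ hH
    intro N _ _ _ _ hfin hxN
    have hyE : (Algebra.lsmul S S N pb.gen) ^ pb.dim = 0 := by
      rw [← map_pow]
      obtain ⟨r, hr⟩ := Ideal.mem_span_singleton'.mp hy
      refine LinearMap.ext fun v => ?_
      change pb.gen ^ pb.dim • v = 0
      rw [← hr, mul_smul, algebraMap_smul, hxN, smul_zero]
    exact keyL hfin (Algebra.lsmul S S N pb.gen) pb.dim hn hyE
  · have : Fact p.Prime := ⟨hp⟩
    have hpm : (p : S) ∈ maximalIdeal S := by
      have h1 : Ideal.span {x} ≤ maximalIdeal S := by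
        rw [Ideal.span_le, Set.singleton_subset_iff]; exact hx
      exact h1 hpx
    obtain ⟨hloc, hm⟩ := local_pL p a S R hpm pb hd ⟨b, hxm hb⟩
    have hG : GorOne R := gorOne_step S R pb hm hS
    have hPR : Pkg R := pkg_of_gorOne R hG
    refine ⟨hloc, hNR, hG, fun hH => ?_⟩
    refine closure_coreL S R hPS hPR pb x hx hx0 (hm x hx)
      (fun h0 => hx0 ((map_eq_zero_iff _ hinj).mp h0)) hinj
      ⟨b, hxm hb⟩ ?_ hH
    intro N _ _ _ _ hfin hxN
    have hpE : ((p : ℕ) : Module.End S N) = 0 := by
      obtain ⟨c, hc⟩ := Ideal.mem_span_singleton'.mp hpx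
      refine LinearMap.ext fun v => ?_
      have : ((p : ℕ) : Module.End S N) v = (p : S) • v := by
        rw [Module.End.natCast_apply, Nat.cast_smul_eq_nsmul]
      rw [this, ← hc, mul_smul, hxN, smul_zero]
      rfl
    have hyE : ∀ e : Module.End S N, (Algebra.lsmul S S N pb.gen) ^ (p ^ a) * e =
        e * (Algebra.lsmul S S N pb.gen) ^ (p ^ a) := by
      intro e
      obtain ⟨r, hr⟩ := Ideal.mem_span_singleton'.mp hb
      have hb2 : pb.gen ^ pb.dim = algebraMap S R b + r * algebraMap S R x := by
        rw [hr]; ring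
      have hact : ∀ v : N, pb.gen ^ pb.dim • v = b • v := by
        intro v
        rw [hb2, add_smul, mul_smul, algebraMap_smul, algebraMap_smul, hxN, smul_zero, add_zero]
      rw [← hd, ← map_pow]
      refine LinearMap.ext fun v => ?_
      change pb.gen ^ pb.dim • e v = e (pb.gen ^ pb.dim • v)
      rw [hact, hact, map_smul]
    have hA := keyPL hfin p a hpE (Algebra.lsmul S S N pb.gen) hyE
    rw [← hd] at hA
    exact hA

/-- the fibre criterion. -/
theorem fibreL (R : Type) [CommRing R] [IsDomain R] [IsLocalRing R]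
    [IsNoetherianRing R] (hR : Pkg R) (x : R) (hx : x ∈ maximalIdeal R)
    (hx0 : x ≠ 0) (ht : TightL (R ⧸ Ideal.span {x})) : HWC R := by
  intro M _ _ _ _ hrefl
  have hTF : TF R M := fun s m h0 => smul_eq_zero.mp h0
  have hLR : Lift R M x := lift_of_reflexive R hR M hTF hrefl _ hx0
  obtain ⟨r, hAF⟩ := exists_AF R hR M hTF _ hx hx0
  let X : Submodule R M := Ideal.span {x} • ⊤
  have hkR : ∀ m : M, X.mkQ m = 0 ↔ ∃ w : M, m = x • w := by
    intro m
    rw [show X.mkQ m = 0 ↔ m ∈ (Ideal.span {x} • ⊤ : Submodule R M) from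
      Submodule.Quotient.mk_eq_zero X,
      Submodule.ideal_span_singleton_smul, Submodule.mem_smul_pointwise_iff_exists]
    constructor
    · rintro ⟨w, -, hw⟩; exact ⟨w, hw.symm⟩
    · rintro ⟨w, hw⟩; exact ⟨w, trivial, hw.symm⟩
  have hfin := finLen R hR x hx0
  have hdR := dimsL R R M (M ⧸ X) x hfin
    (fun s hs => (mul_eq_zero.mp hs).resolve_left hx0)
    (fun m hm => (smul_eq_zero.mp hm).resolve_left hx0) r hAF X.mkQ X.mkQ_surjective hkR
  refine free_of_quotL R M x hx hx0 r hAF hfin hdR.1 ?_
  have hs : Function.Surjective (algebraMap R (R ⧸ Ideal.span {x})) :=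
    Ideal.Quotient.mk_surjective
  have l1 : Module.length (R ⧸ Ideal.span {x}) (M ⧸ X) = Module.length R (M ⧸ X) :=
    (Module.length_eq_of_surjective hs).symm
  have l2 : Module.length (R ⧸ Ideal.span {x}) (R ⧸ Ideal.span {x}) =
      Module.length R (R ⧸ Ideal.span {x}) :=
    (Module.length_eq_of_surjective hs).symm
  have l3 : Module.length (R ⧸ Ideal.span {x}) (Module.End (R ⧸ Ideal.span {x}) (M ⧸ X)) =
      Module.length R (Module.End (R ⧸ Ideal.span {x}) (M ⧸ X)) :=
    (Module.length_eq_of_surjective hs).symm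
  have e : Module.length R (Module.End (R ⧸ Ideal.span {x}) (M ⧸ X)) =
      Module.length R (Module.End R (M ⧸ X)) := by
    refine LinearEquiv.length_eq (LinearEquiv.ofBijective (⟨⟨fun f => f.restrictScalars R,
      fun _ _ => rfl⟩, fun _ _ => rfl⟩ :
        Module.End (R ⧸ Ideal.span {x}) (M ⧸ X) →ₗ[R] Module.End R (M ⧸ X)) ⟨?_, ?_⟩)
    · intro f g hfg
      exact LinearMap.ext fun v => LinearMap.congr_fun hfg v
    · intro f
      refine ⟨⟨⟨f, f.map_add⟩, ?_⟩, rfl⟩
      intro a v
      obtain ⟨a, rfl⟩ := Ideal.Quotient.mk_surjective a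
      exact f.map_smul a v
  have : Module.Finite (R ⧸ Ideal.span {x}) (M ⧸ X) :=
    Module.Finite.of_restrictScalars_finite R _ _
  refine (ht (M ⧸ X)).2 ?_
  rw [l1, l2, l3, e, hdR.1, hdR.2.2.2.mp hLR]
  ring

theorem tight_fieldL (K : Type) [Field K] : TightL K := by
  intro N _ _ _
  have hfin : Module.Finite K (Module.End K N) := inferInstance
  rw [Module.length_eq_finrank, Module.length_eq_finrank, Module.length_eq_finrank,
    Module.finrank_self, Module.finrank_linearMap]
  refine ⟨le_of_eq (by push_cast; ring), fun _ => inferInstance⟩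

theorem tight_stepL (B B' : Type) [CommRing B] [IsLocalRing B] [IsArtinianRing B] [CommRing B']
    [Algebra B B'] (pb : PowerBasis B B') (h0 : pb.gen ^ pb.dim = 0) (hn : 0 < pb.dim)
    (ht : TightL B) : TightL B' := by
  have : Nontrivial B' := by
    by_contra hh
    rw [not_nontrivial_iff_subsingleton] at hh
    have h1 : (pb.basis ⟨0, hn⟩ : B') = 0 := Subsingleton.elim _ _
    exact pb.basis.ne_zero ⟨0, hn⟩ h1
  obtain ⟨hloc, -, -⟩ := local_of B B' pb (by rw [h0]; exact Ideal.zero_mem _)
  have : Module.Finite B B' := pb.finite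
  have : Module.Free B B' := Module.Free.of_basis pb.basis
  have hB : Module.length B B ≠ ⊤ := Module.length_ne_top
  have : IsArtinianRing B' := IsArtinianRing.of_finite B B'
  intro N _ _ _
  let _ : Module B N := Module.compHom N (algebraMap B B')
  have : IsScalarTower B B' N := ⟨fun s r m => by
    rw [Algebra.smul_def, mul_smul]; rfl⟩
  have : Module.Finite B N := Module.Finite.trans B' N
  have hd : Module.length B B' = pb.dim * Module.length B B := by
    rw [Module.length_of_free_of_finite, pb.finrank]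
  have hfE : Module.Finite B (Module.End B N) := inferInstance
  have hE : Module.length B (Module.End B N) ≠ ⊤ := Module.length_ne_top
  have hfE' : Module.Finite B' (Module.End B' N) := inferInstance
  have hE' : Module.length B' (Module.End B' N) ≠ ⊤ := Module.length_ne_top
  have hN' : Module.length B' N ≠ ⊤ := Module.length_ne_top
  have hB' : Module.length B' B' ≠ ⊤ := Module.length_ne_top
  set δ := Module.length B (ResidueField B') with hδ
  have s1 : Module.length B N = δ * Module.length B' N := len_scale B B' N hN'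
  have s2 : Module.length B B' = δ * Module.length B' B' := len_scale B B' B' hB'
  have s3 : Module.length B (Module.End B' N) = δ * Module.length B' (Module.End B' N) :=
    len_scale B B' (Module.End B' N) hE'
  have hδt : δ ≠ ⊤ := by
    have : Module.Finite B (ResidueField B') := Module.Finite.trans B' _
    exact Module.length_ne_top
  have hδ0 : δ ≠ 0 := by
    rw [hδ, Ne, Module.length_eq_zero_iff]
    exact not_subsingleton _
  obtain ⟨ht1, ht2⟩ := ht N
  have hyE : (Algebra.lsmul B B N pb.gen) ^ pb.dim = 0 := by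
    rw [← map_pow, h0, map_zero]
  obtain ⟨hE1, hE2⟩ := keyL hE (Algebra.lsmul B B N pb.gen) pb.dim hn hyE
  rw [length_commutant B B B' N pb] at hE1 hE2
  have hBpos : Module.length B B ≠ 0 := by
    rw [Ne, Module.length_eq_zero_iff]
    exact not_subsingleton _
  have cancel : ∀ a b : ℕ∞, δ * δ * a ≤ δ * δ * b → a ≤ b := by
    intro a b hab
    have hdd : δ * δ ≠ 0 := mul_ne_zero hδ0 hδ0
    have hddt : δ * δ ≠ ⊤ := WithTop.mul_ne_top hδt hδt
    exact (ENat.mul_le_mul_left_iff hdd hddt).mp hab
  have c1 : (Module.length B N) ^ 2 = δ * δ * (Module.length B' N) ^ 2 := by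
    rw [s1]; ring
  have c2 : Module.length B B * (pb.dim * Module.length B (Module.End B' N)) =
      δ * δ * (Module.length B' B' * Module.length B' (Module.End B' N)) := by
    have : Module.length B B * (pb.dim * Module.length B (Module.End B' N)) =
        Module.length B B' * Module.length B (Module.End B' N) := by rw [hd]; ring
    rw [this, s2, s3]; ring
  refine ⟨?_, ?_⟩
  · refine cancel _ _ ?_
    rw [← c1, ← c2]
    exact ht1.trans (mul_le_mul_right hE1 _)
  · intro heq
    have heq2 : (Module.length B N) ^ 2 =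
        Module.length B B * (pb.dim * Module.length B (Module.End B' N)) := by
      rw [c1, c2, heq]
    have e2 : Module.length B (Module.End B N) = pb.dim * Module.length B (Module.End B' N) := by
      refine le_antisymm hE1 ?_
      refine (ENat.mul_le_mul_left_iff hBpos hB).mp ?_
      rw [← heq2]; exact ht1
    obtain ⟨θ, hθ⟩ := hE2 e2
    have : Module.Free B N := ht2 (by rw [heq2, e2])
    refine relProj B B' N pb ⟨0, by rw [h0, map_zero, sub_zero]; exact Ideal.zero_mem _⟩ θ ?_
    intro m
    have e := congrArg (fun f : Module.End B N => f m) hθ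
    have e1 : ∀ (i : ℕ) (v : N), ((Algebra.lsmul B B N pb.gen) ^ i) v = pb.gen ^ i • v := by
      intro i v
      rw [← map_pow]; rfl
    simp only [LinearMap.sum_apply, Module.End.mul_apply, e1, Module.End.one_apply] at e
    rw [e, sub_self]
    exact Submodule.zero_mem _

/-- for algebras over a field, dimensions instead of lengths. -/
theorem tightL_of_tight (k B : Type) [Field k] [CommRing B] [IsLocalRing B] [Algebra k B]
    [Module.Finite k B] (ht : Tight k B) : TightL B := by
  have : IsArtinianRing B := IsArtinianRing.of_finite k B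
  intro N _ _ _
  let _ : Module k N := Module.compHom N (algebraMap k B)
  have : IsScalarTower k B N := ⟨fun s r m => by
    rw [Algebra.smul_def, mul_smul]; rfl⟩
  have : Module.Finite k N := Module.Finite.trans B N
  have hN' : Module.length B N ≠ ⊤ := Module.length_ne_top
  have hB' : Module.length B B ≠ ⊤ := Module.length_ne_top
  have hE' : Module.length B (Module.End B N) ≠ ⊤ := Module.length_ne_top
  set δ := Module.length k (ResidueField B) with hδ
  have s1 : Module.length k N = δ * Module.length B N := len_scale k B N hN'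
  have s2 : Module.length k B = δ * Module.length B B := len_scale k B B hB'
  have s3 : Module.length k (Module.End B N) = δ * Module.length B (Module.End B N) :=
    len_scale k B (Module.End B N) hE'
  have hfk : Module.Finite k (ResidueField B) := Module.Finite.trans B _
  have hδt : δ ≠ ⊤ := Module.length_ne_top
  have hδ0 : δ ≠ 0 := by
    rw [hδ, Ne, Module.length_eq_zero_iff]
    exact not_subsingleton _
  have hfE : Module.Finite k (Module.End B N) := Module.Finite.trans B _
  obtain ⟨h1, h2⟩ := ht N
  have r1 : Module.length k N = (finrank k N : ℕ∞) := Module.length_eq_finrank k N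
  have r2 : Module.length k B = (finrank k B : ℕ∞) := Module.length_eq_finrank k B
  have r3 : Module.length k (Module.End B N) = (finrank k (Module.End B N) : ℕ∞) :=
    Module.length_eq_finrank k _
  have cancel : ∀ a b : ℕ∞, δ * δ * a ≤ δ * δ * b → a ≤ b := by
    intro a b hab
    have hdd : δ * δ ≠ 0 := mul_ne_zero hδ0 hδ0
    have hddt : δ * δ ≠ ⊤ := WithTop.mul_ne_top hδt hδt
    exact (ENat.mul_le_mul_left_iff hdd hddt).mp hab
  have c1 : ((finrank k N ^ 2 : ℕ) : ℕ∞) = δ * δ * (Module.length B N) ^ 2 := by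
    push_cast
    rw [← r1, s1]; ring
  have c2 : ((finrank k B * finrank k (Module.End B N) : ℕ) : ℕ∞) =
      δ * δ * (Module.length B B * Module.length B (Module.End B N)) := by
    push_cast
    rw [← r2, ← r3, s2, s3]; ring
  refine ⟨?_, ?_⟩
  · refine cancel _ _ ?_
    rw [← c1, ← c2]
    exact_mod_cast h1
  · intro heq
    refine h2 ?_
    have : ((finrank k N ^ 2 : ℕ) : ℕ∞) =
        ((finrank k B * finrank k (Module.End B N) : ℕ) : ℕ∞) := by
      rw [c1, c2, heq]
    exact_mod_cast this

end Pool.Agent.HWC
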