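import Pool.Agent.HWC.KeyL
import Pool.Agent.HWC.KeyPL

/-!
Paper proof (helper37's remark: iterate the key lemma).  E_j = elements of E commuting with rho(Y_0), ..., rho(Y_(j-1)), a
subring (Subalgebra.centralizer or similar), E_0 = E, E_c = the infimum of the cenL.  rho(Y_j) is in E_j (R commutative), and
keyL / keyPL for the ring E_j and its element rho(Y_j) give length E_j <= n_j length E_(j+1).  So length E <= (prod n_j) length E_c.
Equality: all are equalities (finite lengths, n_j > 0), so there are θ_j in E_j with T_j(θ_j) = 1, T_j(θ) =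
sum_(i<n_j) rho(Y_j)^(n_j-1-i) θ rho(Y_j)^i, T_j : E_j -> E_(j+1).  T_j(a θ) = a T_j(θ) for a in E_(j+1).  So
1 = T_(c-1)(θ_(c-1)), θ_(c-1) = θ_(c-1) T_(c-2)(θ_(c-2)) = T_(c-2)(θ_(c-1) θ_(c-2)) and so on: 1 = T_(c-1) ... T_0 (θ) with
θ = θ_(c-1) ... θ_0; the composite is the sum over all exponent vectors in the statement.
(Induction on c, peeling off the last or the first variable; Fin.prod_univ_succ, Fintype.piFinset.)
-/

set_option autoImplicit false

namespace Pool.Agent.HWC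

open IsLocalRing Module

private theorem MultiKey_one {Λ E : Type*} [CommRing Λ] [Ring E] [Algebra Λ E]
    (hE : Module.length Λ E ≠ ⊤) (y : E) (n : ℕ) (hn : 0 < n)
    (hY : y ^ n = 0 ∨ (∃ p a : ℕ, p.Prime ∧ (p : E) = 0 ∧ n = p ^ a ∧
      ∀ e : E, y ^ n * e = e * y ^ n)) :
    Module.length Λ E ≤ n * Module.length Λ (cenL Λ y) ∧
    (Module.length Λ E = n * Module.length Λ (cenL Λ y) →
      ∃ θ : E, ∑ i ∈ Finset.range n, y ^ (n - 1 - i) * θ * y ^ i = 1) := by
  rcases hY with h | ⟨p, a, hp, hpE, rfl, hc⟩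
  · exact keyL hE y n hn h
  · have := Fact.mk hp
    exact keyPL hE p a hpE y hc

private theorem MultiKey_mem {Λ E : Type*} [CommRing Λ] [Ring E] [Algebra Λ E] (y e : E) :
    e ∈ cenL Λ y ↔ y * e = e * y := by
  rw [LinearMap.mem_ker, LinearMap.sub_apply, LinearMap.mulLeft_apply, LinearMap.mulRight_apply,
    sub_eq_zero]

private theorem MultiKey_memc {Λ E : Type*} [CommRing Λ] [Ring E] [Algebra Λ E] (y e : E) :
    e ∈ Subalgebra.centralizer Λ ({y} : Set E) ↔ y * e = e * y := by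
  rw [Subalgebra.mem_centralizer_iff]
  constructor
  · intro h
    exact h y rfl
  · rintro h g rfl
    exact h

private theorem MultiKey_len {Λ E : Type*} [CommRing Λ] [Ring E] [Algebra Λ E] (y : E) :
    Module.length Λ (cenL Λ y) =
      Module.length Λ (Subalgebra.centralizer Λ ({y} : Set E)) := by
  have e : cenL Λ y = Subalgebra.toSubmodule (Subalgebra.centralizer Λ ({y} : Set E)) := by
    ext z
    rw [MultiKey_mem, Subalgebra.mem_toSubmodule, MultiKey_memc]
  exact ((LinearEquiv.ofEq _ _ e).trans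
    (Subalgebra.toSubmoduleEquiv (Subalgebra.centralizer Λ ({y} : Set E)))).length_eq

/-- the corestriction of `ρ` to the centralizer of `ρ a` -/
private def MultiKey_rho {Λ R E : Type*} [CommRing Λ] [CommRing R] [Ring E] [Algebra Λ E]
    (ρ : R →+* E) (a : R) : R →+* Subalgebra.centralizer Λ ({ρ a} : Set E) :=
  ρ.codRestrict (Subalgebra.centralizer Λ ({ρ a} : Set E)) (fun r => by
    rw [MultiKey_memc, ← map_mul, ← map_mul, mul_comm])

private theorem MultiKey_rho_val {Λ R E : Type*} [CommRing Λ] [CommRing R] [Ring E]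
    [Algebra Λ E] (ρ : R →+* E) (a r : R) :
    ((MultiKey_rho (Λ := Λ) ρ a r : Subalgebra.centralizer Λ ({ρ a} : Set E)) : E) = ρ r := rfl

private theorem MultiKey_len2 {Λ R E : Type*} [CommRing Λ] [CommRing R] [Ring E] [Algebra Λ E]
    (ρ : R →+* E) (c : ℕ) (Y : Fin (c + 1) → R) :
    Module.length Λ (⨅ i, cenL Λ (ρ (Y i)) : Submodule Λ E) =
      Module.length Λ (⨅ i : Fin c, cenL Λ (MultiKey_rho (Λ := Λ) ρ (Y 0) (Y i.succ)) :
        Submodule Λ (Subalgebra.centralizer Λ ({ρ (Y 0)} : Set E))) := by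
  set E1 := Subalgebra.centralizer Λ ({ρ (Y 0)} : Set E) with hE1
  have hinj : Function.Injective (E1.val.toLinearMap) := Subtype.val_injective
  have e : Submodule.map E1.val.toLinearMap
      (⨅ i : Fin c, cenL Λ (MultiKey_rho (Λ := Λ) ρ (Y 0) (Y i.succ)) : Submodule Λ E1) =
      (⨅ i, cenL Λ (ρ (Y i)) : Submodule Λ E) := by
    ext z
    rw [Submodule.mem_map]
    constructor
    · rintro ⟨w, hw, rfl⟩
      rw [Submodule.mem_iInf] at hw ⊢
      intro i
      rw [MultiKey_mem]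
      refine Fin.cases ?_ (fun j => ?_) i
      · exact (MultiKey_memc _ _).1 w.2
      · have h := (MultiKey_mem _ _).1 (hw j)
        exact congrArg Subtype.val h
    · intro hz
      rw [Submodule.mem_iInf] at hz
      have h0 : z ∈ E1 := (MultiKey_memc _ _).2 ((MultiKey_mem _ _).1 (hz 0))
      refine ⟨⟨z, h0⟩, ?_, rfl⟩
      rw [Submodule.mem_iInf]
      intro i
      rw [MultiKey_mem]
      apply Subtype.ext
      exact (MultiKey_mem _ _).1 (hz i.succ)
  exact ((Submodule.equivMapOfInjective _ hinj _).trans (LinearEquiv.ofEq _ _ e)).length_eq.symm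

private theorem MultiKey_main {Λ R : Type*} [CommRing Λ] [CommRing R] (c : ℕ) :
    ∀ {E : Type*} [Ring E] [Algebra Λ E]
    (hE : Module.length Λ E ≠ ⊤) (ρ : R →+* E) (Y : Fin c → R) (n : Fin c → ℕ)
    (hn : ∀ i, 0 < n i)
    (hY : ∀ i, ρ (Y i) ^ n i = 0 ∨ (∃ p a : ℕ, p.Prime ∧ (p : E) = 0 ∧ n i = p ^ a ∧
      ∀ e : E, ρ (Y i) ^ n i * e = e * ρ (Y i) ^ n i)),
    Module.length Λ E ≤ (∏ i, n i : ℕ) *
      Module.length Λ (⨅ i, cenL Λ (ρ (Y i)) : Submodule Λ E) ∧
    (Module.length Λ E = (∏ i, n i : ℕ) *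
      Module.length Λ (⨅ i, cenL Λ (ρ (Y i)) : Submodule Λ E) →
      ∃ θ : E, ∑ α ∈ Fintype.piFinset (fun i => Finset.range (n i)),
        ρ (∏ i, Y i ^ (n i - 1 - α i)) * θ * ρ (∏ i, Y i ^ (α i)) = 1) := by
  induction c with
  | zero =>
    intro E _ _ hE ρ Y n hn hY
    constructor
    · rw [Finset.univ_eq_empty, Finset.prod_empty, Nat.cast_one, one_mul, iInf_of_empty,
        Module.length_top]
    · intro _
      refine ⟨1, ?_⟩
      simp
  | succ c ih =>
    intro E _ _ hE ρ Y n hn hY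
    set E1 := Subalgebra.centralizer Λ ({ρ (Y 0)} : Set E) with hE1
    have hl1 : Module.length Λ E1 ≤ Module.length Λ E :=
      Module.length_le_of_injective E1.val.toLinearMap Subtype.val_injective
    have hE1t : Module.length Λ E1 ≠ ⊤ := ne_top_of_le_ne_top hE hl1
    obtain ⟨a1, a2⟩ := MultiKey_one hE (ρ (Y 0)) (n 0) (hn 0) (hY 0)
    rw [MultiKey_len] at a1 a2
    obtain ⟨b1, b2⟩ := ih (E := E1) hE1t (MultiKey_rho (Λ := Λ) ρ (Y 0))
      (fun i => Y i.succ) (fun i => n i.succ) (fun i => hn i.succ) (by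
        intro i
        rcases hY i.succ with h | ⟨p, a, hp, hpE, hna, hc⟩
        · left
          apply Subtype.ext
          exact h
        · right
          refine ⟨p, a, hp, ?_, hna, ?_⟩
          · apply Subtype.ext
            simpa using hpE
          · intro e
            apply Subtype.ext
            exact hc e.1)
    rw [← MultiKey_len2 ρ c Y] at b1 b2
    have hf : Module.length Λ (⨅ i, cenL Λ (ρ (Y i)) : Submodule Λ E) ≠ ⊤ :=
      ne_top_of_le_ne_top hE (Module.length_le_of_injective (Submodule.subtype _)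
        Subtype.val_injective)
    rw [Fin.prod_univ_succ]
    obtain ⟨lE, hlE⟩ := ENat.ne_top_iff_exists.1 hE
    obtain ⟨l1, hl1'⟩ := ENat.ne_top_iff_exists.1 hE1t
    obtain ⟨lf, hlf⟩ := ENat.ne_top_iff_exists.1 hf
    rw [← hlE, ← hl1'] at a1 a2
    rw [← hl1', ← hlf] at b1 b2
    rw [← hlE, ← hlf]
    norm_cast at a1 a2 b1 b2 ⊢
    have key : lE ≤ n 0 * (∏ i : Fin c, n i.succ) * lf := by
      calc lE ≤ n 0 * l1 := a1
        _ ≤ n 0 * ((∏ i : Fin c, n i.succ) * lf) := Nat.mul_le_mul_left _ b1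
        _ = n 0 * (∏ i : Fin c, n i.succ) * lf := by ring
    refine ⟨key, ?_⟩
    intro heq
    have h1 : n 0 * l1 ≤ lE := by
      rw [heq, mul_assoc]
      exact Nat.mul_le_mul_left _ b1
    have h2 : lE = n 0 * l1 := le_antisymm a1 h1
    have h3 : l1 = (∏ i : Fin c, n i.succ) * lf := by
      have h4 : n 0 * l1 = n 0 * ((∏ i : Fin c, n i.succ) * lf) := by
        rw [← h2, heq, mul_assoc]
      exact Nat.eq_of_mul_eq_mul_left (hn 0) h4
    obtain ⟨θ0, hθ0⟩ := a2 h2
    obtain ⟨θ1, hθ1⟩ := b2 h3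
    refine ⟨θ1.1 * θ0, ?_⟩
    have hθ1' := congrArg Subtype.val hθ1
    rw [AddSubmonoidClass.coe_finsetSum, OneMemClass.coe_one] at hθ1'
    refine Eq.trans ?_ hθ1'
    have hstep : ∑ α ∈ Fintype.piFinset (fun i => Finset.range (n i)),
        ρ (∏ i, Y i ^ (n i - 1 - α i)) * (θ1.1 * θ0) * ρ (∏ i, Y i ^ (α i)) =
        ∑ q ∈ Finset.range (n 0) ×ˢ Fintype.piFinset (fun i : Fin c => Finset.range (n i.succ)),
          ρ (Y 0 ^ (n 0 - 1 - q.1) * ∏ i : Fin c, Y i.succ ^ (n i.succ - 1 - q.2 i)) *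
            (θ1.1 * θ0) * ρ (Y 0 ^ q.1 * ∏ i : Fin c, Y i.succ ^ (q.2 i)) := by
      refine Finset.sum_nbij' (fun α => (α 0, fun i => α i.succ))
        (fun q => Fin.cons q.1 q.2) ?_ ?_ ?_ ?_ ?_
      · intro α hα
        rw [Fintype.mem_piFinset] at hα
        rw [Finset.mem_product, Fintype.mem_piFinset]
        exact ⟨hα 0, fun i => hα i.succ⟩
      · intro q hq
        rw [Finset.mem_product, Fintype.mem_piFinset] at hq
        rw [Fintype.mem_piFinset]
        intro i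
        refine Fin.cases ?_ (fun j => ?_) i
        · exact hq.1
        · exact hq.2 j
      · intro α _
        exact Fin.cons_self_tail α
      · intro q _
        rfl
      · intro α _
        rw [Fin.prod_univ_succ, Fin.prod_univ_succ]
    rw [hstep, Finset.sum_product_right]
    refine Finset.sum_congr rfl fun β _ => ?_
    have hc1 : ∀ (r : R), ρ (Y 0) * ρ r = ρ r * ρ (Y 0) := by
      intro r
      rw [← map_mul, ← map_mul, mul_comm]
    have hc2 : Commute (ρ (Y 0)) θ1.1 := (MultiKey_memc _ _).1 θ1.2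
    calc ∑ x ∈ Finset.range (n 0),
          ρ (Y 0 ^ (n 0 - 1 - x) * ∏ i : Fin c, Y i.succ ^ (n i.succ - 1 - β i)) *
            (θ1.1 * θ0) * ρ (Y 0 ^ x * ∏ i : Fin c, Y i.succ ^ (β i))
        = ∑ x ∈ Finset.range (n 0),
          (ρ (∏ i : Fin c, Y i.succ ^ (n i.succ - 1 - β i)) * θ1.1) *
            (ρ (Y 0) ^ (n 0 - 1 - x) * θ0 * ρ (Y 0) ^ x) *
              ρ (∏ i : Fin c, Y i.succ ^ (β i)) := by
          refine Finset.sum_congr rfl fun x _ => ?_
          have e1 : ρ (Y 0) ^ (n 0 - 1 - x) * θ1.1 = θ1.1 * ρ (Y 0) ^ (n 0 - 1 - x) :=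
            (hc2.pow_left _).eq
          rw [mul_comm (Y 0 ^ (n 0 - 1 - x)), map_mul, map_mul, map_pow, map_pow]
          simp only [mul_assoc]
          rw [← mul_assoc (ρ (Y 0) ^ (n 0 - 1 - x)) θ1.1, e1, mul_assoc]
      _ = (ρ (∏ i : Fin c, Y i.succ ^ (n i.succ - 1 - β i)) * θ1.1) *
            (∑ x ∈ Finset.range (n 0), ρ (Y 0) ^ (n 0 - 1 - x) * θ0 * ρ (Y 0) ^ x) *
              ρ (∏ i : Fin c, Y i.succ ^ (β i)) := by
          rw [Finset.mul_sum, Finset.sum_mul]
      _ = _ := by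
          rw [hθ0, mul_one]
          rfl

theorem multi_key {Λ R E : Type*} [CommRing Λ] [CommRing R] [Ring E] [Algebra Λ E]
    (hE : Module.length Λ E ≠ ⊤) (ρ : R →+* E) (c : ℕ) (Y : Fin c → R) (n : Fin c → ℕ)
    (hn : ∀ i, 0 < n i)
    (hY : ∀ i, ρ (Y i) ^ n i = 0 ∨ (∃ p a : ℕ, p.Prime ∧ (p : E) = 0 ∧ n i = p ^ a ∧
      ∀ e : E, ρ (Y i) ^ n i * e = e * ρ (Y i) ^ n i)) :
    Module.length Λ E ≤ (∏ i, n i : ℕ) *
      Module.length Λ (⨅ i, cenL Λ (ρ (Y i)) : Submodule Λ E) ∧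
    (Module.length Λ E = (∏ i, n i : ℕ) *
      Module.length Λ (⨅ i, cenL Λ (ρ (Y i)) : Submodule Λ E) →
      ∃ θ : E, ∑ α ∈ Fintype.piFinset (fun i => Finset.range (n i)),
        ρ (∏ i, Y i ^ (n i - 1 - α i)) * θ * ρ (∏ i, Y i ^ (α i)) = 1) :=
  MultiKey_main c hE ρ Y n hn hY

end Pool.Agent.HWC
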