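import Pool.Agent.HWC.DefsL

/-!
Paper proof.  sigma : N -> B' (x)_B N, sigma(v) = sum_alpha (prod Y_i^(n_i - 1 - alpha_i)) (x) θ((prod Y_i^(alpha_i)) v).  It is B-linear and
Y_j sigma(v) = sigma(Y_j v): write the sum over alpha_j separately, sum_(i<n_j) (Y_j^(n_j - i) (x) θ'(Y_j^i v) -
Y_j^(n_j-1-i) (x) θ'(Y_j^(i+1) v)) telescopes to Y_j^(n_j) (x) θ'(v) - 1 (x) θ'(Y_j^(n_j) v) = 0 because Y_j^(n_j) comes from B.
So sigma is B'-linear (B' is generated by the Y_i over B).  The multiplication mu : B' (x)_B N -> N, r (x) v |-> r v, is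
B'-linear and mu sigma = 1 by hθ.  So N is a direct summand of B' (x)_B N, which is B'-free (N is B-free); N is
B'-projective, finite (finite over B), B' is local, so N is free.
(In the proof below the telescoping is done in the commutative ring B' (x)_B B', with the product of the geometric sums.)
AF_restrictM: (Fin r -> R) is S-isomorphic to (Fin (n * r) -> S); conjugate j and p (see AF_restrict in Commut.lean).
length_commutantM: both are the set of S-linear f with f (Y_i v) = Y_i f(v) (see CommutL.lean / Commut.lean); R is generated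
by the Y_i over S.
-/

set_option autoImplicit false

namespace Pool.Agent.HWC

open IsLocalRing Module TensorProduct

/-- the product of the geometric sums in `B' ⊗ B'` -/
private noncomputable def RelProjMeps (B B' : Type) [CommRing B] [CommRing B'] [Algebra B B']
    {c : ℕ} (Y : Fin c → B') (n : Fin c → ℕ) : B' ⊗[B] B' :=
  ∏ i, ∑ a ∈ Finset.range (n i), (1 ⊗ₜ[B] Y i) ^ a * (Y i ⊗ₜ[B] 1) ^ (n i - 1 - a)

private lemma RelProjMeps_eq (B B' : Type) [CommRing B] [CommRing B'] [Algebra B B']
    {c : ℕ} (Y : Fin c → B') (n : Fin c → ℕ) : RelProjMeps B B' Y n =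
      ∑ α ∈ Fintype.piFinset (fun i => Finset.range (n i)),
        (∏ i, Y i ^ (n i - 1 - α i)) ⊗ₜ[B] (∏ i, Y i ^ (α i)) := by
  unfold RelProjMeps
  rw [Finset.prod_univ_sum]
  refine Finset.sum_congr rfl fun α _ => ?_
  rw [Finset.prod_mul_distrib]
  have h1 : ∏ i, ((1 : B') ⊗ₜ[B] Y i) ^ (α i) = (1 : B') ⊗ₜ[B] (∏ i, Y i ^ (α i)) := by
    have := map_prod (Algebra.TensorProduct.includeRight : B' →ₐ[B] B' ⊗[B] B')
      (fun i => Y i ^ (α i)) Finset.univ
    rw [Algebra.TensorProduct.includeRight_apply] at this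
    rw [this]
    exact Finset.prod_congr rfl fun i _ => by
      rw [map_pow, Algebra.TensorProduct.includeRight_apply]
  have h2 : ∏ i, (Y i ⊗ₜ[B] (1 : B')) ^ (n i - 1 - α i) =
      (∏ i, Y i ^ (n i - 1 - α i)) ⊗ₜ[B] (1 : B') := by
    have := map_prod (Algebra.TensorProduct.includeLeft : B' →ₐ[B] B' ⊗[B] B')
      (fun i => Y i ^ (n i - 1 - α i)) Finset.univ
    rw [Algebra.TensorProduct.includeLeft_apply] at this
    rw [this]
    exact Finset.prod_congr rfl fun i _ => by
      rw [map_pow, Algebra.TensorProduct.includeLeft_apply]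
  rw [h1, h2, Algebra.TensorProduct.tmul_mul_tmul, one_mul, mul_one]

private lemma RelProjMcas (B B' : Type) [CommRing B] [CommRing B'] [Algebra B B']
    {c : ℕ} (Y : Fin c → B') (n : Fin c → ℕ)
    (hadj : Algebra.adjoin B (Set.range Y) = ⊤)
    (hY : ∀ i, ∃ b : B, Y i ^ n i = algebraMap B B' b) (r : B') :
    (r ⊗ₜ[B] (1 : B')) * RelProjMeps B B' Y n = ((1 : B') ⊗ₜ[B] r) * RelProjMeps B B' Y n := by
  have hr : r ∈ Algebra.adjoin B (Set.range Y) := by rw [hadj]; exact Algebra.mem_top
  induction hr using Algebra.adjoin_induction with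
  | mem x hx =>
    obtain ⟨j, rfl⟩ := hx
    rw [← sub_eq_zero, ← sub_mul]
    unfold RelProjMeps
    rw [← Finset.mul_prod_erase _ _ (Finset.mem_univ j), ← mul_assoc]
    have h1 : (Y j ⊗ₜ[B] (1 : B') - (1 : B') ⊗ₜ[B] Y j) *
        ∑ a ∈ Finset.range (n j), ((1 : B') ⊗ₜ[B] Y j) ^ a * (Y j ⊗ₜ[B] (1 : B')) ^ (n j - 1 - a) =
        0 := by
      have h2 := (Commute.all ((1 : B') ⊗ₜ[B] Y j) (Y j ⊗ₜ[B] (1 : B'))).mul_geom_sum₂ (n j)
      obtain ⟨b, hb⟩ := hY j
      have h3 : ((1 : B') ⊗ₜ[B] Y j) ^ (n j) - (Y j ⊗ₜ[B] (1 : B')) ^ (n j) = 0 := by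
        rw [Algebra.TensorProduct.tmul_pow, Algebra.TensorProduct.tmul_pow, hb, one_pow,
          sub_eq_zero, Algebra.algebraMap_eq_smul_one, TensorProduct.tmul_smul,
          TensorProduct.smul_tmul']
      rw [h3] at h2
      rw [← neg_sub, neg_mul, h2, neg_zero]
    rw [h1, zero_mul]
  | algebraMap b =>
    rw [Algebra.algebraMap_eq_smul_one, TensorProduct.tmul_smul, TensorProduct.smul_tmul']
  | add x y _ _ hx hy =>
    rw [TensorProduct.add_tmul, TensorProduct.tmul_add, add_mul, add_mul, hx, hy]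
  | mul x y _ _ hx hy =>
    have e1 : (x * y) ⊗ₜ[B] (1 : B') = (x ⊗ₜ[B] (1 : B')) * (y ⊗ₜ[B] (1 : B')) := by
      rw [Algebra.TensorProduct.tmul_mul_tmul, mul_one]
    have e2 : (1 : B') ⊗ₜ[B] (x * y) = ((1 : B') ⊗ₜ[B] x) * ((1 : B') ⊗ₜ[B] y) := by
      rw [Algebra.TensorProduct.tmul_mul_tmul, mul_one]
    rw [e1, e2, mul_assoc, hy, mul_left_comm, hx, ← mul_assoc, mul_comm ((1 : B') ⊗ₜ[B] y)]

theorem relProjM (B B' N : Type) [CommRing B] [CommRing B'] [IsLocalRing B'] [Algebra B B']
    [AddCommGroup N] [Module B N] [Module B' N] [IsScalarTower B B' N] [Module.Finite B N]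
    [Module.Free B N] (c : ℕ) (Y : Fin c → B') (n : Fin c → ℕ) (hn : ∀ i, 0 < n i)
    (hadj : Algebra.adjoin B (Set.range Y) = ⊤)
    (hY : ∀ i, ∃ b : B, Y i ^ n i = algebraMap B B' b)
    (θ : N →ₗ[B] N)
    (hθ : ∀ v : N, ∑ α ∈ Fintype.piFinset (fun i => Finset.range (n i)),
      (∏ i, Y i ^ (n i - 1 - α i)) • θ ((∏ i, Y i ^ (α i)) • v) = v) : Module.Free B' N := by
  classical
  -- evaluation at a vector
  let Φ : N → (B' ⊗[B] B' →ₗ[B] B' ⊗[B] N) := fun v =>
    LinearMap.lTensor B' (θ ∘ₗ ((LinearMap.toSpanSingleton B' N v).restrictScalars B))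
  have hΦ : ∀ v (r s : B'), Φ v (r ⊗ₜ[B] s) = r ⊗ₜ[B] θ (s • v) := by
    intro v r s
    rfl
  have hΦ1 : ∀ v (r : B') (z : B' ⊗[B] B'), Φ v ((r ⊗ₜ[B] (1 : B')) * z) = r • Φ v z := by
    intro v r z
    induction z using TensorProduct.induction_on with
    | zero => simp
    | tmul x y =>
      rw [Algebra.TensorProduct.tmul_mul_tmul, one_mul, hΦ, hΦ, TensorProduct.smul_tmul',
        smul_eq_mul]
    | add x y hx hy => rw [mul_add, map_add, map_add, hx, hy, smul_add]
  have hΦ2 : ∀ v (r : B') (z : B' ⊗[B] B'), Φ v (((1 : B') ⊗ₜ[B] r) * z) = Φ (r • v) z := by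
    intro v r z
    induction z using TensorProduct.induction_on with
    | zero => simp
    | tmul x y =>
      rw [Algebra.TensorProduct.tmul_mul_tmul, one_mul, hΦ, hΦ, smul_smul, mul_comm]
    | add x y hx hy => rw [mul_add, map_add, map_add, hx, hy]
  have hΦ3 : ∀ (v w : N) (z : B' ⊗[B] B'), Φ (v + w) z = Φ v z + Φ w z := by
    intro v w z
    induction z using TensorProduct.induction_on with
    | zero => simp
    | tmul x y => rw [hΦ, hΦ, hΦ, smul_add, map_add, TensorProduct.tmul_add]
    | add x y hx hy => rw [map_add, map_add, map_add, hx, hy]; abel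
  let σ : N →ₗ[B'] B' ⊗[B] N :=
    { toFun := fun v => Φ v (RelProjMeps B B' Y n)
      map_add' := fun v w => hΦ3 v w _
      map_smul' := fun r v => by
        rw [RingHom.id_apply, ← hΦ1, ← hΦ2, RelProjMcas B B' Y n hadj hY r] }
  let μ : B' ⊗[B] N →ₗ[B'] N := (LinearMap.id : N →ₗ[B] N).liftBaseChange B'
  have hμ : ∀ (r : B') (m : N), μ (r ⊗ₜ m) = r • m := by
    intro r m
    show ((LinearMap.id : N →ₗ[B] N).liftBaseChange B') (r ⊗ₜ m) = r • m
    rw [LinearMap.liftBaseChange_tmul, LinearMap.id_apply]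
  have hsplit : μ ∘ₗ σ = LinearMap.id := by
    ext v
    rw [LinearMap.comp_apply, LinearMap.id_apply]
    have h1 : σ v = Φ v (RelProjMeps B B' Y n) := rfl
    rw [h1, RelProjMeps_eq, map_sum, map_sum]
    conv_rhs => rw [← hθ v]
    exact Finset.sum_congr rfl fun α _ => by rw [hΦ, hμ]
  have hfin : Module.Finite B' N := Module.Finite.of_restrictScalars_finite B B' N
  have hproj : Module.Projective B' N := Module.Projective.of_split σ μ hsplit
  exact Module.free_of_flat_of_isLocalRing

theorem AF_restrictM (S R M : Type) [CommRing S] [CommRing R] [Algebra S R] [AddCommGroup M]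
    [Module S M] [Module R M] [IsScalarTower S R M] (n : ℕ) (b : Module.Basis (Fin n) S R)
    (x : S) (r : ℕ) (h : AF R M (algebraMap S R x) r) : AF S M x (n * r) := by
  obtain ⟨N, j, p, h1, h2⟩ := h
  let E : (Fin r → R) ≃ₗ[S] (Fin (n * r) → S) :=
    (LinearEquiv.piCongrRight (fun _ : Fin r => b.equivFun)).trans
      ((LinearEquiv.curry S S (Fin r) (Fin n)).symm.trans
        (LinearEquiv.funCongrLeft S S
          ((finProdFinEquiv (m := n) (n := r)).symm.trans (Equiv.prodComm _ _))))
  refine ⟨N, (j.restrictScalars S).comp E.symm.toLinearMap,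
    E.toLinearMap.comp (p.restrictScalars S), fun m => ?_, fun v => ?_⟩
  · change j (E.symm (E (p m))) = x ^ N • m
    rw [LinearEquiv.symm_apply_apply, h1, ← map_pow, algebraMap_smul]
  · change E (p (j (E.symm v))) = x ^ N • v
    rw [h2, ← map_pow, algebraMap_smul, map_smul, LinearEquiv.apply_symm_apply]

private theorem RelProjM_lin (S R N : Type) [CommRing S] [CommRing R] [Algebra S R]
    [AddCommGroup N] [Module S N] [Module R N] [IsScalarTower S R N] (c : ℕ) (Y : Fin c → R)
    (hadj : Algebra.adjoin S (Set.range Y) = ⊤) (f : Module.End S N)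
    (hf : ∀ i v, f (Y i • v) = Y i • f v) (r : R) : ∀ v : N, f (r • v) = r • f v := by
  have hr : r ∈ Algebra.adjoin S (Set.range Y) := by rw [hadj]; exact Algebra.mem_top
  induction hr using Algebra.adjoin_induction with
  | mem x hx =>
    intro v
    obtain ⟨i, rfl⟩ := hx
    exact hf i v
  | algebraMap s =>
    intro v
    rw [algebraMap_smul, algebraMap_smul, map_smul]
  | add x y _ _ hx hy =>
    intro v
    rw [add_smul, map_add, hx, hy, add_smul]
  | mul x y _ _ hx hy =>
    intro v
    rw [mul_smul, hx, hy, mul_smul]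

theorem length_commutantM (Λ S R N : Type) [CommRing Λ] [CommRing S] [CommRing R] [Algebra Λ S]
    [Algebra S R] [Algebra Λ R] [IsScalarTower Λ S R] [AddCommGroup N] [Module Λ N] [Module S N]
    [Module R N] [IsScalarTower S R N] [IsScalarTower Λ S N] [IsScalarTower Λ R N]
    (c : ℕ) (Y : Fin c → R) (hadj : Algebra.adjoin S (Set.range Y) = ⊤) :
    Module.length Λ (⨅ i, cenL Λ (Algebra.lsmul S S N (Y i)) :
      Submodule Λ (Module.End S N)) = Module.length Λ (Module.End R N) := by
  let L : Module.End R N →ₗ[Λ] Module.End S N :=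
    { toFun := fun f => f.restrictScalars S
      map_add' := fun _ _ => rfl
      map_smul' := fun _ _ => rfl }
  have hL : Function.Injective L := by
    intro f g hfg
    ext v
    exact congrArg (fun F : Module.End S N => F v) hfg
  have hker : (⨅ i, cenL Λ (Algebra.lsmul S S N (Y i)) : Submodule Λ (Module.End S N)) =
      LinearMap.range L := by
    ext f
    rw [Submodule.mem_iInf, LinearMap.mem_range]
    constructor
    · intro h
      have h1 : ∀ i v, f (Y i • v) = Y i • f v := by
        intro i v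
        have h2 := h i
        rw [LinearMap.mem_ker, LinearMap.sub_apply, sub_eq_zero, LinearMap.mulLeft_apply,
          LinearMap.mulRight_apply] at h2
        exact (congrArg (fun F : Module.End S N => F v) h2).symm
      exact ⟨{ toFun := f
               map_add' := fun a b => map_add f a b
               map_smul' := fun r v => RelProjM_lin S R N c Y hadj f h1 r v }, rfl⟩
    · rintro ⟨g, rfl⟩ i
      rw [LinearMap.mem_ker, LinearMap.sub_apply, sub_eq_zero, LinearMap.mulLeft_apply,
        LinearMap.mulRight_apply]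
      ext v
      exact (map_smul g (Y i) v).symm
  rw [hker]
  exact (LinearEquiv.ofInjective L hL).symm.length_eq

end Pool.Agent.HWC
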