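import Pool.Agent.HWC.MainL
import Pool.Agent.HWC.MultiKey
import Pool.Agent.HWC.RelProjM

/-! Assembly, several generators: (HWC) passes from `S` to `R = S[y_1, ..., y_c]` free over `S` with
`R / xR = (S / xS)[Y_1, ..., Y_c] / (Y_i ^ n_i)`. -/

set_option autoImplicit false

namespace Pool.Agent.HWC

open IsLocalRing Module

theorem map_maximal (S R : Type) [CommRing S] [IsLocalRing S] [CommRing R] [IsLocalRing R]
    [Algebra S R] [Module.Finite S R] (s : S) (hs : s ∈ maximalIdeal S) :
    algebraMap S R s ∈ maximalIdeal R := by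
  have : Algebra.IsIntegral S R := inferInstance
  have h1 : (Ideal.comap (algebraMap S R) (maximalIdeal R)).IsMaximal :=
    Ideal.isMaximal_comap_of_isIntegral_of_isMaximal (maximalIdeal R)
  have h2 := IsLocalRing.eq_maximalIdeal h1
  rw [← h2] at hs
  exact hs

theorem free_quot (S R M : Type) [CommRing S] [CommRing R] [Algebra S R] [AddCommGroup M]
    [Module S M] [Module R M] [IsScalarTower S R M] (x : S) [Module.Free S M]
    [Algebra (S ⧸ Ideal.span {x}) (R ⧸ Ideal.span {algebraMap S R x})]
    [Module (S ⧸ Ideal.span {x})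
      (M ⧸ (Ideal.span {algebraMap S R x} • ⊤ : Submodule R M))]
    (hact : ∀ (s : S) (m : M), (Ideal.Quotient.mk (Ideal.span {x}) s) •
      (Submodule.Quotient.mk m : M ⧸ (Ideal.span {algebraMap S R x} • ⊤ : Submodule R M)) =
      Submodule.Quotient.mk (s • m)) :
    Module.Free (S ⧸ Ideal.span {x})
      (M ⧸ (Ideal.span {algebraMap S R x} • ⊤ : Submodule R M)) := by
  have e1 : (M ⧸ (Ideal.span {x} • ⊤ : Submodule S M)) ≃ₗ[S ⧸ Ideal.span {x}]
      (TensorProduct S (S ⧸ Ideal.span {x}) M) := by
    exact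
    { (TensorProduct.quotTensorEquivQuotSMul M (Ideal.span {x})).symm with
      map_smul' := by
        intro a m
        obtain ⟨s, rfl⟩ := Ideal.Quotient.mk_surjective a
        exact (TensorProduct.quotTensorEquivQuotSMul M (Ideal.span {x})).symm.map_smul s m }
  have hset : ∀ m : M, m ∈ (Ideal.span {x} • ⊤ : Submodule S M) ↔
      m ∈ (Ideal.span {algebraMap S R x} • ⊤ : Submodule R M) := by
    intro m
    rw [Submodule.ideal_span_singleton_smul, Submodule.mem_smul_pointwise_iff_exists,
      Submodule.ideal_span_singleton_smul, Submodule.mem_smul_pointwise_iff_exists]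
    simp only [Submodule.mem_top, true_and, algebraMap_smul]
  let f : (M ⧸ (Ideal.span {x} • ⊤ : Submodule S M)) →ₗ[S]
      (M ⧸ (Ideal.span {algebraMap S R x} • ⊤ : Submodule R M)) :=
    Submodule.liftQ _ ((Submodule.mkQ (Ideal.span {algebraMap S R x} • ⊤ :
      Submodule R M)).restrictScalars S) (by
        intro m hm
        rw [LinearMap.mem_ker]
        exact (Submodule.Quotient.mk_eq_zero _).mpr ((hset m).mp hm))
  have hf : Function.Bijective f := by
    constructor
    · rw [injective_iff_map_eq_zero]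
      intro q hq
      obtain ⟨m, rfl⟩ := Submodule.mkQ_surjective _ q
      have : (Submodule.Quotient.mk m : M ⧸ (Ideal.span {algebraMap S R x} • ⊤ :
        Submodule R M)) = 0 := hq
      exact (Submodule.Quotient.mk_eq_zero _).mpr ((hset m).mpr
        ((Submodule.Quotient.mk_eq_zero _).mp this))
    · intro q
      obtain ⟨m, rfl⟩ := Submodule.mkQ_surjective _ q
      exact ⟨Submodule.Quotient.mk m, rfl⟩
  let e2 : (M ⧸ (Ideal.span {x} • ⊤ : Submodule S M)) ≃ₗ[S ⧸ Ideal.span {x}]
      (M ⧸ (Ideal.span {algebraMap S R x} • ⊤ : Submodule R M)) :=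
    { LinearEquiv.ofBijective f hf with
      map_smul' := by
        intro a q
        obtain ⟨s, rfl⟩ := Ideal.Quotient.mk_surjective a
        obtain ⟨m, rfl⟩ := Submodule.mkQ_surjective _ q
        exact (hact s m).symm }
  exact Module.Free.of_equiv (e1.symm.trans e2)

theorem closureM (S R : Type) [CommRing S] [IsDomain S] [IsLocalRing S] [IsNoetherianRing S]
    [CommRing R] [IsDomain R] [IsLocalRing R] [IsNoetherianRing R] [Algebra S R]
    [Module.Finite S R] [Module.Free S R] (hGS : GorOne S) (hGR : GorOne R)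
    (x : S) (hx : x ∈ maximalIdeal S) (hx0 : x ≠ 0)
    (c : ℕ) (Y : Fin c → R) (n : Fin c → ℕ) (hn : ∀ i, 0 < n i)
    (hrank : finrank S R = ∏ i, n i) (hadj : Algebra.adjoin S (Set.range Y) = ⊤)
    (hY : ∀ i, Y i ^ n i ∈ Ideal.span {algebraMap S R x} ∨
      (∃ p a : ℕ, p.Prime ∧ (p : S) ∈ Ideal.span {x} ∧ n i = p ^ a ∧
        ∃ b : S, Y i ^ n i - algebraMap S R b ∈ Ideal.span {algebraMap S R x}))
    (h : HWC S) : HWC R := by
  have hS : Pkg S := pkg_of_gorOne S hGS
  have hR : Pkg R := pkg_of_gorOne R hGR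
  have hinj : Function.Injective (algebraMap S R) := FaithfulSMul.algebraMap_injective S R
  have hxR : algebraMap S R x ∈ maximalIdeal R := map_maximal S R x hx
  have hxR0 : algebraMap S R x ≠ 0 := fun h0 => hx0 ((map_eq_zero_iff _ hinj).mp h0)
  have bas : Module.Basis (Fin (∏ i, n i)) S R := by
    rw [← hrank]; exact Module.finBasis S R
  intro M _ _ _ _ hrefl
  let _ : Module S M := Module.compHom M (algebraMap S R)
  have : IsScalarTower S R M := ⟨fun s r m => by
    rw [Algebra.smul_def, mul_smul]; rfl⟩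
  have : Module.Finite S M := Module.Finite.trans R M
  have hTF : TF R M := fun s m h0 => smul_eq_zero.mp h0
  have hTFS : TF S M := fun s m h0 => by
    rw [← algebraMap_smul R s m] at h0
    rcases smul_eq_zero.mp h0 with h1 | h1
    · left; exact (map_eq_zero_iff _ hinj).mp h1
    · right; exact h1
  have hLR : Lift R M (algebraMap S R x) := lift_of_reflexive R hR M hTF hrefl _ hxR0
  obtain ⟨r, hAF⟩ := exists_AF R hR M hTF _ hxR hxR0
  have hAFS : AF S M x ((∏ i, n i) * r) := AF_restrictM S R M _ bas x r hAF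
  -- the fibre
  let X : Submodule R M := Ideal.span {algebraMap S R x} • ⊤
  let N := M ⧸ X
  let πR : M →ₗ[R] N := X.mkQ
  have hπs : Function.Surjective πR := X.mkQ_surjective
  have hkR : ∀ m : M, πR m = 0 ↔ ∃ w : M, m = algebraMap S R x • w := by
    intro m
    rw [show πR m = 0 ↔ m ∈ (Ideal.span {algebraMap S R x} • ⊤ : Submodule R M) from
      Submodule.Quotient.mk_eq_zero X,
      Submodule.ideal_span_singleton_smul, Submodule.mem_smul_pointwise_iff_exists]
    constructor
    · rintro ⟨w, -, hw⟩; exact ⟨w, hw.symm⟩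
    · rintro ⟨w, hw⟩; exact ⟨w, trivial, hw.symm⟩
  let πS : M →ₗ[S] N := πR.restrictScalars S
  have hkS : ∀ m : M, πS m = 0 ↔ ∃ w : M, m = x • w := by
    intro m
    rw [show πS m = 0 ↔ πR m = 0 from Iff.rfl, hkR]
    simp only [algebraMap_smul]
  have hSx : Module.length S (S ⧸ Ideal.span {x}) ≠ ⊤ := finLen S hS x hx0
  have hRx : Module.length S (R ⧸ Ideal.span {algebraMap S R x}) =
        (∏ i, n i : ℕ) * Module.length S (S ⧸ Ideal.span {x}) := by
    have hd := dimsL S S R (R ⧸ Ideal.span {algebraMap S R x}) x hSx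
      (fun s hs => (mul_eq_zero.mp hs).resolve_left hx0)
      (fun m hm => by
        rw [Algebra.smul_def] at hm
        exact (mul_eq_zero.mp hm).resolve_left hxR0) _
      (AF_freeL S R x _ bas)
      ((Ideal.Quotient.mkₐ S (Ideal.span {algebraMap S R x})).toLinearMap)
      (Ideal.Quotient.mk_surjective)
      (fun m => by
        rw [show ((Ideal.Quotient.mkₐ S (Ideal.span {algebraMap S R x})).toLinearMap m = 0) ↔
          m ∈ Ideal.span {algebraMap S R x} from Ideal.Quotient.eq_zero_iff_mem,
          Ideal.mem_span_singleton']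
        constructor
        · rintro ⟨w, hw⟩; exact ⟨w, by rw [Algebra.smul_def, mul_comm, hw]⟩
        · rintro ⟨w, hw⟩; exact ⟨w, by rw [hw, Algebra.smul_def, mul_comm]⟩)
    exact hd.1
  have hRx2 : Module.length S (R ⧸ Ideal.span {algebraMap S R x}) ≠ ⊤ := by
    rw [hRx]; exact WithTop.mul_ne_top (ENat.coe_ne_top _) hSx
  have hdR := dimsL S R M N (algebraMap S R x) hRx2
    (fun s hs => (mul_eq_zero.mp hs).resolve_left hxR0)
    (fun m hm => (smul_eq_zero.mp hm).resolve_left hxR0) r hAF πR hπs hkR
  have hdS := dimsL S S M N x hSx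
    (fun s hs => (mul_eq_zero.mp hs).resolve_left hx0)
    (fun m hm => (hTFS x m hm).resolve_left hx0) _ hAFS πS hπs hkS
  have h1 : Module.length S (Module.End R N) =
      (r : ℕ∞) ^ 2 * ((∏ i, n i : ℕ) * Module.length S (S ⧸ Ideal.span {x})) := by
    rw [hdR.2.2.2.mp hLR, hRx]
  have hxN : ∀ v : N, x • v = 0 := by
    intro v
    obtain ⟨m, rfl⟩ := hπs v
    rw [← algebraMap_smul R x (πR m), ← map_smul]
    exact (hkR _).mpr ⟨m, rfl⟩
  let ρ : R →+* Module.End S N := (Algebra.lsmul S S N).toRingHom
  have hρ : ∀ (a : R) (v : N), ρ a v = a • v := fun a v => rfl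
  have hkey := multi_key (Λ := S) hdS.2.1 ρ c Y n hn (by
    intro i
    rcases hY i with hi | ⟨p, a, hp, hpx, hd, b, hb⟩
    · left
      rw [← map_pow]
      obtain ⟨t, ht⟩ := Ideal.mem_span_singleton'.mp hi
      refine LinearMap.ext fun v => ?_
      rw [hρ, ← ht, mul_smul, algebraMap_smul, hxN, smul_zero]
      rfl
    · right
      refine ⟨p, a, hp, ?_, hd, ?_⟩
      · obtain ⟨t, ht⟩ := Ideal.mem_span_singleton'.mp hpx
        refine LinearMap.ext fun v => ?_
        have : ((p : ℕ) : Module.End S N) v = (p : S) • v := by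
          rw [Module.End.natCast_apply, Nat.cast_smul_eq_nsmul]
        rw [this, ← ht, mul_smul, hxN, smul_zero]
        rfl
      · intro e
        obtain ⟨t, ht⟩ := Ideal.mem_span_singleton'.mp hb
        have hb2 : Y i ^ n i = algebraMap S R b + t * algebraMap S R x := by
          rw [ht]; ring
        have hact : ∀ v : N, Y i ^ n i • v = b • v := by
          intro v
          rw [hb2, add_smul, mul_smul, algebraMap_smul, algebraMap_smul, hxN, smul_zero,
            add_zero]
        rw [← map_pow]
        refine LinearMap.ext fun v => ?_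
        change Y i ^ n i • e v = e (Y i ^ n i • v)
        rw [hact, hact, map_smul])
  obtain ⟨hE1, hE2⟩ := hkey
  have hcm : Module.length S (⨅ i, cenL S (ρ (Y i)) : Submodule S (Module.End S N)) =
      Module.length S (Module.End R N) := length_commutantM S S R N c Y hadj
  rw [hcm] at hE1 hE2
  have h2 : Module.length S (Module.End S N) =
      (((∏ i, n i) * r : ℕ) : ℕ∞) ^ 2 * Module.length S (S ⧸ Ideal.span {x}) := by
    apply le_antisymm _ hdS.2.2.1
    refine hE1.trans (le_of_eq ?_)
    rw [h1, Nat.cast_mul]; ring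
  have hLS : Lift S M x := hdS.2.2.2.mpr h2
  obtain ⟨θ, hθ⟩ := hE2 (by rw [h1, h2, Nat.cast_mul]; ring)
  have hreflS := reflexive_of_lift S hS M hTFS x hx hx0 hLS
  have : NoZeroSMulDivisors S M := ⟨fun {s m} h0 => hTFS s m h0⟩
  have hfree : Module.Free S M := h M hreflS
  -- the quotient rings
  let B := S ⧸ Ideal.span {x}
  let B' := R ⧸ Ideal.span {algebraMap S R x}
  have hle : Ideal.span {x} ≤ Ideal.comap (algebraMap S R) (Ideal.span {algebraMap S R x}) := by
    rw [Ideal.span_le, Set.singleton_subset_iff]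
    exact Ideal.mem_span_singleton_self _
  let φ : B →+* B' := Ideal.quotientMap _ (algebraMap S R) hle
  let _ : Algebra B B' := φ.toAlgebra
  let _ : Module B N := Module.compHom N φ
  have hBB : IsScalarTower B B' N := ⟨fun s r m => by
    rw [Algebra.smul_def, mul_smul]; rfl⟩
  have hact : ∀ (s : S) (v : N), (Ideal.Quotient.mk (Ideal.span {x}) s : B) • v = s • v := by
    intro s v
    obtain ⟨m, rfl⟩ := hπs v
    have e1 : (Ideal.Quotient.mk (Ideal.span {x}) s : B) • (πR m : N) =
        (φ (Ideal.Quotient.mk (Ideal.span {x}) s)) • (πR m : N) := rfl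
    rw [e1, show φ (Ideal.Quotient.mk (Ideal.span {x}) s) =
      Ideal.Quotient.mk (Ideal.span {algebraMap S R x}) (algebraMap S R s) from
      Ideal.quotientMap_mk, ← algebraMap_smul R s (πR m)]
    rfl
  have hfreeN : Module.Free B N := free_quot S R M x (fun s m => hact s (πR m))
  have hlocx : Ideal.span {algebraMap S R x} ≠ ⊤ := by
    intro htop
    have : Ideal.span {algebraMap S R x} ≤ maximalIdeal R := by
      rw [Ideal.span_le, Set.singleton_subset_iff]; exact hxR
    rw [htop] at this
    exact (Ideal.IsPrime.ne_top (inferInstance : (maximalIdeal R).IsPrime))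
      (top_le_iff.mp this)
  have : Nontrivial B' := Ideal.Quotient.nontrivial_iff.mpr hlocx
  have : IsLocalRing B' := IsLocalRing.of_surjective' (Ideal.Quotient.mk _)
    Ideal.Quotient.mk_surjective
  have hSN : Module.Finite S N := Module.Finite.of_surjective πS hπs
  have hBN : Module.Finite B N := by
    obtain ⟨t, ht⟩ := hSN.fg_top
    refine ⟨⟨t, ?_⟩⟩
    rw [eq_top_iff]
    intro v _
    have hv : v ∈ Submodule.span S (t : Set N) := by rw [ht]; trivial
    refine Submodule.span_induction (p := fun v _ => v ∈ Submodule.span B (t : Set N))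
      (fun w hw => Submodule.subset_span hw) (Submodule.zero_mem _)
      (fun a b _ _ ha hb => Submodule.add_mem _ ha hb) (fun s a _ ha => ?_) hv
    rw [← hact s a]
    exact Submodule.smul_mem _ _ ha
  -- `θ` is linear over `B`
  let θB : N →ₗ[B] N :=
    { toFun := θ
      map_add' := θ.map_add
      map_smul' := by
        intro a v
        obtain ⟨s, rfl⟩ := Ideal.Quotient.mk_surjective a
        rw [hact, RingHom.id_apply, hact, map_smul] }
  have hmk : ∀ (a : R) (v : N), (Ideal.Quotient.mk (Ideal.span {algebraMap S R x}) a : B') • v =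
      a • v := by
    intro a v
    obtain ⟨m, rfl⟩ := hπs v
    rfl
  have hfreeN' : Module.Free B' N := by
    refine relProjM B B' N c (fun i => Ideal.Quotient.mk _ (Y i)) n hn ?_ ?_ θB ?_
    · rw [eq_top_iff]
      intro b _
      obtain ⟨a, rfl⟩ := Ideal.Quotient.mk_surjective b
      have ha : a ∈ Algebra.adjoin S (Set.range Y) := by rw [hadj]; trivial
      refine Algebra.adjoin_induction (p := fun a _ =>
        (Ideal.Quotient.mk (Ideal.span {algebraMap S R x}) a : B') ∈
          Algebra.adjoin B (Set.range fun i =>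
            (Ideal.Quotient.mk (Ideal.span {algebraMap S R x}) (Y i) : B'))) ?_ ?_ ?_ ?_ ha
      · rintro _ ⟨i, rfl⟩
        exact Algebra.subset_adjoin ⟨i, rfl⟩
      · intro s
        have : (Ideal.Quotient.mk (Ideal.span {algebraMap S R x}) (algebraMap S R s) : B') =
            algebraMap B B' (Ideal.Quotient.mk (Ideal.span {x}) s) := rfl
        rw [this]
        exact Subalgebra.algebraMap_mem _ _
      · intro a b _ _ ha hb
        rw [map_add]; exact Subalgebra.add_mem _ ha hb
      · intro a b _ _ ha hb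
        rw [map_mul]; exact Subalgebra.mul_mem _ ha hb
    · intro i
      rcases hY i with hi | ⟨p, a, hp, hpx, hd, b, hb⟩
      · refine ⟨0, ?_⟩
        rw [← map_pow, map_zero]
        exact Ideal.Quotient.eq_zero_iff_mem.mpr hi
      · refine ⟨Ideal.Quotient.mk _ b, ?_⟩
        rw [← map_pow]
        exact Ideal.Quotient.mk_eq_mk_iff_sub_mem _ _ |>.mpr hb
    · intro v
      have e := congrArg (fun f : Module.End S N => f v) hθ
      simp only [LinearMap.sum_apply, Module.End.mul_apply, hρ, Module.End.one_apply] at e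
      refine Eq.trans (Finset.sum_congr rfl fun α _ => ?_) e
      simp only [← map_pow, ← map_prod, hmk]
      rfl
  have hfinR := finLen R hR (algebraMap S R x) hxR0
  have hdR' := dimsL R R M N (algebraMap S R x) hfinR
    (fun s hs => (mul_eq_zero.mp hs).resolve_left hxR0)
    (fun m hm => (smul_eq_zero.mp hm).resolve_left hxR0) r hAF πR hπs hkR
  exact free_of_quotL R M (algebraMap S R x) hxR hxR0 r hAF hfinR hdR'.1 hfreeN'

end Pool.Agent.HWC
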