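import Pool.Agent.HWC.SGDefs

/-!
# HWC, module SGRings (helper60 for helper11): semigroup rings

`sg_top`: the subalgebra is all of `k[[t]]`.  `sg_step`: the algebra structure is `f(t) ↦ f(t ^ d)`,
and `1, t ^ a, ..., t ^ (a (d - 1))` is a basis.
-/

set_option autoImplicit false

namespace Pool.Agent.HWC

open IsLocalRing Module

section top

private theorem SGRings_top (k : Type) [Field k] : sgRing k ⊤ = ⊤ := by
  rw [eq_top_iff]
  intro f _ n _
  exact AddSubmonoid.mem_top n

theorem sg_top (k : Type) [Field k] : IsDiscreteValuationRing (sgRing k ⊤) ∧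
    ∃ _ : IsLocalRing (sgRing k ⊤), Module.Finite k (ResidueField (sgRing k ⊤)) := by
  have e : PowerSeries k ≃ₐ[k] sgRing k ⊤ :=
    (Subalgebra.topEquiv.symm).trans (Subalgebra.equivOfEq _ _ (SGRings_top k).symm)
  have hD : IsDiscreteValuationRing (sgRing k ⊤) :=
    IsDiscreteValuationRing.RingEquivClass.isDiscreteValuationRing e
  refine ⟨hD, inferInstance, ?_⟩
  refine Module.Finite.of_surjective (Algebra.linearMap k (ResidueField (sgRing k ⊤))) ?_
  intro z
  obtain ⟨f, rfl⟩ := IsLocalRing.residue_surjective z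
  refine ⟨PowerSeries.constantCoeff (f : PowerSeries k), ?_⟩
  rw [Algebra.linearMap_apply,
    IsScalarTower.algebraMap_apply k (sgRing k ⊤) (ResidueField (sgRing k ⊤))]
  change residue (sgRing k ⊤) _ = residue (sgRing k ⊤) f
  rw [← sub_eq_zero, ← map_sub, IsLocalRing.residue_eq_zero_iff, IsLocalRing.mem_maximalIdeal]
  intro hu
  have h1 : IsUnit ((sgRing k ⊤).val (algebraMap k (sgRing k ⊤)
    (PowerSeries.constantCoeff (f : PowerSeries k)) - f)) := hu.map _
  rw [PowerSeries.isUnit_iff_constantCoeff, map_sub, map_sub] at h1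
  have h2 : PowerSeries.constantCoeff ((sgRing k ⊤).val (algebraMap k (sgRing k ⊤)
      (PowerSeries.constantCoeff (f : PowerSeries k)))) =
      PowerSeries.constantCoeff (f : PowerSeries k) := by
    change PowerSeries.constantCoeff (algebraMap k (PowerSeries k) _) = _
    rw [PowerSeries.algebraMap_apply, Algebra.algebraMap_self, RingHom.id_apply,
      PowerSeries.constantCoeff_C]
  rw [h2] at h1
  have h3 : (sgRing k ⊤).val f = (f : PowerSeries k) := rfl
  rw [h3, sub_self] at h1
  exact not_isUnit_zero h1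

end top

section step

variable {k : Type} [Field k] {H : AddSubmonoid ℕ} {d a : ℕ}

/-- the map `f(t) ↦ f(t ^ d)` -/
private noncomputable def SGRings_phi (hd : 0 < d) : sgRing k H →ₐ[k] sgRing k (glue H d a) :=
  ((PowerSeries.expand d hd.ne').comp (sgRing k H).val).codRestrict _ (by
    intro f n hn
    have h1 : PowerSeries.coeff n (PowerSeries.expand d hd.ne' (f : PowerSeries k)) ≠ 0 := hn
    rw [PowerSeries.coeff_expand] at h1
    by_cases h : d ∣ n
    · rw [if_pos h] at h1
      exact ⟨n / d, f.2 _ h1, 0, by rw [mul_zero, add_zero, Nat.mul_div_cancel' h]⟩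
    · rw [if_neg h] at h1
      exact absurd rfl h1)

private theorem SGRings_coe (hd : 0 < d) (f : sgRing k H) :
    ((SGRings_phi (a := a) hd f : sgRing k (glue H d a)) : PowerSeries k) =
      PowerSeries.expand d hd.ne' (f : PowerSeries k) := rfl

private theorem SGRings_mem_pow {H : AddSubmonoid ℕ} {n : ℕ} (h : n ∈ H) :
    (PowerSeries.X : PowerSeries k) ^ n ∈ sgRing k H := by
  intro m hm
  rw [PowerSeries.coeff_X_pow] at hm
  by_cases h1 : m = n
  · rw [h1]
    exact h
  · rw [if_neg h1] at hm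
    exact absurd rfl hm

private theorem SGRings_mem_a : a ∈ glue H d a := ⟨0, H.zero_mem, 1, by ring⟩

/-- the generator -/
private noncomputable def SGRings_gen (k : Type) [Field k] (H : AddSubmonoid ℕ) (d a : ℕ) :
    sgRing k (glue H d a) := ⟨PowerSeries.X ^ a, SGRings_mem_pow SGRings_mem_a⟩

/-- the coefficients of `φ(f) t ^ (a i)` -/
private theorem SGRings_coeff (hd : 0 < d) (f : sgRing k H) (i n : ℕ) :
    PowerSeries.coeff n ((SGRings_phi (a := a) hd f * SGRings_gen k H d a ^ i :
      sgRing k (glue H d a)) : PowerSeries k) =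
    if a * i ≤ n ∧ d ∣ n - a * i then PowerSeries.coeff ((n - a * i) / d) (f : PowerSeries k)
      else 0 := by
  have h1 : ((SGRings_phi (a := a) hd f * SGRings_gen k H d a ^ i :
      sgRing k (glue H d a)) : PowerSeries k) =
      PowerSeries.expand d hd.ne' (f : PowerSeries k) * PowerSeries.X ^ (a * i) := by
    rw [MulMemClass.coe_mul, SubmonoidClass.coe_pow, SGRings_coe, pow_mul]
    rfl
  rw [h1, PowerSeries.coeff_mul_X_pow']
  by_cases h2 : a * i ≤ n
  · rw [if_pos h2, PowerSeries.coeff_expand]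
    by_cases h3 : d ∣ n - a * i
    · rw [if_pos h3, if_pos ⟨h2, h3⟩]
    · rw [if_neg h3, if_neg fun h => h3 h.2]
  · rw [if_neg h2, if_neg fun h => h2 h.1]

/-- uniqueness of the residue -/
private theorem SGRings_uniq (hc : Nat.Coprime a d) {i j n : ℕ} (hi : i < d) (hj : j < d)
    (h1 : a * i ≤ n) (h2 : d ∣ n - a * i) (h3 : a * j ≤ n) (h4 : d ∣ n - a * j) : i = j := by
  have e1 : (a * i) ≡ n [MOD d] := (Nat.modEq_iff_dvd' h1).2 h2
  have e2 : (a * j) ≡ n [MOD d] := (Nat.modEq_iff_dvd' h3).2 h4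
  have e3 : (a * i) ≡ (a * j) [MOD d] := e1.trans e2.symm
  have e4 : i ≡ j [MOD d] := Nat.ModEq.cancel_left_of_coprime (by
    rw [Nat.gcd_comm]
    exact hc) e3
  have e5 : i % d = j % d := e4
  rwa [Nat.mod_eq_of_lt hi, Nat.mod_eq_of_lt hj] at e5

/-- an element of `glue` with residue `a i` -/
private theorem SGRings_glue (ha : a ∈ H) (hd : 0 < d) (hc : Nat.Coprime a d) {i h : ℕ}
    (hi : i < d) (hg : d * h + a * i ∈ glue H d a) : h ∈ H := by
  obtain ⟨h', hh', j, he⟩ := hg
  have e1 : a * i ≡ a * j [MOD d] := by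
    have e2 : d * h + a * i ≡ a * i [MOD d] := by
      simp [Nat.ModEq]
    have e3 : d * h' + a * j ≡ a * j [MOD d] := by
      simp [Nat.ModEq]
    rw [he] at e2
    exact e2.symm.trans e3
  have e4 : i ≡ j [MOD d] := Nat.ModEq.cancel_left_of_coprime (by
    rw [Nat.gcd_comm]
    exact hc) e1
  have e5 : i % d = j % d := e4
  rw [Nat.mod_eq_of_lt hi] at e5
  have e6 := Nat.div_add_mod j d
  rw [← e5] at e6
  have e7 : d * h = d * (h' + a * (j / d)) := by
    rw [← e6] at he
    have e8 : (d * (j / d) + i) / d = j / d := by rw [e6]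
    nlinarith [he]
  have e9 : h = h' + a * (j / d) := Nat.eq_of_mul_eq_mul_left hd e7
  rw [e9]
  refine H.add_mem hh' ?_
  rw [mul_comm, ← smul_eq_mul]
  exact H.nsmul_mem ha _

end step

theorem sg_step (k : Type) [Field k] (H : AddSubmonoid ℕ) (d a : ℕ) (ha : a ∈ H) (ha0 : 0 < a)
    (hd : 0 < d) (hc : Nat.Coprime a d) :
    ∃ A : Algebra (sgRing k H) (sgRing k (glue H d a)),
      IsScalarTower k (sgRing k H) (sgRing k (glue H d a)) ∧
      ∃ (pb : PowerBasis (sgRing k H) (sgRing k (glue H d a))) (x : sgRing k H),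
        pb.dim = d ∧ (x : PowerSeries k) = PowerSeries.X ^ a ∧
        pb.gen ^ pb.dim = algebraMap (sgRing k H) (sgRing k (glue H d a)) x := by
  let φ : sgRing k H →ₐ[k] sgRing k (glue H d a) := SGRings_phi hd
  letI A : Algebra (sgRing k H) (sgRing k (glue H d a)) := φ.toRingHom.toAlgebra
  have hA : ∀ r : sgRing k H, algebraMap (sgRing k H) (sgRing k (glue H d a)) r = φ r :=
    fun r => rfl
  have hsm : ∀ (r : sgRing k H) (s : sgRing k (glue H d a)), r • s = φ r * s :=
    fun r s => Algebra.smul_def r s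
  have hT : IsScalarTower k (sgRing k H) (sgRing k (glue H d a)) :=
    IsScalarTower.of_algebraMap_eq fun c => (φ.commutes c).symm
  refine ⟨A, hT, ?_⟩
  let g : sgRing k (glue H d a) := SGRings_gen k H d a
  let Ψ : (Fin d → sgRing k H) →ₗ[sgRing k H] sgRing k (glue H d a) :=
    ∑ i : Fin d, (LinearMap.toSpanSingleton (sgRing k H) (sgRing k (glue H d a)) (g ^ (i : ℕ))) ∘ₗ
      LinearMap.proj i
  have hΨ : ∀ f, Ψ f = ∑ i : Fin d, φ (f i) * g ^ (i : ℕ) := by
    intro f
    simp only [Ψ, LinearMap.sum_apply, LinearMap.comp_apply, LinearMap.proj_apply,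
      LinearMap.toSpanSingleton_apply, hsm]
  have hcoe : ∀ (f : Fin d → sgRing k H) (n : ℕ),
      PowerSeries.coeff n ((Ψ f : sgRing k (glue H d a)) : PowerSeries k) =
        ∑ i : Fin d, if a * (i : ℕ) ≤ n ∧ d ∣ n - a * (i : ℕ) then
          PowerSeries.coeff ((n - a * (i : ℕ)) / d) ((f i : sgRing k H) : PowerSeries k)
          else 0 := by
    intro f n
    rw [hΨ]
    have h1 : ((∑ i : Fin d, φ (f i) * g ^ (i : ℕ) : sgRing k (glue H d a)) : PowerSeries k) =
        ∑ i : Fin d, ((φ (f i) * g ^ (i : ℕ) : sgRing k (glue H d a)) : PowerSeries k) :=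
      map_sum (sgRing k (glue H d a)).val _ _
    rw [h1, map_sum]
    exact Finset.sum_congr rfl fun i _ => SGRings_coeff hd (f i) i n
  have hone : ∀ (f : Fin d → sgRing k H) (i : Fin d) (h : ℕ),
      PowerSeries.coeff (d * h + a * (i : ℕ)) ((Ψ f : sgRing k (glue H d a)) : PowerSeries k) =
        PowerSeries.coeff h ((f i : sgRing k H) : PowerSeries k) := by
    intro f i h
    have h1 : a * (i : ℕ) ≤ d * h + a * (i : ℕ) := Nat.le_add_left _ _
    have h2 : d * h + a * (i : ℕ) - a * (i : ℕ) = d * h := Nat.add_sub_cancel _ _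
    have h3 : d ∣ d * h + a * (i : ℕ) - a * (i : ℕ) := by rw [h2]; exact Dvd.intro h rfl
    rw [hcoe, Finset.sum_eq_single i]
    · rw [if_pos ⟨h1, h3⟩, h2, Nat.mul_div_cancel_left _ hd]
    · intro j _ hj
      rw [if_neg]
      rintro ⟨h4, h5⟩
      exact hj (Fin.ext (SGRings_uniq hc j.2 i.2 h4 h5 h1 h3))
    · intro h4
      exact absurd (Finset.mem_univ i) h4
  have hinj : Function.Injective Ψ := by
    rw [injective_iff_map_eq_zero]
    intro f hf
    funext i
    apply Subtype.ext
    ext h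
    rw [← hone f i h, hf]
    rfl
  have hsurj : Function.Surjective Ψ := by
    intro s
    let f : Fin d → sgRing k H := fun i =>
      ⟨PowerSeries.mk fun h => PowerSeries.coeff (d * h + a * (i : ℕ)) (s : PowerSeries k), by
        intro h hh
        rw [PowerSeries.coeff_mk] at hh
        exact SGRings_glue ha hd hc i.2 (s.2 _ hh)⟩
    have hf : ∀ i h, PowerSeries.coeff h ((f i : sgRing k H) : PowerSeries k) =
        PowerSeries.coeff (d * h + a * (i : ℕ)) (s : PowerSeries k) :=
      fun i h => by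
        change PowerSeries.coeff h (PowerSeries.mk fun h =>
          PowerSeries.coeff (d * h + a * (i : ℕ)) (s : PowerSeries k)) = _
        exact PowerSeries.coeff_mk _ _
    refine ⟨f, ?_⟩
    apply Subtype.ext
    ext n
    by_cases hn : ∃ i : Fin d, a * (i : ℕ) ≤ n ∧ d ∣ n - a * (i : ℕ)
    · obtain ⟨i, h1, h, h2⟩ := hn
      have h3 : n = d * h + a * (i : ℕ) := by omega
      rw [h3, hone, hf]
    · have h0 : PowerSeries.coeff n ((Ψ f : sgRing k (glue H d a)) : PowerSeries k) = 0 := by
        rw [hcoe]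
        refine Finset.sum_eq_zero fun i _ => ?_
        rw [if_neg]
        intro h
        exact hn ⟨i, h⟩
      rw [h0]
      by_contra hne
      obtain ⟨h', hh', j, he⟩ := s.2 n (Ne.symm hne)
      apply hn
      refine ⟨⟨j % d, Nat.mod_lt _ hd⟩, ?_, ?_⟩
      · change a * (j % d) ≤ n
        have h1 : a * (j % d) ≤ a * j := Nat.mul_le_mul_left _ (Nat.mod_le _ _)
        omega
      · change d ∣ n - a * (j % d)
        have h2 := Nat.div_add_mod j d
        refine ⟨h' + a * (j / d), ?_⟩
        have h3 : n = d * (h' + a * (j / d)) + a * (j % d) := by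
          rw [he]
          conv_lhs => rw [← h2]
          ring
        omega
  let e : (Fin d → sgRing k H) ≃ₗ[sgRing k H] sgRing k (glue H d a) :=
    LinearEquiv.ofBijective Ψ ⟨hinj, hsurj⟩
  let pb : PowerBasis (sgRing k H) (sgRing k (glue H d a)) :=
    { gen := g
      dim := d
      basis := Module.Basis.ofEquivFun e.symm
      basis_eq_pow := by
        intro i
        rw [Module.Basis.coe_ofEquivFun, LinearEquiv.symm_symm]
        change Ψ (Pi.single i 1) = g ^ (i : ℕ)
        rw [hΨ, Finset.sum_eq_single i]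
        · rw [Pi.single_eq_same, map_one, one_mul]
        · intro j _ hj
          rw [Pi.single_eq_of_ne hj, map_zero, zero_mul]
        · intro h
          exact absurd (Finset.mem_univ i) h }
  refine ⟨pb, ⟨PowerSeries.X ^ a, SGRings_mem_pow ha⟩, rfl, rfl, ?_⟩
  rw [hA]
  apply Subtype.ext
  change ((g ^ d : sgRing k (glue H d a)) : PowerSeries k) = _
  have h1 : ((φ ⟨PowerSeries.X ^ a, SGRings_mem_pow ha⟩ : sgRing k (glue H d a)) :
      PowerSeries k) = PowerSeries.expand d hd.ne' (PowerSeries.X ^ a) := SGRings_coe hd _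
  have h2 : (g : PowerSeries k) = PowerSeries.X ^ a := rfl
  rw [h1, SubmonoidClass.coe_pow, h2, map_pow, PowerSeries.expand_X, ← pow_mul, ← pow_mul,
    mul_comm]

end Pool.Agent.HWC
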