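import Pool.Agent.HWC.MainL
import Pool.Agent.HWC.Dvr
import Pool.Agent.HWC.SGRings

/-! (HWC) for the rings of free numerical semigroups. -/

set_option autoImplicit false

namespace Pool.Agent.HWC

open IsLocalRing Module

theorem sg_hwcL (k : Type) [Field k] (H : AddSubmonoid ℕ) (hH : FreeSG H) :
    ∃ _ : IsLocalRing (sgRing k H), IsNoetherianRing (sgRing k H) ∧ GorOne (sgRing k H) ∧
      HWC (sgRing k H) := by
  induction hH with
  | top =>
    obtain ⟨h1, h2, h3⟩ := sg_top k
    obtain ⟨h4, h5⟩ := dvr_base (sgRing k ⊤)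
    exact ⟨inferInstance, inferInstance, h4, h5⟩
  | step H d a hH ha ha0 hd hc ih =>
    obtain ⟨i1, i2, i3, i5⟩ := ih
    obtain ⟨A, hA, pb, x, -, hx, hy⟩ := sg_step k H d a ha ha0 hd hc
    have hx0 : x ≠ 0 := by
      intro h0
      rw [h0] at hx
      have : PowerSeries.coeff a (PowerSeries.X ^ a : PowerSeries k) = 1 := by
        rw [PowerSeries.coeff_X_pow_self]
      rw [← hx] at this
      simp at this
    have hxm : x ∈ maximalIdeal (sgRing k H) := by
      rw [IsLocalRing.mem_maximalIdeal]
      intro hu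
      have hu2 : IsUnit (x : PowerSeries k) := hu.map (sgRing k H).val
      rw [hx, PowerSeries.isUnit_iff_constantCoeff, map_pow, PowerSeries.constantCoeff_X,
        zero_pow ha0.ne'] at hu2
      exact not_isUnit_zero hu2
    obtain ⟨j1, j2, j3, j5⟩ := closureL (sgRing k H) (sgRing k (glue H d a)) pb i3 x hxm hx0
      (Or.inl (by rw [hy]; exact Ideal.mem_span_singleton_self _))
    exact ⟨j1, j2, j3, j5 i5⟩

end Pool.Agent.HWC
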