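import Pool.Agent.HWC.MainM

/-! Tightness passes from `B` to `B' = B[y_1, ..., y_c]`, free over `B` of rank `n_1 ... n_c`, with
`y_i ^ n_i = 0`, or `n_i = p ^ a` and `y_i ^ n_i` in `B` if `p = 0` in `B`. -/

set_option autoImplicit false

namespace Pool.Agent.HWC

open IsLocalRing Module

theorem tight_stepM (B B' : Type) [CommRing B] [IsLocalRing B] [IsArtinianRing B] [CommRing B']
    [IsLocalRing B'] [Algebra B B'] [Module.Finite B B'] [Module.Free B B']
    (c : ℕ) (Y : Fin c → B') (n : Fin c → ℕ) (hn : ∀ i, 0 < n i)
    (hrank : finrank B B' = ∏ i, n i) (hadj : Algebra.adjoin B (Set.range Y) = ⊤)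
    (hY : ∀ i, Y i ^ n i = 0 ∨ (∃ p a : ℕ, p.Prime ∧ (p : B) = 0 ∧ n i = p ^ a ∧
      ∃ b : B, Y i ^ n i = algebraMap B B' b))
    (ht : TightL B) : TightL B' := by
  have hB : Module.length B B ≠ ⊤ := Module.length_ne_top
  have : IsArtinianRing B' := IsArtinianRing.of_finite B B'
  intro N _ _ _
  let _ : Module B N := Module.compHom N (algebraMap B B')
  have : IsScalarTower B B' N := ⟨fun s r m => by
    rw [Algebra.smul_def, mul_smul]; rfl⟩
  have : Module.Finite B N := Module.Finite.trans B' N
  have hd : Module.length B B' = (∏ i, n i : ℕ) * Module.length B B := by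
    rw [Module.length_of_free_of_finite, hrank]
  have hfE : Module.Finite B (Module.End B N) := inferInstance
  have hE : Module.length B (Module.End B N) ≠ ⊤ := Module.length_ne_top
  have hfE' : Module.Finite B' (Module.End B' N) := inferInstance
  have hE' : Module.length B' (Module.End B' N) ≠ ⊤ := Module.length_ne_top
  have hN' : Module.length B' N ≠ ⊤ := Module.length_ne_top
  have hB' : Module.length B' B' ≠ ⊤ := Module.length_ne_top
  set δ := Module.length B (ResidueField B') with hδ
  have s1 : Module.length B N = δ * Module.length B' N := len_scale B B' N hN'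
  have s2 : Module.length B B' = δ * Module.length B' B' := len_scale B B' B' hB'
  have s3 : Module.length B (Module.End B' N) = δ * Module.length B' (Module.End B' N) :=
    len_scale B B' (Module.End B' N) hE'
  have hδt : δ ≠ ⊤ := by
    have : Module.Finite B (ResidueField B') := Module.Finite.trans B' _
    exact Module.length_ne_top
  have hδ0 : δ ≠ 0 := by
    rw [hδ, Ne, Module.length_eq_zero_iff]
    exact not_subsingleton _
  obtain ⟨ht1, ht2⟩ := ht N
  let ρ : B' →+* Module.End B N := (Algebra.lsmul B B N).toRingHom
  have hρ : ∀ (a : B') (v : N), ρ a v = a • v := fun a v => rfl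
  obtain ⟨hE1, hE2⟩ := multi_key (Λ := B) hE ρ c Y n hn (by
    intro i
    rcases hY i with hi | ⟨p, a, hp, hp0, hd, b, hb⟩
    · left
      rw [← map_pow, hi, map_zero]
    · right
      refine ⟨p, a, hp, ?_, hd, ?_⟩
      · refine LinearMap.ext fun v => ?_
        have : ((p : ℕ) : Module.End B N) v = (p : B) • v := by
          rw [Module.End.natCast_apply, Nat.cast_smul_eq_nsmul]
        rw [this, hp0, zero_smul]
        rfl
      · intro e
        rw [← map_pow]
        refine LinearMap.ext fun v => ?_
        change Y i ^ n i • e v = e (Y i ^ n i • v)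
        rw [hb, algebraMap_smul, algebraMap_smul, map_smul])
  have hcm : Module.length B (⨅ i, cenL B (ρ (Y i)) : Submodule B (Module.End B N)) =
      Module.length B (Module.End B' N) := length_commutantM B B B' N c Y hadj
  rw [hcm] at hE1 hE2
  have hBpos : Module.length B B ≠ 0 := by
    rw [Ne, Module.length_eq_zero_iff]
    exact not_subsingleton _
  have cancel : ∀ a b : ℕ∞, δ * δ * a ≤ δ * δ * b → a ≤ b := by
    intro a b hab
    have hdd : δ * δ ≠ 0 := mul_ne_zero hδ0 hδ0
    have hddt : δ * δ ≠ ⊤ := WithTop.mul_ne_top hδt hδt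
    exact (ENat.mul_le_mul_left_iff hdd hddt).mp hab
  have c1 : (Module.length B N) ^ 2 = δ * δ * (Module.length B' N) ^ 2 := by
    rw [s1]; ring
  have c2 : Module.length B B * ((∏ i, n i : ℕ) * Module.length B (Module.End B' N)) =
      δ * δ * (Module.length B' B' * Module.length B' (Module.End B' N)) := by
    have : Module.length B B * ((∏ i, n i : ℕ) * Module.length B (Module.End B' N)) =
        Module.length B B' * Module.length B (Module.End B' N) := by rw [hd]; ring
    rw [this, s2, s3]; ring
  refine ⟨?_, ?_⟩
  · refine cancel _ _ ?_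
    rw [← c1, ← c2]
    exact ht1.trans (mul_le_mul_right hE1 _)
  · intro heq
    have heq2 : (Module.length B N) ^ 2 =
        Module.length B B * ((∏ i, n i : ℕ) * Module.length B (Module.End B' N)) := by
      rw [c1, c2, heq]
    have e2 : Module.length B (Module.End B N) =
        (∏ i, n i : ℕ) * Module.length B (Module.End B' N) := by
      refine le_antisymm hE1 ?_
      refine (ENat.mul_le_mul_left_iff hBpos hB).mp ?_
      rw [← heq2]; exact ht1
    obtain ⟨θ, hθ⟩ := hE2 e2
    have : Module.Free B N := ht2 (by rw [heq2, e2])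
    refine relProjM B B' N c Y n hn hadj ?_ θ ?_
    · intro i
      rcases hY i with hi | ⟨p, a, hp, hp0, hd, b, hb⟩
      · exact ⟨0, by rw [hi, map_zero]⟩
      · exact ⟨b, hb⟩
    · intro v
      have e := congrArg (fun f : Module.End B N => f v) hθ
      simp only [LinearMap.sum_apply, Module.End.mul_apply, hρ, Module.End.one_apply] at e
      exact e

end Pool.Agent.HWC
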