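import Pool.Agent.HWC.Clauses
import Pool.Agent.HWC.TightM
import Pool.Agent.HWC.SGMainL

/-! Proof of `RadicalClosure`. -/

set_option autoImplicit false

namespace Pool.Agent.HWC

open IsLocalRing Module

/-- (HWC) passes through isomorphisms -/
theorem hwc_of_equiv (S S' : Type) [CommRing S] [IsDomain S] [IsLocalRing S] [IsNoetherianRing S]
    [CommRing S'] [IsDomain S'] [IsLocalRing S'] [IsNoetherianRing S'] (e : S ≃+* S')
    (hS : GorOne S) (hS' : GorOne S') (h : HWC S') : HWC S := by
  letI : Algebra S' S := e.symm.toRingHom.toAlgebra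
  have hsurj : Function.Surjective (algebraMap S' S) := e.symm.surjective
  have hinj : Function.Injective (algebraMap S' S) := e.symm.injective
  let L : S' ≃ₗ[S'] S := LinearEquiv.ofBijective (Algebra.linearMap S' S) ⟨hinj, hsurj⟩
  haveI : Module.Finite S' S := Module.Finite.equiv L
  haveI : Module.Free S' S := Module.Free.of_equiv L
  obtain ⟨x, hx, hx0, _⟩ := (pkg_of_gorOne S' hS').gor
  refine closureM S' S hS' hS x hx hx0 0 Fin.elim0 Fin.elim0 (fun i => i.elim0) ?_ ?_
    (fun i => i.elim0) h
  · rw [← L.finrank_eq, Module.finrank_self, Fin.prod_univ_zero]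
  · rw [eq_top_iff]
    rintro s -
    obtain ⟨t, rfl⟩ := hsurj s
    exact Subalgebra.algebraMap_mem _ t

theorem radicalClosure : RadicalClosure := by
  intro S R _ _ _ _ _ _ _ _ _ _ _ hS hR x hx hx0 c Y n hn hrank hadj hY h
  have hS' : HWC S := by
    rcases h with h | ⟨k, _, H, hH, ⟨e⟩⟩
    · exact h
    · obtain ⟨_, _, hg, h'⟩ := sg_hwcL k H hH
      exact hwc_of_equiv S _ e hS hg h'
  exact closureM S R hS hR x hx hx0 c Y n hn hrank hadj hY hS'

end Pool.Agent.HWC
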