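import Pool.Agent.HWC.TightStretch

/-!
# HWC: Gorenstein algebras of dimension at most six (helper69)

`tight_six`.  c = dim m/m^2, h = dim m^2/m^3.  If m^2 is not principal then (Nakayama) c, h >= 2 and m^3 is not zero, so e = 6,
c = 2, h = 2, dim m^3 = 1, m^4 = 0, m = (y, z).  The products of three elements of m are in the socle k s; so some form
q = alpha y^2 + beta yz + gamma z^2 is killed by y and z (two equations, three unknowns), and it is a product of two linear
forms l1, l2.
(a) l1, l2 independent: `tight_star`.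
(b) otherwise y^2 is killed by m, for suitable generators y, z.  y z^2 is not zero (else m^2 would be principal), so it spans the socle;
replace y by y - (lambda/2) z^2 and z by z - (mu/3) y: y^2 = 0, z^3 = 0, y z^2 is not 0.  The six elements y^i z^j are independent, so a
basis of B, and `tight_step` twice.
-/

set_option autoImplicit false

namespace Pool.Agent.HWC

open IsLocalRing Module

section

variable {k B : Type} [Field k] [CommRing B] [IsLocalRing B] [Algebra k B] [Module.Finite k B]

omit [Module.Finite k B] in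
/-- elements of the socle are proportional -/
theorem TightSix_prop (hres : Function.Surjective (algebraMap k (ResidueField B)))
    (hG : InfIrred (⊥ : Ideal B)) (x u : B) (hx : ∀ b ∈ maximalIdeal B, b * x = 0)
    (hu : ∀ b ∈ maximalIdeal B, b * u = 0) (hu0 : u ≠ 0) : ∃ l : k, x = l • u := by
  have hmul : ∀ (b w : B), (∀ b ∈ maximalIdeal B, b * w = 0) → ∃ t : k, b * w = t • w := by
    intro b w hw
    obtain ⟨t, ht⟩ := TightShort_res hres b
    refine ⟨t, ?_⟩
    have h1 := hw _ ht
    rw [sub_mul, sub_eq_zero] at h1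
    rw [h1, Algebra.smul_def]
  by_cases hx0 : x = 0
  · exact ⟨0, by rw [hx0, zero_smul]⟩
  have h1 : Ideal.span {x} ⊓ Ideal.span {u} ≠ (⊥ : Ideal B) := by
    intro h
    rcases hG.2 h with h2 | h2
    · exact hx0 (Ideal.span_singleton_eq_bot.1 h2)
    · exact hu0 (Ideal.span_singleton_eq_bot.1 h2)
  obtain ⟨z, ⟨hz1, hz2⟩, hz0⟩ := Submodule.exists_mem_ne_zero_of_ne_bot h1
  obtain ⟨p, hp⟩ := Ideal.mem_span_singleton'.1 hz1
  obtain ⟨q, hq⟩ := Ideal.mem_span_singleton'.1 hz2
  obtain ⟨t, ht⟩ := hmul p x hx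
  obtain ⟨t', ht'⟩ := hmul q u hu
  have ht0 : t ≠ 0 := by
    rintro rfl
    rw [zero_smul] at ht
    exact hz0 (by rw [← hp, ht])
  refine ⟨t⁻¹ * t', ?_⟩
  rw [mul_smul, ← ht', hq, ← hp, ht, ← mul_smul, inv_mul_cancel₀ ht0, one_smul]

omit [Module.Finite k B] in
theorem TightSix_nak (k : Type) {B : Type} [Field k] [CommRing B] [IsLocalRing B] [Algebra k B]
    [Module.Finite k B] (I J : Ideal B) (h : I ≤ J ⊔ maximalIdeal B * I) : I ≤ J := by
  have : IsArtinianRing B := IsArtinianRing.of_finite k B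
  have hfg : I.FG := IsNoetherian.noetherian I
  refine Submodule.le_of_le_smul_of_le_jacobson_bot hfg (I := maximalIdeal B) ?_ h
  rw [jacobson_eq_maximalIdeal _ bot_ne_top]

/-- one more vector -/
theorem TightSix_ext (V' V : Submodule k B) (h : V' ≤ V) (n : ℕ)
    (hd : finrank k V ≤ finrank k V' + (n + 1)) :
    ∃ w ∈ V, finrank k V ≤ finrank k (V' ⊔ Submodule.span k {w} : Submodule k B) + n ∧
      V' ⊔ Submodule.span k {w} ≤ V := by
  by_cases h1 : V ≤ V'
  · refine ⟨0, V.zero_mem, ?_, ?_⟩
    · rw [Submodule.span_zero_singleton, sup_bot_eq]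
      have := Submodule.finrank_mono h1
      omega
    · rw [Submodule.span_zero_singleton, sup_bot_eq]
      exact h
  · obtain ⟨w, hw, hw'⟩ := Set.not_subset.1 h1
    refine ⟨w, hw, ?_, sup_le h ((Submodule.span_singleton_le_iff_mem w V).2 hw)⟩
    have h2 : V' < V' ⊔ Submodule.span k {w} := by
      refine lt_of_le_of_ne le_sup_left fun h3 => hw' ?_
      have h4 : w ∈ V' ⊔ Submodule.span k {w} :=
        Submodule.mem_sup_right (Submodule.mem_span_singleton_self w)
      rw [← h3] at h4
      exact h4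
    have := Submodule.finrank_lt_finrank_of_lt h2
    omega

/-- dimension of an ideal -/
noncomputable def TightSix_fr (k : Type) {B : Type} [Field k] [CommRing B] [Algebra k B]
    (I : Ideal B) : ℕ := finrank k (I.restrictScalars k)

theorem TightSix_one (I : Ideal B)
    (hd : TightSix_fr k I ≤ TightSix_fr k (maximalIdeal B * I) + 1) : ∃ w, I = Ideal.span {w} := by
  have hle : (maximalIdeal B * I).restrictScalars k ≤ I.restrictScalars k := fun x hx =>
    Ideal.mul_le_right hx
  obtain ⟨w, hw, h1, h2⟩ := TightSix_ext _ _ hle 0 hd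
  have h3 := Submodule.eq_of_le_of_finrank_le h2 (by omega)
  refine ⟨w, le_antisymm ?_ ((Ideal.span_singleton_le_iff_mem I).2 hw)⟩
  refine TightSix_nak k I _ fun x hx => ?_
  have h4 : x ∈ (maximalIdeal B * I).restrictScalars k ⊔ Submodule.span k {w} := by
    rw [h3]; exact hx
  obtain ⟨a, ha, b, hb, rfl⟩ := Submodule.mem_sup.1 h4
  obtain ⟨t, rfl⟩ := Submodule.mem_span_singleton.1 hb
  refine Ideal.add_mem _ (Submodule.mem_sup_right ha) (Submodule.mem_sup_left ?_)
  rw [Algebra.smul_def]
  exact Ideal.mul_mem_left _ _ (Ideal.mem_span_singleton_self w)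

theorem TightSix_two (I : Ideal B)
    (hd : TightSix_fr k I ≤ TightSix_fr k (maximalIdeal B * I) + 2) :
    ∃ w w', I = Ideal.span {w, w'} := by
  have hle : (maximalIdeal B * I).restrictScalars k ≤ I.restrictScalars k := fun x hx =>
    Ideal.mul_le_right hx
  obtain ⟨w, hw, h1, h2⟩ := TightSix_ext _ _ hle 1 hd
  obtain ⟨w', hw', h1', h2'⟩ := TightSix_ext _ _ h2 0 h1
  have h3 := Submodule.eq_of_le_of_finrank_le h2' (by omega)
  refine ⟨w, w', le_antisymm ?_ (Ideal.span_le.2 ?_)⟩
  · refine TightSix_nak k I _ fun x hx => ?_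
    have h4 : x ∈ ((maximalIdeal B * I).restrictScalars k ⊔ Submodule.span k {w}) ⊔
        Submodule.span k {w'} := by
      rw [h3]; exact hx
    obtain ⟨a, ha, b, hb, rfl⟩ := Submodule.mem_sup.1 h4
    obtain ⟨t, rfl⟩ := Submodule.mem_span_singleton.1 hb
    obtain ⟨c, hc, d, hd, rfl⟩ := Submodule.mem_sup.1 ha
    obtain ⟨t', rfl⟩ := Submodule.mem_span_singleton.1 hd
    refine Ideal.add_mem _ (Ideal.add_mem _ (Submodule.mem_sup_right hc)
      (Submodule.mem_sup_left ?_)) (Submodule.mem_sup_left ?_)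
    · rw [Algebra.smul_def]
      exact Ideal.mul_mem_left _ _ (Ideal.subset_span (by simp))
    · rw [Algebra.smul_def]
      exact Ideal.mul_mem_left _ _ (Ideal.subset_span (by simp))
  · rintro x (rfl | rfl)
    · exact hw
    · exact hw'

/-- the structure in dimension six -/
theorem TightSix_struct (hres : Function.Surjective (algebraMap k (ResidueField B)))
    (hG : InfIrred (⊥ : Ideal B)) (h6 : finrank k B ≤ 6)
    (hnp : ¬ ∃ w : B, (maximalIdeal B) ^ 2 = Ideal.span {w}) :
    (maximalIdeal B) ^ 4 = ⊥ ∧ ∃ y z : B, maximalIdeal B = Ideal.span {y, z} := by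
  obtain ⟨s, hs0, hsm, hs⟩ := TightRed_socle k hG
  have e2 : maximalIdeal B * maximalIdeal B = maximalIdeal B ^ 2 := (sq _).symm
  have e3 : maximalIdeal B * maximalIdeal B ^ 2 = maximalIdeal B ^ 3 := (pow_succ' _ 2).symm
  have e4 : maximalIdeal B * maximalIdeal B ^ 3 = maximalIdeal B ^ 4 := (pow_succ' _ 3).symm
  have h23 : TightSix_fr k (maximalIdeal B ^ 3) + 2 ≤ TightSix_fr k (maximalIdeal B ^ 2) := by
    by_contra hcon
    refine hnp (TightSix_one (k := k) _ ?_)
    rw [e3]
    omega
  have h12 : TightSix_fr k (maximalIdeal B ^ 2) + 2 ≤ TightSix_fr k (maximalIdeal B) := by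
    by_contra hcon
    obtain ⟨w, hw⟩ := TightSix_one (k := k) (maximalIdeal B) (by rw [e2]; omega)
    exact hnp ⟨w ^ 2, by rw [hw, Ideal.span_singleton_pow]⟩
  have h3 : maximalIdeal B ^ 3 ≠ ⊥ := by
    intro h3
    have h4 : ∀ x ∈ maximalIdeal B ^ 2, ∃ l : k, x = l • s := by
      intro x hx
      refine TightSix_prop hres hG x s (fun b hb => ?_) hsm hs0
      have h5 : b * x ∈ maximalIdeal B ^ 3 := by
        rw [← e3]
        exact Ideal.mul_mem_mul hb hx
      rw [h3] at h5
      exact (Submodule.mem_bot B).1 h5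
    by_cases h5 : maximalIdeal B ^ 2 = ⊥
    · exact hnp ⟨0, by rw [h5, Ideal.span_singleton_eq_bot.2 rfl]⟩
    · obtain ⟨x, hx, hx0⟩ := Submodule.exists_mem_ne_zero_of_ne_bot h5
      obtain ⟨l, hl⟩ := h4 x hx
      have hl0 : l ≠ 0 := by
        rintro rfl
        exact hx0 (by rw [hl, zero_smul])
      have hsx : s = algebraMap k B l⁻¹ * x := by
        rw [hl, ← Algebra.smul_def, ← mul_smul, inv_mul_cancel₀ hl0, one_smul]
      refine hnp ⟨s, le_antisymm ?_ ?_⟩
      · intro x' hx'
        obtain ⟨l', hl'⟩ := h4 x' hx'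
        rw [hl', Algebra.smul_def]
        exact Ideal.mul_mem_left _ _ (Ideal.mem_span_singleton_self s)
      · rw [Ideal.span_singleton_le_iff_mem, hsx]
        exact Ideal.mul_mem_left _ _ hx
  have hpos : ∀ I : Ideal B, I ≠ ⊥ → 1 ≤ TightSix_fr k I := by
    intro I hI
    obtain ⟨x, hx, hx0⟩ := Submodule.exists_mem_ne_zero_of_ne_bot hI
    have hnt : Nontrivial (I.restrictScalars k) :=
      ⟨⟨x, hx⟩, 0, fun h => hx0 (congrArg Subtype.val h)⟩
    exact finrank_pos
  have h5 : TightSix_fr k (maximalIdeal B) ≤ 5 := by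
    have hlt : (maximalIdeal B).restrictScalars k < ⊤ := by
      refine lt_of_le_of_ne le_top fun h => ?_
      have h4 : (1 : B) ∈ (maximalIdeal B).restrictScalars k := by rw [h]; exact Submodule.mem_top
      have h5 : (1 : B) ∈ maximalIdeal B := h4
      exact (mem_maximalIdeal _).1 h5 isUnit_one
    have h7 := Submodule.finrank_lt_finrank_of_lt hlt
    rw [finrank_top] at h7
    unfold TightSix_fr
    omega
  have h3' := hpos _ h3
  refine ⟨?_, TightSix_two (k := k) _ (by rw [e2]; omega)⟩
  by_contra h4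
  have h4' := hpos _ h4
  have hle : (maximalIdeal B ^ 4).restrictScalars k ≤ (maximalIdeal B ^ 3).restrictScalars k :=
    fun x hx => Ideal.pow_le_pow_right (by omega) hx
  have h8 := Submodule.eq_of_le_of_finrank_le hle (by
    change TightSix_fr k (maximalIdeal B ^ 3) ≤ TightSix_fr k (maximalIdeal B ^ 4)
    omega)
  refine h3 (le_bot_iff.1 (TightSix_nak k _ _ fun x hx => ?_))
  rw [e4, bot_sup_eq]
  have h9 : x ∈ (maximalIdeal B ^ 4).restrictScalars k := by rw [h8]; exact hx
  exact h9

end

/-- a binary quadratic form is a product of linear forms -/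
theorem TightSix_quad (k : Type) [Field k] [IsAlgClosed k] (α β γ : k)
    (h : ¬ (α = 0 ∧ β = 0 ∧ γ = 0)) : ∃ a b c d : k, ¬ (a = 0 ∧ b = 0) ∧ ¬ (c = 0 ∧ d = 0) ∧
      α = a * c ∧ β = a * d + c * b ∧ γ = b * d := by
  by_cases hα : α = 0
  · exact ⟨0, 1, β, γ, fun h => one_ne_zero h.2, fun h' => h ⟨hα, h'.1, h'.2⟩, by rw [hα, zero_mul],
      by ring, by ring⟩
  · obtain ⟨t, ht⟩ := IsAlgClosed.exists_root
      (Polynomial.C α * Polynomial.X ^ 2 + Polynomial.C β * Polynomial.X + Polynomial.C γ)
      (by rw [Polynomial.degree_quadratic hα]; exact two_ne_zero)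
    have ht' : α * t ^ 2 + β * t + γ = 0 := by
      simpa [Polynomial.IsRoot] using ht
    refine ⟨1, -t, α, β + α * t, fun h => one_ne_zero h.1, fun h => hα h.1, by ring, by ring, ?_⟩
    linear_combination ht'

/-- two homogeneous equations in three unknowns -/
theorem TightSix_lin (k : Type) [Field k] (f g : Fin 3 → k) :
    ∃ v : Fin 3 → k, v ≠ 0 ∧ f 0 * v 0 + f 1 * v 1 + f 2 * v 2 = 0 ∧
      g 0 * v 0 + g 1 * v 1 + g 2 * v 2 = 0 := by
  let F : (Fin 3 → k) →ₗ[k] (Fin 2 → k) := Matrix.toLin' !![f 0, f 1, f 2; g 0, g 1, g 2]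
  have h1 : LinearMap.ker F ≠ ⊥ := LinearMap.ker_ne_bot_of_finrank_lt (by simp)
  obtain ⟨v, hv, hv0⟩ := Submodule.exists_mem_ne_zero_of_ne_bot h1
  refine ⟨v, hv0, ?_, ?_⟩
  · have := congrFun (LinearMap.mem_ker.1 hv) 0
    simpa [F, Matrix.mulVec, dotProduct, Fin.sum_univ_succ, add_assoc] using this
  · have := congrFun (LinearMap.mem_ker.1 hv) 1
    simpa [F, Matrix.mulVec, dotProduct, Fin.sum_univ_succ, add_assoc] using this

section

variable {k B : Type} [Field k] [CommRing B] [IsLocalRing B] [Algebra k B] [Module.Finite k B]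

theorem TightSix_kill (y z : B) (hm : maximalIdeal B = Ideal.span {y, z}) (q : B)
    (h1 : y * q = 0) (h2 : z * q = 0) : ∀ b ∈ maximalIdeal B, b * q = 0 := by
  intro b hb
  rw [hm, Ideal.mem_span_pair] at hb
  obtain ⟨p, r, rfl⟩ := hb
  rw [add_mul, mul_assoc, mul_assoc, h1, h2, mul_zero, mul_zero, add_zero]

/-- good generators -/
theorem TightSix_dich [IsAlgClosed k] (hres : Function.Surjective (algebraMap k (ResidueField B)))
    (hG : InfIrred (⊥ : Ideal B)) (h4 : (maximalIdeal B) ^ 4 = ⊥) (y0 z0 : B)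
    (hm : maximalIdeal B = Ideal.span {y0, z0}) :
    ∃ y z : B, maximalIdeal B = Ideal.span {y, z} ∧
      ((∀ b ∈ maximalIdeal B, b * (y * z) = 0) ∨ ∀ b ∈ maximalIdeal B, b * (y * y) = 0) := by
  obtain ⟨s, hs0, hsm, hs⟩ := TightRed_socle k hG
  have hy0 : y0 ∈ maximalIdeal B := by rw [hm]; exact Ideal.subset_span (by simp)
  have hz0 : z0 ∈ maximalIdeal B := by rw [hm]; exact Ideal.subset_span (by simp)
  have htr : ∀ a ∈ maximalIdeal B, ∀ b ∈ maximalIdeal B, ∀ c ∈ maximalIdeal B,
      ∃ l : k, a * (b * c) = l • s := by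
    intro a ha b hb c hc
    refine TightSix_prop hres hG _ s (fun d hd => ?_) hsm hs0
    have h5 : d * (a * (b * c)) ∈ maximalIdeal B ^ 4 := by
      have e : maximalIdeal B ^ 4 = maximalIdeal B * (maximalIdeal B * (maximalIdeal B *
        maximalIdeal B)) := by ring
      rw [e]
      exact Ideal.mul_mem_mul hd (Ideal.mul_mem_mul ha (Ideal.mul_mem_mul hb hc))
    rw [h4] at h5
    exact (Submodule.mem_bot B).1 h5
  obtain ⟨f0, hf0⟩ := htr y0 hy0 y0 hy0 y0 hy0
  obtain ⟨f1, hf1⟩ := htr y0 hy0 y0 hy0 z0 hz0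
  obtain ⟨f2, hf2⟩ := htr y0 hy0 z0 hz0 z0 hz0
  obtain ⟨f3, hf3⟩ := htr z0 hz0 z0 hz0 z0 hz0
  obtain ⟨v, hv0, hv1, hv2⟩ := TightSix_lin k ![f0, f1, f2] ![f1, f2, f3]
  simp only [Matrix.cons_val_zero, Matrix.cons_val_one, Matrix.cons_val] at hv1 hv2
  have hv0' : ¬ (v 0 = 0 ∧ v 1 = 0 ∧ v 2 = 0) := by
    rintro ⟨h1, h2, h3⟩
    refine hv0 (funext fun i => ?_)
    fin_cases i
    · exact h1
    · exact h2
    · exact h3
  obtain ⟨a, b, c, d, hab, hcd, hα, hβ, hγ⟩ := TightSix_quad k _ _ _ hv0'
  set A := algebraMap k B with hA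
  have hf0' : y0 * (y0 * y0) = A f0 * s := by rw [hf0, Algebra.smul_def]
  have hf1' : y0 * (y0 * z0) = A f1 * s := by rw [hf1, Algebra.smul_def]
  have hf2' : y0 * (z0 * z0) = A f2 * s := by rw [hf2, Algebra.smul_def]
  have hf3' : z0 * (z0 * z0) = A f3 * s := by rw [hf3, Algebra.smul_def]
  have hw1 : A f0 * A (v 0) + A f1 * A (v 1) + A f2 * A (v 2) = 0 := by
    rw [← map_mul, ← map_mul, ← map_mul, ← map_add, ← map_add, hv1, map_zero]
  have hw2 : A f1 * A (v 0) + A f2 * A (v 1) + A f3 * A (v 2) = 0 := by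
    rw [← map_mul, ← map_mul, ← map_mul, ← map_add, ← map_add, hv2, map_zero]
  have hkill : ∀ x ∈ maximalIdeal B, x * ((A a * y0 + A b * z0) * (A c * y0 + A d * z0)) = 0 := by
    have e : (A a * y0 + A b * z0) * (A c * y0 + A d * z0) =
        A (v 0) * (y0 * y0) + A (v 1) * (y0 * z0) + A (v 2) * (z0 * z0) := by
      rw [hα, hβ, hγ, map_mul, map_add, map_mul, map_mul, map_mul]
      ring
    rw [e]
    refine TightSix_kill y0 z0 hm _ ?_ ?_
    · linear_combination A (v 0) * hf0' + A (v 1) * hf1' + A (v 2) * hf2' + s * hw1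
    · linear_combination A (v 0) * hf1' + A (v 1) * hf2' + A (v 2) * hf3' + s * hw2
  have hinv : ∀ t : k, t ≠ 0 → A t⁻¹ * A t = 1 := fun t ht => by
    rw [← map_mul, inv_mul_cancel₀ ht, map_one]
  have hl1 : A a * y0 + A b * z0 ∈ maximalIdeal B :=
    Ideal.add_mem _ (Ideal.mul_mem_left _ _ hy0) (Ideal.mul_mem_left _ _ hz0)
  have hl2 : A c * y0 + A d * z0 ∈ maximalIdeal B :=
    Ideal.add_mem _ (Ideal.mul_mem_left _ _ hy0) (Ideal.mul_mem_left _ _ hz0)
  have hspan : ∀ y z : B, y ∈ maximalIdeal B → z ∈ maximalIdeal B → y0 ∈ Ideal.span {y, z} →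
      z0 ∈ Ideal.span {y, z} → maximalIdeal B = Ideal.span {y, z} := by
    intro y z hy hz h1 h2
    apply le_antisymm
    · rw [hm]
      refine Ideal.span_le.2 ?_
      rintro x (rfl | rfl)
      · exact h1
      · exact h2
    · refine Ideal.span_le.2 ?_
      rintro x (rfl | rfl)
      · exact hy
      · exact hz
  by_cases hdet : a * d - b * c = 0
  · -- proportional
    obtain ⟨l, hl0, hl1', hl2'⟩ : ∃ l : k, l ≠ 0 ∧ c = l * a ∧ d = l * b := by
      by_cases ha : a = 0
      · have hb : b ≠ 0 := fun hb => hab ⟨ha, hb⟩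
        have hc : c = 0 := by
          rw [ha, zero_mul, zero_sub, neg_eq_zero] at hdet
          exact (mul_eq_zero.1 hdet).resolve_left hb
        have hd : d ≠ 0 := fun hd => hcd ⟨hc, hd⟩
        exact ⟨d / b, div_ne_zero hd hb, by rw [ha, hc, mul_zero], by field_simp⟩
      · refine ⟨c / a, ?_, by field_simp, ?_⟩
        · intro h
          have hc : c = 0 := by
            rcases div_eq_zero_iff.1 h with h | h
            · exact h
            · exact absurd h ha
          have hd : d = 0 := by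
            rw [hc, mul_zero, sub_zero] at hdet
            exact (mul_eq_zero.1 hdet).resolve_left ha
          exact hcd ⟨hc, hd⟩
        · field_simp
          linear_combination hdet
    have hkill2 : ∀ x ∈ maximalIdeal B,
        x * ((A a * y0 + A b * z0) * (A a * y0 + A b * z0)) = 0 := by
      intro x hx
      have h1 := hkill x hx
      rw [hl1', hl2', map_mul, map_mul] at h1
      have h2 := hinv l hl0
      have h3 : x * ((A a * y0 + A b * z0) * (A a * y0 + A b * z0)) =
          (A l⁻¹ * A l) * (x * ((A a * y0 + A b * z0) * (A a * y0 + A b * z0))) := by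
        rw [h2, one_mul]
      rw [h3]
      linear_combination A l⁻¹ * h1
    by_cases ha : a = 0
    · have hb : b ≠ 0 := fun hb => hab ⟨ha, hb⟩
      refine ⟨A a * y0 + A b * z0, y0, hspan _ _ hl1 hy0 (Ideal.subset_span (by simp)) ?_,
        Or.inr hkill2⟩
      rw [Ideal.mem_span_pair]
      refine ⟨A b⁻¹, -(A b⁻¹ * A a), ?_⟩
      linear_combination z0 * hinv b hb
    · refine ⟨A a * y0 + A b * z0, z0, hspan _ _ hl1 hz0 ?_ (Ideal.subset_span (by simp)),
        Or.inr hkill2⟩
      rw [Ideal.mem_span_pair]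
      refine ⟨A a⁻¹, -(A a⁻¹ * A b), ?_⟩
      linear_combination y0 * hinv a ha
  · have hdet' := hinv _ hdet
    rw [map_sub, map_mul, map_mul] at hdet'
    refine ⟨_, _, hspan _ _ hl1 hl2 ?_ ?_, Or.inl hkill⟩
    · rw [Ideal.mem_span_pair]
      refine ⟨A (a * d - b * c)⁻¹ * A d, -(A (a * d - b * c)⁻¹ * A b), ?_⟩
      linear_combination y0 * hdet'
    · rw [Ideal.mem_span_pair]
      refine ⟨-(A (a * d - b * c)⁻¹ * A c), A (a * d - b * c)⁻¹ * A a, ?_⟩
      linear_combination z0 * hdet'

/-- `k[Y, Z]/(Y^2, Z^3)` -/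
theorem TightSix_ci (h6 : finrank k B = 6) (y z : B) (hy : y * y = 0) (hz : z * (z * z) = 0)
    (hyz : y * (z * z) ≠ 0) : Tight k B := by
  have hli : ∀ c : Fin 6 → k, c 0 • (1 : B) + c 1 • z + c 2 • (z * z) + c 3 • y + c 4 • (y * z) +
      c 5 • (y * (z * z)) = 0 → ∀ i, c i = 0 := by
    intro c hc
    have hz4 : z * (z * (z * z)) = 0 := by rw [hz, mul_zero]
    have key : ∀ t : k, t • (y * (z * z)) = 0 → t = 0 := fun t ht =>
      (smul_eq_zero.1 ht).resolve_right hyz
    simp only [Algebra.smul_def] at hc key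
    set A := algebraMap k B with hA
    have h0 : c 0 = 0 := by
      apply key
      have e := congrArg (fun b => b * (y * (z * z))) hc
      simp only [zero_mul] at e
      linear_combination e - (A (c 1) * y) * hz - (A (c 2) * y) * hz4 -
        (A (c 3) * (z * z) + A (c 4) * (z * (z * z)) + A (c 5) * (z * (z * (z * z)))) * hy
    have h1 : c 1 = 0 := by
      apply key
      have e := congrArg (fun b => b * (y * z)) hc
      simp only [zero_mul, h0, map_zero] at e
      linear_combination e - (A (c 2) * y) * hz -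
        (A (c 3) * z + A (c 4) * (z * z) + A (c 5) * (z * (z * z))) * hy
    have h2 : c 2 = 0 := by
      apply key
      have e := congrArg (fun b => b * y) hc
      simp only [zero_mul, h0, h1, map_zero] at e
      linear_combination e - (A (c 3) + A (c 4) * z + A (c 5) * (z * z)) * hy
    have h3 : c 3 = 0 := by
      apply key
      have e := congrArg (fun b => b * (z * z)) hc
      simp only [zero_mul, h0, h1, h2, map_zero] at e
      linear_combination e - (A (c 4) * y) * hz - (A (c 5) * y) * hz4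
    have h4 : c 4 = 0 := by
      apply key
      have e := congrArg (fun b => b * z) hc
      simp only [zero_mul, h0, h1, h2, h3, map_zero] at e
      linear_combination e - (A (c 5) * y) * hz
    have h5 : c 5 = 0 := by
      apply key
      simp only [zero_mul, h0, h1, h2, h3, h4, map_zero] at hc
      linear_combination hc
    intro i
    fin_cases i
    · exact h0
    · exact h1
    · exact h2
    · exact h3
    · exact h4
    · exact h5
  -- the subalgebra `k[y]`
  let S : Subalgebra k B :=
    { carrier := {b | ∃ c0 c1 : k, b = algebraMap k B c0 + algebraMap k B c1 * y}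
      mul_mem' := by
        rintro _ _ ⟨a0, a1, rfl⟩ ⟨b0, b1, rfl⟩
        refine ⟨a0 * b0, a0 * b1 + a1 * b0, ?_⟩
        rw [map_mul, map_add, map_mul, map_mul]
        linear_combination (algebraMap k B a1 * algebraMap k B b1) * hy
      add_mem' := by
        rintro _ _ ⟨a0, a1, rfl⟩ ⟨b0, b1, rfl⟩
        refine ⟨a0 + b0, a1 + b1, ?_⟩
        rw [map_add, map_add]
        ring
      algebraMap_mem' := fun r => ⟨r, 0, by rw [map_zero, zero_mul, add_zero]⟩ }
  let y' : S := ⟨y, 0, 1, by rw [map_zero, map_one, one_mul, zero_add]⟩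
  have hy' : y' * y' = 0 := Subtype.ext hy
  let G1 : (Fin 2 → k) →ₗ[k] S :=
    { toFun := fun c => algebraMap k S (c 0) + algebraMap k S (c 1) * y'
      map_add' := fun c d => by
        simp only [Pi.add_apply, map_add]
        ring
      map_smul' := fun t c => by
        simp only [Pi.smul_apply, smul_eq_mul, map_mul, RingHom.id_apply, Algebra.smul_def]
        ring }
  have hG1 : ∀ c, ((G1 c : S) : B) = algebraMap k B (c 0) + algebraMap k B (c 1) * y := fun c => rfl
  have hG1b : Function.Bijective G1 := by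
    constructor
    · rw [injective_iff_map_eq_zero]
      intro c hc
      have h1 := congrArg Subtype.val hc
      rw [hG1] at h1
      have h2 := hli ![c 0, 0, 0, c 1, 0, 0] (by
        simp only [Matrix.cons_val, Algebra.smul_def, map_zero, zero_mul, mul_one, add_zero]
        exact h1)
      have h3 := h2 0
      have h4 := h2 3
      refine funext fun i => ?_
      fin_cases i
      · exact h3
      · exact h4
    · rintro ⟨_, c0, c1, rfl⟩
      exact ⟨![c0, c1], Subtype.ext rfl⟩
  let E1 := LinearEquiv.ofBijective G1 hG1b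
  have hfS : finrank k S = 2 := by
    rw [← E1.finrank_eq, Module.finrank_fin_fun]
  have hSf : Module.Finite k S := Module.Finite.equiv E1
  let pb1 : PowerBasis k S :=
    { gen := y'
      dim := 2
      basis := Module.Basis.ofEquivFun E1.symm
      basis_eq_pow := fun i => by
        rw [Module.Basis.coe_ofEquivFun]
        change G1 (Function.update 0 i 1) = _
        apply Subtype.ext
        rw [hG1]
        fin_cases i
        · simp
        · simp [y'] }
  have h01 : pb1.gen ^ pb1.dim = 0 := by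
    change y' ^ 2 = 0
    rw [sq, hy']
  have hSnt : Nontrivial S := by
    have hnt : Nontrivial B := inferInstance
    exact ⟨⟨1, 0, fun h => one_ne_zero (congrArg Subtype.val h)⟩⟩
  obtain ⟨hloc, -, -⟩ := local_of k S pb1 (by rw [h01]; exact Ideal.zero_mem _)
  have hT1 : Tight k S := tight_step k k S pb1 h01 (by norm_num [pb1]) (tight_field k k)
  -- the second step
  let G2 : (Fin 3 → S) →ₗ[S] B := Fintype.linearCombination S (fun j : Fin 3 => z ^ (j : ℕ))
  have hG2 : ∀ c, G2 c = (c 0 : B) + (c 1 : B) * z + (c 2 : B) * (z * z) := by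
    intro c
    simp only [G2, Fintype.linearCombination_apply, Fin.sum_univ_succ, Fin.sum_univ_zero,
      Algebra.smul_def]
    change (c 0 : B) * z ^ 0 + ((c 1 : B) * z ^ 1 + ((c 2 : B) * z ^ 2 + 0)) = _
    ring
  have hG2i : Function.Injective G2 := by
    rw [injective_iff_map_eq_zero]
    intro c hc
    rw [hG2] at hc
    obtain ⟨a0, b0, h0⟩ := (c 0).2
    obtain ⟨a1, b1, h1⟩ := (c 1).2
    obtain ⟨a2, b2, h2⟩ := (c 2).2
    rw [h0, h1, h2] at hc
    have h3 := hli ![a0, a1, a2, b0, b1, b2] (by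
      simp only [Matrix.cons_val, Algebra.smul_def, mul_one]
      linear_combination hc)
    have e0 : a0 = 0 := h3 0
    have e1 : a1 = 0 := h3 1
    have e2 : a2 = 0 := h3 2
    have e3 : b0 = 0 := h3 3
    have e4 : b1 = 0 := h3 4
    have e5 : b2 = 0 := h3 5
    refine funext fun i => Subtype.ext ?_
    fin_cases i
    · change (c 0 : B) = 0
      rw [h0, e0, e3, map_zero, zero_mul, add_zero]
    · change (c 1 : B) = 0
      rw [h1, e1, e4, map_zero, zero_mul, add_zero]
    · change (c 2 : B) = 0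
      rw [h2, e2, e5, map_zero, zero_mul, add_zero]
  have hG2b : Function.Bijective G2 := by
    refine ⟨hG2i, ?_⟩
    have h1 : finrank k (Fin 3 → S) = finrank k B := by
      rw [finrank_pi_fintype, Finset.sum_const, Finset.card_univ, Fintype.card_fin, hfS, h6]
      rfl
    exact (LinearMap.injective_iff_surjective_of_finrank_eq_finrank
      (f := G2.restrictScalars k) h1).1 hG2i
  let E2 := LinearEquiv.ofBijective G2 hG2b
  let pb2 : PowerBasis S B :=
    { gen := z
      dim := 3
      basis := Module.Basis.ofEquivFun E2.symm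
      basis_eq_pow := fun i => by
        rw [Module.Basis.coe_ofEquivFun]
        change G2 (Function.update 0 i 1) = _
        rw [hG2]
        fin_cases i
        · simp
        · simp
        · simp [sq] }
  have h02 : pb2.gen ^ pb2.dim = 0 := by
    change z ^ 3 = 0
    linear_combination hz
  exact tight_step k S B pb2 h02 (by norm_num [pb2]) hT1

/-- the second case -/
theorem TightSix_b (h2 : (2 : k) ≠ 0) (h3 : (3 : k) ≠ 0)
    (hres : Function.Surjective (algebraMap k (ResidueField B)))
    (hG : InfIrred (⊥ : Ideal B)) (h6 : finrank k B = 6)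
    (hnp : ¬ ∃ w : B, (maximalIdeal B) ^ 2 = Ideal.span {w})
    (h4 : (maximalIdeal B) ^ 4 = ⊥) (y z : B)
    (hm : maximalIdeal B = Ideal.span {y, z}) (hyy : ∀ b ∈ maximalIdeal B, b * (y * y) = 0) :
    Tight k B := by
  obtain ⟨s, hs0, hsm, hs⟩ := TightRed_socle k hG
  have hy : y ∈ maximalIdeal B := by rw [hm]; exact Ideal.subset_span (by simp)
  have hz : z ∈ maximalIdeal B := by rw [hm]; exact Ideal.subset_span (by simp)
  have h4' : ∀ a ∈ maximalIdeal B, ∀ b ∈ maximalIdeal B, ∀ c ∈ maximalIdeal B,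
      ∀ d ∈ maximalIdeal B, d * (a * (b * c)) = 0 := by
    intro a ha b hb c hc d hd
    have h5 : d * (a * (b * c)) ∈ maximalIdeal B ^ 4 := by
      have e : maximalIdeal B ^ 4 = maximalIdeal B * (maximalIdeal B * (maximalIdeal B *
        maximalIdeal B)) := by ring
      rw [e]
      exact Ideal.mul_mem_mul hd (Ideal.mul_mem_mul ha (Ideal.mul_mem_mul hb hc))
    rw [h4] at h5
    exact (Submodule.mem_bot B).1 h5
  have hyyz : z * (y * y) = 0 := hyy z hz
  have hsq : maximalIdeal B ^ 2 = Ideal.span {y * y, y * z, z * z} := by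
    rw [sq, hm, Ideal.span_mul_span']
    apply le_antisymm
    · refine Ideal.span_le.2 ?_
      rintro x ⟨a, (rfl | rfl), b, (rfl | rfl), rfl⟩
      · exact Ideal.subset_span (by simp)
      · exact Ideal.subset_span (by simp)
      · exact Ideal.subset_span (by simp [mul_comm])
      · exact Ideal.subset_span (by simp)
    · refine Ideal.span_le.2 ?_
      rintro x (rfl | rfl | rfl)
      · exact Ideal.subset_span ⟨y, by simp, y, by simp, rfl⟩
      · exact Ideal.subset_span ⟨y, by simp, z, by simp, rfl⟩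
      · exact Ideal.subset_span ⟨z, by simp, z, by simp, rfl⟩
  have hyz2 : y * (z * z) ≠ 0 := by
    intro h0
    have hk : ∀ b ∈ maximalIdeal B, b * (y * z) = 0 :=
      TightSix_kill y z hm _ (by linear_combination hyyz) (by linear_combination h0)
    obtain ⟨l1, hl1⟩ := TightSix_prop hres hG (y * y) s hyy hsm hs0
    obtain ⟨l2, hl2⟩ := TightSix_prop hres hG (y * z) s hk hsm hs0
    rw [Algebra.smul_def] at hl1 hl2
    by_cases hzz : z * z = 0
    · by_cases h5 : maximalIdeal B ^ 2 = ⊥
      · exact hnp ⟨0, by rw [h5, Ideal.span_singleton_eq_bot.2 rfl]⟩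
      · refine hnp ⟨s, le_antisymm ?_ ?_⟩
        · rw [hsq]
          refine Ideal.span_le.2 ?_
          rintro x (rfl | rfl | rfl)
          · rw [hl1]; exact Ideal.mul_mem_left _ _ (Ideal.mem_span_singleton_self s)
          · rw [hl2]; exact Ideal.mul_mem_left _ _ (Ideal.mem_span_singleton_self s)
          · rw [hzz]; exact Ideal.zero_mem _
        · rw [Ideal.span_singleton_le_iff_mem]
          obtain ⟨x, hx, hx0⟩ := Submodule.exists_mem_ne_zero_of_ne_bot h5
          obtain ⟨c, hc⟩ := hs x hx0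
          rw [← hc]
          exact Ideal.mul_mem_left _ _ hx
    · obtain ⟨c, hc⟩ := hs _ hzz
      have hsz : s ∈ Ideal.span {z * z} := by
        rw [← hc]
        exact Ideal.mul_mem_left _ _ (Ideal.mem_span_singleton_self _)
      refine hnp ⟨z * z, le_antisymm ?_ ?_⟩
      · rw [hsq]
        refine Ideal.span_le.2 ?_
        rintro x (rfl | rfl | rfl)
        · rw [hl1]; exact Ideal.mul_mem_left _ _ hsz
        · rw [hl2]; exact Ideal.mul_mem_left _ _ hsz
        · exact Ideal.mem_span_singleton_self _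
      · rw [Ideal.span_singleton_le_iff_mem, hsq]
        exact Ideal.subset_span (by simp)
  have hku : ∀ b ∈ maximalIdeal B, b * (y * (z * z)) = 0 := fun b hb =>
    h4' y hy z hz z hz b hb
  have hkz : ∀ b ∈ maximalIdeal B, b * (z * (z * z)) = 0 := fun b hb =>
    h4' z hz z hz z hz b hb
  obtain ⟨l, hl⟩ := TightSix_prop hres hG (y * y) _ hyy hku hyz2
  obtain ⟨μ, hμ⟩ := TightSix_prop hres hG (z * (z * z)) _ hkz hku hyz2
  rw [Algebra.smul_def] at hl hμ
  have hz4 : z * (z * (z * z)) = 0 := hkz z hz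
  have e2 : algebraMap k B (l / 2) + algebraMap k B (l / 2) = algebraMap k B l := by
    rw [← map_add]
    congr 1
    field_simp
    ring
  have e3 : algebraMap k B (μ / 3) + algebraMap k B (μ / 3) + algebraMap k B (μ / 3) =
      algebraMap k B μ := by
    rw [← map_add, ← map_add]
    congr 1
    field_simp
    ring
  set p := algebraMap k B (l / 2) with hp
  set r := algebraMap k B (μ / 3) with hr
  -- the new generators
  have hY : (y - p * (z * z)) * (y - p * (z * z)) = 0 := by
    linear_combination hl - (y * (z * z)) * e2 + p ^ 2 * hz4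
  have hYz : (y - p * (z * z)) * (z * z) = y * (z * z) := by
    linear_combination (-p) * hz4
  set Y := y - p * (z * z) with hYdef
  have hZ3 : (z - r * Y) * ((z - r * Y) * (z - r * Y)) = 0 := by
    have e : (z - r * Y) * ((z - r * Y) * (z - r * Y)) = z * (z * z) - (r + r + r) * (Y * (z * z)) +
        (3 * r ^ 2 * z - r ^ 3 * Y) * (Y * Y) := by ring
    rw [e, hY, mul_zero, add_zero, e3, hYz, hμ, sub_self]
  have hYZ : Y * ((z - r * Y) * (z - r * Y)) = y * (z * z) := by
    have e : Y * ((z - r * Y) * (z - r * Y)) = Y * (z * z) + (r ^ 2 * Y - 2 * r * z) * (Y * Y) := by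
      ring
    rw [e, hY, mul_zero, add_zero, hYz]
  exact TightSix_ci h6 Y (z - r * Y) hY hZ3 (by rw [hYZ]; exact hyz2)

end

theorem tight_six (k B : Type) [Field k] [IsAlgClosed k] (h2 : (2 : k) ≠ 0) (h3 : (3 : k) ≠ 0)
    [CommRing B] [IsLocalRing B] [Algebra k B] [Module.Finite k B]
    (hG : InfIrred (⊥ : Ideal B)) (h6 : finrank k B ≤ 6) : Tight k B := by
  have hres : Function.Surjective (algebraMap k (ResidueField B)) := by
    have : Module.Finite k (ResidueField B) :=
      Module.Finite.of_surjective (IsScalarTower.toAlgHom k B (ResidueField B)).toLinearMap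
        residue_surjective
    exact (IsAlgClosed.algebraMap_bijective_of_isIntegral (k := k) (K := ResidueField B)).2
  by_cases hp : ∃ w : B, (maximalIdeal B) ^ 2 = Ideal.span {w}
  · exact tight_stretch k B hres hG hp
  by_cases h5 : finrank k B ≤ 5
  · exact tight_stretch k B hres hG (principal_of_le_five k B hres hG h5)
  have h6' : finrank k B = 6 := by omega
  obtain ⟨h4, y0, z0, hm0⟩ := TightSix_struct hres hG h6 hp
  obtain ⟨y, z, hm, hyz | hyy⟩ := TightSix_dich hres hG h4 y0 z0 hm0
  · have hy : y ∈ maximalIdeal B := by rw [hm]; exact Ideal.subset_span (by simp)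
    have hz : z ∈ maximalIdeal B := by rw [hm]; exact Ideal.subset_span (by simp)
    have hcube : ∀ a ∈ maximalIdeal B, ∀ b ∈ maximalIdeal B, b * a ^ 3 = 0 := by
      intro a ha b hb
      have h5 : b * a ^ 3 ∈ maximalIdeal B ^ 4 := by
        rw [pow_succ' (maximalIdeal B) 3]
        exact Ideal.mul_mem_mul hb (Ideal.pow_mem_pow ha 3)
      rw [h4] at h5
      exact (Submodule.mem_bot B).1 h5
    refine tight_star k B hres hG 2 ![y, z] ![1, 1] ?_ ?_ ?_ ?_
    · rw [hm]
      congr 1
      simp [Set.pair_comm]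
    · intro i j hij b hb
      fin_cases i <;> fin_cases j
      · exact absurd rfl hij
      · exact hyz b hb
      · change b * (z * y) = 0
        rw [mul_comm z y]
        exact hyz b hb
      · exact absurd rfl hij
    · intro i b hb
      fin_cases i
      · exact hcube y hy b hb
      · exact hcube z hz b hb
    · rw [h6']
      simp
  · exact TightSix_b h2 h3 hres hG h6' hp h4 y z hm hyy

end Pool.Agent.HWC
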