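import Pool.Agent.HWC.ClausesT
import Pool.Agent.HWC.TightM
import Pool.Agent.HWC.TightSix
import Pool.Agent.HWC.QuotGor

/-! Proof of `FibreClosure`. -/

set_option autoImplicit false

namespace Pool.Agent.HWC

open IsLocalRing Module

theorem tight_of_radFibre (B : Type) [CommRing B] (h : RadFibre B) : TightL B := by
  induction h with
  | field K => exact tight_fieldL K
  | gor k B hres hG h =>
    apply tightL_of_tight k B
    rcases h with ⟨m, y, s, h1, h2, h3, h4⟩ | h | h | ⟨h1, h2, h3, h4⟩
    · exact tight_star k B hres hG m y s h1 h2 h3 h4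
    · exact tight_stretch k B hres hG h
    · exact tight_stretch k B hres hG (principal_of_le_five k B hres hG h)
    · exact tight_six k B h2 h3 hG h4
  | radical B B' c Y n hn hrank hadj hY _ ht =>
    exact tight_stepM B B' c Y n hn hrank hadj hY ht

theorem fibreClosure : FibreClosure := by
  intro R _ _ _ _ hR x hx hx0 h
  exact fibreL R (pkg_of_gorOne R hR) x hx hx0 (tight_of_radFibre _ h)

end Pool.Agent.HWC
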