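import Mathlib

/-!
Linear algebra of operators y_1, ..., y_m with y_i y_j = 0 for i, j distinct (star shape): definitions.
-/

set_option autoImplicit false

namespace Pool.Agent.HWC

open IsLocalRing Module

/-- operators commuting with `y` -/
abbrev cen {k V : Type*} [Field k] [AddCommGroup V] [Module k V] (y : Module.End k V) :
    Submodule k (Module.End k V) :=
  LinearMap.ker (LinearMap.mulLeft k y - LinearMap.mulRight k y)

/-- restriction of `y` to its range -/
def yr {k V : Type*} [Field k] [AddCommGroup V] [Module k V] (y : Module.End k V) :
    Module.End k (LinearMap.range y) :=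
  y.restrict (fun v _ => LinearMap.mem_range_self y v)

/-- sum of the ranges -/
def starU {k N : Type*} [Field k] [AddCommGroup N] [Module k N] {m : ℕ}
    (y : Fin m → Module.End k N) : Submodule k N := ⨆ i, LinearMap.range (y i)

/-- common kernel -/
def starS {k N : Type*} [Field k] [AddCommGroup N] [Module k N] {m : ℕ}
    (y : Fin m → Module.End k N) : Submodule k N := ⨅ i, LinearMap.ker (y i)

/-- operators commuting with all `y i` -/
def starC {k N : Type*} [Field k] [AddCommGroup N] [Module k N] {m : ℕ}
    (y : Fin m → Module.End k N) : Submodule k (Module.End k N) := ⨅ i, cen (y i)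

end Pool.Agent.HWC
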