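import Pool.Agent.HWC.StarDefs

/-!
Paper proof.  P_i = range (y i), Z_i = P_i inter ker y_i, U = sum P_i, S inside U.  U/S is the direct sum of the P_i/Z_i:
the map prod P_i -> U/S, (p_i) |-> sum p_i, is onto, and sum p_i in S iff y_i p_i = 0 for all i (y_i p_j = 0) iff p_i in Z_i.
P_i/Z_i = y_i P_i = range (yr (y i)).  So dim N = dim N/U + dim S + sum dim range (yr y_i).
Z_i is inside S (y_j P_i = 0), so dim ker (yr y_i) <= dim S; dim ker (yr y_i) = dim P_i / y_i P_i and N/U maps onto
P_i/y_i P_i by y_i (y_i U = y_i P_i).
-/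

set_option autoImplicit false

namespace Pool.Agent.HWC

open IsLocalRing Module

private theorem StarDim_range {k N : Type*} [Field k] [AddCommGroup N] [Module k N]
    (y : Module.End k N) :
    finrank k (LinearMap.range (y * y)) = finrank k (LinearMap.range (yr y)) := by
  rw [← Submodule.finrank_map_subtype_eq (LinearMap.range y) (LinearMap.range (yr y))]
  have h : LinearMap.range (y * y) =
      Submodule.map (LinearMap.range y).subtype (LinearMap.range (yr y)) := ?_
  · rw [h]
  ext v
  simp only [LinearMap.mem_range, Submodule.mem_map, Submodule.subtype_apply]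
  constructor
  · rintro ⟨n, rfl⟩
    exact ⟨yr y ⟨y n, LinearMap.mem_range_self y n⟩, ⟨_, rfl⟩, rfl⟩
  · rintro ⟨p, ⟨⟨q, ⟨n, rfl⟩⟩, rfl⟩, rfl⟩
    exact ⟨n, rfl⟩

private theorem StarDim_U {k N : Type*} [Field k] [AddCommGroup N] [Module k N]
    [Module.Finite k N] {m : ℕ} (y : Fin m → Module.End k N) (hyy : ∀ i j, i ≠ j → y i * y j = 0)
    (hS : starS y ≤ starU y) :
    finrank k (starU y) = finrank k (starS y) +
      ∑ i, finrank k (LinearMap.range (y i * y i)) := by
  have hU : ∀ i, ∀ u : starU y, (y i ∘ₗ (starU y).subtype) u ∈ LinearMap.range (y i * y i) := by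
    intro i u
    have h1 : starU y ≤ (LinearMap.range (y i * y i)).comap (y i) := by
      refine iSup_le fun j => ?_
      rintro _ ⟨n, rfl⟩
      rw [Submodule.mem_comap]
      by_cases hij : i = j
      · subst hij
        exact ⟨n, rfl⟩
      · have h2 : y i (y j n) = (y i * y j) n := rfl
        rw [h2, hyy i j hij, LinearMap.zero_apply]
        exact zero_mem _
    exact h1 u.2
  let Φ : starU y →ₗ[k] (∀ i, LinearMap.range (y i * y i)) :=
    LinearMap.pi fun i => (y i ∘ₗ (starU y).subtype).codRestrict _ (hU i)
  have hker : LinearMap.ker Φ = (starS y).comap (starU y).subtype := by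
    ext u
    simp only [LinearMap.mem_ker, Submodule.mem_comap, starS, Submodule.mem_iInf]
    constructor
    · intro h i
      have := congrFun h i
      exact congrArg Subtype.val this
    · intro h
      funext i
      exact Subtype.ext (h i)
  have hsur : Function.Surjective Φ := by
    intro q
    choose n hn using fun i => (q i).2
    have hmem : ∑ i, y i (n i) ∈ starU y :=
      Submodule.sum_mem _ fun i _ => Submodule.mem_iSup_of_mem i (LinearMap.mem_range_self _ _)
    refine ⟨⟨∑ i, y i (n i), hmem⟩, ?_⟩
    funext i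
    apply Subtype.ext
    change y i (∑ j, y j (n j)) = (q i : N)
    rw [map_sum, Finset.sum_eq_single i]
    · exact hn i
    · intro j _ hj
      have h2 : y i (y j (n j)) = (y i * y j) (n j) := rfl
      rw [h2, hyy i j (Ne.symm hj), LinearMap.zero_apply]
    · intro h
      exact absurd (Finset.mem_univ i) h
  have h1 := LinearMap.finrank_range_add_finrank_ker Φ
  rw [LinearMap.range_eq_top.2 hsur, finrank_top, hker,
    LinearEquiv.finrank_eq (Submodule.comapSubtypeEquivOfLe hS), Module.finrank_pi_fintype] at h1
  rw [← h1, add_comm]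

theorem star_dim {k N : Type*} [Field k] [AddCommGroup N] [Module k N] [Module.Finite k N]
    {m : ℕ} (y : Fin m → Module.End k N) (hyy : ∀ i j, i ≠ j → y i * y j = 0)
    (hS : starS y ≤ starU y) :
    finrank k N = finrank k (N ⧸ starU y) + finrank k (starS y) +
      ∑ i, finrank k (LinearMap.range (yr (y i))) ∧
    (∀ i, finrank k (LinearMap.ker (yr (y i))) ≤ finrank k (N ⧸ starU y)) ∧
    (∀ i, finrank k (LinearMap.ker (yr (y i))) ≤ finrank k (starS y)) := by
  refine ⟨?_, fun i => ?_, fun i => ?_⟩
  · rw [add_assoc, ← Submodule.finrank_quotient_add_finrank (starU y), StarDim_U y hyy hS]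
    congr 2
    exact Finset.sum_congr rfl fun i _ => StarDim_range (y i)
  · have h1 := LinearMap.finrank_range_add_finrank_ker (yr (y i))
    have h2 := Submodule.finrank_quotient_add_finrank (LinearMap.range (yr (y i)))
    have h3 : finrank k (LinearMap.ker (yr (y i))) =
        finrank k (LinearMap.range (y i) ⧸ LinearMap.range (yr (y i))) := by omega
    rw [h3]
    let ψ : N →ₗ[k] LinearMap.range (y i) ⧸ LinearMap.range (yr (y i)) :=
      (LinearMap.range (yr (y i))).mkQ ∘ₗ (y i).rangeRestrict
    have hψ : starU y ≤ LinearMap.ker ψ := by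
      refine iSup_le fun j => ?_
      rintro _ ⟨n, rfl⟩
      rw [LinearMap.mem_ker]
      change (LinearMap.range (yr (y i))).mkQ ((y i).rangeRestrict (y j n)) = 0
      rw [Submodule.mkQ_apply, Submodule.Quotient.mk_eq_zero]
      by_cases hij : i = j
      · subst hij
        exact ⟨⟨y i n, LinearMap.mem_range_self _ _⟩, Subtype.ext rfl⟩
      · have h4 : (y i).rangeRestrict (y j n) = 0 := by
          apply Subtype.ext
          have h2 : y i (y j n) = (y i * y j) n := rfl
          change y i (y j n) = 0
          rw [h2, hyy i j hij, LinearMap.zero_apply]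
        rw [h4]
        exact zero_mem _
    refine LinearMap.finrank_le_finrank_of_surjective (f := (starU y).liftQ ψ hψ) ?_
    intro q
    obtain ⟨p, rfl⟩ := Submodule.mkQ_surjective _ q
    obtain ⟨n, rfl⟩ := (y i).surjective_rangeRestrict p
    exact ⟨(starU y).mkQ n, rfl⟩
  · rw [← Submodule.finrank_map_subtype_eq (LinearMap.range (y i)) (LinearMap.ker (yr (y i)))]
    apply Submodule.finrank_mono
    rintro _ ⟨⟨p, ⟨n, rfl⟩⟩, hp, rfl⟩
    rw [starS, Submodule.mem_iInf]
    intro j
    rw [LinearMap.mem_ker]
    change y j (y i n) = 0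
    by_cases hij : j = i
    · subst hij
      exact congrArg Subtype.val hp
    · have h2 : y j (y i n) = (y j * y i) n := rfl
      rw [h2, hyy j i hij, LinearMap.zero_apply]

end Pool.Agent.HWC
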