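import Pool.Agent.HWC.StarDefs

/-!
# HWC, module StarEuler (helper60 for helper11)

The Euler characteristic lower bound of the dimension of the commutant.  With a complement `T` of
`U`, the linear map `Xi` sends `(α, β, ψ, h)` in `End T × End S × ∏ cen (yr (y i)) × Hom(T, S)` to
an operator of `N`; on the kernel of `Theta` it is injective with values in the commutant.
-/

set_option autoImplicit false

namespace Pool.Agent.HWC

open IsLocalRing Module

section gen

variable {k : Type*} [Field k]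

private theorem StarEuler_ginv {V W : Type*} [AddCommGroup V] [Module k V] [AddCommGroup W]
    [Module k W] (f : V →ₗ[k] W) : ∃ g : W →ₗ[k] V, ∀ w ∈ LinearMap.range f, f (g w) = w := by
  obtain ⟨g0, hg0⟩ := f.rangeRestrict.exists_rightInverse_of_surjective f.range_rangeRestrict
  obtain ⟨g, hg⟩ := LinearMap.exists_extend g0
  refine ⟨g, fun w hw => ?_⟩
  have h1 : g w = g0 ⟨w, hw⟩ := LinearMap.congr_fun hg ⟨w, hw⟩
  rw [h1]
  exact congrArg Subtype.val (LinearMap.congr_fun hg0 ⟨w, hw⟩)

private theorem StarEuler_cen {V : Type*} [AddCommGroup V] [Module k V] (y : Module.End k V)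
    (φ : Module.End k V) : φ ∈ cen y ↔ ∀ v, y (φ v) = φ (y v) := by
  rw [LinearMap.mem_ker, LinearMap.sub_apply, LinearMap.mulLeft_apply, LinearMap.mulRight_apply,
    sub_eq_zero]
  exact ⟨fun h v => LinearMap.congr_fun h v, fun h => LinearMap.ext h⟩

private theorem StarEuler_pi {V : Type*} [AddCommGroup V] [Module k V] [Module.Finite k V]
    (f : Module.End k V) : ∃ p : V →ₗ[k] (Fin (finrank k (LinearMap.ker f)) → k),
      ∀ v, p v = 0 → v ∈ LinearMap.range f := by
  have h1 : finrank k (V ⧸ LinearMap.range f) =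
      finrank k (Fin (finrank k (LinearMap.ker f)) → k) := by
    have h1 := Submodule.finrank_quotient_add_finrank (LinearMap.range f)
    have h2 := LinearMap.finrank_range_add_finrank_ker f
    rw [Module.finrank_fin_fun]
    omega
  let e : (V ⧸ LinearMap.range f) ≃ₗ[k] (Fin (finrank k (LinearMap.ker f)) → k) :=
    LinearEquiv.ofFinrankEq _ _ h1
  refine ⟨e.toLinearMap ∘ₗ (LinearMap.range f).mkQ, fun v hv => ?_⟩
  have h2 : (LinearMap.range f).mkQ v = 0 := by
    apply e.injective
    rw [map_zero]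
    exact hv
  exact (Submodule.Quotient.mk_eq_zero _).1 h2

end gen

section main

variable {k N : Type*} [Field k] [AddCommGroup N] [Module k N] {m : ℕ}
  (y : Fin m → Module.End k N)

private theorem StarEuler_S (s : N) : s ∈ starS y ↔ ∀ i, y i s = 0 := by
  rw [starS, Submodule.mem_iInf]
  exact Iff.rfl

/-- the sum map -/
private def StarEuler_sum : (∀ i, LinearMap.range (y i)) →ₗ[k] N :=
  ∑ i, (LinearMap.range (y i)).subtype ∘ₗ LinearMap.proj i

private theorem StarEuler_sum_apply (p : ∀ i, LinearMap.range (y i)) :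
    StarEuler_sum y p = ∑ i, (p i : N) := by
  rw [StarEuler_sum, LinearMap.sum_apply]
  rfl

private theorem StarEuler_range : starU y ≤ LinearMap.range (StarEuler_sum y) := by
  classical
  refine iSup_le fun i => ?_
  intro v hv
  refine ⟨Pi.single i ⟨v, hv⟩, ?_⟩
  rw [StarEuler_sum_apply, Finset.sum_eq_single i]
  · rw [Pi.single_eq_same]
  · intro j _ hj
    rw [Pi.single_eq_of_ne hj]
    rfl
  · intro h
    exact absurd (Finset.mem_univ i) h

private theorem StarEuler_mem (i : Fin m) (p : LinearMap.range (y i)) : (p : N) ∈ starU y :=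
  (le_iSup (fun i => LinearMap.range (y i)) i) p.2

variable (T : Submodule k N)

/-- the space of data -/
private abbrev StarEuler_X : Type _ :=
  ((T →ₗ[k] T) × (starS y →ₗ[k] starS y)) ×
    ((∀ i, cen (yr (y i))) × (T →ₗ[k] starS y))

variable (yy : ∀ i, N →ₗ[k] LinearMap.range (y i))
  (pp : ∀ i, LinearMap.range (y i) →ₗ[k] (Fin (finrank k (LinearMap.ker (yr (y i)))) → k))

/-- the obstructions -/
private def StarEuler_Th (prS : N →ₗ[k] starS y) : StarEuler_X y T →ₗ[k] (∀ i,
    (T →ₗ[k] (Fin (finrank k (LinearMap.ker (yr (y i)))) → k)) ×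
    (LinearMap.ker (yr (y i)) →ₗ[k] starS y)) where
  toFun x := fun i =>
    (pp i ∘ₗ ((x.2.1 i).1 ∘ₗ yy i ∘ₗ T.subtype -
        yy i ∘ₗ T.subtype ∘ₗ x.1.1),
      x.1.2 ∘ₗ prS ∘ₗ (LinearMap.range (y i)).subtype ∘ₗ (LinearMap.ker (yr (y i))).subtype -
        prS ∘ₗ (LinearMap.range (y i)).subtype ∘ₗ (x.2.1 i).1 ∘ₗ
          (LinearMap.ker (yr (y i))).subtype)
  map_add' a b := by
    funext i
    refine Prod.ext (LinearMap.ext fun v => ?_) (LinearMap.ext fun v => ?_)
    · simp
      abel
    · simp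
      abel
  map_smul' c a := by
    funext i
    refine Prod.ext (LinearMap.ext fun v => ?_) (LinearMap.ext fun v => ?_)
    · simp [smul_sub]
    · simp [smul_sub]

/-- the construction -/
private def StarEuler_Xi (eT : N →ₗ[k] T) (t : N →ₗ[k] ∀ i, LinearMap.range (y i))
    (s : ∀ i, LinearMap.range (y i) →ₗ[k] LinearMap.range (y i)) :
    StarEuler_X y T →ₗ[k] Module.End k N where
  toFun x :=
    (∑ i, (LinearMap.range (y i)).subtype ∘ₗ (x.2.1 i).1 ∘ₗ LinearMap.proj i ∘ₗ t) ∘ₗ
        (LinearMap.id - T.subtype ∘ₗ eT) +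
      (T.subtype ∘ₗ x.1.1 + (∑ i, (LinearMap.range (y i)).subtype ∘ₗ s i ∘ₗ
        ((x.2.1 i).1 ∘ₗ yy i ∘ₗ T.subtype -
          yy i ∘ₗ T.subtype ∘ₗ x.1.1)) + (starS y).subtype ∘ₗ x.2.2) ∘ₗ eT
  map_add' a b := by
    refine LinearMap.ext fun v => ?_
    simp [LinearMap.sum_apply, Finset.sum_add_distrib, Finset.sum_sub_distrib]
    abel
  map_smul' c a := by
    refine LinearMap.ext fun v => ?_
    simp [LinearMap.sum_apply, Finset.smul_sum, smul_sub, smul_add]

private theorem StarEuler_Xi_apply (eT : N →ₗ[k] T) (t : N →ₗ[k] ∀ i, LinearMap.range (y i))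
    (s : ∀ i, LinearMap.range (y i) →ₗ[k] LinearMap.range (y i)) (x : StarEuler_X y T) (v : N) :
    StarEuler_Xi y T yy eT t s x v = ∑ i, (((x.2.1 i).1 (t (v - eT v) i) :
        LinearMap.range (y i)) : N) +
      ((x.1.1 (eT v) : N) + ∑ i, ((s i ((x.2.1 i).1 (yy i (eT v)) -
        yy i (x.1.1 (eT v))) : LinearMap.range (y i)) : N) +
        (x.2.2 (eT v) : N)) := by
  simp only [StarEuler_Xi, LinearMap.coe_mk, AddHom.coe_mk, LinearMap.add_apply,
    LinearMap.comp_apply, LinearMap.sum_apply, LinearMap.sub_apply, LinearMap.id_apply,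
    Submodule.subtype_apply, LinearMap.proj_apply]

private theorem StarEuler_zero {y : Fin m → Module.End k N}
    (hyy : ∀ i j, i ≠ j → y i * y j = 0) {i j : Fin m} (hij : i ≠ j)
    (p : LinearMap.range (y j)) : y i (p : N) = 0 := by
  obtain ⟨w, hw⟩ := p.2
  rw [← hw]
  exact LinearMap.congr_fun (hyy i j hij) w

private theorem StarEuler_ysum {y : Fin m → Module.End k N}
    (hyy : ∀ i j, i ≠ j → y i * y j = 0) (r : ∀ i, LinearMap.range (y i)) (i : Fin m) :
    y i (∑ j, (r j : N)) = y i (r i : N) := by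
  classical
  rw [map_sum, Finset.sum_eq_single i]
  · intro j _ hj
    exact StarEuler_zero hyy (Ne.symm hj) (r j)
  · intro h
    exact absurd (Finset.mem_univ i) h

private theorem StarEuler_yr (i : Fin m) (p : LinearMap.range (y i)) :
    ((yr (y i) p : LinearMap.range (y i)) : N) = y i (p : N) := rfl

private theorem StarEuler_memS {y : Fin m → Module.End k N}
    (hyy : ∀ i j, i ≠ j → y i * y j = 0) (i : Fin m) (p : LinearMap.range (y i))
    (hp : yr (y i) p = 0) : (p : N) ∈ starS y := by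
  rw [StarEuler_S]
  intro j
  by_cases h : j = i
  · subst h
    rw [← StarEuler_yr, hp]
    rfl
  · exact StarEuler_zero hyy h p

variable {y T yy pp}

private theorem StarEuler_C1 (hpp : ∀ i v, pp i v = 0 → v ∈ LinearMap.range (yr (y i))) {prS : N →ₗ[k] starS y} {x : StarEuler_X y T}
    (hx : StarEuler_Th y T yy pp prS x = 0) (i : Fin m) (v : T) :
    (x.2.1 i).1 (yy i v) - yy i (x.1.1 v) ∈ LinearMap.range (yr (y i)) := by
  have h1 := LinearMap.congr_fun (congrArg Prod.fst (congrFun hx i)) v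
  exact hpp i _ h1

private theorem StarEuler_C2 (hyy : ∀ i j, i ≠ j → y i * y j = 0) {prS : N →ₗ[k] starS y}
    (hpr : ∀ s : starS y, prS (s : N) = s) {x : StarEuler_X y T}
    (hx : StarEuler_Th y T yy pp prS x = 0) (i : Fin m) (p : LinearMap.range (y i))
    (hp : yr (y i) p = 0) :
    (((x.2.1 i).1 p : LinearMap.range (y i)) : N) = (x.1.2 (prS (p : N)) : N) := by
  have h1 := LinearMap.congr_fun (congrArg Prod.snd (congrFun hx i)) ⟨p, hp⟩
  have h2 : x.1.2 (prS (p : N)) =
      prS (((x.2.1 i).1 p : LinearMap.range (y i)) : N) := sub_eq_zero.1 h1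
  have h3 : yr (y i) ((x.2.1 i).1 p) = 0 := by
    rw [(StarEuler_cen _ _).1 (x.2.1 i).2 p, hp, map_zero]
  have h4 := hpr ⟨_, StarEuler_memS hyy i _ h3⟩
  rw [h2]
  exact (congrArg Subtype.val h4).symm

private theorem StarEuler_WD (hyy : ∀ i j, i ≠ j → y i * y j = 0) {prS : N →ₗ[k] starS y}
    (hpr : ∀ s : starS y, prS (s : N) = s) {x : StarEuler_X y T}
    (hx : StarEuler_Th y T yy pp prS x = 0) (r : ∀ i, LinearMap.range (y i))
    (hr : ∑ i, (r i : N) ∈ starS y) :
    ∑ i, (((x.2.1 i).1 (r i) : LinearMap.range (y i)) : N) =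
      (x.1.2 (prS (∑ i, (r i : N))) : N) := by
  have h1 : ∀ i, yr (y i) (r i) = 0 := by
    intro i
    apply Subtype.ext
    rw [StarEuler_yr, ← StarEuler_ysum hyy r i]
    exact (StarEuler_S y _).1 hr i
  rw [map_sum, map_sum, Submodule.coe_sum]
  exact Finset.sum_congr rfl fun i _ => StarEuler_C2 hyy hpr hx i (r i) (h1 i)

section xi

variable {eT : N →ₗ[k] T} {t : N →ₗ[k] ∀ i, LinearMap.range (y i)}
  {s : ∀ i, LinearMap.range (y i) →ₗ[k] LinearMap.range (y i)}

private theorem StarEuler_XiU (heU : ∀ u ∈ starU y, eT u = 0) (x : StarEuler_X y T) (u : N)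
    (hu : u ∈ starU y) : StarEuler_Xi y T yy eT t s x u =
      ∑ i, (((x.2.1 i).1 (t u i) : LinearMap.range (y i)) : N) := by
  rw [StarEuler_Xi_apply, heU u hu]
  simp

private theorem StarEuler_F1 (hyy : ∀ i j, i ≠ j → y i * y j = 0) {prS : N →ₗ[k] starS y}
    (hpr : ∀ s : starS y, prS (s : N) = s) (heU : ∀ u ∈ starU y, eT u = 0)
    (ht : ∀ u ∈ starU y, ∑ i, (t u i : N) = u) {x : StarEuler_X y T}
    (hx : StarEuler_Th y T yy pp prS x = 0) (i : Fin m) (p : LinearMap.range (y i)) :
    StarEuler_Xi y T yy eT t s x (p : N) = (((x.2.1 i).1 p : LinearMap.range (y i)) : N) := by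
  classical
  rw [StarEuler_XiU heU x _ (StarEuler_mem y i p)]
  obtain ⟨q, hq⟩ : ∃ q : ∀ j, LinearMap.range (y j), q = Pi.single i p := ⟨_, rfl⟩
  have hqi : q i = p := by rw [hq, Pi.single_eq_same]
  have hqj : ∀ j, j ≠ i → q j = 0 := fun j hj => by rw [hq, Pi.single_eq_of_ne hj]
  have h0 : ∑ j, (q j : N) = (p : N) := by
    rw [Finset.sum_eq_single i]
    · rw [hqi]
    · intro j _ hj
      rw [hqj j hj]
      rfl
    · intro h
      exact absurd (Finset.mem_univ i) h
  have h1 : ∑ j, ((t (p : N) - q) j : N) = 0 := by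
    have h2 : ∀ j, ((t (p : N) - q) j : N) = (t (p : N) j : N) - (q j : N) := fun j => rfl
    rw [Finset.sum_congr rfl fun j _ => h2 j, Finset.sum_sub_distrib, h0,
      ht _ (StarEuler_mem y i p), sub_self]
  have h3 := StarEuler_WD hyy hpr hx (t (p : N) - q) (by
    rw [h1]
    exact Submodule.zero_mem _)
  rw [h1, map_zero, map_zero] at h3
  have h4 : ∀ j, (((x.2.1 j).1 ((t (p : N) - q) j) : LinearMap.range (y j)) : N) =
      (((x.2.1 j).1 (t (p : N) j) : LinearMap.range (y j)) : N) -
        (((x.2.1 j).1 (q j) : LinearMap.range (y j)) : N) := by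
    intro j
    rw [Pi.sub_apply, map_sub]
    rfl
  rw [Finset.sum_congr rfl fun j _ => h4 j, Finset.sum_sub_distrib] at h3
  have h5 : ∑ j, (((x.2.1 j).1 (q j) : LinearMap.range (y j)) : N) =
      (((x.2.1 i).1 p : LinearMap.range (y i)) : N) := by
    rw [Finset.sum_eq_single i]
    · rw [hqi]
    · intro j _ hj
      rw [hqj j hj, map_zero]
      rfl
    · intro h
      exact absurd (Finset.mem_univ i) h
  rw [h5] at h3
  exact sub_eq_zero.1 h3

private theorem StarEuler_F2 (hyy : ∀ i j, i ≠ j → y i * y j = 0) {prS : N →ₗ[k] starS y}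
    (hpr : ∀ s : starS y, prS (s : N) = s) (heU : ∀ u ∈ starU y, eT u = 0)
    (heT : ∀ v, v - (eT v : N) ∈ starU y)
    (ht : ∀ u ∈ starU y, ∑ i, (t u i : N) = u) (hY : ∀ i v, (yy i v : N) = y i v)
    (hs : ∀ i, ∀ w ∈ LinearMap.range (yr (y i)), yr (y i) (s i w) = w)
    (hpp : ∀ i v, pp i v = 0 → v ∈ LinearMap.range (yr (y i))) {x : StarEuler_X y T}
    (hx : StarEuler_Th y T yy pp prS x = 0) : StarEuler_Xi y T yy eT t s x ∈ starC y := by
  classical
  rw [starC, Submodule.mem_iInf]
  intro i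
  rw [StarEuler_cen]
  intro v
  rw [← hY i v, StarEuler_F1 hyy hpr heU ht hx i (yy i v), StarEuler_Xi_apply, map_add, map_add,
    map_add]
  have h1 := StarEuler_ysum hyy (fun j => (x.2.1 j).1 (t (v - eT v) j)) i
  have h2 := StarEuler_ysum hyy (fun j => s j ((x.2.1 j).1 (yy j (eT v)) -
        yy j (x.1.1 (eT v)))) i
  have h3 : y i (x.2.2 (eT v) : N) = 0 := (StarEuler_S y _).1 (x.2.2 (eT v)).2 i
  have h4 : yr (y i) (s i ((x.2.1 i).1 (yy i (eT v)) - yy i (x.1.1 (eT v)))) =
      (x.2.1 i).1 (yy i (eT v)) - yy i (x.1.1 (eT v)) :=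
    hs i _ (StarEuler_C1 hpp hx i (eT v))
  have h5 : yr (y i) (t (v - eT v) i) = yy i (v - eT v) := by
    apply Subtype.ext
    rw [StarEuler_yr, hY, ← StarEuler_ysum hyy (t (v - eT v)) i, ht _ (heT v)]
  have h6 : y i (((x.2.1 i).1 (t (v - eT v) i) : LinearMap.range (y i)) : N) =
      (((x.2.1 i).1 (yy i (v - eT v)) : LinearMap.range (y i)) : N) := by
    rw [← StarEuler_yr, (StarEuler_cen _ _).1 (x.2.1 i).2, h5]
  have h7 : y i (s i ((x.2.1 i).1 (yy i (eT v)) - yy i (x.1.1 (eT v))) : N) =
      (((x.2.1 i).1 (yy i (eT v)) : LinearMap.range (y i)) : N) - y i (x.1.1 (eT v) : N) := by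
    rw [← StarEuler_yr, h4, Submodule.coe_sub, hY]
  have h8 : (((x.2.1 i).1 (yy i v) : LinearMap.range (y i)) : N) =
      (((x.2.1 i).1 (yy i (v - eT v)) : LinearMap.range (y i)) : N) +
        (((x.2.1 i).1 (yy i (eT v)) : LinearMap.range (y i)) : N) := by
    rw [← Submodule.coe_add, ← map_add, ← map_add, sub_add_cancel]
  rw [h1, h2, h3, h6, h7, h8]
  abel

private theorem StarEuler_F3 (hyy : ∀ i j, i ≠ j → y i * y j = 0) {prS : N →ₗ[k] starS y}
    (hS : starS y ≤ starU y) (hd : Disjoint (starU y) T)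
    (hpr : ∀ s : starS y, prS (s : N) = s) (heU : ∀ u ∈ starU y, eT u = 0)
    (heT' : ∀ v : T, eT (v : N) = v)
    (ht : ∀ u ∈ starU y, ∑ i, (t u i : N) = u) {x : StarEuler_X y T}
    (hx : StarEuler_Th y T yy pp prS x = 0) (h0 : StarEuler_Xi y T yy eT t s x = 0) : x = 0 := by
  have hψ : ∀ i, x.2.1 i = 0 := by
    intro i
    apply Subtype.ext
    refine LinearMap.ext fun p => ?_
    apply Subtype.ext
    have h1 := StarEuler_F1 (s := s) hyy hpr heU ht hx i p
    rw [h0] at h1
    exact h1.symm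
  have hβ : x.1.2 = 0 := by
    refine LinearMap.ext fun w => ?_
    apply Subtype.ext
    have h1 := ht (w : N) (hS w.2)
    have h2 := StarEuler_WD hyy hpr hx (t (w : N)) (by
      rw [h1]
      exact w.2)
    rw [h1, hpr] at h2
    rw [← h2]
    refine Finset.sum_eq_zero fun i _ => ?_
    rw [hψ i]
    rfl
  have hv : ∀ v : T, x.1.1 v = 0 ∧ x.2.2 v = 0 := by
    intro v
    have h1 : StarEuler_Xi y T yy eT t s x (v : N) = 0 := by
      rw [h0]
      rfl
    rw [StarEuler_Xi_apply, heT' v, sub_self] at h1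
    have h2 : ∑ i, (((x.2.1 i).1 ((t 0) i) : LinearMap.range (y i)) : N) = 0 := by
      refine Finset.sum_eq_zero fun i _ => ?_
      rw [hψ i]
      rfl
    rw [h2, zero_add] at h1
    have h3 : ∑ i, ((s i ((x.2.1 i).1 (yy i v) - yy i (x.1.1 v)) :
        LinearMap.range (y i)) : N) ∈ starU y :=
      Submodule.sum_mem _ fun i _ => StarEuler_mem y i _
    have h4 : (x.1.1 v : N) ∈ starU y := by
      have h5 : (x.1.1 v : N) = -(∑ i, ((s i ((x.2.1 i).1 (yy i v) - yy i (x.1.1 v)) :
        LinearMap.range (y i)) : N)) - (x.2.2 v : N) := by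
        rw [eq_sub_iff_add_eq, eq_neg_iff_add_eq_zero, ← h1]
        abel
      rw [h5]
      exact Submodule.sub_mem _ (Submodule.neg_mem _ h3) (hS (x.2.2 v).2)
    have h6 : (x.1.1 v : N) = 0 := Submodule.disjoint_def.1 hd _ h4 (x.1.1 v).2
    have h7 : x.1.1 v = 0 := Subtype.ext h6
    refine ⟨h7, ?_⟩
    have h8 : ∑ i, ((s i ((x.2.1 i).1 (yy i v) - yy i (x.1.1 v)) :
        LinearMap.range (y i)) : N) = 0 := by
      refine Finset.sum_eq_zero fun i _ => ?_
      rw [hψ i, h7]
      have h9 : ((0 : cen (yr (y i))).1 (yy i v) - yy i ((0 : T) : N)) = 0 := by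
        rw [ZeroMemClass.coe_zero, ZeroMemClass.coe_zero, map_zero, sub_zero]
        rfl
      rw [h9, map_zero]
      rfl
    rw [h8, h6, zero_add, zero_add] at h1
    exact Subtype.ext h1
  refine Prod.ext (Prod.ext (LinearMap.ext fun v => (hv v).1) hβ)
    (Prod.ext (funext hψ) (LinearMap.ext fun v => (hv v).2))

end xi

end main

theorem star_euler {k N : Type*} [Field k] [AddCommGroup N] [Module k N] [Module.Finite k N]
    {m : ℕ} (y : Fin m → Module.End k N) (hyy : ∀ i j, i ≠ j → y i * y j = 0)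
    (hS : starS y ≤ starU y) :
    finrank k (N ⧸ starU y) * finrank k (starS y) + finrank k (N ⧸ starU y) ^ 2 +
      finrank k (starS y) ^ 2 + ∑ i, finrank k (cen (yr (y i))) ≤
      finrank k (starC y) + ∑ i, finrank k (LinearMap.ker (yr (y i))) *
        (finrank k (N ⧸ starU y) + finrank k (starS y)) := by
  classical
  obtain ⟨T, hT⟩ := Submodule.exists_isCompl (starU y)
  obtain ⟨t, ht0⟩ := StarEuler_ginv (StarEuler_sum y)
  have ht : ∀ u ∈ starU y, ∑ i, (t u i : N) = u := by
    intro u hu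
    rw [← StarEuler_sum_apply]
    exact ht0 u (StarEuler_range y hu)
  choose s hs using fun i => StarEuler_ginv (yr (y i))
  choose p hp using fun i => StarEuler_pi (yr (y i))
  obtain ⟨prS, hpr0⟩ := (starS y).subtype.exists_leftInverse_of_injective (starS y).ker_subtype
  have hpr : ∀ s : starS y, prS (s : N) = s := fun s => LinearMap.congr_fun hpr0 s
  have heU : ∀ u ∈ starU y, T.projectionOnto (starU y) hT.symm u = 0 := by
    intro u hu
    rw [← LinearMap.mem_ker, Submodule.ker_projectionOnto]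
    exact hu
  have heT' : ∀ v : T, T.projectionOnto (starU y) hT.symm (v : N) = v := fun v =>
    Submodule.projectionOnto_apply_left hT.symm v
  have heT : ∀ v, v - (T.projectionOnto (starU y) hT.symm v : N) ∈ starU y := by
    intro v
    have h1 : T.projectionOnto (starU y) hT.symm
        (v - (T.projectionOnto (starU y) hT.symm v : N)) = 0 := by
      rw [map_sub, heT', sub_self]
    rw [← LinearMap.mem_ker, Submodule.ker_projectionOnto] at h1
    exact h1
  have ha : finrank k (N ⧸ starU y) = finrank k T :=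
    (Submodule.quotientEquivOfIsCompl _ _ hT).finrank_eq
  have hX : finrank k (StarEuler_X y T) = (finrank k T * finrank k T +
      finrank k (starS y) * finrank k (starS y)) +
      (∑ i, finrank k (cen (yr (y i))) + finrank k T * finrank k (starS y)) := by
    rw [Module.finrank_prod, Module.finrank_prod, Module.finrank_prod,
      Module.finrank_linearMap, Module.finrank_linearMap, Module.finrank_linearMap,
      Module.finrank_pi_fintype]
  have hYY : finrank k (LinearMap.range (StarEuler_Th y T (fun i => (y i).rangeRestrict) p prS)) +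
      finrank k (LinearMap.ker (StarEuler_Th y T (fun i => (y i).rangeRestrict) p prS)) =
      finrank k (StarEuler_X y T) := by
    exact LinearMap.finrank_range_add_finrank_ker
      (StarEuler_Th y T (fun i => (y i).rangeRestrict) p prS)
  have hle : finrank k (LinearMap.range (StarEuler_Th y T (fun i => (y i).rangeRestrict) p prS)) ≤
      ∑ i, (finrank k T * finrank k (LinearMap.ker (yr (y i))) +
        finrank k (LinearMap.ker (yr (y i))) * finrank k (starS y)) := by
    refine (Submodule.finrank_le _).trans ?_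
    rw [Module.finrank_pi_fintype]
    refine Finset.sum_le_sum fun i _ => ?_
    rw [Module.finrank_prod, Module.finrank_linearMap, Module.finrank_linearMap,
      Module.finrank_fin_fun]
  have hker : finrank k (LinearMap.ker (StarEuler_Th y T (fun i => (y i).rangeRestrict) p prS)) ≤
      finrank k (starC y) := by
    let F : LinearMap.ker (StarEuler_Th y T (fun i => (y i).rangeRestrict) p prS) →ₗ[k] starC y :=
      ((StarEuler_Xi y T (fun i => (y i).rangeRestrict) (T.projectionOnto (starU y) hT.symm)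
        t s).domRestrict _).codRestrict (starC y) (fun x =>
          StarEuler_F2 hyy hpr heU heT ht (fun i v => rfl) hs hp x.2)
    refine LinearMap.finrank_le_finrank_of_injective (f := F) ?_
    rw [injective_iff_map_eq_zero]
    intro x hx
    apply Subtype.ext
    exact StarEuler_F3 (s := s) hyy hS hT.disjoint hpr heU heT' ht x.2 (congrArg Subtype.val hx)
  rw [hX] at hYY
  rw [ha]
  have hfin : ∑ i, (finrank k T * finrank k (LinearMap.ker (yr (y i))) +
        finrank k (LinearMap.ker (yr (y i))) * finrank k (starS y)) =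
      ∑ i, finrank k (LinearMap.ker (yr (y i))) * (finrank k T + finrank k (starS y)) :=
    Finset.sum_congr rfl fun i _ => by ring
  rw [hfin] at hle
  nlinarith [hYY, hle, hker]

end Pool.Agent.HWC
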