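import Pool.Agent.HWC.StarDefs

/-!
Paper proof.  P_i = range (y i), U = sum P_i, S = common kernel, S inside U.
For psi in cen (yr (y i)) (an operator of P_i commuting with y_i) the operator psi y_i of N (v |-> psi (y_i v)) is in starC:
it commutes with y_i, and for j distinct from i, y_j psi y_i = 0 (y_j y_i = 0) and psi y_i y_j = 0.
For h in Hom(N/U, S): the operator v |-> h(v mod U) is in starC.
Psi : Hom(N/U, S) x prod_i cen (yr (y i)) -> starC, (h, psi) |-> h~ + sum psi_i y_i, linear.
Kernel: if h~ + sum psi_i y_i = 0, apply y_i on the left: y_i psi_i y_i = 0, so psi_i maps P_i into P_i inter ker y_i;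
apply on the right y_i: psi_i y_i y_i = 0 (h~ y_i = 0, y_j y_i = 0), so psi_i kills y_i P_i; so psi_i lies in
Hom(P_i / y_i P_i, ker (yr y_i)), of dimension (dim ker (yr y_i))^2, and h~ is determined by the psi_i: dim ker Psi <= sum
(dim ker (yr y_i))^2.  So dim range Psi >= a sigma + sum dim cen (yr y_i) - sum (dim ker (yr y_i))^2.
1 is in starC and not in range Psi: every element of range Psi maps N into U (S inside U); if 1 were in it, N = U =
sum y_i N, and substituting repeatedly N = sum y_i^t N = 0 for large t (y_i y_j = 0, nilpotent): contradiction.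
-/

set_option autoImplicit false

namespace Pool.Agent.HWC

open IsLocalRing Module

/-- homomorphisms from the cokernel to the kernel as operators -/
private noncomputable def StarLowTheta {k V : Type*} [Field k] [AddCommGroup V] [Module k V]
    (z : Module.End k V) :
    ((V ⧸ LinearMap.range z) →ₗ[k] LinearMap.ker z) →ₗ[k] Module.End k V where
  toFun g := (LinearMap.ker z).subtype ∘ₗ g ∘ₗ (LinearMap.range z).mkQ
  map_add' _ _ := by ext; simp
  map_smul' _ _ := by ext; simp

private lemma StarLow_mem {k V : Type*} [Field k] [AddCommGroup V] [Module k V]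
    (z p : Module.End k V) (h1 : ∀ v, p (z v) = 0) (h2 : ∀ v, z (p v) = 0) :
    p ∈ LinearMap.range (StarLowTheta z) := by
  refine ⟨(LinearMap.range z).liftQ (p.codRestrict (LinearMap.ker z) fun v => h2 v) ?_, ?_⟩
  · rintro _ ⟨w, rfl⟩
    rw [LinearMap.mem_ker]
    exact Subtype.ext (h1 w)
  · ext v
    simp only [StarLowTheta, LinearMap.coe_mk, AddHom.coe_mk, LinearMap.comp_apply,
      Submodule.mkQ_apply, Submodule.liftQ_apply]
    rfl

private lemma StarLow_finrank {k V : Type*} [Field k] [AddCommGroup V] [Module k V]
    [Module.Finite k V] (z : Module.End k V) :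
    finrank k (LinearMap.range (StarLowTheta z)) ≤ finrank k (LinearMap.ker z) ^ 2 := by
  refine (LinearMap.finrank_range_le _).trans ?_
  rw [Module.finrank_linearMap]
  have h1 := Submodule.finrank_quotient_add_finrank (LinearMap.range z)
  have h2 := LinearMap.finrank_range_add_finrank_ker z
  have h3 : finrank k (V ⧸ LinearMap.range z) = finrank k (LinearMap.ker z) := by omega
  rw [h3, sq]

variable {k N : Type*} [Field k] [AddCommGroup N] [Module k N] {m : ℕ}

/-- the map of the proof -/
private noncomputable def StarLowPsi (y : Fin m → Module.End k N) :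
    (((N ⧸ starU y) →ₗ[k] starS y) × (∀ i, cen (yr (y i)))) →ₗ[k] Module.End k N where
  toFun x := (starS y).subtype ∘ₗ x.1 ∘ₗ (starU y).mkQ +
    ∑ i, (LinearMap.range (y i)).subtype ∘ₗ (x.2 i).1 ∘ₗ (y i).rangeRestrict
  map_add' a b := by
    ext v
    simp only [LinearMap.add_apply, LinearMap.sum_apply, LinearMap.comp_apply, Prod.fst_add,
      Prod.snd_add, Pi.add_apply, Submodule.coe_add, map_add, Finset.sum_add_distrib]
    abel
  map_smul' c a := by
    ext v
    simp only [LinearMap.add_apply, LinearMap.sum_apply, LinearMap.comp_apply, Prod.smul_fst,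
      Prod.smul_snd, Pi.smul_apply, Submodule.coe_smul, map_smul, LinearMap.smul_apply,
      Finset.smul_sum, smul_add, RingHom.id_apply]

private lemma StarLowPsi_apply (y : Fin m → Module.End k N)
    (x : ((N ⧸ starU y) →ₗ[k] starS y) × (∀ i, cen (yr (y i)))) (v : N) :
    StarLowPsi y x v = (x.1 ((starU y).mkQ v) : N) +
      ∑ i, (((x.2 i).1 ((y i).rangeRestrict v) : LinearMap.range (y i)) : N) := by
  simp [StarLowPsi]

private lemma StarLow_cen {V : Type*} [AddCommGroup V] [Module k V] (z p : Module.End k V) :
    p ∈ cen z ↔ ∀ v, z (p v) = p (z v) := by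
  rw [LinearMap.mem_ker, LinearMap.sub_apply, sub_eq_zero]
  constructor
  · intro h v
    exact LinearMap.congr_fun h v
  · intro h
    ext v
    exact h v

private lemma StarLow_top (y : Fin m → Module.End k N) (hyy : ∀ i j, i ≠ j → y i * y j = 0)
    (h : starU y = ⊤) (t : ℕ) : ⨆ i, LinearMap.range (y i ^ (t + 1)) = ⊤ := by
  induction t with
  | zero => simpa [starU] using h
  | succ t ih =>
    rw [eq_top_iff]
    conv_lhs => rw [← h]
    unfold starU
    refine iSup_le fun j => ?_
    rw [LinearMap.range_eq_map, ← ih, Submodule.map_iSup]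
    refine iSup_le fun i => ?_
    by_cases hij : j = i
    · subst hij
      refine le_trans ?_ (le_iSup _ j)
      rw [← LinearMap.range_comp, pow_succ' (y j) (t + 1)]
      exact le_rfl
    · rw [← LinearMap.range_comp]
      have h0 : y j ∘ₗ (y i ^ (t + 1)) = 0 := by
        have : y j * y i ^ (t + 1) = 0 := by
          rw [pow_succ', ← mul_assoc, hyy j i hij, zero_mul]
        exact this
      rw [h0, LinearMap.range_zero]
      exact bot_le

theorem star_low {k N : Type*} [Field k] [AddCommGroup N] [Module k N] [Module.Finite k N]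
    [Nontrivial N] {m : ℕ} (y : Fin m → Module.End k N) (hyy : ∀ i j, i ≠ j → y i * y j = 0)
    (hnil : ∀ i, IsNilpotent (y i)) (hS : starS y ≤ starU y) :
    finrank k (N ⧸ starU y) * finrank k (starS y) + ∑ i, finrank k (cen (yr (y i))) + 1 ≤
      finrank k (starC y) + ∑ i, finrank k (LinearMap.ker (yr (y i))) ^ 2 := by
  classical
  have hyy' : ∀ i j, i ≠ j → ∀ v, y i (y j v) = 0 := by
    intro i j hij v
    exact LinearMap.congr_fun (hyy i j hij) v
  have hSk : ∀ (s : starS y) (i), y i (s : N) = 0 := by
    intro s i
    have := s.2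
    unfold starS at this
    rw [Submodule.mem_iInf] at this
    exact this i
  have hUq : ∀ (i) (v : N), (starU y).mkQ (y i v) = 0 := by
    intro i v
    rw [Submodule.mkQ_apply, Submodule.Quotient.mk_eq_zero]
    exact (le_iSup (fun i => LinearMap.range (y i)) i) ⟨v, rfl⟩
  have hcom : ∀ (x : ((N ⧸ starU y) →ₗ[k] starS y) × (∀ i, cen (yr (y i)))) (i) (v : N),
      (y i) (((x.2 i).1 ((y i).rangeRestrict v) : LinearMap.range (y i)) : N) =
        (((x.2 i).1 ((y i).rangeRestrict (y i v)) : LinearMap.range (y i)) : N) := by
    intro x i v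
    have h1 := (StarLow_cen (yr (y i)) (x.2 i).1).1 (x.2 i).2 ((y i).rangeRestrict v)
    exact congrArg Subtype.val h1
  -- left and right multiplication by `y i`
  have hleft : ∀ (x : ((N ⧸ starU y) →ₗ[k] starS y) × (∀ i, cen (yr (y i)))) (i) (v : N),
      y i (StarLowPsi y x v) =
        (y i) (((x.2 i).1 ((y i).rangeRestrict v) : LinearMap.range (y i)) : N) := by
    intro x i v
    rw [StarLowPsi_apply, map_add, hSk, zero_add, map_sum]
    refine Finset.sum_eq_single i (fun j _ hj => ?_) (fun h => absurd (Finset.mem_univ i) h)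
    obtain ⟨w, hw⟩ := ((x.2 j).1 ((y j).rangeRestrict v)).2
    rw [← hw]
    exact hyy' i j (Ne.symm hj) w
  have hright : ∀ (x : ((N ⧸ starU y) →ₗ[k] starS y) × (∀ i, cen (yr (y i)))) (i) (v : N),
      StarLowPsi y x (y i v) =
        (((x.2 i).1 ((y i).rangeRestrict (y i v)) : LinearMap.range (y i)) : N) := by
    intro x i v
    rw [StarLowPsi_apply, hUq, map_zero, ZeroMemClass.coe_zero, zero_add]
    refine Finset.sum_eq_single i (fun j _ hj => ?_) (fun h => absurd (Finset.mem_univ i) h)
    have : (y j).rangeRestrict (y i v) = 0 := Subtype.ext (hyy' j i hj v)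
    rw [this, map_zero, ZeroMemClass.coe_zero]
  have hrange : LinearMap.range (StarLowPsi y) ≤ starC y := by
    rintro _ ⟨x, rfl⟩
    unfold starC
    rw [Submodule.mem_iInf]
    intro i
    rw [StarLow_cen]
    intro v
    rw [hleft, hright, hcom]
  have hone : (1 : Module.End k N) ∈ starC y := by
    unfold starC
    rw [Submodule.mem_iInf]
    intro i
    rw [StarLow_cen]
    intro v
    rfl
  have hnot : (1 : Module.End k N) ∉ LinearMap.range (StarLowPsi y) := by
    rintro ⟨x, hx⟩
    have hU : starU y = ⊤ := by
      rw [eq_top_iff]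
      intro v _
      have h1 : StarLowPsi y x v = v := by rw [hx]; rfl
      rw [← h1, StarLowPsi_apply]
      refine Submodule.add_mem _ (hS (Subtype.mem _)) (Submodule.sum_mem _ fun i _ => ?_)
      exact (le_iSup (fun i => LinearMap.range (y i)) i) (Subtype.mem _)
    choose t ht using hnil
    have h2 := StarLow_top y hyy hU (∑ i, t i)
    have h3 : ∀ i, y i ^ (∑ i, t i + 1) = 0 := by
      intro i
      have h4 : t i ≤ ∑ i, t i + 1 :=
        (Finset.single_le_sum (fun _ _ => Nat.zero_le _) (Finset.mem_univ i)).trans
          (Nat.le_succ _)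
      obtain ⟨s, hs⟩ := Nat.exists_eq_add_of_le h4
      rw [hs, pow_add, ht, zero_mul]
    simp only [h3, LinearMap.range_zero, iSup_bot] at h2
    exact bot_ne_top h2
  -- the kernel
  have hker : finrank k (LinearMap.ker (StarLowPsi y)) ≤
      ∑ i, finrank k (LinearMap.ker (yr (y i))) ^ 2 := by
    have hmem : ∀ (x : LinearMap.ker (StarLowPsi y)) (i),
        ((x.1.2 i).1 : Module.End k (LinearMap.range (y i))) ∈
          LinearMap.range (StarLowTheta (yr (y i))) := by
      intro x i
      have hx : StarLowPsi y x.1 = 0 := x.2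
      refine StarLow_mem _ _ ?_ ?_
      · rintro ⟨_, v, rfl⟩
        have h1 := hright x.1 i v
        rw [hx, LinearMap.zero_apply] at h1
        exact Subtype.ext h1.symm
      · rintro ⟨_, v, rfl⟩
        have h1 := hleft x.1 i v
        rw [hx, LinearMap.zero_apply, map_zero] at h1
        exact Subtype.ext h1.symm
    let Λ : LinearMap.ker (StarLowPsi y) →ₗ[k]
        (∀ i, LinearMap.range (StarLowTheta (yr (y i)))) :=
      { toFun := fun x i => ⟨(x.1.2 i).1, hmem x i⟩
        map_add' := fun _ _ => rfl
        map_smul' := fun _ _ => rfl }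
    have hinj : Function.Injective Λ := by
      rw [injective_iff_map_eq_zero]
      intro x hx
      have h1 : ∀ i, (x.1.2 i) = 0 := by
        intro i
        have := congrFun hx i
        exact Subtype.ext (show (x.1.2 i).1 = 0 from congrArg Subtype.val this)
      have h2 : x.1.1 = 0 := by
        refine LinearMap.ext fun w => Subtype.ext ?_
        obtain ⟨v, rfl⟩ := (starU y).mkQ_surjective w
        have h3 : StarLowPsi y x.1 v = 0 := by
          have hx' : StarLowPsi y x.1 = 0 := x.2
          rw [hx']; rfl
        rw [StarLowPsi_apply] at h3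
        simp only [h1] at h3
        simpa using h3
      refine Subtype.ext (Prod.ext h2 (funext h1))
    refine (LinearMap.finrank_le_finrank_of_injective hinj).trans ?_
    rw [Module.finrank_pi_fintype]
    exact Finset.sum_le_sum fun i _ => StarLow_finrank _
  have hdim := LinearMap.finrank_range_add_finrank_ker (StarLowPsi y)
  rw [Module.finrank_prod, Module.finrank_linearMap, Module.finrank_pi_fintype] at hdim
  have hlt : finrank k (LinearMap.range (StarLowPsi y)) < finrank k (starC y) := by
    refine Submodule.finrank_lt_finrank_of_lt (lt_of_le_of_ne hrange ?_)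
    intro h
    rw [h] at hnot
    exact hnot hone
  omega

end Pool.Agent.HWC
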