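import Pool.Agent.HWC.StarOne
import Pool.Agent.HWC.StarLow
import Pool.Agent.HWC.StarEuler
import Pool.Agent.HWC.StarDim

/-!
Paper proof.  (yr (y i))^(s_i + 1) = 0.  star_one: d_i = dim cen (yr y_i) = a_i^2 + kappa_i, w_i^2 <= s_i kappa_i.
a = dim N/U, sigma = dim S, D = dim starC, l = dim N = a + sigma + sum w_i, e = 2 + m + sum s_i.
star_low: D >= a sigma + sum kappa_i + 1.  star_euler: D >= a sigma + sum kappa_i + a^2 + sigma^2 - sum (a_i (a + sigma) - a_i^2)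
and a_i (a + sigma) - a_i^2 <= a sigma since (a - a_i)(sigma - a_i) >= 0.  So D >= a sigma + sum kappa_i + eta with
eta = max(1, a^2 + sigma^2 - m a sigma), and (m + 2)(a sigma + eta) - (a + sigma)^2 = (m + 2) eta - (a^2 + sigma^2 - m a sigma)
>= (m + 1) eta > 0.  Cauchy: l^2 = (x + sum w_i)^2 <= (m + 2 + sum s_i)(x^2/(m+2) + sum w_i^2/s_i), x = a + sigma (w_i = 0 if
s_i = 0), <= e (x^2/(m + 2) + sum kappa_i) < e (a sigma + eta + sum kappa_i) <= e D.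
-/

set_option autoImplicit false

namespace Pool.Agent.HWC

open IsLocalRing Module

private theorem StarIneq_real (x W q E S K : ℝ) (hx : 0 ≤ x) (hW : 0 ≤ W) (hq : 0 ≤ q) (hE : 0 ≤ E)
    (hS : 0 ≤ S) (hK : 0 ≤ K) (h1 : x ^ 2 < q * E) (h2 : W ^ 2 ≤ S * K) :
    (x + W) ^ 2 < (q + S) * (E + K) := by
  have h3 : 2 * (x * W) ≤ q * K + S * E := by
    have h4 : 0 ≤ 2 * (x * W) := by positivity
    have h5 : 0 ≤ q * K + S * E := by positivity
    refine (sq_le_sq₀ h4 h5).1 ?_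
    have h6 : x ^ 2 * W ^ 2 ≤ (q * E) * (S * K) :=
      mul_le_mul h1.le h2 (sq_nonneg W) (by positivity)
    nlinarith [sq_nonneg (q * K - S * E)]
  nlinarith

/-- the arithmetic -/
theorem star_arith (m : ℕ) (a σ D : ℕ) (s w κ b : Fin m → ℕ) (hw : ∀ i, w i ^ 2 ≤ s i * κ i)
    (hb1 : ∀ i, b i ≤ a) (hb2 : ∀ i, b i ≤ σ)
    (h1 : a * σ + ∑ i, (b i ^ 2 + κ i) + 1 ≤ D + ∑ i, b i ^ 2)
    (h2 : a * σ + a ^ 2 + σ ^ 2 + ∑ i, (b i ^ 2 + κ i) ≤ D + ∑ i, b i * (a + σ)) :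
    (a + σ + ∑ i, w i) ^ 2 < (2 + ∑ i, (s i + 1)) * D := by
  rw [Finset.sum_add_distrib] at h1 h2
  -- the sum of the `b i (a + σ)`
  have h3 : ∑ i, b i * (a + σ) ≤ ∑ i, b i ^ 2 + m * (a * σ) := by
    have h4 : ∀ i, b i * (a + σ) ≤ b i ^ 2 + a * σ := by
      intro i
      obtain ⟨c, hc⟩ := Nat.exists_eq_add_of_le (hb1 i)
      obtain ⟨d, hd⟩ := Nat.exists_eq_add_of_le (hb2 i)
      rw [hc, hd]
      nlinarith [Nat.zero_le (c * d)]
    calc ∑ i, b i * (a + σ) ≤ ∑ i, (b i ^ 2 + a * σ) := Finset.sum_le_sum fun i _ => h4 i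
      _ = ∑ i, b i ^ 2 + m * (a * σ) := by
        rw [Finset.sum_add_distrib, Finset.sum_const, Finset.card_univ, Fintype.card_fin,
          smul_eq_mul]
  have h5 : (∑ i, w i) ^ 2 ≤ (∑ i, s i) * ∑ i, κ i := by
    have := Finset.sum_sq_le_sum_mul_sum_of_sq_le_mul (R := ℝ) Finset.univ
      (f := fun i => (s i : ℝ)) (g := fun i => (κ i : ℝ)) (r := fun i => (w i : ℝ))
      (fun i _ => Nat.cast_nonneg _) (fun i _ => Nat.cast_nonneg _)
      (fun i _ => by exact_mod_cast hw i)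
    exact_mod_cast this
  have h6 : ∑ i, (s i + 1) = ∑ i, s i + m := by
    rw [Finset.sum_add_distrib, Finset.sum_const, Finset.card_univ, Fintype.card_fin, smul_eq_mul,
      mul_one]
  rw [h6]
  obtain ⟨B, hB⟩ : ∃ B, B = ∑ i, b i ^ 2 := ⟨_, rfl⟩
  obtain ⟨K, hK⟩ : ∃ K, K = ∑ i, κ i := ⟨_, rfl⟩
  obtain ⟨W, hW⟩ : ∃ W, W = ∑ i, w i := ⟨_, rfl⟩
  obtain ⟨S, hS⟩ : ∃ S, S = ∑ i, s i := ⟨_, rfl⟩
  rw [← hB, ← hK] at h1 h2
  rw [← hB] at h3
  rw [← hK, ← hW, ← hS] at h5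
  rw [← hW, ← hS]
  have e1 : a * σ + K + 1 ≤ D := by omega
  have e2 : a * σ + a ^ 2 + σ ^ 2 + K ≤ D + m * (a * σ) := by omega
  have g1 : ((a : ℝ) * σ + K + 1) ≤ D := by exact_mod_cast e1
  have g2 : ((a : ℝ) * σ + a ^ 2 + σ ^ 2 + K) ≤ D + m * (a * σ) := by exact_mod_cast e2
  have g3 : (W : ℝ) ^ 2 ≤ S * K := by exact_mod_cast h5
  have ha : (0 : ℝ) ≤ a := Nat.cast_nonneg a
  have hσ : (0 : ℝ) ≤ σ := Nat.cast_nonneg σ
  have hm : (0 : ℝ) ≤ m := Nat.cast_nonneg m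
  have hK0 : (0 : ℝ) ≤ K := Nat.cast_nonneg K
  have hE : (a : ℝ) * σ + 1 ≤ D - K := by linarith
  have hE0 : (0 : ℝ) ≤ D - K := by
    have : (0 : ℝ) ≤ a * σ := mul_nonneg ha hσ
    linarith
  have g4 : ((a : ℝ) + σ) ^ 2 < (m + 2) * (D - K) := by
    have g5 : 0 ≤ (m : ℝ) * ((D : ℝ) - K - a * σ - 1) := mul_nonneg hm (by linarith)
    nlinarith
  have g6 := StarIneq_real (a + σ) W (m + 2) (D - K) S K (by positivity) (Nat.cast_nonneg W)
    (by positivity) hE0 (Nat.cast_nonneg S) hK0 g4 g3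
  have g7 : ((a : ℝ) + σ + W) ^ 2 < (2 + (S + m)) * D := by
    have : ((m : ℝ) + 2 + S) * (D - K + K) = (2 + (S + m)) * D := by ring
    rw [← this]
    exact g6
  exact_mod_cast g7

theorem star_ineq {k N : Type*} [Field k] [AddCommGroup N] [Module k N] [Module.Finite k N]
    [Nontrivial N] {m : ℕ} (y : Fin m → Module.End k N) (hyy : ∀ i j, i ≠ j → y i * y j = 0)
    (s : Fin m → ℕ) (hs : ∀ i, y i ^ (s i + 2) = 0) (hS : starS y ≤ starU y) :
    finrank k N ^ 2 < (2 + ∑ i, (s i + 1)) * finrank k (starC y) := by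
  have hyr : ∀ i, yr (y i) ^ (s i + 1) = 0 := by
    intro i
    have h1 : ∀ (n : ℕ) (v : LinearMap.range (y i)), (((yr (y i)) ^ n) v : N) = (y i ^ n) v := by
      intro n
      induction n with
      | zero => intro v; rfl
      | succ n ih =>
        intro v
        rw [pow_succ, pow_succ]
        show (((yr (y i)) ^ n) (yr (y i) v) : N) = (y i ^ n) (y i v)
        rw [ih]
        rfl
    apply LinearMap.ext
    rintro ⟨v, u, rfl⟩
    apply Subtype.ext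
    rw [h1]
    show (y i ^ (s i + 1)) (y i u) = 0
    have h2 : (y i ^ (s i + 1)) (y i u) = (y i ^ (s i + 2)) u := by
      rw [show s i + 2 = (s i + 1) + 1 from rfl, pow_succ (y i) (s i + 1)]
      rfl
    rw [h2, hs]
    rfl
  obtain ⟨h1, h2, h3⟩ := star_dim y hyy hS
  have h4 := star_low y hyy (fun i => ⟨_, hs i⟩) hS
  have h5 := star_euler y hyy hS
  choose κ hκ1 hκ2 using fun i => star_one (yr (y i)) (s i) (hyr i)
  rw [h1]
  refine star_arith m _ _ _ s _ κ (fun i => finrank k (LinearMap.ker (yr (y i)))) hκ2 h2 h3 ?_ ?_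
  · rw [Finset.sum_congr rfl fun i _ => (hκ1 i).symm]
    exact h4
  · rw [Finset.sum_congr rfl fun i _ => (hκ1 i).symm]
    exact h5

end Pool.Agent.HWC
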