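import Pool.Agent.HWC.StarDefs
import Pool.Agent.HWC.Alg

/-!
Paper proof.  Restriction cen y -> {chi in End(range y) commuting with y} is surjective: given chi, choose a basis of a
complement of range y in V; for v in it choose phi(v) with y phi(v) = chi(y v) (possible, chi(y v) is in range y); phi = chi on
range y; then y phi = phi y on all of V (on range y: y chi = chi y; on v: y phi(v) = chi(y v) = phi(y v)).  Its kernel is
{phi : phi = 0 on range y, y phi = 0} = Hom(V / range y, ker y), of dimension (dim ker y)^2.  So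
dim cen y = (dim ker y)^2 + kappa, kappa = dim {chi}.  alg_main for E = End_k(range y), the restriction y' of y
(y'^n = 0, n > 0; for n = 0 the range is zero): (dim range y)^2 = dim E <= n kappa.
-/

set_option autoImplicit false

namespace Pool.Agent.HWC

open IsLocalRing Module

theorem StarOne_mem_cen {k V : Type*} [Field k] [AddCommGroup V] [Module k V] (y φ : Module.End k V) :
    φ ∈ cen y ↔ ∀ v, y (φ v) = φ (y v) := by
  rw [LinearMap.mem_ker, LinearMap.sub_apply, sub_eq_zero, LinearMap.mulLeft_apply,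
    LinearMap.mulRight_apply]
  exact ⟨fun h v => LinearMap.congr_fun h v, fun h => LinearMap.ext h⟩

/-- extension of an operator of the range -/
theorem StarOne_ext {k V : Type*} [Field k] [AddCommGroup V] [Module k V] (y : Module.End k V)
    (χ : Module.End k (LinearMap.range y)) (hχ : χ ∈ cen (yr y)) :
    ∃ φ ∈ cen y, ∀ w : LinearMap.range y, φ w = (χ w : V) := by
  obtain ⟨σ, hσ⟩ := LinearMap.exists_rightInverse_of_surjective y.rangeRestrict
    (LinearMap.range_eq_top.2 y.surjective_rangeRestrict)
  obtain ⟨π, hπ⟩ := LinearMap.exists_leftInverse_of_injective (LinearMap.range y).subtype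
    (Submodule.ker_subtype _)
  have hσ' : ∀ w : LinearMap.range y, y (σ w) = w := fun w =>
    congrArg Subtype.val (LinearMap.congr_fun hσ w)
  have hπ' : ∀ w : LinearMap.range y, π (w : V) = w := fun w => LinearMap.congr_fun hπ w
  have hχ' := (StarOne_mem_cen _ _).1 hχ
  refine ⟨(LinearMap.range y).subtype ∘ₗ χ ∘ₗ π + σ ∘ₗ χ ∘ₗ y.rangeRestrict ∘ₗ
    (LinearMap.id - (LinearMap.range y).subtype ∘ₗ π), ?_, ?_⟩
  · rw [StarOne_mem_cen]
    intro v
    show y ((χ (π v) : V) + σ (χ (y.rangeRestrict (v - (π v : V))))) =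
      (χ (π (y v)) : V) + σ (χ (y.rangeRestrict (y v - (π (y v) : V))))
    have h1 : π (y v) = y.rangeRestrict v := hπ' (y.rangeRestrict v)
    have h2 : y v - (π (y v) : V) = 0 := by
      rw [h1]
      exact sub_self _
    rw [h2, map_zero, map_zero, map_zero, add_zero, h1, map_add, hσ', map_sub, map_sub]
    have h3 : y (χ (π v) : V) = (χ (y.rangeRestrict (π v : V)) : V) :=
      congrArg Subtype.val (hχ' (π v))
    rw [h3]
    show (χ (y.rangeRestrict (π v : V)) : V) + ((χ (y.rangeRestrict v) : V) -
      (χ (y.rangeRestrict (π v : V)) : V)) = (χ (y.rangeRestrict v) : V)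
    abel
  · intro w
    show (χ (π (w : V)) : V) + σ (χ (y.rangeRestrict ((w : V) - (π (w : V) : V)))) = _
    rw [hπ', sub_self, map_zero, map_zero, map_zero, add_zero]

theorem StarOne_dim {k V : Type*} [Field k] [AddCommGroup V] [Module k V] [Module.Finite k V]
    (y : Module.End k V) :
    finrank k (cen y) = finrank k (LinearMap.ker y) ^ 2 + finrank k (cen (yr y)) := by
  let W := LinearMap.range y
  let ρ : cen y →ₗ[k] (W →ₗ[k] V) := (LinearMap.lcomp k V W.subtype) ∘ₗ (cen y).subtype
  have hρ : ∀ (φ : cen y) (w : W), ρ φ w = (φ : Module.End k V) w := fun _ _ => rfl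
  have h0 := LinearMap.finrank_range_add_finrank_ker ρ
  -- the range
  let T : Module.End k W →ₗ[k] (W →ₗ[k] V) := LinearMap.llcomp k W W V W.subtype
  have hT : ∀ (χ : Module.End k W) (w : W), T χ w = (χ w : V) := fun _ _ => rfl
  have hTi : Function.Injective T := by
    intro a b hab
    refine LinearMap.ext fun w => Subtype.ext ?_
    rw [← hT, ← hT, hab]
  have h1 : LinearMap.range ρ = (cen (yr y)).map T := by
    apply le_antisymm
    · rintro _ ⟨φ, rfl⟩
      have hφ := (StarOne_mem_cen _ _).1 φ.2
      refine ⟨(φ : Module.End k V).restrict (p := W) (q := W) ?_, ?_, ?_⟩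
      · rintro _ ⟨v, rfl⟩
        exact ⟨(φ : Module.End k V) v, hφ v⟩
      · rw [SetLike.mem_coe, StarOne_mem_cen]
        intro w
        exact Subtype.ext (hφ w)
      · rfl
    · rintro _ ⟨χ, hχ, rfl⟩
      obtain ⟨φ, hφ1, hφ2⟩ := StarOne_ext y χ hχ
      refine ⟨⟨φ, hφ1⟩, LinearMap.ext fun w => ?_⟩
      rw [hρ, hT]
      exact hφ2 w
  have h2 : finrank k (LinearMap.range ρ) = finrank k (cen (yr y)) := by
    rw [h1]
    exact (Submodule.equivMapOfInjective T hTi (cen (yr y))).finrank_eq.symm
  -- the kernel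
  let S : ((V ⧸ W) →ₗ[k] LinearMap.ker y) →ₗ[k] Module.End k V :=
    (LinearMap.lcomp k V W.mkQ) ∘ₗ (LinearMap.llcomp k (V ⧸ W) (LinearMap.ker y) V
      (LinearMap.ker y).subtype)
  have hS : ∀ (g : (V ⧸ W) →ₗ[k] LinearMap.ker y) (v : V), S g v = (g (W.mkQ v) : V) :=
    fun _ _ => rfl
  have hSi : Function.Injective S := by
    intro a b hab
    refine LinearMap.ext fun w => Subtype.ext ?_
    obtain ⟨v, rfl⟩ := W.mkQ_surjective w
    rw [← hS, ← hS, hab]
  have h3 : (LinearMap.ker ρ).map (cen y).subtype = LinearMap.range S := by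
    apply le_antisymm
    · rintro _ ⟨φ, hφ, rfl⟩
      have hφ1 := (StarOne_mem_cen _ _).1 φ.2
      have hφ2 : ∀ w : W, (φ : Module.End k V) w = 0 := fun w => by
        rw [← hρ, LinearMap.mem_ker.1 hφ]
        rfl
      have hφ3 : ∀ v, (φ : Module.End k V) v ∈ LinearMap.ker y := fun v => by
        rw [LinearMap.mem_ker, hφ1]
        exact hφ2 ⟨y v, v, rfl⟩
      refine ⟨W.liftQ ((φ : Module.End k V).codRestrict (LinearMap.ker y) hφ3) ?_, ?_⟩
      · intro w hw
        rw [LinearMap.mem_ker]
        exact Subtype.ext (hφ2 ⟨w, hw⟩)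
      · rfl
    · rintro _ ⟨g, rfl⟩
      have hg : S g ∈ cen y := by
        rw [StarOne_mem_cen]
        intro v
        rw [hS, hS, (LinearMap.mem_ker.1 (g (W.mkQ v)).2)]
        have : W.mkQ (y v) = 0 := (Submodule.Quotient.mk_eq_zero _).2 ⟨v, rfl⟩
        rw [this, map_zero]
        rfl
      refine ⟨⟨S g, hg⟩, ?_, rfl⟩
      rw [SetLike.mem_coe, LinearMap.mem_ker]
      refine LinearMap.ext fun w => ?_
      rw [hρ]
      show S g w = 0
      rw [hS]
      have : W.mkQ (w : V) = 0 := (Submodule.Quotient.mk_eq_zero _).2 w.2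
      rw [this, map_zero]
      rfl
  have h4 : finrank k (LinearMap.ker ρ) = finrank k (LinearMap.ker y) ^ 2 := by
    rw [← Submodule.finrank_map_subtype_eq, h3, LinearMap.finrank_range_of_inj hSi,
      Module.finrank_linearMap]
    have h5 := W.finrank_quotient_add_finrank
    have h6 := LinearMap.finrank_range_add_finrank_ker y
    have h7 : finrank k (V ⧸ W) = finrank k (LinearMap.ker y) := by
      have h8 : finrank k W = finrank k (LinearMap.range y) := rfl
      omega
    rw [h7, sq]
  rw [← h0, h2, h4, add_comm]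

theorem star_one {k V : Type*} [Field k] [AddCommGroup V] [Module k V] [Module.Finite k V]
    (y : Module.End k V) (n : ℕ) (hy : y ^ (n + 1) = 0) :
    ∃ κ : ℕ, finrank k (cen y) = finrank k (LinearMap.ker y) ^ 2 + κ ∧
      finrank k (LinearMap.range y) ^ 2 ≤ n * κ := by
  refine ⟨_, StarOne_dim y, ?_⟩
  have hpow : ∀ (m : ℕ) (w : LinearMap.range y), ((yr y ^ m) w : V) = (y ^ m) (w : V) := by
    intro m
    induction m with
    | zero => intro w; rfl
    | succ m ih =>
      intro w
      rw [pow_succ, pow_succ, Module.End.mul_apply, Module.End.mul_apply, ih]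
      rfl
  have hz : yr y ^ n = 0 := by
    refine LinearMap.ext fun w => Subtype.ext ?_
    rw [hpow]
    obtain ⟨v, hv⟩ := w.2
    rw [← hv, ← Module.End.mul_apply, ← pow_succ, hy]
    rfl
  rcases Nat.eq_zero_or_pos n with hn | hn
  · subst hn
    have hy0 : y = 0 := by rwa [zero_add, pow_one] at hy
    have : finrank k (LinearMap.range y) = 0 := by
      rw [hy0, LinearMap.range_zero, finrank_bot]
    rw [this]
    simp
  · have h1 := (alg_main (k := k) (yr y) n hn hz).1
    rw [Module.finrank_linearMap, ← sq] at h1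
    exact h1

end Pool.Agent.HWC
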