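import Pool.Agent.HWC.TightShort

/-!
# HWC: reduction of tightness (helper69)

`tight_reduce`.  e = dim_k B, residue field k, socle simple, generated by s.
Induction on dim N as in TightShort_ind.  (1) s N nonzero: N = B + N1 (TightShort_retr, _equiv, _dims), done by induction.
(2) s N = 0 and there is v in N killed by m and not in mN: v spans a direct
summand k v, N = k v + N', and dim End(N) = dim End(N') + dim Hom(N', k) + dim Hom(k, N') + 1,
e dim Hom(N', k) >= dim N' (N' is a quotient of B^t, t = dim N'/mN'), e dim Hom(k, N') >= dim N' (N' embeds into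
B^a, a = dim soc N'), e >= 2.  So strict inequality.
(3) otherwise hB applies if N is nonzero; N = 0 is free.
-/

set_option autoImplicit false

namespace Pool.Agent.HWC

open IsLocalRing Module

section ess

variable {k B : Type} [Field k] [CommRing B] [IsLocalRing B] [Algebra k B] [Module.Finite k B]

theorem TightRed_nil (k : Type) {B : Type} [Field k] [CommRing B] [IsLocalRing B] [Algebra k B]
    [Module.Finite k B] : ∃ n : ℕ, (maximalIdeal B) ^ n = ⊥ := by
  have : IsArtinianRing B := IsArtinianRing.of_finite k B
  have h := IsArtinianRing.isNilpotent_jacobson_bot (R := B)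
  rw [jacobson_eq_maximalIdeal _ bot_ne_top] at h
  obtain ⟨n, hn⟩ := h
  exact ⟨n, hn⟩

/-- every nonzero vector has a nonzero multiple which is killed by `m` -/
theorem TightRed_ess (k : Type) {B : Type} [Field k] [CommRing B] [IsLocalRing B] [Algebra k B]
    [Module.Finite k B] {X : Type} [AddCommGroup X] [Module B X] (y : X) (hy : y ≠ 0) :
    ∃ b : B, b • y ≠ 0 ∧ ∀ c ∈ maximalIdeal B, c • b • y = 0 := by
  classical
  have hex : ∃ n : ℕ, ∀ b ∈ (maximalIdeal B) ^ n, b • y = 0 := by
    obtain ⟨n, hn⟩ := TightRed_nil k (B := B)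
    refine ⟨n, fun b hb => ?_⟩
    rw [hn] at hb
    rw [(Submodule.mem_bot B).1 hb, zero_smul]
  set n := Nat.find hex with hn
  have h1 := Nat.find_spec hex
  rw [← hn] at h1
  have h0 : n ≠ 0 := by
    intro h
    rw [h] at h1
    refine hy ?_
    have := h1 1 (by simp)
    rwa [one_smul] at this
  obtain ⟨j, hj⟩ := Nat.exists_eq_succ_of_ne_zero h0
  have h2 : ¬ ∀ b ∈ (maximalIdeal B) ^ j, b • y = 0 := Nat.find_min hex (by omega)
  push Not at h2
  obtain ⟨b, hb, hby⟩ := h2
  refine ⟨b, hby, fun c hc => ?_⟩
  rw [← mul_smul]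
  refine h1 _ ?_
  rw [hj, Nat.succ_eq_add_one, pow_succ']
  exact Ideal.mul_mem_mul hc hb

theorem TightRed_socle (k : Type) {B : Type} [Field k] [CommRing B] [IsLocalRing B] [Algebra k B]
    [Module.Finite k B] (hG : InfIrred (⊥ : Ideal B)) :
    ∃ s : B, s ≠ 0 ∧ (∀ x ∈ maximalIdeal B, x * s = 0) ∧ ∀ y : B, y ≠ 0 → ∃ c, c * y = s := by
  obtain ⟨s, hs0, hs⟩ := TightRed_ess k (B := B) (X := B) 1 one_ne_zero
  rw [smul_eq_mul, mul_one] at hs0
  have hs' : ∀ x ∈ maximalIdeal B, x * s = 0 := by
    intro x hx
    have := hs x hx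
    rwa [smul_eq_mul, smul_eq_mul, mul_one] at this
  refine ⟨s, hs0, hs', fun y hy => ?_⟩
  have h1 : Ideal.span {y} ⊓ Ideal.span {s} ≠ (⊥ : Ideal B) := by
    intro h
    rcases hG.2 h with h2 | h2
    · exact hy (Ideal.span_singleton_eq_bot.1 h2)
    · exact hs0 (Ideal.span_singleton_eq_bot.1 h2)
  obtain ⟨z, ⟨hz1, hz2⟩, hz0⟩ := Submodule.exists_mem_ne_zero_of_ne_bot h1
  obtain ⟨p, hp⟩ := Ideal.mem_span_singleton'.1 hz1
  obtain ⟨q, hq⟩ := Ideal.mem_span_singleton'.1 hz2
  have hqu : IsUnit q := by
    by_contra hn
    have hqm : q ∈ maximalIdeal B := (mem_maximalIdeal q).2 hn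
    exact hz0 (by rw [← hq, hs' q hqm])
  obtain ⟨w, hw⟩ := hqu.exists_left_inv
  exact ⟨w * p, by rw [mul_assoc, hp, ← hq, ← mul_assoc, hw, one_mul]⟩

end ess

section hom

variable {k B : Type} [Field k] [CommRing B] [Algebra k B]

/-- spaces of homomorphisms are finite dimensional -/
theorem TightRed_finHom (X Y : Type) [AddCommGroup X] [Module k X] [Module B X]
    [IsScalarTower k B X] [Module.Finite k X] [AddCommGroup Y] [Module k Y] [Module B Y]
    [IsScalarTower k B Y] [Module.Finite k Y] : Module.Finite k (X →ₗ[B] Y) := by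
  let J : (X →ₗ[B] Y) →ₗ[k] (X →ₗ[k] Y) :=
    { toFun := fun f => f.restrictScalars k
      map_add' := fun f g => rfl
      map_smul' := fun r f => rfl }
  refine Module.Finite.of_injective J ?_
  intro f g h
  ext x
  exact LinearMap.congr_fun h x

theorem TightRed_split {N C : Type} [AddCommGroup N] [Module B N] [AddCommGroup C] [Module B C]
    (f : N →ₗ[B] C) (j : C →ₗ[B] N) (h : ∀ c, f (j c) = c) :
    Nonempty (N ≃ₗ[B] (C × LinearMap.ker f)) := by
  refine ⟨
    { toFun := fun n => (f n, ⟨n - j (f n), by
        rw [LinearMap.mem_ker, map_sub, h, sub_self]⟩)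
      map_add' := fun x y => Prod.ext (map_add f x y) (Subtype.ext ?_)
      map_smul' := fun b x => Prod.ext (map_smul f b x) (Subtype.ext ?_)
      invFun := fun p => j p.1 + (p.2 : N)
      left_inv := fun n => ?_
      right_inv := fun p => ?_ }⟩
  · change x + y - j (f (x + y)) = (x - j (f x)) + (y - j (f y))
    rw [map_add, map_add]
    abel
  · change b • x - j (f (b • x)) = b • (x - j (f x))
    rw [map_smul, map_smul, smul_sub]
  · change j (f n) + (n - j (f n)) = n
    abel
  · obtain ⟨b, w, hw⟩ := p
    have hw' : f w = 0 := hw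
    have h1 : f (j b + w) = b := by rw [map_add, h, hw', add_zero]
    refine Prod.ext h1 (Subtype.ext ?_)
    change j b + w - j (f (j b + w)) = w
    rw [h1]
    abel

/-- dimensions of a direct sum and its endomorphisms -/
theorem TightRed_dims (N C X : Type) [AddCommGroup N] [Module k N] [Module B N]
    [IsScalarTower k B N] [Module.Finite k N] [AddCommGroup C] [Module k C] [Module B C]
    [IsScalarTower k B C] [Module.Finite k C] [AddCommGroup X] [Module k X] [Module B X]
    [IsScalarTower k B X] [Module.Finite k X] (e : N ≃ₗ[B] C × X) :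
    finrank k N = finrank k C + finrank k X ∧
      finrank k (Module.End B N) = (finrank k (C →ₗ[B] C) + finrank k (C →ₗ[B] X)) +
        (finrank k (X →ₗ[B] C) + finrank k (X →ₗ[B] X)) := by
  have h1 : finrank k N = finrank k C + finrank k X := by
    rw [← finrank_prod]
    exact (e.restrictScalars k).finrank_eq
  refine ⟨h1, ?_⟩
  have h2 : finrank k (Module.End B N) = finrank k (Module.End B (C × X)) := by
    let c : Module.End B N ≃ₗ[k] Module.End B (C × X) :=
      { toFun := fun f => e.toLinearMap ∘ₗ f ∘ₗ e.symm.toLinearMap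
        map_add' := fun f g => by ext x <;> simp
        map_smul' := fun t f => by
          refine LinearMap.ext fun x => ?_
          change e (t • f (e.symm x)) = t • e (f (e.symm x))
          exact (e.restrictScalars k).map_smul t _
        invFun := fun f => e.symm.toLinearMap ∘ₗ f ∘ₗ e.toLinearMap
        left_inv := fun f => by ext x; simp
        right_inv := fun f => by ext x <;> simp }
    exact c.finrank_eq
  have := TightRed_finHom (k := k) (B := B) C C
  have := TightRed_finHom (k := k) (B := B) C X
  have := TightRed_finHom (k := k) (B := B) X C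
  have := TightRed_finHom (k := k) (B := B) X X
  have := TightRed_finHom (k := k) (B := B) C (C × X)
  have := TightRed_finHom (k := k) (B := B) X (C × X)
  have e1 := (LinearMap.coprodEquiv k : ((C →ₗ[B] (C × X)) × (X →ₗ[B] (C × X))) ≃ₗ[k]
    ((C × X) →ₗ[B] (C × X))).finrank_eq
  have e2 := (LinearMap.prodEquiv k : ((C →ₗ[B] C) × (C →ₗ[B] X)) ≃ₗ[k]
    (C →ₗ[B] (C × X))).finrank_eq
  have e3 := (LinearMap.prodEquiv k : ((X →ₗ[B] C) × (X →ₗ[B] X)) ≃ₗ[k]
    (X →ₗ[B] (C × X))).finrank_eq
  rw [finrank_prod] at e1 e2 e3
  rw [h2]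
  change finrank k ((C × X) →ₗ[B] (C × X)) = _
  rw [← e1, ← e2, ← e3]

end hom

section res

variable {k B : Type} [Field k] [CommRing B] [IsLocalRing B] [Algebra k B]
  (hres : Function.Surjective (algebraMap k (ResidueField B)))

include hres in
/-- `k`-linear maps which kill `m X` with values killed by `m` are `B`-linear -/
theorem TightRed_lin {X Y : Type} [AddCommGroup X] [Module k X] [Module B X]
    [IsScalarTower k B X] [AddCommGroup Y] [Module k Y] [Module B Y] [IsScalarTower k B Y]
    (g : X →ₗ[k] Y) (h1 : ∀ b ∈ maximalIdeal B, ∀ x, g (b • x) = 0)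
    (h2 : ∀ b ∈ maximalIdeal B, ∀ x, b • g x = 0) (b : B) (x : X) : g (b • x) = b • g x := by
  obtain ⟨t, ht⟩ := TightShort_res hres b
  have e1 : b • x = t • x + (b - algebraMap k B t) • x := by
    rw [sub_smul, algebraMap_smul]
    abel
  have e2 : b • g x = t • g x + (b - algebraMap k B t) • g x := by
    rw [sub_smul, algebraMap_smul]
    abel
  rw [e1, e2, map_add, map_smul, h1 _ ht, h2 _ ht]

theorem TightRed_kill (b : B) (hb : b ∈ maximalIdeal B) (x : B ⧸ maximalIdeal B) : b • x = 0 := by
  obtain ⟨c, rfl⟩ := Ideal.Quotient.mk_surjective x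
  change Ideal.Quotient.mk (maximalIdeal B) (b * c) = 0
  rw [Ideal.Quotient.eq_zero_iff_mem]
  exact Ideal.mul_mem_right _ _ hb

include hres in
theorem TightRed_one : finrank k (B ⧸ maximalIdeal B) = 1 := by
  have h1 : Function.Bijective (LinearMap.toSpanSingleton k (B ⧸ maximalIdeal B)
      (Ideal.Quotient.mk (maximalIdeal B) 1)) := by
    constructor
    · rw [injective_iff_map_eq_zero]
      intro t ht
      by_contra h0
      have h2 : (Ideal.Quotient.mk (maximalIdeal B) 1) = 0 := by
        have h3 : t • (Ideal.Quotient.mk (maximalIdeal B) 1) = 0 := ht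
        exact (smul_eq_zero.1 h3).resolve_left h0
      rw [Ideal.Quotient.eq_zero_iff_mem] at h2
      exact (mem_maximalIdeal _).1 h2 isUnit_one
    · intro x
      obtain ⟨c, rfl⟩ := Ideal.Quotient.mk_surjective x
      obtain ⟨t, ht⟩ := TightShort_res hres c
      refine ⟨t, ?_⟩
      change Ideal.Quotient.mk (maximalIdeal B) (t • 1) = _
      rw [← Algebra.algebraMap_eq_smul_one, Ideal.Quotient.eq]
      have := (maximalIdeal B).neg_mem ht
      rwa [neg_sub] at this
  have h2 := (LinearEquiv.ofBijective _ h1).finrank_eq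
  rw [← h2, finrank_self]

/-- `e dim Hom(X, k) ≥ dim X` -/
theorem TightRed_gen [Module.Finite k B] (hres : Function.Surjective (algebraMap k (ResidueField B)))
    (X : Type) [AddCommGroup X] [Module k X] [Module B X]
    [IsScalarTower k B X] [Module.Finite k X] :
    finrank k X ≤ finrank k B * finrank k (X →ₗ[B] (B ⧸ maximalIdeal B)) := by
  have : Module.Finite B X := Module.Finite.of_restrictScalars_finite k B X
  set mX : Submodule B X := maximalIdeal B • ⊤ with hmX
  have hm : ∀ b ∈ maximalIdeal B, ∀ x : X, b • x ∈ mX := fun b hb x =>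
    Submodule.smul_mem_smul hb Submodule.mem_top
  have : Module.Finite k (X ⧸ mX) :=
    Module.Finite.of_surjective (mX.mkQ.restrictScalars k) mX.mkQ_surjective
  let β := Module.finBasis k (X ⧸ mX)
  choose x hx using fun i => mX.mkQ_surjective (β i)
  have hspan : (⊤ : Submodule B X) ≤ Submodule.span B (Set.range x) := by
    refine Submodule.le_of_le_smul_of_le_jacobson_bot Module.Finite.fg_top
      (I := maximalIdeal B) ?_ ?_
    · rw [jacobson_eq_maximalIdeal _ bot_ne_top]
    · intro y _
      have h1 : y = (∑ i, β.repr (mX.mkQ y) i • x i) + (y - ∑ i, β.repr (mX.mkQ y) i • x i) := by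
        abel
      rw [h1]
      refine Submodule.add_mem_sup ?_ ?_
      · refine Submodule.sum_mem _ fun i _ => ?_
        rw [← algebraMap_smul B]
        exact Submodule.smul_mem _ _ (Submodule.subset_span ⟨i, rfl⟩)
      · change _ ∈ mX
        rw [← Submodule.Quotient.mk_eq_zero]
        change mX.mkQ _ = 0
        rw [map_sub, sub_eq_zero, map_sum]
        have h2 : ∀ i, mX.mkQ (β.repr (mX.mkQ y) i • x i) = β.repr (mX.mkQ y) i • β i := by
          intro i
          have h3 := (mX.mkQ.restrictScalars k).map_smul (β.repr (mX.mkQ y) i) (x i)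
          have h4 : mX.mkQ (β.repr (mX.mkQ y) i • x i) = β.repr (mX.mkQ y) i • mX.mkQ (x i) := h3
          rw [h4, hx]
        rw [Finset.sum_congr rfl fun i _ => h2 i]
        exact (β.sum_repr _).symm
  have h1 : finrank k X ≤ finrank k (X ⧸ mX) * finrank k B := by
    have h2 := LinearMap.finrank_range_le
      ((Fintype.linearCombination B x).restrictScalars k : (Fin (finrank k (X ⧸ mX)) → B) →ₗ[k] X)
    have h3 : LinearMap.range ((Fintype.linearCombination B x).restrictScalars k :
        (Fin (finrank k (X ⧸ mX)) → B) →ₗ[k] X) = ⊤ := by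
      rw [LinearMap.range_eq_top]
      intro y
      have h4 : y ∈ Submodule.span B (Set.range x) := hspan Submodule.mem_top
      rw [← Fintype.range_linearCombination] at h4
      exact h4
    rw [h3, finrank_top, finrank_pi_fintype, Finset.sum_const, Finset.card_univ,
      Fintype.card_fin, smul_eq_mul] at h2
    exact h2
  have h2 : finrank k (X ⧸ mX) ≤ finrank k (X →ₗ[B] (B ⧸ maximalIdeal B)) := by
    have := TightRed_finHom (k := k) (B := B) X (B ⧸ maximalIdeal B)
    let J : ((X ⧸ mX) →ₗ[k] (B ⧸ maximalIdeal B)) →ₗ[k] (X →ₗ[B] (B ⧸ maximalIdeal B)) :=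
      { toFun := fun f =>
          { toFun := fun n => f (mX.mkQ n)
            map_add' := fun a b => by rw [map_add, map_add]
            map_smul' := fun b n => by
              refine TightRed_lin hres (f ∘ₗ mX.mkQ.restrictScalars k) ?_ ?_ b n
              · intro c hc y
                change f (mX.mkQ (c • y)) = 0
                have h3 : mX.mkQ (c • y) = 0 := (Submodule.Quotient.mk_eq_zero mX).2 (hm c hc y)
                rw [h3, map_zero]
              · intro c hc y
                exact TightRed_kill c hc _ }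
        map_add' := fun f g => by ext n; rfl
        map_smul' := fun t f => by ext n; rfl }
    have hJ : Function.Injective J := by
      intro f g h
      refine LinearMap.ext fun q => ?_
      obtain ⟨n, rfl⟩ := mX.mkQ_surjective q
      exact LinearMap.congr_fun h n
    have h3 := LinearMap.finrank_le_finrank_of_injective hJ
    rw [finrank_linearMap, TightRed_one hres, mul_one] at h3
    exact h3
  calc finrank k X ≤ finrank k (X ⧸ mX) * finrank k B := h1
    _ ≤ finrank k (X →ₗ[B] (B ⧸ maximalIdeal B)) * finrank k B := Nat.mul_le_mul_right _ h2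
    _ = _ := mul_comm _ _

/-- `e dim Hom(k, X) ≥ dim X` -/
theorem TightRed_soc [Module.Finite k B] (L : B →ₗ[k] k)
    (hL : ∀ b : B, (∀ c : B, L (c * b) = 0) → b = 0)
    (X : Type) [AddCommGroup X] [Module k X] [Module B X]
    [IsScalarTower k B X] [Module.Finite k X] :
    finrank k X ≤ finrank k B * finrank k ((B ⧸ maximalIdeal B) →ₗ[B] X) := by
  let S : Submodule k X :=
    { carrier := {y | ∀ b ∈ maximalIdeal B, b • y = 0}
      add_mem' := fun {x y} hx hy b hb => by rw [smul_add, hx b hb, hy b hb, add_zero]
      zero_mem' := fun b _ => smul_zero b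
      smul_mem' := fun t x hx b hb => by rw [smul_comm, hx b hb, smul_zero] }
  obtain ⟨p, hp⟩ := LinearMap.exists_leftInverse_of_injective S.subtype
    (LinearMap.ker_eq_bot.2 Subtype.val_injective)
  let σ := Module.finBasis k S
  choose φ hφ using fun i => TightShort_dual L hL X (σ.coord i ∘ₗ p)
  have hΦ : Function.Injective
      ((LinearMap.pi φ).restrictScalars k : X →ₗ[k] (Fin (finrank k S) → B)) := by
    rw [injective_iff_map_eq_zero]
    intro y hy
    by_contra h0
    obtain ⟨b, hb0, hb⟩ := TightRed_ess k (B := B) y h0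
    have hyi : ∀ i, φ i y = 0 := fun i => congrFun hy i
    have hbS : b • y ∈ S := hb
    have h1 : p (b • y) = ⟨b • y, hbS⟩ := LinearMap.congr_fun hp ⟨b • y, hbS⟩
    have h2 : ∀ i, σ.coord i ⟨b • y, hbS⟩ = 0 := by
      intro i
      have h3 := hφ i (b • y)
      rw [map_smul, hyi, smul_zero, map_zero, LinearMap.comp_apply, h1] at h3
      exact h3.symm
    have h3 : (⟨b • y, hbS⟩ : S) = 0 := σ.forall_coord_eq_zero_iff.1 h2
    exact hb0 (congrArg Subtype.val h3)
  have h1 : finrank k X ≤ finrank k S * finrank k B := by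
    have h2 := LinearMap.finrank_le_finrank_of_injective hΦ
    rw [finrank_pi_fintype, Finset.sum_const, Finset.card_univ,
      Fintype.card_fin, smul_eq_mul] at h2
    exact h2
  have h2 : finrank k S ≤ finrank k ((B ⧸ maximalIdeal B) →ₗ[B] X) := by
    have : Module.Finite k (B ⧸ maximalIdeal B) :=
      Module.Finite.of_surjective ((maximalIdeal B).mkQ.restrictScalars k)
        (maximalIdeal B).mkQ_surjective
    have := TightRed_finHom (k := k) (B := B) (B ⧸ maximalIdeal B) X
    let J : S →ₗ[k] ((B ⧸ maximalIdeal B) →ₗ[B] X) :=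
      { toFun := fun y => (maximalIdeal B).liftQ (LinearMap.toSpanSingleton B X (y : X))
          (fun b hb => y.2 b hb)
        map_add' := fun x y => by
          refine LinearMap.ext fun q => ?_
          obtain ⟨n, rfl⟩ := (maximalIdeal B).mkQ_surjective q
          change n • ((x : X) + (y : X)) = n • (x : X) + n • (y : X)
          exact smul_add _ _ _
        map_smul' := fun t x => by
          refine LinearMap.ext fun q => ?_
          obtain ⟨n, rfl⟩ := (maximalIdeal B).mkQ_surjective q
          change n • (t • (x : X)) = t • n • (x : X)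
          exact smul_comm _ _ _ }
    have hJ : Function.Injective J := by
      intro x y h
      have h3 := LinearMap.congr_fun h ((maximalIdeal B).mkQ 1)
      have h4 : (1 : B) • (x : X) = (1 : B) • (y : X) := h3
      rw [one_smul, one_smul] at h4
      exact Subtype.ext h4
    exact LinearMap.finrank_le_finrank_of_injective hJ
  calc finrank k X ≤ finrank k S * finrank k B := h1
    _ ≤ finrank k ((B ⧸ maximalIdeal B) →ₗ[B] X) * finrank k B := Nat.mul_le_mul_right _ h2
    _ = _ := mul_comm _ _

/-- splitting off the residue field -/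
theorem TightRed_k [Module.Finite k B] (hres : Function.Surjective (algebraMap k (ResidueField B)))
    (N : Type) [AddCommGroup N] [Module k N] [Module B N]
    [IsScalarTower k B N] [Module.Finite k N] (v : N) (hv : ∀ b ∈ maximalIdeal B, b • v = 0)
    (hv2 : v ∉ (maximalIdeal B • ⊤ : Submodule B N)) :
    ∃ r : N →ₗ[B] (B ⧸ maximalIdeal B), Nonempty (N ≃ₗ[B] ((B ⧸ maximalIdeal B) ×
      LinearMap.ker r)) := by
  set mN : Submodule B N := maximalIdeal B • ⊤ with hmN
  have hm : ∀ b ∈ maximalIdeal B, ∀ x : N, b • x ∈ mN := fun b hb x =>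
    Submodule.smul_mem_smul hb Submodule.mem_top
  have h0 : mN.mkQ v ≠ 0 := fun h => hv2 ((Submodule.Quotient.mk_eq_zero mN).1 h)
  obtain ⟨f, hf⟩ : ∃ f : Module.Dual k (N ⧸ mN), f (mN.mkQ v) ≠ 0 := by
    by_contra hcon
    refine h0 ((Module.forall_dual_apply_eq_zero_iff k _).1 fun f => ?_)
    by_contra hf
    exact hcon ⟨f, hf⟩
  let g : N →ₗ[k] (B ⧸ maximalIdeal B) :=
    (LinearMap.toSpanSingleton k (B ⧸ maximalIdeal B) (Ideal.Quotient.mk (maximalIdeal B) 1)) ∘ₗ
      ((f (mN.mkQ v))⁻¹ • f) ∘ₗ (mN.mkQ.restrictScalars k)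
  let r : N →ₗ[B] (B ⧸ maximalIdeal B) :=
    { toFun := g
      map_add' := map_add g
      map_smul' := fun b n => by
        refine TightRed_lin hres g ?_ (fun c hc y => TightRed_kill c hc _) b n
        intro c hc y
        have h3 : (mN.mkQ.restrictScalars k) (c • y) = 0 :=
          (Submodule.Quotient.mk_eq_zero mN).2 (hm c hc y)
        change (LinearMap.toSpanSingleton k (B ⧸ maximalIdeal B) _)
          (((f (mN.mkQ v))⁻¹ • f) ((mN.mkQ.restrictScalars k) (c • y))) = 0
        rw [h3, map_zero, map_zero] }
  have hrv : r v = Ideal.Quotient.mk (maximalIdeal B) 1 := by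
    change ((f (mN.mkQ v))⁻¹ * f (mN.mkQ v)) • Ideal.Quotient.mk (maximalIdeal B) 1 = _
    rw [inv_mul_cancel₀ hf, one_smul]
  let j : (B ⧸ maximalIdeal B) →ₗ[B] N :=
    (maximalIdeal B).liftQ (LinearMap.toSpanSingleton B N v) (fun b hb => hv b hb)
  refine ⟨r, TightRed_split r j fun c => ?_⟩
  obtain ⟨b, rfl⟩ := (maximalIdeal B).mkQ_surjective c
  change r (b • v) = _
  rw [map_smul, hrv]
  change Ideal.Quotient.mk (maximalIdeal B) (b * 1) = _
  rw [mul_one]
  rfl

theorem TightRed_arith (e x a b D : ℕ) (n : ℕ) (hn : 1 ≤ n) (he : 2 ≤ e) (ha : x ≤ e * a)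
    (hb : x ≤ e * b) (hD : x ^ 2 ≤ e * D) : (1 + x) ^ 2 < e * ((n + a) + (b + D)) := by
  have h1 : e * ((n + a) + (b + D)) = e * n + e * a + e * b + e * D := by ring
  have h2 : e ≤ e * n := Nat.le_mul_of_pos_right e hn
  have h3 : (1 + x) ^ 2 = 1 + 2 * x + x ^ 2 := by ring
  omega

end res

theorem TightRed_ind (k B : Type) [Field k] [CommRing B] [IsLocalRing B] [Algebra k B]
    [Module.Finite k B] (hres : Function.Surjective (algebraMap k (ResidueField B)))
    (s : B) (hs0 : s ≠ 0) (hsm : ∀ x ∈ maximalIdeal B, x * s = 0)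
    (hs : ∀ y : B, y ≠ 0 → ∃ c, c * y = s) (L : B →ₗ[k] k) (hLs : L s = 1)
    (hB : ∀ (N : Type) [AddCommGroup N] [Module k N] [Module B N] [IsScalarTower k B N]
      [Module.Finite k N] [Nontrivial N],
      (∀ z : B, (∀ b ∈ maximalIdeal B, b * z = 0) → ∀ v : N, z • v = 0) →
      (∀ v : N, (∀ b ∈ maximalIdeal B, b • v = 0) → v ∈ (maximalIdeal B • ⊤ : Submodule B N)) →
      (finrank k N) ^ 2 < finrank k B * finrank k (Module.End B N)) :
    ∀ (n : ℕ) (N : Type) [AddCommGroup N] [Module k N] [Module B N] [IsScalarTower k B N]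
    [Module.Finite k N], finrank k N = n →
    (finrank k N) ^ 2 ≤ finrank k B * finrank k (Module.End B N) ∧
    ((finrank k N) ^ 2 = finrank k B * finrank k (Module.End B N) → Module.Free B N) := by
  have hL : ∀ b : B, (∀ c : B, L (c * b) = 0) → b = 0 := by
    intro b hb
    by_contra hb0
    obtain ⟨c, hc⟩ := hs b hb0
    have := hb c
    rw [hc, hLs] at this
    exact one_ne_zero this
  intro n
  induction n using Nat.strong_induction_on with
  | _ n ih =>
    intro N _ _ _ _ _ hn
    by_cases hz : ∀ v : N, s • v = 0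
    · rcases subsingleton_or_nontrivial N with hsub | hnt
      · refine ⟨?_, fun _ => Module.Free.of_subsingleton B N⟩
        rw [finrank_zero_of_subsingleton]
        exact Nat.zero_le _
      · have hz' : ∀ z : B, (∀ b ∈ maximalIdeal B, b * z = 0) → ∀ v : N, z • v = 0 := by
          intro z hzm v
          by_cases h0 : z = 0
          · rw [h0, zero_smul]
          · obtain ⟨c, hc⟩ := hs z h0
            have hcu : IsUnit c := by
              by_contra hcn
              have hcm : c ∈ maximalIdeal B := (mem_maximalIdeal c).2 hcn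
              exact hs0 (by rw [← hc, hzm c hcm])
            obtain ⟨w, hw⟩ := hcu.exists_left_inv
            have h1 : z = w * s := by rw [← hc, ← mul_assoc, hw, one_mul]
            rw [h1, mul_smul, hz, smul_zero]
        by_cases hsoc : ∀ v : N, (∀ b ∈ maximalIdeal B, b • v = 0) →
            v ∈ (maximalIdeal B • ⊤ : Submodule B N)
        · have h4 := hB N hz' hsoc
          exact ⟨h4.le, fun h => absurd h h4.ne⟩
        · push Not at hsoc
          obtain ⟨v, hv1, hv2⟩ := hsoc
          obtain ⟨r, ⟨e⟩⟩ := TightRed_k hres N v hv1 hv2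
          have hfX : Module.Finite k (LinearMap.ker r) :=
            Module.Finite.of_injective ((LinearMap.ker r).subtype.restrictScalars k)
              Subtype.val_injective
          have hfk : Module.Finite k (B ⧸ maximalIdeal B) :=
            Module.Finite.of_surjective ((maximalIdeal B).mkQ.restrictScalars k)
              (maximalIdeal B).mkQ_surjective
          obtain ⟨hd1, hd2⟩ := TightRed_dims (k := k) N (B ⧸ maximalIdeal B) (LinearMap.ker r) e
          rw [TightRed_one hres] at hd1
          obtain ⟨i1, _⟩ := ih (finrank k (LinearMap.ker r)) (by omega) (LinearMap.ker r) rfl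
          have hsM : s ∈ maximalIdeal B := by
            rw [mem_maximalIdeal]
            intro hu
            obtain ⟨w, hw⟩ := hu.exists_left_inv
            obtain ⟨v0, hv0⟩ := exists_ne (0 : N)
            exact hv0 (by rw [← one_smul B v0, ← hw, mul_smul, hz, smul_zero])
          have he : 2 ≤ finrank k B := by
            have hlt1 : (⊥ : Submodule k B) < (maximalIdeal B).restrictScalars k := by
              refine lt_of_le_of_ne bot_le fun h => ?_
              have h4 : s ∈ (⊥ : Submodule k B) := by rw [h]; exact hsM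
              exact hs0 h4
            have hlt2 : (maximalIdeal B).restrictScalars k < ⊤ := by
              refine lt_of_le_of_ne le_top fun h => ?_
              have h4 : (1 : B) ∈ (maximalIdeal B).restrictScalars k := by
                rw [h]; exact Submodule.mem_top
              have h5 : (1 : B) ∈ maximalIdeal B := h4
              exact (mem_maximalIdeal _).1 h5 isUnit_one
            have h6 := Submodule.finrank_lt_finrank_of_lt hlt1
            have h7 := Submodule.finrank_lt_finrank_of_lt hlt2
            rw [finrank_top] at h7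
            omega
          have hkk : 1 ≤ finrank k ((B ⧸ maximalIdeal B) →ₗ[B] (B ⧸ maximalIdeal B)) := by
            have := TightRed_finHom (k := k) (B := B) (B ⧸ maximalIdeal B) (B ⧸ maximalIdeal B)
            have hnt : Nontrivial ((B ⧸ maximalIdeal B) →ₗ[B] (B ⧸ maximalIdeal B)) := by
              refine ⟨LinearMap.id, 0, fun h => ?_⟩
              have h1 := LinearMap.congr_fun h (Ideal.Quotient.mk (maximalIdeal B) 1)
              have h2 : (Ideal.Quotient.mk (maximalIdeal B) 1) = 0 := h1
              rw [Ideal.Quotient.eq_zero_iff_mem] at h2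
              exact (mem_maximalIdeal _).1 h2 isUnit_one
            exact finrank_pos
          have h5 := TightRed_arith (finrank k B) (finrank k (LinearMap.ker r)) _ _ _ _ hkk he
            (TightRed_soc L hL (LinearMap.ker r)) (TightRed_gen hres (LinearMap.ker r)) i1
          rw [← hd1, ← hd2] at h5
          exact ⟨h5.le, fun h => absurd h h5.ne⟩
    · obtain ⟨v, hv⟩ : ∃ v : N, s • v ≠ 0 := by
        by_contra hcon
        exact hz fun v => by
          by_contra hv
          exact hcon ⟨v, hv⟩
      obtain ⟨r, hr⟩ := TightShort_retr L hL s hs v hv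
      obtain ⟨e⟩ := TightShort_equiv r v hr
      have hfX : Module.Finite k (LinearMap.ker r) :=
        Module.Finite.of_injective ((LinearMap.ker r).subtype.restrictScalars k)
          Subtype.val_injective
      obtain ⟨hd1, hd2⟩ := TightShort_dims L hL (LinearMap.ker r) e
      have hB : 0 < finrank k B := finrank_pos
      obtain ⟨i1, i2⟩ := ih (finrank k (LinearMap.ker r)) (by omega) (LinearMap.ker r) rfl
      have key : (finrank k B + finrank k (LinearMap.ker r)) ^ 2 +
          (finrank k B * finrank k (Module.End B (LinearMap.ker r)) -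
            finrank k (LinearMap.ker r) ^ 2) ≤ finrank k B * finrank k (Module.End B N) := by
        obtain ⟨d, hd⟩ := Nat.exists_eq_add_of_le i1
        rw [hd, Nat.add_sub_cancel_left]
        have h5 := Nat.mul_le_mul_left (finrank k B) hd2
        have h6 : finrank k B * (finrank k B + 2 * finrank k (LinearMap.ker r) +
            finrank k (Module.End B (LinearMap.ker r))) =
            finrank k B ^ 2 + 2 * (finrank k B * finrank k (LinearMap.ker r)) +
            finrank k B * finrank k (Module.End B (LinearMap.ker r)) := by ring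
        rw [h6, hd] at h5
        have h7 : (finrank k B + finrank k (LinearMap.ker r)) ^ 2 = finrank k B ^ 2 +
            2 * (finrank k B * finrank k (LinearMap.ker r)) + finrank k (LinearMap.ker r) ^ 2 := by
          ring
        rw [h7]
        omega
      rw [hd1]
      refine ⟨(Nat.le_add_right _ _).trans key, fun heq => ?_⟩
      have h8 : finrank k (LinearMap.ker r) ^ 2 =
          finrank k B * finrank k (Module.End B (LinearMap.ker r)) := by omega
      have hfree := i2 h8
      exact Module.Free.of_equiv e.symm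

theorem tight_reduce (k B : Type) [Field k] [CommRing B] [IsLocalRing B] [Algebra k B]
    [Module.Finite k B] (hres : Function.Surjective (algebraMap k (ResidueField B)))
    (hG : InfIrred (⊥ : Ideal B))
    (hB : ∀ (N : Type) [AddCommGroup N] [Module k N] [Module B N] [IsScalarTower k B N]
      [Module.Finite k N] [Nontrivial N],
      (∀ z : B, (∀ b ∈ maximalIdeal B, b * z = 0) → ∀ v : N, z • v = 0) →
      (∀ v : N, (∀ b ∈ maximalIdeal B, b • v = 0) → v ∈ (maximalIdeal B • ⊤ : Submodule B N)) →
      (finrank k N) ^ 2 < finrank k B * finrank k (Module.End B N)) :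
    Tight k B := by
  obtain ⟨s, hs0, hsm, hs⟩ := TightRed_socle k hG
  obtain ⟨f, hf⟩ : ∃ f : Module.Dual k B, f s ≠ 0 := by
    by_contra hcon
    refine hs0 ((Module.forall_dual_apply_eq_zero_iff k s).1 fun f => ?_)
    by_contra hf
    exact hcon ⟨f, hf⟩
  intro N _ _ _ _ _
  exact TightRed_ind k B hres s hs0 hsm hs ((f s)⁻¹ • f)
    (by rw [LinearMap.smul_apply, smul_eq_mul, inv_mul_cancel₀ hf]) hB _ N rfl

end Pool.Agent.HWC
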