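import Pool.Agent.HWC.StarIneq
import Pool.Agent.HWC.TightRed

/-!
# HWC: star algebras are tight (helper69)

By tight_reduce let N be nonzero, killed by the socle, and soc N inside mN.  Y_i = multiplication by y_i on N:
Y_i Y_j = 0 (i, j distinct) and Y_i^(s_i + 2) = 0 because y_i y_j and y_i^(s_i+2) are killed by m.  starU Y = mN (m is generated
by the y_i as an ideal), starS Y = {v : m v = 0}.  End_B(N) = starC Y: an operator commuting with all y_i commutes with
B, because the set of b it commutes with is a k-subalgebra B0 containing the y_i and B = B0 + m^j for all j (B = k + sum y_i B,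
substitute repeatedly), m nilpotent.  star_ineq gives dim N^2 < (2 + sum (s_i + 1)) dim End_B(N) <= dim B dim End_B(N).
-/

set_option autoImplicit false

namespace Pool.Agent.HWC

open IsLocalRing Module

/-- a subalgebra which contains generators of the maximal ideal is everything -/
theorem TightStar_alg (k B : Type) [Field k] [CommRing B] [IsLocalRing B] [Algebra k B]
    [Module.Finite k B] (hres : Function.Surjective (algebraMap k (ResidueField B)))
    (m : ℕ) (y : Fin m → B) (hgen : Ideal.span (Set.range y) = maximalIdeal B)
    (C : Subalgebra k B) (hC : ∀ i, y i ∈ C) (b : B) : b ∈ C := by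
  have key : ∀ j : ℕ, ∀ b : B, ∃ c ∈ C, b - c ∈ (maximalIdeal B) ^ j := by
    intro j
    induction j with
    | zero => exact fun b => ⟨0, C.zero_mem, by simp⟩
    | succ j ih =>
      have h1 : ∀ x ∈ Ideal.span (Set.range y), ∃ c ∈ C, c ∈ maximalIdeal B ∧
          x - c ∈ (maximalIdeal B) ^ (j + 1) := by
        intro x hx
        induction hx using Submodule.span_induction with
        | mem x hx =>
          obtain ⟨i, rfl⟩ := hx
          refine ⟨y i, hC i, ?_, by rw [sub_self]; exact Ideal.zero_mem _⟩
          rw [← hgen]
          exact Ideal.subset_span ⟨i, rfl⟩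
        | zero => exact ⟨0, C.zero_mem, Ideal.zero_mem _, by rw [sub_self]; exact Ideal.zero_mem _⟩
        | add x x' _ _ hx hx' =>
          obtain ⟨c, h1, h2, h3⟩ := hx
          obtain ⟨c', h1', h2', h3'⟩ := hx'
          refine ⟨c + c', C.add_mem h1 h1', Ideal.add_mem _ h2 h2', ?_⟩
          have e : x + x' - (c + c') = (x - c) + (x' - c') := by ring
          rw [e]
          exact Ideal.add_mem _ h3 h3'
        | smul a x _ hx =>
          obtain ⟨c, h1, h2, h3⟩ := hx
          obtain ⟨c1, h4, h5⟩ := ih a
          refine ⟨c1 * c, C.mul_mem h4 h1, Ideal.mul_mem_left _ _ h2, ?_⟩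
          have e : a • x - c1 * c = a * (x - c) + (a - c1) * c := by
            rw [smul_eq_mul]
            ring
          rw [e]
          refine Ideal.add_mem _ (Ideal.mul_mem_left _ _ h3) ?_
          rw [pow_succ]
          exact Ideal.mul_mem_mul h5 h2
      intro b
      obtain ⟨t, ht⟩ := TightShort_res hres b
      rw [← hgen] at ht
      obtain ⟨c, h2, _, h3⟩ := h1 _ ht
      refine ⟨algebraMap k B t + c, C.add_mem (C.algebraMap_mem t) h2, ?_⟩
      have e : b - (algebraMap k B t + c) = b - algebraMap k B t - c := by ring
      rw [e]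
      exact h3
  obtain ⟨n, hn⟩ := TightRed_nil k (B := B)
  obtain ⟨c, hc, h1⟩ := key n b
  rw [hn] at h1
  rw [sub_eq_zero.1 ((Submodule.mem_bot B).1 h1)]
  exact hc

/-- `star` algebras are tight: Gorenstein, residue field `k`, the maximal ideal generated by `y i` with
`y i * y j` (`i ≠ j`) and `y i ^ (s i + 2)` in the socle, dimension at least `2 + ∑ (s i + 1)`. -/
theorem tight_star (k B : Type) [Field k] [CommRing B] [IsLocalRing B] [Algebra k B]
    [Module.Finite k B] (hres : Function.Surjective (algebraMap k (ResidueField B)))
    (hG : InfIrred (⊥ : Ideal B)) (m : ℕ) (y : Fin m → B) (s : Fin m → ℕ)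
    (hgen : Ideal.span (Set.range y) = maximalIdeal B)
    (hyy : ∀ i j, i ≠ j → ∀ b ∈ maximalIdeal B, b * (y i * y j) = 0)
    (hs : ∀ i, ∀ b ∈ maximalIdeal B, b * y i ^ (s i + 2) = 0)
    (hdim : 2 + ∑ i, (s i + 1) ≤ finrank k B) : Tight k B := by
  refine tight_reduce k B hres hG ?_
  intro N _ _ _ _ _ _ hz hsoc
  let Y : Fin m → Module.End k N := fun i => Algebra.lsmul k k N (y i)
  have hY : ∀ i v, Y i v = y i • v := fun i v => rfl
  have hYY : ∀ i j, i ≠ j → Y i * Y j = 0 := by
    intro i j hij
    ext v
    change y i • y j • v = 0
    rw [← mul_smul]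
    exact hz _ (hyy i j hij) v
  have hYs : ∀ i, Y i ^ (s i + 2) = 0 := by
    intro i
    have h1 : Y i ^ (s i + 2) = Algebra.lsmul k k N (y i ^ (s i + 2)) :=
      (map_pow (Algebra.lsmul k k N) (y i) (s i + 2)).symm
    rw [h1]
    ext v
    exact hz _ (hs i) v
  have hU : ∀ b ∈ Ideal.span (Set.range y), ∀ v : N, b • v ∈ starU Y := by
    intro b hb
    induction hb using Submodule.span_induction with
    | mem x hx =>
      obtain ⟨i, rfl⟩ := hx
      intro v
      exact (le_iSup (fun i => LinearMap.range (Y i)) i) ⟨v, rfl⟩
    | zero => intro v; rw [zero_smul]; exact Submodule.zero_mem _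
    | add a b _ _ ha hb => intro v; rw [add_smul]; exact Submodule.add_mem _ (ha v) (hb v)
    | smul a b _ hb =>
      intro v
      rw [smul_eq_mul, mul_comm, mul_smul]
      exact hb (a • v)
  have hS : starS Y ≤ starU Y := by
    intro v hv
    have h1 : ∀ i, y i • v = 0 := by
      intro i
      have h2 : v ∈ LinearMap.ker (Y i) := (Submodule.mem_iInf _).1 hv i
      exact h2
    have h2 : ∀ b ∈ Ideal.span (Set.range y), b • v = 0 := by
      intro b hb
      induction hb using Submodule.span_induction with
      | mem x hx =>
        obtain ⟨i, rfl⟩ := hx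
        exact h1 i
      | zero => rw [zero_smul]
      | add a b _ _ ha hb => rw [add_smul, ha, hb, add_zero]
      | smul a b _ hb => rw [smul_eq_mul, mul_smul, hb, smul_zero]
    rw [hgen] at h2
    have h3 := hsoc v h2
    refine Submodule.smul_induction_on (p := fun w => w ∈ starU Y) h3 ?_ ?_
    · intro b hb n _
      rw [← hgen] at hb
      exact hU b hb n
    · intro a b ha hb
      exact Submodule.add_mem _ ha hb
  have hlt := star_ineq Y hYY s hYs hS
  have hfin := TightShort_finEnd (k := k) (B := B) (N := N)
  have hle : finrank k (starC Y) ≤ finrank k (Module.End B N) := by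
    have hlin : ∀ f : starC Y, ∀ (b : B) (n : N), (f : Module.End k N) (b • n) =
        b • (f : Module.End k N) n := by
      intro f b
      set g : Module.End k N := (f : Module.End k N) with hg
      let C : Subalgebra k B :=
        { carrier := {x | ∀ n, g (x • n) = x • g n}
          mul_mem' := fun {x y} hx hy n => by rw [mul_smul, hx, hy, mul_smul]
          add_mem' := fun {x y} hx hy n => by rw [add_smul, map_add, hx n, hy n, add_smul]
          algebraMap_mem' := fun r n => by rw [algebraMap_smul, algebraMap_smul, map_smul] }
      have hC : ∀ i, y i ∈ C := by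
        intro i n
        have h1 : g ∈ cen (Y i) := (Submodule.mem_iInf _).1 f.2 i
        have h2 : Y i * g - g * Y i = 0 := h1
        have h3 := LinearMap.congr_fun (sub_eq_zero.1 h2) n
        exact h3.symm
      exact TightStar_alg k B hres m y hgen C hC b
    let J : starC Y →ₗ[k] Module.End B N :=
      { toFun := fun f =>
          { toFun := fun n => (f : Module.End k N) n
            map_add' := fun x y => map_add _ x y
            map_smul' := fun b x => hlin f b x }
        map_add' := fun f g => by ext n; rfl
        map_smul' := fun r f => by ext n; rfl }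
    have hJ : Function.Injective J := by
      intro f g h
      exact Subtype.ext (LinearMap.ext fun n => LinearMap.congr_fun h n)
    exact LinearMap.finrank_le_finrank_of_injective hJ
  exact lt_of_lt_of_le hlt (Nat.mul_le_mul hdim hle)

end Pool.Agent.HWC
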