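import Pool.Agent.HWC.TightStar
import Pool.Agent.HWC.TightField
import Pool.Agent.HWC.Main

/-!
# HWC: Gorenstein algebras with principal square of the maximal ideal are tight (helper88)

`tight_stretch`.  If `m^3 = 0` this is `tight_short`.  Otherwise there is `z` in `m` with `z^2` not in `m^3`, and
`m^j = (z^j)` for `j ≥ 2`; let `z^t ≠ 0`, `m^(t+1) = 0`.  Let `A` be the annihilator of `z` in `m`; `m = A + (z)`, an
element of `m^2` killed by `z` is killed by `m`, and `A` meets the span of `1, z, ..., z^t` in `k z^t`.  Take a basis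
of a complement of `k z^t` in `A` and `z` in `tight_star`.
`principal_of_le_five`: an ideal `I` with `dim I ≤ dim mI + 1` is principal; if neither `m` nor `m^2` is of this kind
the dimension is at least 6 (`m^3 ≠ 0`, otherwise `m^2` is in the simple socle).
-/

set_option autoImplicit false

namespace Pool.Agent.HWC

open IsLocalRing Module

theorem TightStretch_nak (k : Type) {B : Type} [Field k] [CommRing B] [IsLocalRing B]
    [Algebra k B] [Module.Finite k B] (I J : Ideal B) (h : I ≤ J ⊔ maximalIdeal B * I) :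
    I ≤ J := by
  obtain ⟨n, hn⟩ := TightRed_nil k (B := B)
  have h1 : ∀ j : ℕ, I ≤ J ⊔ (maximalIdeal B) ^ j * I := by
    intro j
    induction j with
    | zero =>
      rw [pow_zero, Ideal.one_eq_top, Ideal.top_mul]
      exact le_sup_right
    | succ j ih =>
      calc I ≤ J ⊔ maximalIdeal B * I := h
        _ ≤ J ⊔ maximalIdeal B * (J ⊔ (maximalIdeal B) ^ j * I) :=
          sup_le_sup_left (Ideal.mul_mono_right ih) _
        _ ≤ J ⊔ (maximalIdeal B) ^ (j + 1) * I := by
          rw [Ideal.mul_sup, pow_succ', mul_assoc]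
          exact sup_le le_sup_left (sup_le (le_sup_of_le_left Ideal.mul_le_right) le_sup_right)
  have h2 := h1 n
  rwa [hn, Ideal.bot_mul, sup_bot_eq] at h2

theorem TightStretch_pow (k : Type) {B : Type} [Field k] [CommRing B] [IsLocalRing B]
    [Algebra k B] [Module.Finite k B] (j : ℕ)
    (h : (maximalIdeal B) ^ j ≤ (maximalIdeal B) ^ (j + 1)) : (maximalIdeal B) ^ j = ⊥ := by
  refine le_bot_iff.1 (TightStretch_nak k _ ⊥ ?_)
  rw [bot_sup_eq, ← pow_succ']
  exact h

theorem tight_stretch (k B : Type) [Field k] [CommRing B] [IsLocalRing B] [Algebra k B]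
    [Module.Finite k B] (hres : Function.Surjective (algebraMap k (ResidueField B)))
    (hG : InfIrred (⊥ : Ideal B)) (h2 : ∃ w : B, (maximalIdeal B) ^ 2 = Ideal.span {w}) :
    Tight k B := by
  by_cases h3 : (maximalIdeal B) ^ 3 = ⊥
  · exact tight_short k B hres hG h3
  obtain ⟨w, hw⟩ := h2
  have hgen2 : ∀ u ∈ maximalIdeal B ^ 2, u ∉ maximalIdeal B ^ 3 →
      maximalIdeal B ^ 2 = Ideal.span {u} := by
    intro u hu hu3
    rw [hw, Ideal.mem_span_singleton'] at hu
    obtain ⟨c, hc⟩ := hu
    have hcu : IsUnit c := by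
      by_contra hn
      apply hu3
      rw [← hc, pow_succ']
      exact Ideal.mul_mem_mul ((mem_maximalIdeal c).2 hn)
        (by rw [hw]; exact Ideal.mem_span_singleton_self w)
    rw [hw, ← hc]
    exact (Ideal.span_singleton_mul_left_unit hcu w).symm
  have hz : ∃ z ∈ maximalIdeal B, z ^ 2 ∉ maximalIdeal B ^ 3 := by
    by_contra hcon
    push Not at hcon
    have h4 : ¬ maximalIdeal B ^ 2 ≤ maximalIdeal B ^ 3 := by
      intro h
      apply h3
      have h5 := TightStretch_pow k (B := B) 2 h
      rw [pow_succ', h5, Ideal.mul_bot]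
    have h5 : ∃ a ∈ maximalIdeal B, ∃ b ∈ maximalIdeal B, a * b ∉ maximalIdeal B ^ 3 := by
      by_contra hc
      push Not at hc
      apply h4
      rw [sq]
      exact Ideal.mul_le.2 hc
    obtain ⟨a, ha, b, hb, hab⟩ := h5
    have h6 : maximalIdeal B ^ 2 = Ideal.span {a * b} :=
      hgen2 _ (by rw [sq]; exact Ideal.mul_mem_mul ha hb) hab
    apply h3
    apply TightStretch_pow k
    rw [pow_succ' (maximalIdeal B) 2]
    apply Ideal.mul_le.2
    intro c hc v hv
    rw [h6] at hv
    obtain ⟨q, rfl⟩ := Ideal.mem_span_singleton'.1 hv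
    have h7 : c * a ∈ maximalIdeal B ^ 2 := by
      rw [sq]
      exact Ideal.mul_mem_mul hc ha
    rw [h6] at h7
    obtain ⟨r, hr⟩ := Ideal.mem_span_singleton'.1 h7
    have e : c * (q * (a * b)) = q * r * (a * b ^ 2) := by
      calc c * (q * (a * b)) = q * b * (c * a) := by ring
        _ = q * b * (r * (a * b)) := by rw [hr]
        _ = _ := by ring
    rw [e]
    apply Ideal.mul_mem_left
    rw [pow_succ' (maximalIdeal B) 3]
    exact Ideal.mul_mem_mul ha (hcon b hb)
  obtain ⟨z, hzM, hz3⟩ := hz
  have h6 : maximalIdeal B ^ 2 = Ideal.span {z ^ 2} := hgen2 _ (Ideal.pow_mem_pow hzM 2) hz3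
  have hdiv : ∀ x ∈ maximalIdeal B, ∃ b, x * z = b * z ^ 2 := by
    intro x hx
    have h7 : x * z ∈ maximalIdeal B ^ 2 := by
      rw [sq]
      exact Ideal.mul_mem_mul hx hzM
    rw [h6] at h7
    obtain ⟨b, hb⟩ := Ideal.mem_span_singleton'.1 h7
    exact ⟨b, hb.symm⟩
  have hpow : ∀ j : ℕ, maximalIdeal B ^ (j + 2) = Ideal.span {z ^ (j + 2)} := by
    intro j
    induction j with
    | zero => exact h6
    | succ j ih =>
      apply le_antisymm
      · rw [show j + 1 + 2 = (j + 2) + 1 by ring, pow_succ', ih]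
        apply Ideal.mul_le.2
        intro x hx v hv
        obtain ⟨q, rfl⟩ := Ideal.mem_span_singleton'.1 hv
        obtain ⟨b, hb⟩ := hdiv x hx
        rw [Ideal.mem_span_singleton']
        refine ⟨q * b, ?_⟩
        calc q * b * z ^ (j + 2 + 1) = q * z ^ (j + 1) * (b * z ^ 2) := by ring
          _ = q * z ^ (j + 1) * (x * z) := by rw [hb]
          _ = _ := by ring
      · rw [Ideal.span_singleton_le_iff_mem]
        exact Ideal.pow_mem_pow hzM _
  have hkill : ∀ u ∈ maximalIdeal B ^ 2, u * z = 0 → ∀ x ∈ maximalIdeal B, x * u = 0 := by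
    intro u hu huz x hx
    rw [h6] at hu
    obtain ⟨q, rfl⟩ := Ideal.mem_span_singleton'.1 hu
    obtain ⟨b, hb⟩ := hdiv x hx
    calc x * (q * z ^ 2) = q * z * (x * z) := by ring
      _ = q * z * (b * z ^ 2) := by rw [hb]
      _ = b * (q * z ^ 2 * z) := by ring
      _ = 0 := by rw [huz, mul_zero]
  have hex := TightRed_nil k (B := B)
  obtain ⟨t, ht3, htz, htz'⟩ : ∃ t : ℕ, 3 ≤ t ∧ z ^ t ≠ 0 ∧ maximalIdeal B ^ (t + 1) = ⊥ := by
    classical
    have h7 := Nat.find_spec hex
    have h8 : 3 < Nat.find hex := by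
      by_contra hlt
      apply h3
      rw [← le_bot_iff, ← h7]
      exact Ideal.pow_le_pow_right (by omega)
    refine ⟨Nat.find hex - 1, by omega, ?_, by rw [Nat.sub_add_cancel (by omega)]; exact h7⟩
    intro h
    refine Nat.find_min hex (m := Nat.find hex - 1) (by omega) ?_
    obtain ⟨j, hj⟩ : ∃ j, Nat.find hex - 1 = j + 2 := ⟨Nat.find hex - 3, by omega⟩
    rw [hj] at h ⊢
    rw [hpow j, h, Ideal.span_singleton_eq_bot]
  have hzero : ∀ j : ℕ, t < j → z ^ j = 0 := by
    intro j hj
    have h7 : z ^ j ∈ maximalIdeal B ^ (t + 1) :=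
      Ideal.pow_le_pow_right (by omega) (Ideal.pow_mem_pow hzM j)
    rw [htz'] at h7
    exact (Submodule.mem_bot B).1 h7
  have hind : ∀ (n : ℕ) (c : ℕ → k), n ≤ t + 1 →
      ∑ i ∈ Finset.range n, c i • z ^ (i + (t + 1 - n)) = 0 → ∀ i < n, c i = 0 := by
    intro n c hn h0 i
    induction i using Nat.strong_induction_on with
    | _ i ih =>
      intro hi
      have h8 := congrArg (fun v => v * z ^ (n - 1 - i)) h0
      simp only [Finset.sum_mul, zero_mul] at h8
      rw [Finset.sum_eq_single i] at h8
      · rw [smul_mul_assoc, ← pow_add, show i + (t + 1 - n) + (n - 1 - i) = t by omega] at h8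
        exact (smul_eq_zero.1 h8).resolve_right htz
      · intro j hj hji
        rcases lt_or_gt_of_ne hji with h | h
        · rw [ih j h (by omega), zero_smul, zero_mul]
        · rw [smul_mul_assoc, ← pow_add, hzero _ (by omega), smul_zero]
      · intro h
        exact absurd (Finset.mem_range.2 hi) h
  -- the annihilator of `z` in `m`
  let A : Submodule k B :=
    (maximalIdeal B).restrictScalars k ⊓ LinearMap.ker (LinearMap.mulRight k z)
  have hA : ∀ x, x ∈ A ↔ x ∈ maximalIdeal B ∧ x * z = 0 := fun x => Iff.rfl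
  obtain ⟨C, hC⟩ := Submodule.exists_isCompl (Submodule.span k {z ^ t})
  have hztA : z ^ t ∈ A := by
    rw [hA]
    refine ⟨Ideal.pow_mem_of_mem _ hzM t (by omega), ?_⟩
    rw [← pow_succ]
    exact hzero _ (by omega)
  have hsplit : ∀ x ∈ A, ∃ r : k, x - r • z ^ t ∈ A ⊓ C := by
    intro x hx
    have h7 : x ∈ Submodule.span k {z ^ t} ⊔ C := by
      rw [hC.sup_eq_top]
      trivial
    obtain ⟨y1, hy1, y2, hy2, h8⟩ := Submodule.mem_sup.1 h7
    obtain ⟨r, rfl⟩ := Submodule.mem_span_singleton.1 hy1
    refine ⟨r, A.sub_mem hx (A.smul_mem r hztA), ?_⟩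
    rw [← h8, add_sub_cancel_left]
    exact hy2
  let b := Module.finBasis k (A ⊓ C : Submodule k B)
  let P : Submodule k B := Submodule.span k (Set.range (fun i : Fin (t + 1) => z ^ (i : ℕ)))
  have hli : LinearIndependent k (fun i : Fin (t + 1) => z ^ (i : ℕ)) := by
    rw [Fintype.linearIndependent_iff]
    intro g hg i
    have h7 := hind (t + 1) (fun j => if h : j < t + 1 then g ⟨j, h⟩ else 0) le_rfl (by
      rw [Finset.sum_range]
      rw [← hg]
      refine Finset.sum_congr rfl fun j _ => ?_
      rw [dif_pos j.2, Nat.sub_self, add_zero]) i i.2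
    rwa [dif_pos i.2] at h7
  have hP : finrank k P = t + 1 := by
    rw [finrank_span_eq_card hli, Fintype.card_fin]
  have hdisj : Disjoint (A ⊓ C) P := by
    rw [Submodule.disjoint_def]
    intro x hx hxP
    obtain ⟨g, hg⟩ := (Submodule.mem_span_range_iff_exists_fun k).1 hxP
    let c : ℕ → k := fun j => if h : j < t + 1 then g ⟨j, h⟩ else 0
    have h7 : ∑ j ∈ Finset.range (t + 1), c j • z ^ j = x := by
      rw [Finset.sum_range, ← hg]
      refine Finset.sum_congr rfl fun j _ => ?_
      change (if h : (j : ℕ) < t + 1 then g ⟨j, h⟩ else 0) • z ^ (j : ℕ) = _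
      rw [dif_pos j.2]
    have h8 : ∑ j ∈ Finset.range t, c j • z ^ (j + (t + 1 - t)) = 0 := by
      have h9 : x * z = 0 := ((hA x).1 hx.1).2
      rw [← h7, Finset.sum_range_succ, add_mul, smul_mul_assoc, ← pow_succ, hzero (t + 1) (by omega),
        smul_zero, add_zero, Finset.sum_mul] at h9
      rw [← h9]
      refine Finset.sum_congr rfl fun j _ => ?_
      rw [smul_mul_assoc, ← pow_succ, show t + 1 - t = 1 by omega]
    have h9 := hind t c (by omega) h8
    rw [Finset.sum_range_succ, Finset.sum_eq_zero (fun j hj => by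
      rw [h9 j (Finset.mem_range.1 hj), zero_smul]), zero_add] at h7
    have h10 : x ∈ Submodule.span k {z ^ t} ⊓ C :=
      ⟨Submodule.mem_span_singleton.2 ⟨c t, h7⟩, hx.2⟩
    rw [hC.inf_eq_bot] at h10
    exact (Submodule.mem_bot k).1 h10
  have hdimle := Submodule.finrank_add_finrank_le_of_disjoint hdisj
  rw [hP] at hdimle
  have hbM : ∀ i, (b i : B) ∈ maximalIdeal B := fun i => ((hA _).1 (b i).2.1).1
  have hbz : ∀ i, (b i : B) * z = 0 := fun i => ((hA _).1 (b i).2.1).2
  refine tight_star k B hres hG (finrank k (A ⊓ C : Submodule k B) + 1)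
    (Fin.cons z (fun i => (b i : B))) (Fin.cons (t - 2) (fun _ => 0)) ?_ ?_ ?_ ?_
  · apply le_antisymm
    · rw [Ideal.span_le]
      rintro _ ⟨i, rfl⟩
      induction i using Fin.cases with
      | zero => exact hzM
      | succ i => exact hbM i
    · intro x hx
      obtain ⟨q, hq⟩ := hdiv x hx
      have hz1 : z ∈ Ideal.span (Set.range
          (Fin.cons z (fun i => (b i : B)) : Fin (finrank k (A ⊓ C : Submodule k B) + 1) → B)) :=
        Ideal.subset_span ⟨0, rfl⟩
      have h7 : x - q * z ∈ A := by
        rw [hA]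
        refine ⟨Ideal.sub_mem _ hx (Ideal.mul_mem_left _ _ hzM), ?_⟩
        rw [sub_mul, hq]
        ring
      obtain ⟨r, hr⟩ := hsplit _ h7
      have h8 : x - q * z - r • z ^ t ∈ Ideal.span (Set.range
          (Fin.cons z (fun i => (b i : B)) : Fin (finrank k (A ⊓ C : Submodule k B) + 1) → B)) := by
        have h9 := congrArg Subtype.val (b.sum_repr ⟨_, hr⟩)
        rw [Submodule.coe_sum] at h9
        change _ = x - q * z - r • z ^ t at h9
        rw [← h9]
        refine Ideal.sum_mem _ fun i _ => ?_
        rw [Submodule.coe_smul, Algebra.smul_def]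
        exact Ideal.mul_mem_left _ _ (Ideal.subset_span ⟨i.succ, rfl⟩)
      have e : x = (x - q * z - r • z ^ t) + q * z + r • z ^ t := by abel
      rw [e]
      refine Ideal.add_mem _ (Ideal.add_mem _ h8 (Ideal.mul_mem_left _ _ hz1)) ?_
      rw [Algebra.smul_def]
      exact Ideal.mul_mem_left _ _ (Ideal.pow_mem_of_mem _ hz1 t (by omega))
  · intro i j hij x hx
    induction i using Fin.cases with
    | zero =>
      induction j using Fin.cases with
      | zero => exact absurd rfl hij
      | succ j =>
        change x * (z * (b j : B)) = 0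
        rw [mul_comm z, hbz, mul_zero]
    | succ i =>
      induction j using Fin.cases with
      | zero =>
        change x * ((b i : B) * z) = 0
        rw [hbz, mul_zero]
      | succ j =>
        change x * ((b i : B) * (b j : B)) = 0
        refine hkill _ ?_ ?_ x hx
        · rw [sq]
          exact Ideal.mul_mem_mul (hbM i) (hbM j)
        · rw [mul_assoc, hbz, mul_zero]
  · intro i x hx
    induction i using Fin.cases with
    | zero =>
      change x * z ^ (t - 2 + 2) = 0
      rw [Nat.sub_add_cancel (by omega)]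
      have h7 : x * z ^ t ∈ maximalIdeal B ^ (t + 1) := by
        rw [pow_succ']
        exact Ideal.mul_mem_mul hx (Ideal.pow_mem_pow hzM t)
      rw [htz'] at h7
      exact (Submodule.mem_bot B).1 h7
    | succ i =>
      change x * (b i : B) ^ 2 = 0
      refine hkill _ (Ideal.pow_mem_pow (hbM i) 2) ?_ x hx
      rw [sq, mul_assoc, hbz, mul_zero]
  · rw [Fin.sum_univ_succ]
    simp only [Fin.cons_zero, Fin.cons_succ, zero_add, Finset.sum_const, Finset.card_univ,
      Fintype.card_fin, smul_eq_mul, mul_one]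
    omega

/-- an ideal `I` with `dim I ≤ dim mI + 1` is principal -/
theorem TightStretch_principal (k : Type) {B : Type} [Field k] [CommRing B] [IsLocalRing B]
    [Algebra k B] [Module.Finite k B] (I : Ideal B)
    (h : finrank k (I.restrictScalars k) ≤
      finrank k ((maximalIdeal B * I).restrictScalars k) + 1) : ∃ w : B, I = Ideal.span {w} := by
  by_cases h1 : I ≤ maximalIdeal B * I
  · refine ⟨0, ?_⟩
    rw [Ideal.span_singleton_eq_bot.2 rfl]
    exact le_bot_iff.1 (TightStretch_nak k _ ⊥ (by rw [bot_sup_eq]; exact h1))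
  · obtain ⟨w, hw, hw'⟩ := Set.not_subset.1 h1
    refine ⟨w, le_antisymm ?_ ((Ideal.span_singleton_le_iff_mem I).2 hw)⟩
    apply TightStretch_nak k
    have h2 : (maximalIdeal B * I).restrictScalars k <
        Submodule.span k {w} ⊔ (maximalIdeal B * I).restrictScalars k := by
      refine lt_of_le_of_ne le_sup_right fun h3 => hw' ?_
      have h4 : w ∈ Submodule.span k {w} ⊔ (maximalIdeal B * I).restrictScalars k :=
        Submodule.mem_sup_left (Submodule.mem_span_singleton_self w)
      rw [← h3] at h4
      exact h4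
    have h3 : Submodule.span k {w} ⊔ (maximalIdeal B * I).restrictScalars k ≤
        I.restrictScalars k := by
      refine sup_le ?_ ?_
      · rw [Submodule.span_singleton_le_iff_mem]
        exact hw
      · intro x hx
        exact Ideal.mul_le_right hx
    have h4 := Submodule.finrank_lt_finrank_of_lt h2
    have h5 := Submodule.eq_of_le_of_finrank_le h3 (by omega)
    intro x hx
    have h6 : x ∈ Submodule.span k {w} ⊔ (maximalIdeal B * I).restrictScalars k := by
      rw [h5]
      exact hx
    obtain ⟨y1, hy1, y2, hy2, h8⟩ := Submodule.mem_sup.1 h6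
    obtain ⟨r, rfl⟩ := Submodule.mem_span_singleton.1 hy1
    rw [← h8]
    refine Submodule.add_mem_sup ?_ hy2
    rw [Algebra.smul_def]
    exact Ideal.mul_mem_left _ _ (Ideal.mem_span_singleton_self w)

/-- dimension at most 5: the square of the maximal ideal is principal. -/
theorem principal_of_le_five (k B : Type) [Field k] [CommRing B] [IsLocalRing B] [Algebra k B]
    [Module.Finite k B] (hres : Function.Surjective (algebraMap k (ResidueField B)))
    (hG : InfIrred (⊥ : Ideal B)) (h5 : finrank k B ≤ 5) :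
    ∃ w : B, (maximalIdeal B) ^ 2 = Ideal.span {w} := by
  by_contra hcon
  have h1 : finrank k ((maximalIdeal B * maximalIdeal B).restrictScalars k) + 1 <
      finrank k ((maximalIdeal B).restrictScalars k) := by
    by_contra h
    obtain ⟨w, hw⟩ := TightStretch_principal k (maximalIdeal B) (by omega)
    apply hcon
    refine ⟨w ^ 2, ?_⟩
    rw [hw, Ideal.span_singleton_pow]
  have h2 : finrank k ((maximalIdeal B * (maximalIdeal B) ^ 2).restrictScalars k) + 1 <
      finrank k (((maximalIdeal B) ^ 2).restrictScalars k) := by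
    by_contra h
    exact hcon (TightStretch_principal k _ (by omega))
  rw [← sq] at h1
  have h0 : finrank k ((maximalIdeal B).restrictScalars k) < finrank k B := by
    apply Submodule.finrank_lt
    intro h
    have h3 : (1 : B) ∈ (maximalIdeal B).restrictScalars k := by
      rw [h]
      trivial
    exact (Ideal.ne_top_iff_one _).1 (maximalIdeal.isMaximal B).ne_top h3
  have h3 : finrank k ((maximalIdeal B * (maximalIdeal B) ^ 2).restrictScalars k) = 0 := by
    omega
  have h4 : maximalIdeal B * (maximalIdeal B) ^ 2 = ⊥ := by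
    have h6 := Submodule.finrank_eq_zero.1 h3
    rw [eq_bot_iff]
    intro x hx
    have h7 : x ∈ (maximalIdeal B * (maximalIdeal B) ^ 2).restrictScalars k := hx
    rw [h6] at h7
    exact h7
  obtain ⟨s, hs0, hs1, hs⟩ := TightRed_socle k (B := B) hG
  have h6 : ((maximalIdeal B) ^ 2).restrictScalars k ≤ Submodule.span k {s} := by
    intro y hy
    have hkill : ∀ x ∈ maximalIdeal B, x * y = 0 := by
      intro x hx
      have h7 : x * y ∈ maximalIdeal B * (maximalIdeal B) ^ 2 := Ideal.mul_mem_mul hx hy
      rw [h4] at h7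
      exact (Submodule.mem_bot B).1 h7
    by_cases hy0 : y = 0
    · rw [hy0]
      exact Submodule.zero_mem _
    obtain ⟨c, hc⟩ := hs y hy0
    obtain ⟨r, hr⟩ := TightShort_res hres c
    have h7 : r • y = s := by
      have h8 := hkill _ hr
      rw [sub_mul, sub_eq_zero, hc] at h8
      rw [Algebra.smul_def, ← h8]
    have hr0 : r ≠ 0 := by
      rintro rfl
      rw [zero_smul] at h7
      exact hs0 h7.symm
    rw [Submodule.mem_span_singleton]
    refine ⟨r⁻¹, ?_⟩
    rw [← h7, smul_smul, inv_mul_cancel₀ hr0, one_smul]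
  have h7 := Submodule.finrank_mono h6
  have h8 := finrank_span_singleton (K := k) hs0
  omega

end Pool.Agent.HWC
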